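import Mathlib

/-!
# Numbers with few odd prime factors
-/

set_option autoImplicit false

namespace Pool.Agent.W519

open Finset

lemma split_two {m : ℕ} (h4 : ¬ 4 ∣ m) : ∃ c n : ℕ, (c = 1 ∨ c = 2) ∧ c * n = m ∧ Odd n ∧
    n.primeFactors = m.primeFactors.erase 2 := by
  by_cases h2 : 2 ∣ m
  · obtain ⟨n, rfl⟩ := h2
    have hn : Odd n := by
      rw [← Nat.not_even_iff_odd]
      rintro ⟨k, hk⟩
      apply h4
      exact ⟨k, by omega⟩
    refine ⟨2, n, Or.inr rfl, rfl, hn, ?_⟩
    have hn0 : n ≠ 0 := hn.pos.ne'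
    rw [Nat.primeFactors_mul two_ne_zero hn0, Nat.Prime.primeFactors Nat.prime_two,
      erase_union_distrib]
    have h1 : (2 : ℕ) ∉ n.primeFactors := by
      intro h
      have := Nat.dvd_of_mem_primeFactors h
      rw [Nat.odd_iff] at hn; omega
    rw [erase_eq_of_notMem h1]
    simp
  · refine ⟨1, m, Or.inl rfl, one_mul m, ?_, ?_⟩
    · rw [Nat.odd_iff]; omega
    · rw [erase_eq_of_notMem]
      intro h
      exact h2 (Nat.dvd_of_mem_primeFactors h)

lemma eq_one_of_empty {n : ℕ} (hn : n ≠ 0) (h : n.primeFactors = ∅) : n = 1 := by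
  rcases Nat.primeFactors_eq_empty.mp h with h | h
  · exact absurd h hn
  · exact h

lemma eq_pow_of_one {n p : ℕ} (hn : n ≠ 0) (h : n.primeFactors = {p}) :
    p.Prime ∧ ∃ a, 0 < a ∧ n = p ^ a := by
  have hp : p ∈ n.primeFactors := by rw [h]; exact mem_singleton_self p
  refine ⟨Nat.prime_of_mem_primeFactors hp, n.factorization p, ?_, ?_⟩
  · exact (Nat.prime_of_mem_primeFactors hp).factorization_pos_of_dvd hn
      (Nat.dvd_of_mem_primeFactors hp)
  · conv_lhs => rw [← Nat.prod_factorization_pow_eq_self hn]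
    rw [Nat.prod_factorization_eq_prod_primeFactors, h, prod_singleton]

lemma eq_pow_of_two {n p q : ℕ} (hpq : p ≠ q) (hn : n ≠ 0) (h : n.primeFactors = {p, q}) :
    p.Prime ∧ q.Prime ∧ ∃ a b, 0 < a ∧ 0 < b ∧ n = p ^ a * q ^ b := by
  have hp : p ∈ n.primeFactors := by rw [h]; simp
  have hq : q ∈ n.primeFactors := by rw [h]; simp
  refine ⟨Nat.prime_of_mem_primeFactors hp, Nat.prime_of_mem_primeFactors hq,
    n.factorization p, n.factorization q, ?_, ?_, ?_⟩
  · exact (Nat.prime_of_mem_primeFactors hp).factorization_pos_of_dvd hn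
      (Nat.dvd_of_mem_primeFactors hp)
  · exact (Nat.prime_of_mem_primeFactors hq).factorization_pos_of_dvd hn
      (Nat.dvd_of_mem_primeFactors hq)
  · conv_lhs => rw [← Nat.prod_factorization_pow_eq_self hn]
    rw [Nat.prod_factorization_eq_prod_primeFactors, h, prod_pair hpq]

lemma eq_pow_of_three {n p q r : ℕ} (hpq : p ≠ q) (hpr : p ≠ r) (hqr : q ≠ r) (hn : n ≠ 0)
    (h : n.primeFactors = {p, q, r}) :
    p.Prime ∧ q.Prime ∧ r.Prime ∧ ∃ a b d, 0 < a ∧ 0 < b ∧ 0 < d ∧ n = p ^ a * q ^ b * r ^ d := by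
  have hp : p ∈ n.primeFactors := by rw [h]; simp
  have hq : q ∈ n.primeFactors := by rw [h]; simp
  have hr : r ∈ n.primeFactors := by rw [h]; simp
  have key : ∀ l ∈ n.primeFactors, 0 < n.factorization l := fun l hl =>
    (Nat.prime_of_mem_primeFactors hl).factorization_pos_of_dvd hn (Nat.dvd_of_mem_primeFactors hl)
  refine ⟨Nat.prime_of_mem_primeFactors hp, Nat.prime_of_mem_primeFactors hq,
    Nat.prime_of_mem_primeFactors hr, n.factorization p, n.factorization q, n.factorization r,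
    key p hp, key q hq, key r hr, ?_⟩
  conv_lhs => rw [← Nat.prod_factorization_pow_eq_self hn]
  rw [Nat.prod_factorization_eq_prod_primeFactors, h, prod_insert (by simp [hpq, hpr]),
    prod_pair hqr, mul_assoc]

end Pool.Agent.W519
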