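import Mathlib

/-!
# The multiplicative group of a field modulo the elements of odd order
-/

set_option autoImplicit false

namespace Pool.Agent.W519

open Finset

section

variable (k : Type) [Field k]

/-- the elements of odd order -/
def oddT : Subgroup kˣ where
  carrier := {x | ∃ j : ℕ, Odd j ∧ x ^ j = 1}
  mul_mem' := by
    rintro x y ⟨i, hi, hx⟩ ⟨j, hj, hy⟩
    refine ⟨i * j, hi.mul hj, ?_⟩
    rw [mul_pow, pow_mul, hx, one_pow, mul_comm i j, pow_mul, hy, one_pow, one_mul]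
  one_mem' := ⟨1, odd_one, one_pow 1⟩
  inv_mem' := by
    rintro x ⟨i, hi, hx⟩
    exact ⟨i, hi, by rw [inv_pow, hx, inv_one]⟩

/-- the quotient, written additively -/
def QT : Type := Additive (kˣ ⧸ oddT k)

noncomputable instance : AddCommGroup (QT k) :=
  inferInstanceAs (AddCommGroup (Additive (kˣ ⧸ oddT k)))

/-- the class map on units -/
noncomputable def qmk : Additive kˣ →+ QT k := MonoidHom.toAdditive (QuotientGroup.mk' (oddT k))

variable {k}

open Classical in
/-- the class of an element -/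
noncomputable def cl (x : k) : QT k :=
  if h : x = 0 then 0 else qmk k (Additive.ofMul (Units.mk0 x h))

lemma cl_of_ne {x : k} (h : x ≠ 0) : cl x = qmk k (Additive.ofMul (Units.mk0 x h)) := by
  unfold cl; rw [dif_neg h]

lemma qmk_eq_zero {u : kˣ} : qmk k (Additive.ofMul u) = 0 ↔ ∃ j : ℕ, Odd j ∧ u ^ j = 1 := by
  have h : qmk k (Additive.ofMul u) = 0 ↔ (QuotientGroup.mk u : kˣ ⧸ oddT k) = 1 := Iff.rfl
  rw [h, QuotientGroup.eq_one_iff]
  rfl

lemma cl_mul {x y : k} (hx : x ≠ 0) (hy : y ≠ 0) : cl (x * y) = cl x + cl y := by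
  rw [cl_of_ne hx, cl_of_ne hy, cl_of_ne (mul_ne_zero hx hy), Units.mk0_mul x y (mul_ne_zero hx hy),
    ofMul_mul, map_add]

lemma cl_one : cl (1 : k) = 0 := by
  rw [cl_of_ne one_ne_zero, Units.mk0_one, ofMul_one, map_zero]

lemma cl_pow {x : k} (hx : x ≠ 0) (n : ℕ) : cl (x ^ n) = n • cl x := by
  induction n with
  | zero => rw [pow_zero, cl_one, zero_nsmul]
  | succ n ih => rw [pow_succ, cl_mul (pow_ne_zero n hx) hx, ih, succ_nsmul]

lemma cl_prod {α : Type} (s : Finset α) (f : α → k) (hf : ∀ i ∈ s, f i ≠ 0) :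
    cl (∏ i ∈ s, f i) = ∑ i ∈ s, cl (f i) := by
  classical
  induction s using Finset.induction_on with
  | empty => rw [prod_empty, sum_empty, cl_one]
  | insert a s ha ih =>
    rw [prod_insert ha, sum_insert ha, cl_mul (hf a (mem_insert_self a s))
      (prod_ne_zero_iff.mpr fun i hi => hf i (mem_insert_of_mem hi)),
      ih fun i hi => hf i (mem_insert_of_mem hi)]

lemma multiset_prod_ne {α : Type} (s : Multiset α) (f : α → k) (hf : ∀ i ∈ s, f i ≠ 0) :
    (s.map f).prod ≠ 0 := by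
  apply Multiset.prod_ne_zero
  intro h
  obtain ⟨i, hi, h0⟩ := Multiset.mem_map.mp h
  exact hf i hi h0

lemma cl_multiset {α : Type} (s : Multiset α) (f : α → k) (hf : ∀ i ∈ s, f i ≠ 0) :
    cl ((s.map f).prod) = (s.map fun i => cl (f i)).sum := by
  induction s using Multiset.induction_on with
  | empty => rw [Multiset.map_zero, Multiset.prod_zero, cl_one]; rfl
  | cons a s ih =>
    have h1 : ∀ i ∈ s, f i ≠ 0 := fun i hi => hf i (Multiset.mem_cons_of_mem hi)
    rw [Multiset.map_cons, Multiset.prod_cons, Multiset.map_cons, Multiset.sum_cons,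
      cl_mul (hf a (Multiset.mem_cons_self a s)) (multiset_prod_ne s f h1), ih h1]

lemma ne_zero_of_root {x : k} {j : ℕ} (hj : Odd j) (h : x ^ j = 1) : x ≠ 0 := by
  rintro rfl
  rw [zero_pow hj.pos.ne'] at h
  exact zero_ne_one h

lemma cl_root {x : k} {j : ℕ} (hj : Odd j) (h : x ^ j = 1) : cl x = 0 := by
  have hx := ne_zero_of_root hj h
  rw [cl_of_ne hx, qmk_eq_zero]
  exact ⟨j, hj, Units.ext (by simpa using h)⟩

lemma cl_neg_one (h2 : (2 : k) ≠ 0) : cl (-1 : k) ≠ 0 := by
  have hx : (-1 : k) ≠ 0 := neg_ne_zero.mpr one_ne_zero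
  rw [cl_of_ne hx, Ne, qmk_eq_zero]
  rintro ⟨j, hj, h3⟩
  have h4 := congrArg (fun u : kˣ => (u : k)) h3
  simp only [Units.val_pow_eq_pow_val, Units.val_mk0, Units.val_one, hj.neg_one_pow] at h4
  apply h2
  linear_combination -h4

lemma cl_two : (2 : ℕ) • cl (-1 : k) = 0 := by
  rw [← cl_pow (neg_ne_zero.mpr one_ne_zero)]
  norm_num
  exact cl_one

lemma qmk_surj : Function.Surjective (qmk k) := by
  intro t
  obtain ⟨x, hx⟩ := QuotientGroup.mk_surjective (s := oddT k) (Additive.toMul t)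
  exact ⟨Additive.ofMul x, hx⟩

lemma no_odd {t : QT k} {j : ℕ} (hj : Odd j) (h : j • t = 0) : t = 0 := by
  obtain ⟨u, rfl⟩ := qmk_surj t
  rw [← map_nsmul] at h
  have h1 : qmk k (Additive.ofMul (Additive.toMul u ^ j)) = 0 := h
  rw [qmk_eq_zero] at h1
  obtain ⟨i, hi, h2⟩ := h1
  have h3 : qmk k (Additive.ofMul (Additive.toMul u)) = 0 :=
    qmk_eq_zero.mpr ⟨j * i, hj.mul hi, by rw [pow_mul, h2]⟩
  exact h3

end

end Pool.Agent.W519
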