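import Pool.Agent.W519.Recip2

/-!
# A solution of the norm equation
-/

set_option autoImplicit false

namespace Pool.Agent.W519

open NumberTheorySymbols Finset

lemma quot_odd {q : ℕ} [hq : Fact q.Prime] {D X Y Z : ℤ} (h : X ^ 2 - D * Y ^ 2 = q * Z ^ 2)
    (hZ : Z % 2 = 1) : ∃ X Y Z : ℤ, X ^ 2 - D * Y ^ 2 = q * Z ^ 2 ∧ IsCoprime X Y ∧ Z % 2 = 1 := by
  have hq0 : (q : ℤ) ≠ 0 := by exact_mod_cast hq.out.ne_zero
  have hg0 : 0 < Int.gcd X Y := by
    rw [Int.gcd_pos_iff]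
    by_contra h0
    push Not at h0
    rw [h0.1, h0.2] at h
    have h1 : (q : ℤ) * Z ^ 2 = 0 := by rw [← h]; ring
    rcases mul_eq_zero.mp h1 with h2 | h2
    · exact hq0 h2
    · have h3 := pow_eq_zero_iff two_ne_zero |>.mp h2
      rw [h3] at hZ; norm_num at hZ
  obtain ⟨x1, y1, hg, hx, hy⟩ := Int.exists_gcd_one hg0
  set g : ℤ := (Int.gcd X Y : ℤ) with hgd
  have hg0' : g ≠ 0 := by rw [hgd]; exact_mod_cast hg0.ne'
  obtain ⟨z1, h1⟩ := quot_norm hq.out (z := Z) hg0' (n := x1 ^ 2 - D * y1 ^ 2) (by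
    rw [← h, hx, hy]; ring)
  refine ⟨x1, y1, z1, h1, Int.isCoprime_iff_gcd_eq_one.mpr hg, ?_⟩
  have h2 : Z ^ 2 = g ^ 2 * z1 ^ 2 := by
    apply mul_left_cancel₀ hq0
    calc (q : ℤ) * Z ^ 2 = X ^ 2 - D * Y ^ 2 := h.symm
      _ = g ^ 2 * (x1 ^ 2 - D * y1 ^ 2) := by rw [hx, hy]; ring
      _ = _ := by rw [h1]; ring
  by_contra h3
  have h4 : z1 % 2 = 0 := by omega
  obtain ⟨k, hk⟩ := Int.dvd_of_emod_eq_zero h4
  have h5 : (2 : ℤ) ∣ Z ^ 2 := by rw [h2, hk]; exact ⟨g ^ 2 * (2 * k ^ 2), by ring⟩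
  have := Int.prime_two.dvd_of_dvd_pow h5
  omega

lemma fix_parity {q : ℕ} [hq : Fact q.Prime] (hq4 : q % 4 = 1) {D X Y Z : ℤ} (hD4 : D % 4 = 1)
    (h : X ^ 2 - D * Y ^ 2 = q * Z ^ 2) (hZ0 : Z ≠ 0) :
    ∃ X Y Z : ℤ, X ^ 2 - D * Y ^ 2 = q * Z ^ 2 ∧ IsCoprime X Y ∧ Z % 2 = 1 := by
  have hq0 : (q : ℤ) ≠ 0 := by exact_mod_cast hq.out.ne_zero
  have hg0 : 0 < Int.gcd X Y := by
    rw [Int.gcd_pos_iff]
    by_contra h0
    push Not at h0
    rw [h0.1, h0.2] at h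
    have h1 : (q : ℤ) * Z ^ 2 = 0 := by rw [← h]; ring
    rcases mul_eq_zero.mp h1 with h2 | h2
    · exact hq0 h2
    · exact hZ0 (pow_eq_zero_iff two_ne_zero |>.mp h2)
  obtain ⟨x1, y1, hg, hx, hy⟩ := Int.exists_gcd_one hg0
  set g : ℤ := (Int.gcd X Y : ℤ) with hgd
  have hg0' : g ≠ 0 := by rw [hgd]; exact_mod_cast hg0.ne'
  obtain ⟨z1, h1⟩ := quot_norm hq.out (z := Z) hg0' (n := x1 ^ 2 - D * y1 ^ 2) (by
    rw [← h, hx, hy]; ring)
  have hco : IsCoprime x1 y1 := Int.isCoprime_iff_gcd_eq_one.mpr hg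
  rcases Int.emod_two_eq_zero_or_one z1 with hz | hz
  · -- both odd
    have hx1 : x1 % 2 = 1 := by
      by_contra hx2
      have hx0 : x1 % 2 = 0 := by omega
      have hy1 : y1 % 2 = 1 := by
        by_contra hy2
        exact not_dvd_both hco Nat.prime_two (Int.dvd_of_emod_eq_zero hx0)
          (Int.dvd_of_emod_eq_zero (by omega))
      have e1 : (x1 ^ 2) % 2 = 0 := by rw [pow_two, Int.mul_emod, hx0]; rfl
      have e2 : (D * y1 ^ 2) % 2 = 1 := by
        rw [pow_two, Int.mul_emod, Int.mul_emod y1, hy1]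
        rw [show D % 2 = 1 by omega]; rfl
      have e3 : (q * z1 ^ 2 : ℤ) % 2 = 0 := by
        rw [pow_two, Int.mul_emod, Int.mul_emod z1, hz]; simp
      omega
    obtain ⟨t, ht, htodd⟩ : ∃ t : ℤ, (q : ℤ) = 2 * t - 1 ∧ t % 2 = 1 :=
      ⟨((q : ℤ) + 1) / 2, by omega, by omega⟩
    refine quot_odd (X := q * z1 - t * x1) (Y := (1 - t) * y1) (Z := t * z1 - x1) ?_ ?_
    · rw [ht] at h1 ⊢
      linear_combination (t - 1) ^ 2 * h1
    · have : (t * z1) % 2 = 0 := by rw [Int.mul_emod, hz]; simp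
      omega
  · exact ⟨x1, y1, z1, h1, hco, hz⟩

lemma sqrt_int {r : ℕ} [Fact r.Prime] {a : ℤ} (h : J(a | r) = 1) : ∃ d : ℤ, (r : ℤ) ∣ d ^ 2 - a := by
  obtain ⟨s, hs⟩ := ZMod.isSquare_of_jacobiSym_eq_one h
  refine ⟨(s.val : ℤ), ?_⟩
  rw [← ZMod.intCast_zmod_eq_zero_iff_dvd]
  push_cast
  rw [ZMod.natCast_zmod_val, hs]; ring

lemma int_sq_ne_prime {r : ℕ} (hr : r.Prime) (s : ℤ) : s ^ 2 ≠ r := by
  intro h
  have h1 := congrArg Int.natAbs h
  rw [Int.natAbs_pow, Int.natAbs_natCast] at h1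
  exact (Nat.prime_iff.mp hr).irreducible.not_isSquare ⟨s.natAbs, by rw [← h1]; ring⟩

lemma k_gt {P k n : ℤ} (hP : 0 < P) (h : -(n * P) < P * k) : -n < k := by
  by_contra h1
  push Not at h1
  have := mul_le_mul_of_nonneg_left h1 hP.le
  linarith

lemma k_lt {P k n : ℤ} (hP : 0 < P) (h : P * k < n * P) : k < n := by
  by_contra h1
  push Not at h1
  have := mul_le_mul_of_nonneg_left h1 hP.le
  linarith

/-- existence of a nontrivial solution, by the pigeonhole principle -/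
theorem exists_conic {p q : ℕ} [hp : Fact p.Prime] [hq : Fact q.Prime] (hp2 : p ≠ 2)
    (hpq : p ≠ q) (hq4 : q % 4 = 1) {D : ℤ} (hDp : D.natAbs = p) (hD4 : D % 4 = 1)
    (hJ : J((p : ℤ) | q) = 1) :
    ∃ X Y Z : ℤ, X ^ 2 - D * Y ^ 2 = q * Z ^ 2 ∧ IsCoprime X Y ∧ Z % 2 = 1 := by
  classical
  have hq2 : q ≠ 2 := by rintro rfl; norm_num at hq4
  have hpodd : Odd p := hp.out.odd_of_ne_two hp2
  have hqodd : Odd q := hq.out.odd_of_ne_two hq2
  have hpZ : NeZero p := ⟨hp.out.ne_zero⟩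
  have hqZ : NeZero q := ⟨hq.out.ne_zero⟩
  have hDcases : D = p ∨ D = -p := by
    rcases Int.natAbs_eq D with h | h
    · left; rw [h, hDp]
    · right; rw [h, hDp]
  have hJD : J(D | q) = 1 := by
    rcases hDcases with h | h
    · rw [h, hJ]
    · rw [h, jacobiSym.neg _ hqodd, ZMod.χ₄_nat_one_mod_four hq4, hJ, one_mul]
  have hJq : J((q : ℤ) | p) = 1 := by rw [← J_swap hpodd hq4]; exact hJ
  obtain ⟨d, hd⟩ := sqrt_int hJD
  obtain ⟨e, he⟩ := sqrt_int hJq
  -- pigeonhole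
  set a := Nat.sqrt (p * q) with ha
  set b := Nat.sqrt q with hb
  set c := Nat.sqrt p with hc
  let f : ℕ × ℕ × ℕ → ZMod q × ZMod p := fun t =>
    (((t.1 : ℤ) - d * t.2.1 : ℤ), ((t.1 : ℤ) - e * t.2.2 : ℤ))
  set S : Finset (ℕ × ℕ × ℕ) := range (a + 1) ×ˢ (range (b + 1) ×ˢ range (c + 1)) with hS
  have hcard : (univ : Finset (ZMod q × ZMod p)).card < S.card := by
    rw [card_univ, Fintype.card_prod, ZMod.card, ZMod.card, hS, card_product, card_product,
      card_range, card_range, card_range]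
    have h1 : p * q < (a + 1) * (a + 1) := Nat.lt_succ_sqrt (p * q)
    have h2 : q < (b + 1) * (b + 1) := Nat.lt_succ_sqrt q
    have h3 : p < (c + 1) * (c + 1) := Nat.lt_succ_sqrt p
    have h4 : (q * p) * (q * p) < ((a + 1) * ((b + 1) * (c + 1))) * ((a + 1) * ((b + 1) * (c + 1))) := by
      have h5 : (q * p) < ((b + 1) * (c + 1)) * ((b + 1) * (c + 1)) := by
        calc q * p < ((b + 1) * (b + 1)) * ((c + 1) * (c + 1)) :=
              Nat.mul_lt_mul'' h2 h3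
          _ = _ := by ring
      calc (q * p) * (q * p) < ((a + 1) * (a + 1)) * (((b + 1) * (c + 1)) * ((b + 1) * (c + 1))) :=
            Nat.mul_lt_mul'' (by rwa [mul_comm q p]) h5
        _ = _ := by ring
    exact Nat.mul_self_lt_mul_self_iff.mp h4
  obtain ⟨u, hu, v, hv, huv, hfuv⟩ := exists_ne_map_eq_of_card_lt_of_maps_to (f := f) hcard
    (fun t _ => mem_univ _)
  obtain ⟨x1, y1, z1⟩ := u
  obtain ⟨x2, y2, z2⟩ := v
  simp only [hS, mem_product, mem_range] at hu hv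
  simp only [f, Prod.mk.injEq, ZMod.intCast_eq_intCast_iff_dvd_sub] at hfuv
  obtain ⟨hf1, hf2⟩ := hfuv
  set x : ℤ := (x1 : ℤ) - x2 with hx
  set y : ℤ := (y1 : ℤ) - y2 with hy
  set z : ℤ := (z1 : ℤ) - z2 with hz
  have hne : ¬ (x = 0 ∧ y = 0 ∧ z = 0) := by
    rintro ⟨h1, h2, h3⟩
    apply huv
    simp only [Prod.mk.injEq]
    refine ⟨?_, ?_, ?_⟩ <;> omega
  have hq1 : (q : ℤ) ∣ x - d * y := by
    have : x - d * y = -(((x2 : ℤ) - d * y2) - ((x1 : ℤ) - d * y1)) := by rw [hx, hy]; ring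
    rw [this]; exact (dvd_neg).mpr hf1
  have hp1 : (p : ℤ) ∣ x - e * z := by
    have : x - e * z = -(((x2 : ℤ) - e * z2) - ((x1 : ℤ) - e * z1)) := by rw [hx, hz]; ring
    rw [this]; exact (dvd_neg).mpr hf2
  have bound : ∀ (n s : ℕ) (u v : ℕ), s = Nat.sqrt n → u < s + 1 → v < s + 1 →
      ((u : ℤ) - v) ^ 2 ≤ n := by
    intro n s u v hs hu hv
    have h1 : |(u : ℤ) - v| ≤ s := by rw [abs_le]; omega
    have h2 : ((u : ℤ) - v) ^ 2 ≤ (s : ℤ) ^ 2 := sq_le_sq' (by rw [abs_le] at h1; linarith [h1.1])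
      (by rw [abs_le] at h1; exact h1.2)
    have h3 : (s : ℤ) ^ 2 ≤ n := by
      rw [hs]
      have := Nat.sqrt_le' n
      exact_mod_cast this
    exact h2.trans h3
  have hx2 : x ^ 2 ≤ p * q := by
    have := bound (p * q) a x1 x2 ha hu.1 hv.1
    push_cast at this; exact this
  have hy2 : y ^ 2 < q := lt_of_le_of_ne (bound q b y1 y2 hb hu.2.1 hv.2.1) (int_sq_ne_prime hq.out y)
  have hz2 : z ^ 2 < p := lt_of_le_of_ne (bound p c z1 z2 hc hu.2.2 hv.2.2) (int_sq_ne_prime hp.out z)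
  have hp0 : (0 : ℤ) < p := by exact_mod_cast hp.out.pos
  have hq0 : (0 : ℤ) < q := by exact_mod_cast hq.out.pos
  -- divisibility
  set N := x ^ 2 - D * y ^ 2 - q * z ^ 2 with hN
  have hqN : (q : ℤ) ∣ N := by
    have : N = (x - d * y) * (x + d * y) + (d ^ 2 - D) * y ^ 2 - q * z ^ 2 := by rw [hN]; ring
    rw [this]
    exact dvd_sub (dvd_add (Dvd.dvd.mul_right hq1 _) (Dvd.dvd.mul_right hd _)) (dvd_mul_right _ _)
  have hpD : (p : ℤ) ∣ D := by rw [← hDp]; exact Int.natAbs_dvd.mpr dvd_rfl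
  have hpN : (p : ℤ) ∣ N := by
    have : N = (x - e * z) * (x + e * z) + (e ^ 2 - q) * z ^ 2 - D * y ^ 2 := by rw [hN]; ring
    rw [this]
    exact dvd_sub (dvd_add (Dvd.dvd.mul_right hp1 _) (Dvd.dvd.mul_right he _))
      (Dvd.dvd.mul_right hpD _)
  have hcop : IsCoprime (p : ℤ) (q : ℤ) :=
    Nat.isCoprime_iff_coprime.mpr ((Nat.coprime_primes hp.out hq.out).mpr hpq)
  obtain ⟨k, hk⟩ := hcop.mul_dvd hpN hqN
  have hpq0 : (0 : ℤ) < p * q := mul_pos hp0 hq0
  have hNcase : N = 0 ∨ N = -(D * q) := by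
    rcases hDcases with h | h
    · have h1 : N < p * q ∨ N = p * q := by
        have e4 : 0 ≤ (p : ℤ) * y ^ 2 := mul_nonneg hp0.le (sq_nonneg y)
        have e5 : 0 ≤ (q : ℤ) * z ^ 2 := mul_nonneg hq0.le (sq_nonneg z)
        have : N ≤ p * q := by rw [hN, h]; linarith
        exact lt_or_eq_of_le this
      have h2 : -(2 * (p * q)) < N := by
        have e4 := mul_lt_mul_of_pos_left hy2 hp0
        have e5 := mul_lt_mul_of_pos_left hz2 hq0
        have e6 := sq_nonneg x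
        rw [hN, h]; linarith
      rw [hk] at h1 h2
      rw [hk]
      have h3 : -2 < k := k_gt hpq0 h2
      have h4 : k < 2 := k_lt hpq0 (by rcases h1 with h1 | h1 <;> linarith)
      have h5 : k ≠ 1 := by
        rintro rfl
        have e1 : N = p * q := by rw [hk, mul_one]
        have e3 : x ^ 2 = p * q := by
          rw [hN, h] at e1
          have e4 : 0 ≤ (p : ℤ) * y ^ 2 := mul_nonneg hp0.le (sq_nonneg y)
          have e5 : 0 ≤ (q : ℤ) * z ^ 2 := mul_nonneg hq0.le (sq_nonneg z)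
          linarith
        -- `p * q` is not a square
        have hpp : Prime (p : ℤ) := Nat.prime_iff_prime_int.mp hp.out
        obtain ⟨x', hx'⟩ := hpp.dvd_of_dvd_pow (n := 2) (a := x) ⟨q, e3⟩
        have e4 : (p : ℤ) * x' ^ 2 = q := by
          apply mul_left_cancel₀ hp0.ne'
          rw [← e3, hx']; ring
        have e5 : p ∣ q := by exact_mod_cast (Dvd.intro _ e4 : (p : ℤ) ∣ q)
        exact hpq ((Nat.prime_dvd_prime_iff_eq hp.out hq.out).mp e5)
      have h6 : k = 0 ∨ k = -1 := by omega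
      rcases h6 with rfl | rfl
      · left; ring
      · right; rw [h]; ring
    · have h1 : N < 2 * (p * q) := by
        have e4 := mul_lt_mul_of_pos_left hy2 hp0
        have e5 : 0 ≤ (q : ℤ) * z ^ 2 := mul_nonneg hq0.le (sq_nonneg z)
        rw [hN, h]; linarith
      have h2 : -(p * q) < N := by
        have e4 := mul_lt_mul_of_pos_left hz2 hq0
        have e5 := mul_nonneg hp0.le (sq_nonneg y)
        have e6 := sq_nonneg x
        rw [hN, h]; linarith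
      rw [hk] at h1 h2
      rw [hk]
      have h3 : -1 < k := k_gt hpq0 (by linarith)
      have h4 : k < 2 := k_lt hpq0 h1
      have h6 : k = 0 ∨ k = 1 := by omega
      rcases h6 with rfl | rfl
      · left; ring
      · right; rw [h]; ring
  have hDsq : ∀ s : ℤ, s ^ 2 ≠ D := by
    intro s hs
    rcases hDcases with h | h
    · exact int_sq_ne_prime hp.out s (hs.trans h)
    · rw [h] at hs
      have := sq_nonneg s
      linarith
  rcases hNcase with h | h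
  · refine fix_parity hq4 hD4 (X := x) (Y := y) (Z := z) (by rw [hN] at h; linarith) ?_
    intro hz0
    rw [hz0] at hN
    have h5 : x ^ 2 = D * y ^ 2 := by rw [h] at hN; linarith
    by_cases hy0 : y = 0
    · rw [hy0] at h5
      have : x = 0 := by
        have : x ^ 2 = 0 := by rw [h5]; ring
        exact pow_eq_zero_iff two_ne_zero |>.mp this
      exact hne ⟨this, hy0, hz0⟩
    · have h6 : y ^ 2 ∣ x ^ 2 := ⟨D, by rw [h5]; ring⟩
      obtain ⟨s, hs⟩ := (Int.pow_dvd_pow_iff two_ne_zero).mp h6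
      apply hDsq s
      apply mul_left_cancel₀ (pow_ne_zero 2 hy0)
      rw [← mul_pow, ← hs, h5]; ring
  · refine fix_parity hq4 hD4 (X := x * z + D * y) (Y := x + y * z) (Z := z ^ 2 - D) ?_ ?_
    · have h5 : x ^ 2 - D * y ^ 2 = q * (z ^ 2 - D) := by rw [hN] at h; linarith
      linear_combination (z ^ 2 - D) * h5
    · intro h5
      exact hDsq z (by linarith)

end Pool.Agent.W519
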