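import Mathlib

/-!
# The ring generated by the roots of unity of prime order
-/

set_option autoImplicit false

namespace Pool.Agent.W519

open Finset

/-- The ring generated by a root of unity of order `p`, with its automorphisms. -/
structure Cyc (p : ℕ) (O : Type) [CommRing O] where
  /-- the root of unity -/
  z : O
  prim : IsPrimitiveRoot z p
  /-- the automorphisms -/
  s : (ZMod p)ˣ →* (O ≃+* O)
  hs : ∀ t, s t z = z ^ (t : ZMod p).val
  ext : ∀ {R : Type} [CommRing R] (f g : O →+* R), f z = g z → f = g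
  fixed : ∀ x : O, (∀ t, s t x = x) → ∃ n : ℤ, x = (n : O)

lemma Cyc.mul_apply {n : ℕ} {O : Type} [CommRing O] (C : Cyc n O) (t u : (ZMod n)ˣ) (x : O) :
    C.s (t * u) x = C.s t (C.s u x) := by
  rw [map_mul]; rfl

section

variable {p : ℕ} [hp : Fact p.Prime] {O : Type} [CommRing O] (C : Cyc p O)

lemma Cyc.z_pow {a b : ℕ} (h : (a : ZMod p) = b) : C.z ^ a = C.z ^ b := by
  rw [ZMod.natCast_eq_natCast_iff] at h
  exact pow_eq_pow_of_modEq h C.prim.pow_eq_one

/-- Frobenius -/
lemma Cyc.frob {k : Type} [CommRing k] {q : ℕ} [Fact q.Prime] [CharP k q] (f : O →+* k)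
    {t : (ZMod p)ˣ} (ht : (t : ZMod p) = q) (x : O) : f (C.s t x) = f x ^ q := by
  have h1 : f.comp (C.s t : O →+* O) = (frobenius k q).comp f := by
    apply C.ext
    simp only [RingHom.comp_apply, RingEquiv.coe_toRingHom, frobenius_def]
    rw [C.hs, ← map_pow]
    congr 1
    apply C.z_pow
    rw [ZMod.natCast_zmod_val, ht]
  exact RingHom.congr_fun h1 x

include C in
/-- the ring is reduced modulo the primes different from `p` -/
lemma Cyc.dvd_of_sq {r : ℕ} (hr : r.Prime) (hrp : r ≠ p) {x : O} (h : (r : O) ∣ x ^ 2) :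
    (r : O) ∣ x := by
  have : Fact r.Prime := ⟨hr⟩
  by_cases hu : IsUnit (r : O)
  · exact hu.dvd
  have hchar : CharP (O ⧸ Ideal.span {(r : O)}) r := by
    have hnt : Nontrivial (O ⧸ Ideal.span {(r : O)}) := by
      rw [Ideal.Quotient.nontrivial_iff]
      intro h1
      exact hu (Ideal.span_singleton_eq_top.mp h1)
    have h0 : ((r : ℕ) : O ⧸ Ideal.span {(r : O)}) = 0 := by
      have : ((r : ℕ) : O ⧸ Ideal.span {(r : O)}) = Ideal.Quotient.mk _ (r : O) := by simp
      rw [this, Ideal.Quotient.eq_zero_iff_mem]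
      exact Ideal.mem_span_singleton_self _
    exact (CharP.charP_iff_prime_eq_zero hr).mpr h0
  set f := Ideal.Quotient.mk (Ideal.span {(r : O)}) with hf
  have hcop : r.Coprime p := (Nat.coprime_primes hr hp.out).mpr hrp
  set t := ZMod.unitOfCoprime r hcop with ht
  have h1 := C.frob f (t := t) (q := r) (ZMod.coe_unitOfCoprime r hcop) x
  have h2 : f x ^ r = 0 := by
    have h3 : f x ^ 2 = 0 := by
      rw [← map_pow, hf, Ideal.Quotient.eq_zero_iff_mem, Ideal.mem_span_singleton]
      exact h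
    have h4 : 2 ≤ r := hr.two_le
    calc f x ^ r = f x ^ (2 + (r - 2)) := by congr 1; omega
      _ = f x ^ 2 * f x ^ (r - 2) := pow_add _ _ _
      _ = 0 := by rw [h3, zero_mul]
  rw [h2, hf, Ideal.Quotient.eq_zero_iff_mem, Ideal.mem_span_singleton] at h1
  obtain ⟨y, hy⟩ := h1
  refine ⟨(C.s t).symm y, ?_⟩
  apply (C.s t).injective
  rw [hy, map_mul, map_natCast, RingEquiv.apply_symm_apply]

variable [IsDomain O] [CharZero O]

include C in
lemma Cyc.int_dvd {a b : ℤ} (h : (a : O) ∣ (b : O)) : a ∣ b := by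
  by_cases ha : a = 0
  · subst ha
    rw [Int.cast_zero, zero_dvd_iff] at h
    have : b = 0 := by exact_mod_cast h
    rw [this]
  · obtain ⟨y, hy⟩ := h
    have ha' : (a : O) ≠ 0 := by exact_mod_cast ha
    obtain ⟨n, hn⟩ := C.fixed y (fun t => by
      apply mul_left_cancel₀ ha'
      rw [← hy]
      have := congrArg (C.s t) hy
      rw [map_mul, map_intCast, map_intCast] at this
      exact this.symm)
    refine ⟨n, ?_⟩
    rw [hn] at hy
    exact_mod_cast hy

include C in
/-- the parity of the exponent of a prime in a square -/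
lemma Cyc.even_of_sq {r : ℕ} (hr : r.Prime) (hrp : r ≠ p) :
    ∀ (j : ℕ) (v w : O), (r : O) ^ j * w = v ^ 2 → ¬ (r : O) ∣ w → Even j := by
  have hr0 : (r : O) ≠ 0 := by exact_mod_cast hr.ne_zero
  intro j
  induction j using Nat.strong_induction_on with
  | _ j ih =>
    intro v w h hw
    rcases Nat.eq_zero_or_pos j with hj | hj
    · rw [hj]; exact Even.zero
    · have h1 : (r : O) ∣ v ^ 2 := by
        rw [← h]
        exact Dvd.dvd.mul_right (dvd_pow_self _ hj.ne') _
      obtain ⟨v', hv'⟩ := C.dvd_of_sq hr hrp h1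
      rcases Nat.lt_or_ge j 2 with hj2 | hj2
      · exfalso
        have hj1 : j = 1 := by omega
        apply hw
        refine ⟨v' ^ 2, ?_⟩
        apply mul_left_cancel₀ hr0
        rw [hj1, pow_one] at h
        rw [h, hv']; ring
      · have h2 : (r : O) ^ (j - 2) * w = v' ^ 2 := by
          apply mul_left_cancel₀ (pow_ne_zero 2 hr0)
          have h3 : (r : O) ^ 2 * ((r : O) ^ (j - 2) * w) = (r : O) ^ (2 + (j - 2)) * w := by
            rw [pow_add]; ring
          rw [h3, show 2 + (j - 2) = j by omega, h, hv']; ring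
        have h4 := ih (j - 2) (by omega) v' w h2 hw
        obtain ⟨i, hi⟩ := h4
        exact ⟨i + 1, by omega⟩

/-- the quadratic character with values in the ring -/
noncomputable def qc (p : ℕ) [Fact p.Prime] (O : Type) [CommRing O] : MulChar (ZMod p) O :=
  (quadraticChar (ZMod p)).ringHomComp (Int.castRingHom O)

/-- the additive character -/
noncomputable def Cyc.psi (C : Cyc p O) : AddChar (ZMod p) O :=
  AddChar.zmodChar p C.prim.pow_eq_one

/-- the square root of `± p` -/
noncomputable def Cyc.delta (C : Cyc p O) : O := gaussSum (qc p O) C.psi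

/-- `± p`, congruent to one modulo four -/
def pstar (p : ℕ) : ℤ := if p % 4 = 1 then p else -p

lemma pstar_natAbs (p : ℕ) : (pstar p).natAbs = p := by
  unfold pstar; split_ifs <;> simp

lemma pstar_mod (hp2 : p ≠ 2) : pstar p % 4 = 1 := by
  have := hp.out.eq_two_or_odd.resolve_left hp2
  unfold pstar; split_ifs with h <;> omega

lemma ringChar_ne (hp2 : p ≠ 2) : ringChar (ZMod p) ≠ 2 := by
  rw [ZMod.ringChar_zmod_n]; exact hp2

omit [IsDomain O] [CharZero O] in
lemma qc_apply (x : ZMod p) : qc p O x = ((quadraticChar (ZMod p) x : ℤ) : O) := by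
  unfold qc
  rw [MulChar.ringHomComp_apply]; rfl

lemma Cyc.delta_sq (hp2 : p ≠ 2) : C.delta ^ 2 = (pstar p : O) := by
  have h1 : qc p O ≠ 1 := by
    obtain ⟨a, ha⟩ := quadraticChar_exists_neg_one' (ringChar_ne hp2)
    intro h
    have h2 := qc_apply (O := O) (a : ZMod p)
    rw [h, ha, MulChar.one_apply_coe] at h2
    have h3 : (2 : O) = 0 := by
      push_cast at h2
      linear_combination h2
    exact two_ne_zero h3
  have h2 : (qc p O).IsQuadratic := (quadraticChar_isQuadratic (ZMod p)).comp _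
  have h3 : C.psi.IsPrimitive := AddChar.zmodChar_primitive_of_primitive_root p C.prim
  unfold Cyc.delta
  rw [gaussSum_sq h1 h2 h3, qc_apply, ZMod.card]
  have h4 : quadraticChar (ZMod p) (-1) = if p % 4 = 1 then 1 else -1 := by
    have h5 : quadraticChar (ZMod p) (-1) = legendreSym p (-1) := by
      unfold legendreSym; push_cast; rfl
    rw [h5, legendreSym.at_neg_one hp2]
    have h6 := hp.out.eq_two_or_odd.resolve_left hp2
    split_ifs with h7
    · exact ZMod.χ₄_nat_one_mod_four h7
    · exact ZMod.χ₄_nat_three_mod_four (by omega)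
  rw [h4]
  unfold pstar
  split_ifs <;> push_cast <;> ring

lemma Cyc.s_delta (t : (ZMod p)ˣ) :
    C.s t C.delta = ((quadraticChar (ZMod p) (t : ZMod p) : ℤ) : O) * C.delta := by
  have h1 : C.s t C.delta = gaussSum (qc p O) (C.psi.mulShift t) := by
    unfold Cyc.delta gaussSum
    rw [map_sum]
    refine sum_congr rfl fun x _ => ?_
    rw [map_mul, qc_apply, map_intCast]
    congr 1
    rw [AddChar.mulShift_apply]
    unfold Cyc.psi
    rw [AddChar.zmodChar_apply, AddChar.zmodChar_apply, map_pow, C.hs, ← pow_mul]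
    apply C.z_pow
    push_cast
    rw [ZMod.natCast_zmod_val, ZMod.natCast_zmod_val, ZMod.natCast_zmod_val]
  have h2 := gaussSum_mulShift (qc p O) C.psi t
  rw [h1]
  unfold Cyc.delta
  rw [← h2, ← mul_assoc, qc_apply, ← Int.cast_mul]
  have h3 : quadraticChar (ZMod p) (t : ZMod p) * quadraticChar (ZMod p) (t : ZMod p) = 1 := by
    rw [← sq]
    exact quadraticChar_sq_one t.ne_zero
  rw [h3, Int.cast_one, one_mul]

/-- elements fixed by the squares -/
theorem Cyc.descent (hp2 : p ≠ 2) {x : O} (h : ∀ t : (ZMod p)ˣ, IsSquare t → C.s t x = x) :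
    ∃ A B : ℤ, 2 * x = (A : O) + (B : O) * C.delta ∧
      ∀ t : (ZMod p)ˣ, ¬ IsSquare t → 2 * C.s t x = (A : O) - (B : O) * C.delta := by
  obtain ⟨r, hr⟩ := quadraticChar_exists_neg_one' (ringChar_ne hp2)
  have hsq : ∀ t : (ZMod p)ˣ, IsSquare t → quadraticChar (ZMod p) (t : ZMod p) = 1 := by
    rintro t ⟨u, rfl⟩
    rw [Units.val_mul, map_mul, ← sq]
    exact quadraticChar_sq_one u.ne_zero
  have hnsq : ∀ t : (ZMod p)ˣ, ¬ IsSquare t → quadraticChar (ZMod p) (t : ZMod p) = -1 := by
    intro t ht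
    rcases quadraticChar_dichotomy t.ne_zero with h1 | h1
    · exfalso; apply ht
      obtain ⟨u, hu⟩ := (quadraticChar_one_iff_isSquare t.ne_zero).mp h1
      have hu0 : u ≠ 0 := by rintro rfl; exact t.ne_zero (by rw [hu, mul_zero])
      exact ⟨Units.mk0 u hu0, Units.ext hu⟩
    · exact h1
  have hrn : ¬ IsSquare r := fun h1 => by rw [hsq r h1] at hr; norm_num at hr
  have hmul : ∀ t : (ZMod p)ˣ, ¬ IsSquare t → IsSquare (t * r⁻¹) ∧ IsSquare (t * r) := by
    intro t ht
    have h1 : ∀ w : (ZMod p)ˣ, quadraticChar (ZMod p) (w : ZMod p) = 1 → IsSquare w := by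
      intro w hw
      by_contra h2
      rw [hnsq w h2] at hw; norm_num at hw
    have hrinv : quadraticChar (ZMod p) ((r⁻¹ : (ZMod p)ˣ) : ZMod p) = -1 := by
      apply hnsq
      rintro ⟨u, hu⟩
      apply hrn
      exact ⟨u⁻¹, by rw [← mul_inv, ← hu, inv_inv]⟩
    constructor
    · apply h1; rw [Units.val_mul, map_mul, hnsq t ht, hrinv]; norm_num
    · apply h1; rw [Units.val_mul, map_mul, hnsq t ht, hr]; norm_num
  set x' := C.s r x with hx'
  have hx1 : ∀ t : (ZMod p)ˣ, IsSquare t → C.s t x' = x' := by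
    intro t ht
    rw [hx', ← C.mul_apply, mul_comm, C.mul_apply, h t ht]
  have hx2 : ∀ t : (ZMod p)ˣ, ¬ IsSquare t → C.s t x = x' := by
    intro t ht
    have : t = r * (t * r⁻¹) := by rw [mul_comm t, mul_inv_cancel_left]
    rw [this, C.mul_apply, h _ (hmul t ht).1]
  have hx3 : ∀ t : (ZMod p)ˣ, ¬ IsSquare t → C.s t x' = x := by
    intro t ht
    rw [hx', ← C.mul_apply, h _ (hmul t ht).2]
  obtain ⟨A, hA⟩ := C.fixed (x + x') (fun t => by
    by_cases ht : IsSquare t
    · rw [map_add, h t ht, hx1 t ht]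
    · rw [map_add, hx2 t ht, hx3 t ht, add_comm])
  obtain ⟨B0, hB0⟩ := C.fixed ((x - x') * C.delta) (fun t => by
    by_cases ht : IsSquare t
    · rw [map_mul, map_sub, h t ht, hx1 t ht, C.s_delta, hsq t ht]; push_cast; ring
    · rw [map_mul, map_sub, hx2 t ht, hx3 t ht, C.s_delta, hnsq t ht]; push_cast; ring)
  obtain ⟨E, hE⟩ := C.fixed ((x - x') ^ 2) (fun t => by
    by_cases ht : IsSquare t
    · rw [map_pow, map_sub, h t ht, hx1 t ht]
    · rw [map_pow, map_sub, hx2 t ht, hx3 t ht]; ring)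
  have hd := C.delta_sq hp2
  have h1 : B0 ^ 2 = E * pstar p := by
    have h2 : ((B0 ^ 2 : ℤ) : O) = ((E * pstar p : ℤ) : O) := by
      push_cast
      rw [← hB0, ← hE, ← hd]; ring
    exact_mod_cast h2
  have hpp : Prime (p : ℤ) := Nat.prime_iff_prime_int.mp hp.out
  have hpD : (p : ℤ) ∣ pstar p := by
    rw [← Int.natAbs_dvd_natAbs, pstar_natAbs, Int.natAbs_natCast]
  have hDp : pstar p ∣ (p : ℤ) := by
    rw [← Int.natAbs_dvd_natAbs, pstar_natAbs, Int.natAbs_natCast]
  have h2 : pstar p ∣ B0 :=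
    hDp.trans (hpp.dvd_of_dvd_pow (n := 2) (by rw [h1]; exact Dvd.dvd.mul_left hpD _))
  obtain ⟨B, hB⟩ := h2
  have hD0 : (pstar p : O) ≠ 0 := by
    have : pstar p ≠ 0 := by
      rw [← Int.natAbs_ne_zero, pstar_natAbs]; exact hp.out.ne_zero
    exact_mod_cast this
  have h3 : x - x' = (B : O) * C.delta := by
    apply mul_left_cancel₀ hD0
    have : (pstar p : O) * (x - x') = ((x - x') * C.delta) * C.delta := by rw [← hd]; ring
    rw [this, hB0, hB]; push_cast; ring
  refine ⟨A, B, ?_, ?_⟩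
  · rw [← hA, ← h3]; ring
  · intro t ht
    rw [hx2 t ht, ← hA, ← h3]; ring

/-- the half integral element -/
lemma Cyc.exists_half : ∃ w : O, 2 * w = 1 + C.delta := by
  -- the sum of all values is zero
  have h0 : ∑ x : ZMod p, C.psi x = 0 := by
    have h3 : C.psi.IsPrimitive := AddChar.zmodChar_primitive_of_primitive_root p C.prim
    have h4 : C.psi ≠ 1 := by
      intro h
      have h5 := h3 (one_ne_zero : (1 : ZMod p) ≠ 0)
      rw [AddChar.mulShift_one] at h5
      exact h5 h
    exact AddChar.sum_eq_zero_of_ne_one h4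
  refine ⟨1 + ∑ x ∈ univ.filter (fun x : ZMod p => quadraticChar (ZMod p) x = 1), C.psi x, ?_⟩
  have h1 : C.delta = ∑ x : ZMod p, ((quadraticChar (ZMod p) x : ℤ) : O) * C.psi x := by
    unfold Cyc.delta gaussSum
    exact sum_congr rfl fun x _ => by rw [qc_apply]
  have h2 : C.delta = C.delta + ∑ x : ZMod p, C.psi x := by rw [h0, add_zero]
  rw [h2, h1, ← sum_add_distrib, mul_add, mul_sum, sum_filter]
  have h3 : ∀ x : ZMod p, ((quadraticChar (ZMod p) x : ℤ) : O) * C.psi x + C.psi x =
      (if quadraticChar (ZMod p) x = 1 then 2 * C.psi x else 0) + if x = 0 then 1 else 0 := by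
    intro x
    by_cases hx : x = 0
    · subst hx
      have : quadraticChar (ZMod p) 0 = 0 := by simp
      rw [this]; simp
    · rcases quadraticChar_dichotomy hx with h4 | h4
      · rw [h4]; simp [hx]; ring
      · rw [h4]; simp [hx]
  rw [sum_congr rfl fun x _ => h3 x, sum_add_distrib, Finset.sum_ite_eq' univ (0 : ZMod p)]
  simp only [mem_univ, if_true]
  ring

end

end Pool.Agent.W519
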