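import Pool.Agent.W519.Cyc

/-!
# Existence of the cyclotomic rings
-/

set_option autoImplicit false

namespace Pool.Agent.W519

open NumberField IsCyclotomicExtension

section

variable (n : ℕ) [NeZero n]

/-- the cyclotomic field -/
abbrev CF : Type := CyclotomicField n ℚ

instance instCF : IsCyclotomicExtension {n} ℚ (CF n) :=
  haveI : NeZero ((n : ℕ) : ℚ) := ⟨by exact_mod_cast NeZero.ne n⟩
  CyclotomicField.isCyclotomicExtension n ℚ

instance instNF : NumberField (CF n) := IsCyclotomicExtension.numberField {n} ℚ (CF n)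

/-- the ring of integers with its automorphisms -/
noncomputable def cycO : Cyc n (𝓞 (CF n)) where
  z := (zeta_spec n ℚ (CF n)).toInteger
  prim := (zeta_spec n ℚ (CF n)).toInteger_isPrimitiveRoot
  s := (MulSemiringAction.toRingAut Gal(CF n/ℚ) (𝓞 (CF n))).comp
    (Rat.galEquivZMod n (CF n)).symm.toMonoidHom
  hs := fun t => by
    have h1 := Rat.galEquivZMod_smul_of_pow_eq n (CF n) ((Rat.galEquivZMod n (CF n)).symm t)
      (x := (zeta_spec n ℚ (CF n)).toInteger)
      (zeta_spec n ℚ (CF n)).toInteger_isPrimitiveRoot.pow_eq_one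
    rw [MulEquiv.apply_symm_apply] at h1
    exact h1
  ext := fun {R} _ f g h => by
    have hgen : (zeta_spec n ℚ (CF n)).integralPowerBasis.gen =
        (zeta_spec n ℚ (CF n)).toInteger := by simp
    have h1 : ∀ x, f x = g x := by
      intro x
      obtain ⟨P, hP⟩ := (zeta_spec n ℚ (CF n)).integralPowerBasis.exists_eq_aeval' x
      rw [hP, hgen, Polynomial.aeval_def, Polynomial.hom_eval₂, Polynomial.hom_eval₂, h]
      congr 1
      exact RingHom.ext_int _ _
    exact RingHom.ext h1
  fixed := fun x hx => by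
    have h1 : ∀ σ : Gal(CF n/ℚ), σ (x : CF n) = x := by
      intro σ
      have h2 : ((Rat.galEquivZMod n (CF n)).symm (Rat.galEquivZMod n (CF n) σ)) • x = x :=
        hx (Rat.galEquivZMod n (CF n) σ)
      have h3 : σ • x = x := by
        rwa [MulEquiv.symm_apply_apply] at h2
      have h4 := congrArg (fun y : 𝓞 (CF n) => (y : CF n)) h3
      exact h4
    have : IsGalois ℚ (CF n) := IsCyclotomicExtension.isGalois {n} ℚ (CF n)
    have h2 : (x : CF n) ∈ (⊥ : IntermediateField ℚ (CF n)) :=
      (IsGalois.mem_bot_iff_fixed _).mpr h1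
    obtain ⟨y, hy⟩ := IntermediateField.mem_bot.mp h2
    have h3 : IsIntegral ℤ y := by
      have h4 : IsIntegral ℤ (algebraMap ℚ (CF n) y) := by
        rw [hy]; exact RingOfIntegers.isIntegral_coe x
      exact (isIntegral_algebraMap_iff (algebraMap ℚ (CF n)).injective).mp h4
    obtain ⟨k, hk⟩ := IsIntegrallyClosed.isIntegral_iff.mp h3
    refine ⟨k, ?_⟩
    apply RingOfIntegers.ext
    rw [← hy, ← hk]
    simp

end

end Pool.Agent.W519
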