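import Pool.Agent.W519.Theta

/-!
# The norm equation attached to the product of Gauss sums
-/

set_option autoImplicit false

namespace Pool.Agent.W519

open Finset Pool.Agent.H916K

section

variable {p : ℕ} [hp : Fact p.Prime] {O : Type} [CommRing O] [IsDomain O] [CharZero O]
  (C : Cyc p O) {H : Finset (ZMod p)} (g : ZMod p → O) (ℓ : ℕ)

lemma exists_nonsq (hp2 : p ≠ 2) : ∃ r : (ZMod p)ˣ, ¬ IsSquare r := by
  obtain ⟨r, hr⟩ := quadraticChar_exists_neg_one' (ringChar_ne hp2)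
  refine ⟨r, ?_⟩
  rintro ⟨u, rfl⟩
  rw [Units.val_mul, map_mul, ← sq, quadraticChar_sq_one u.ne_zero] at hr
  norm_num at hr

include C in
lemma not_dvd_odd (hp2 : p ≠ 2) {r : ℕ} (hr : r.Prime) (hr2 : r ≠ 2) (hrp : r ≠ p) {x y : ℤ}
    (h : ¬ ((r : ℤ) ∣ x ∧ (r : ℤ) ∣ y)) : ¬ (r : O) ∣ (x : O) + (y : O) * C.delta := by
  intro h1
  obtain ⟨t, ht⟩ := exists_nonsq (p := p) hp2
  have hrr : Prime (r : ℤ) := Nat.prime_iff_prime_int.mp hr
  have ht1 : quadraticChar (ZMod p) (t : ZMod p) = -1 := by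
    rcases quadraticChar_dichotomy t.ne_zero with h1 | h1
    · exfalso; apply ht
      obtain ⟨u, hu⟩ := (quadraticChar_one_iff_isSquare t.ne_zero).mp h1
      have hu0 : u ≠ 0 := by rintro rfl; exact t.ne_zero (by rw [hu, mul_zero])
      exact ⟨Units.mk0 u hu0, Units.ext hu⟩
    · exact h1
  have h2 : (r : O) ∣ (x : O) - (y : O) * C.delta := by
    obtain ⟨w, hw⟩ := h1
    refine ⟨C.s t w, ?_⟩
    have := congrArg (C.s t) hw
    rw [map_mul, map_add, map_mul, map_natCast, map_intCast, map_intCast, C.s_delta, ht1] at this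
    rw [← this]; push_cast; ring
  have hr2' : ¬ (r : ℤ) ∣ 2 := by
    intro h3
    have : r ∣ 2 := by exact_mod_cast h3
    exact hr2 ((Nat.prime_dvd_prime_iff_eq hr Nat.prime_two).mp this)
  have hx : (r : ℤ) ∣ x := by
    have h3 : ((r : ℤ) : O) ∣ ((2 * x : ℤ) : O) := by
      have h4 := dvd_add h1 h2
      have e : (x : O) + (y : O) * C.delta + ((x : O) - (y : O) * C.delta) = ((2 * x : ℤ) : O) := by
        push_cast; ring
      rw [e] at h4
      exact_mod_cast h4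
    exact (hrr.dvd_or_dvd (C.int_dvd h3)).resolve_left hr2'
  have hy : (r : ℤ) ∣ y := by
    have h3 : ((r : ℤ) : O) ∣ ((2 * (y * pstar p) : ℤ) : O) := by
      have h4 := Dvd.dvd.mul_right (dvd_sub h1 h2) C.delta
      have e : ((x : O) + (y : O) * C.delta - ((x : O) - (y : O) * C.delta)) * C.delta =
          ((2 * (y * pstar p) : ℤ) : O) := by
        push_cast; rw [← C.delta_sq hp2]; ring
      rw [e] at h4
      exact_mod_cast h4
    have h4 := (hrr.dvd_or_dvd (C.int_dvd h3)).resolve_left hr2'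
    rcases hrr.dvd_or_dvd h4 with h5 | h5
    · exact h5
    · exfalso
      have := Int.natAbs_dvd_natAbs.mpr h5
      rw [pstar_natAbs, Int.natAbs_natCast] at this
      exact hrp ((Nat.prime_dvd_prime_iff_eq hr hp.out).mp this)
  exact h ⟨hx, hy⟩

include C in
lemma not_dvd_two (hp2 : p ≠ 2) {x y : ℤ} (h : ¬ ((2 : ℤ) ∣ x ∧ (2 : ℤ) ∣ y))
    (h' : ¬ (x % 2 = 1 ∧ y % 2 = 1)) : ¬ ((2 : ℕ) : O) ∣ (x : O) + (y : O) * C.delta := by
  intro h1
  have h2 : (((2 : ℕ) : ℤ) : O) ∣ (x : O) + (y : O) * C.delta := by exact_mod_cast h1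
  rcases Int.emod_two_eq_zero_or_one x with hx | hx
  · have hy : y % 2 = 1 := by
      rcases Int.emod_two_eq_zero_or_one y with hy | hy
      · exact absurd ⟨Int.dvd_of_emod_eq_zero hx, Int.dvd_of_emod_eq_zero hy⟩ h
      · exact hy
    obtain ⟨x', hx'⟩ := Int.dvd_of_emod_eq_zero hx
    have h3 : (((2 : ℕ) : ℤ) : O) ∣ ((y * pstar p : ℤ) : O) := by
      obtain ⟨w, hw⟩ := h2
      refine ⟨(w - x') * C.delta, ?_⟩
      push_cast at hw ⊢
      rw [hx'] at hw
      push_cast at hw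
      rw [← C.delta_sq hp2]
      linear_combination C.delta * hw
    have h4 := C.int_dvd h3
    have h5 : (y * pstar p) % 2 = 1 := by
      have := pstar_mod (p := p) hp2
      rw [Int.mul_emod, hy, show pstar p % 2 = 1 by omega]; rfl
    have h6 : (2 : ℤ) ∣ y * pstar p := h4
    omega
  · have hy : y % 2 = 0 := by
      rcases Int.emod_two_eq_zero_or_one y with hy | hy
      · exact hy
      · exact absurd ⟨hx, hy⟩ h'
    obtain ⟨y', hy'⟩ := Int.dvd_of_emod_eq_zero hy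
    have h3 : (((2 : ℕ) : ℤ) : O) ∣ (x : O) := by
      obtain ⟨w, hw⟩ := h2
      refine ⟨w - y' * C.delta, ?_⟩
      push_cast at hw ⊢
      rw [hy'] at hw
      push_cast at hw
      linear_combination hw
    have h4 := C.int_dvd h3
    have h6 : (2 : ℤ) ∣ x := h4
    omega

include C in
lemma not_dvd_half (hp2 : p ≠ 2) {x y : ℤ} (hx : x % 2 = 1) {w : O}
    (hw : 2 * w = (x : O) + (y : O) * C.delta) : ¬ ((2 : ℕ) : O) ∣ w := by
  rintro ⟨v, hv⟩
  obtain ⟨t, ht⟩ := exists_nonsq (p := p) hp2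
  have ht1 : quadraticChar (ZMod p) (t : ZMod p) = -1 := by
    rcases quadraticChar_dichotomy t.ne_zero with h1 | h1
    · exfalso; apply ht
      obtain ⟨u, hu⟩ := (quadraticChar_one_iff_isSquare t.ne_zero).mp h1
      have hu0 : u ≠ 0 := by rintro rfl; exact t.ne_zero (by rw [hu, mul_zero])
      exact ⟨Units.mk0 u hu0, Units.ext hu⟩
    · exact h1
  have h1 : (((4 : ℤ)) : O) ∣ ((2 * x : ℤ) : O) := by
    refine ⟨v + C.s t v, ?_⟩
    have h2 := congrArg (C.s t) hw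
    rw [map_add, map_mul, map_mul, map_intCast, map_intCast, C.s_delta, ht1] at h2
    have h3 : C.s t 2 = 2 := by exact_mod_cast map_natCast (C.s t) 2
    rw [h3, hv, map_mul, map_natCast] at h2
    rw [hv] at hw
    push_cast at hw h2 ⊢
    linear_combination -hw - h2
  have h2 := C.int_dvd h1
  omega

variable (hℓ : ℓ.Prime) (hg : ∀ u, u ≠ 0 → g u * g (-u) = (ℓ : O) ^ p)
  (hs : ∀ (t : (ZMod p)ˣ) (u : ZMod p), C.s t (g u) = g (t * u)) (hH : Half H) (hp2 : p ≠ 2)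

include C hg hH in
/-- parity of the content -/
lemma content_even (hℓ : ℓ.Prime) {r : ℕ} (hr : r.Prime) (hrp : r ≠ p) (hrℓ : r ≠ ℓ) {j : ℕ} {v w : O}
    (h : (r : O) ^ j * w = GG g H * v ^ 2) (hw : ¬ (r : O) ∣ w) : Even j := by
  set G' : O := ∏ u ∈ H, g (-u) with hG'
  have hGG : GG g H * G' = (ℓ : O) ^ (p * H.card) := by
    unfold GG
    rw [hG', ← prod_mul_distrib, prod_congr rfl fun u hu => hg u (hH.ne u hu), prod_const, ← pow_mul]
  set E := p * H.card
  refine C.even_of_sq hr hrp j ((ℓ : O) ^ E * v) (w * G' * (ℓ : O) ^ E) ?_ ?_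
  · calc (r : O) ^ j * (w * G' * (ℓ : O) ^ E) = ((r : O) ^ j * w) * G' * (ℓ : O) ^ E := by ring
      _ = (GG g H * G') * v ^ 2 * (ℓ : O) ^ E := by rw [h]; ring
      _ = _ := by rw [hGG]; ring
  · intro h1
    have h2 : (r : O) ∣ w * (ℓ : O) ^ (E + E) := by
      have h3 := Dvd.dvd.mul_right h1 (GG g H)
      have e : w * G' * (ℓ : O) ^ E * GG g H = w * (ℓ : O) ^ (E + E) := by
        rw [pow_add, ← hGG]; ring
      rwa [e] at h3
    have hcop : IsCoprime (r : ℤ) ((ℓ : ℤ) ^ (E + E)) := by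
      apply IsCoprime.pow_right
      exact Nat.isCoprime_iff_coprime.mpr ((Nat.coprime_primes hr hℓ).mpr hrℓ)
    obtain ⟨a, b, hab⟩ := hcop
    apply hw
    obtain ⟨y, hy⟩ := h2
    have hab' : (a : O) * (r : O) + (b : O) * (ℓ : O) ^ (E + E) = 1 := by
      exact_mod_cast congrArg (Int.cast : ℤ → O) hab
    refine ⟨w * a + b * y, ?_⟩
    calc w = w * ((a : O) * (r : O) + (b : O) * (ℓ : O) ^ (E + E)) := by rw [hab', mul_one]
      _ = w * a * r + b * (w * (ℓ : O) ^ (E + E)) := by ring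
      _ = _ := by rw [hy]; ring

include hℓ hg hs hH hp2 in
/-- **Descent.** -/
theorem descent_main (hℓ2 : ℓ ≠ 2) {k : Type} [Field k] {q : ℕ} [hq : Fact q.Prime] [CharP k q]
    (hq2 : q ≠ 2) (hqp : q ≠ p) (f : O →+* k) (hℓk : (ℓ : k) = 1)
    {t : (ZMod p)ˣ} (ht : (t : ZMod p) = q) (hsq : IsSquare t) :
    ∃ x y z : ℤ, x ^ 2 - pstar p * y ^ 2 = ℓ * z ^ 2 ∧
      (∀ r : ℕ, r.Prime → r ≠ 2 → r ≠ p → r ≠ ℓ → ∀ (j : ℕ) (x' y' : ℤ),
        x = (r : ℤ) ^ j * x' → y = (r : ℤ) ^ j * y' → ¬ ((r : ℤ) ∣ x' ∧ (r : ℤ) ∣ y') → Even j) ∧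
      (∀ (j : ℕ) (x' y' : ℤ), x = 2 ^ j * x' → y = 2 ^ j * y' →
        ¬ ((2 : ℤ) ∣ x' ∧ (2 : ℤ) ∣ y') → (Even j ↔ ¬ (x' % 2 = 1 ∧ y' % 2 = 1))) ∧
      (x : k) + (y : k) * f C.delta ≠ 0 ∧
      ((x : k) + (y : k) * f C.delta) ^ ((q - 1) / 2) =
        (∏ u ∈ H, f (g u)) ^ ((q - 1) / 2) * ∏ u ∈ H \ sm t H, f (g u) := by
  have hℓ0 : (ℓ : O) ≠ 0 := by exact_mod_cast hℓ.ne_zero
  obtain ⟨c, hc⟩ := exists_TT C g ℓ hqp hg hH f hℓk
  obtain ⟨r, hr⟩ := exists_nonsq (p := p) hp2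
  obtain ⟨A, B, hAB, hAB'⟩ := C.descent hp2 (x := LL C g ℓ H c)
    (fun s hs' => s_LL C g ℓ hℓ hg hs hH hp2 c hs')
  obtain ⟨n, hn⟩ := ZZ_int C g ℓ hℓ hg hs hH hp2 c hr
  have hmain : ((2 * A : ℤ) : O) + ((2 * B : ℤ) : O) * C.delta = GG g H * (2 * TT C g ℓ H c) ^ 2 := by
    have : (GG g H * (2 * TT C g ℓ H c) ^ 2 : O) = 2 * (2 * LL C g ℓ H c) := by unfold LL; ring
    rw [this, hAB]; push_cast; ring
  -- the norm
  have hnorm : ∃ z : ℤ, (2 * A) ^ 2 - pstar p * (2 * B) ^ 2 = ℓ * z ^ 2 := by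
    have hodd : Odd (kk H r) := by
      rw [← Nat.not_even_iff_odd]
      exact fun h => hr ((gauss_half hp2 hH r).mpr h)
    have hodd2 : Odd (p * kk H r) := (hp.out.odd_of_ne_two hp2).mul hodd
    obtain ⟨i, hi⟩ := hodd2
    refine norm_of_sq ℓ (w := 4 * n) (i := i) hℓ ?_
    have h1 := LL_norm C g ℓ hg hs hH c r
    rw [hn] at h1
    have h2 := hAB' r hr
    have h3 : (((2 * A) ^ 2 - pstar p * (2 * B) ^ 2) * (ℓ : ℤ) ^ (2 * i + 1) : ℤ) = (4 * n) ^ 2 := by
      have h4 : ((((2 * A) ^ 2 - pstar p * (2 * B) ^ 2) * (ℓ : ℤ) ^ (2 * i + 1) : ℤ) : O) =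
          (((4 * n) ^ 2 : ℤ) : O) := by
        rw [← hi]
        push_cast
        rw [pow_mul, ← C.delta_sq hp2]
        have e1 : (2 * (A : O)) ^ 2 - C.delta ^ 2 * (2 * (B : O)) ^ 2 =
            4 * ((2 * LL C g ℓ H c) * (2 * C.s r (LL C g ℓ H c))) := by rw [hAB, h2]; ring
        rw [e1]
        calc 4 * ((2 * LL C g ℓ H c) * (2 * C.s r (LL C g ℓ H c))) * ((ℓ : O) ^ p) ^ kk H r
            = 16 * (LL C g ℓ H c * C.s r (LL C g ℓ H c) * ((ℓ : O) ^ p) ^ kk H r) := by ring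
          _ = _ := by rw [h1]; ring
      exact_mod_cast h4
    exact h3
  obtain ⟨z, hz⟩ := hnorm
  refine ⟨2 * A, 2 * B, z, hz, ?_, ?_, ?_, ?_⟩
  · -- odd primes
    intro r' hr' hr2 hrp hrℓ j x' y' hx hy hnd
    refine content_even C g ℓ hg hH hℓ hr' hrp hrℓ (v := 2 * TT C g ℓ H c)
      (w := (x' : O) + (y' : O) * C.delta) ?_ (not_dvd_odd C hp2 hr' hr2 hrp hnd)
    rw [← hmain, hx, hy]; push_cast; ring
  · intro j x' y' hx hy hnd
    have hp2' : (2 : ℕ) ≠ p := fun h => hp2 h.symm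
    have hℓ2' : (2 : ℕ) ≠ ℓ := fun h => hℓ2 h.symm
    constructor
    · rintro hev ⟨h1, h2⟩
      -- both odd: the exponent is odd
      obtain ⟨w0, hw0⟩ := C.exists_half
      obtain ⟨a, ha⟩ : ∃ a : ℤ, x' - y' = 2 * a := ⟨(x' - y') / 2, by omega⟩
      have hw : 2 * ((a : O) + (y' : O) * w0) = (x' : O) + (y' : O) * C.delta := by
        have : (x' : O) = 2 * a + y' := by
          have : x' = 2 * a + y' := by omega
          rw [this]; push_cast; ring
        rw [this]; linear_combination (y' : O) * hw0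
      have h3 : Even (j + 1) := by
        refine content_even C g ℓ hg hH hℓ Nat.prime_two hp2' hℓ2' (v := 2 * TT C g ℓ H c)
          (w := (a : O) + (y' : O) * w0) ?_ (not_dvd_half C hp2 h1 hw)
        rw [← hmain, hx, hy, pow_succ]; push_cast
        linear_combination (2 : O) ^ j * hw
      obtain ⟨a1, ha1⟩ := hev
      obtain ⟨a2, ha2⟩ := h3
      omega
    · intro hno
      refine content_even C g ℓ hg hH hℓ Nat.prime_two hp2' hℓ2' (v := 2 * TT C g ℓ H c)
        (w := (x' : O) + (y' : O) * C.delta) ?_ (not_dvd_two C hp2 hnd hno)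
      rw [← hmain, hx, hy]; push_cast; ring
  · have h1 := congrArg f hmain
    rw [map_add, map_mul, map_intCast, map_intCast] at h1
    rw [h1]
    have h2 : (2 : k) ≠ 0 := by
      intro h
      have h3 : ((2 : ℕ) : k) = 0 := by rw [Nat.cast_ofNat]; exact h
      rw [CharP.cast_eq_zero_iff k q] at h3
      exact hq2 ((Nat.prime_dvd_prime_iff_eq hq.out Nat.prime_two).mp h3)
    have h3 : f (GG g H) ≠ 0 := by
      unfold GG
      rw [map_prod, prod_ne_zero_iff]
      intro u hu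
      refine ne_zero_of_pair (b := f (g (-u))) (L := 1) ?_ one_ne_zero
      rw [← map_mul, hg u (hH.ne u hu), map_pow, map_natCast, hℓk, one_pow]
    have h4 : f (2 * TT C g ℓ H c) ≠ 0 := by
      rw [map_mul, map_ofNat]; exact mul_ne_zero h2 hc
    rw [map_mul, map_pow]
    exact mul_ne_zero h3 (pow_ne_zero 2 h4)
  · have h1 := congrArg f hmain
    rw [map_add, map_mul, map_intCast, map_intCast] at h1
    rw [h1]
    have hqodd := hq.out.eq_two_or_odd.resolve_left hq2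
    have hq1 : 2 * ((q - 1) / 2) = q - 1 := by omega
    have hqpos := hq.out.pos
    have e1 : f (TT C g ℓ H c) ^ (q - 1) = ∏ u ∈ H \ sm t H, f (g u) := by
      have h2 := congrArg f (s_TT C g ℓ hg hs hH hp2 c hsq)
      rw [map_mul, map_mul, map_pow, map_natCast, hℓk, one_pow, one_mul,
        C.frob f ht (TT C g ℓ H c)] at h2
      have h3 : f (BB g H t) * ∏ u ∈ H \ sm t H, f (g u) = 1 := by
        unfold BB
        rw [map_prod, half_diff (sm_half hH t) hH (fun u => f (g u)), ← prod_mul_distrib]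
        apply prod_eq_one
        intro u hu
        rw [← map_mul, hg u ((sm_half hH t).ne u (mem_sdiff.mp hu).1), map_pow, map_natCast, hℓk,
          one_pow]
      have h4 : f (BB g H t) * f (TT C g ℓ H c) ^ (q - 1) = 1 := by
        apply mul_right_cancel₀ hc
        rw [one_mul, mul_assoc, ← pow_succ, Nat.sub_add_cancel hqpos]
        exact h2
      have h5 : f (BB g H t) ≠ 0 := ne_zero_of_pair h3 one_ne_zero
      apply mul_left_cancel₀ h5
      rw [h4, h3]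
    have e2 : (2 : k) ^ (q - 1) = 1 := by
      have h2 : ((2 : ZMod q)) ^ (q - 1) = 1 := by
        apply ZMod.pow_card_sub_one_eq_one
        intro h
        have h3 : ((2 : ℕ) : ZMod q) = 0 := by exact_mod_cast h
        rw [ZMod.natCast_eq_zero_iff] at h3
        exact hq2 ((Nat.prime_dvd_prime_iff_eq hq.out Nat.prime_two).mp h3)
      have h3 := congrArg (ZMod.castHom (dvd_refl q) k) h2
      rw [map_pow, map_one, map_ofNat] at h3
      exact h3
    rw [map_mul, map_pow, map_mul, map_ofNat, mul_pow, ← pow_mul, hq1, mul_pow, e2, one_mul, e1]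
    unfold GG
    rw [map_prod]

end

end Pool.Agent.W519
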