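import Pool.Agent.W519.HD
import Pool.Agent.H916K.Level

/-!
# The classes of Gauss sums form an odd distribution
-/

set_option autoImplicit false
set_option linter.unusedSectionVars false

namespace Pool.Agent.W519

open Finset NumberField Pool.Agent.H916K Pool.Agent.H916R2

section

variable {m : ℕ}

lemma val_mul_d {l d : ℕ} [NeZero l] (hld : l * d = m) (x : ℕ) :
    (((x : ZMod l).val : ℕ) : ZMod m) * (d : ZMod m) = (x : ZMod m) * (d : ZMod m) := by
  rw [ZMod.val_natCast]
  have h0 := mul_d_zero hld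
  conv_rhs => rw [← Nat.mod_add_div x l]
  push_cast
  linear_combination -((x / l : ℕ) : ZMod m) * h0

lemma sum_pair_zero [NeZero m] {Q : Type} [AddCommGroup Q] {c : ZMod m → Q}
    (hneg : ∀ a, c (-a) = - c a) (hz : c 0 = 0) {l d : ℕ} (hl : l.Prime) (hl2 : l ≠ 2)
    (hld : l * d = m) {a : ZMod m} (ha : (l : ZMod m) * a = 0) :
    ∑ i ∈ range l, c (a + (i : ZMod m) * (d : ZMod m)) = 0 := by
  have hlF : Fact l.Prime := ⟨hl⟩
  obtain ⟨j, hj⟩ := exists_of_mul_eq_zero hl.pos hld ha
  set F : ZMod l → Q := fun u => c ((u.val : ZMod m) * (d : ZMod m)) with hF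
  have h1 : ∀ i ∈ range l, c (a + (i : ZMod m) * (d : ZMod m)) =
      F ((j : ZMod l) + (i : ZMod l) * 1) := by
    intro i _
    rw [hF, mul_one]
    simp only
    have : ((j : ZMod l) + (i : ZMod l)) = ((j + i : ℕ) : ZMod l) := by push_cast; rfl
    rw [this, val_mul_d hld, hj]
    congr 1
    push_cast; ring
  rw [sum_congr rfl h1, sum_range_shift F (j : ZMod l) one_ne_zero]
  have hFneg : ∀ u, F (-u) = - F u := by
    intro u
    simp only [hF]
    rw [← hneg]
    congr 1
    have h2 : (((-u : ZMod l).val + u.val : ℕ) : ZMod m) * (d : ZMod m) = 0 := by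
      have h3 : (((-u : ZMod l).val + u.val : ℕ) : ZMod l) = 0 := by
        push_cast
        rw [ZMod.natCast_zmod_val, ZMod.natCast_zmod_val, neg_add_cancel]
      rw [← val_mul_d hld, h3]
      simp
    push_cast at h2
    linear_combination h2
  apply sum_involution (fun (u : ZMod l) _ => -u)
  · intro u _
    rw [hFneg, add_neg_cancel]
  · intro u _ hu h
    apply hu
    have h3 : (2 : ZMod l) * u = 0 := by linear_combination -h
    have h4 : (2 : ZMod l) ≠ 0 := by
      intro h5
      have h6 : ((2 : ℕ) : ZMod l) = 0 := by exact_mod_cast h5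
      rw [ZMod.natCast_eq_zero_iff] at h6
      exact hl2 ((Nat.prime_dvd_prime_iff_eq hl Nat.prime_two).mp h6)
    have h5 := (mul_eq_zero.mp h3).resolve_left h4
    simp only [hF, h5, ZMod.val_zero, Nat.cast_zero, zero_mul, hz]
  · intro u _; exact mem_univ _
  · intro u _; exact neg_neg u

end

section

variable {n m ℓ : ℕ} [hℓ : Fact ℓ.Prime] {k : Type} [Field k]

open Classical in
/-- the class of the image of a Gauss sum -/
noncomputable def gcl (f : 𝓞 (CF (n * ℓ)) →+* k) (χ : MulChar (ZMod ℓ) (𝓞 (CF (n * ℓ))))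
    (ψ : AddChar (ZMod ℓ) (𝓞 (CF (n * ℓ)))) (a : ZMod m) : QT k :=
  if a = 0 then 0 else cl (f (gaussSum (χ ^ a.val) ψ))

lemma Lev.ne_zero (L : Lev n m ℓ) [NeZero (n * ℓ)] [NeZero m] {q : ℕ} (hqm : q ∣ m) [CharP k q]
    (f : 𝓞 (CF (n * ℓ)) →+* k) {χ : MulChar (ZMod ℓ) (𝓞 (CF (n * ℓ)))} (hχ : orderOf χ = m)
    {ζ : 𝓞 (CF (n * ℓ))} (hζ : IsPrimitiveRoot ζ ℓ) {a : ZMod m} (ha : a ≠ 0) :
    f (gaussSum (χ ^ a.val) (AddChar.zmodChar ℓ hζ.pow_eq_one)) ≠ 0 := by
  have h1 := L.pair hχ (AddChar.zmodChar_primitive_of_primitive_root ℓ hζ) ha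
  have h2 := congrArg f h1
  rw [map_mul, map_natCast, L.cast_one hqm] at h2
  exact left_ne_zero_of_mul_eq_one h2

/-- **The classes of the Gauss sums form an odd distribution.** -/
theorem gcl_dist (L : Lev n m ℓ) [NeZero (n * ℓ)] [NeZero m] {q : ℕ} (hqm : q ∣ m) [CharP k q]
    (f : 𝓞 (CF (n * ℓ)) →+* k) {χ : MulChar (ZMod ℓ) (𝓞 (CF (n * ℓ)))} (hχ : orderOf χ = m)
    {ζ : 𝓞 (CF (n * ℓ))} (hζ : IsPrimitiveRoot ζ ℓ)
    (hhalf : m = 2 * n → f (gaussSum (χ ^ n) (AddChar.zmodChar ℓ hζ.pow_eq_one)) = 1) :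
    OddDist (gcl f χ (AddChar.zmodChar ℓ hζ.pow_eq_one) : ZMod m → QT k) := by
  classical
  set ψ := AddChar.zmodChar ℓ hζ.pow_eq_one with hψ
  have hprim : ψ.IsPrimitive := AddChar.zmodChar_primitive_of_primitive_root ℓ hζ
  have h0 : χ ^ m = 1 := by rw [← hχ]; exact pow_orderOf_eq_one _
  have hne : ∀ {a : ZMod m}, a ≠ 0 → f (gaussSum (χ ^ a.val) ψ) ≠ 0 :=
    fun ha => L.ne_zero hqm f hχ hζ ha
  have hz : (gcl f χ ψ : ZMod m → QT k) 0 = 0 := by unfold gcl; rw [if_pos rfl]
  have hneg : ∀ a : ZMod m, gcl f χ ψ (-a) = - gcl f χ ψ a := by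
    intro a
    by_cases ha : a = 0
    · rw [ha, neg_zero, hz, neg_zero]
    · unfold gcl
      rw [if_neg (neg_ne_zero.mpr ha), if_neg ha, eq_neg_iff_add_eq_zero,
        ← cl_mul (hne (neg_ne_zero.mpr ha)) (hne ha), mul_comm (f _) (f _), ← map_mul,
        L.pair hχ hprim ha,
        map_natCast, L.cast_one hqm, cl_one]
  have hhalf' : ∀ a : ZMod m, a + a = 0 → gcl f χ ψ a = 0 := by
    intro a ha
    by_cases ha0 : a = 0
    · rw [ha0, hz]
    · have h1 : m ∣ a.val + a.val := by
        rw [← ZMod.natCast_eq_zero_iff]; push_cast; rw [ZMod.natCast_zmod_val]; exact ha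
      have h2 := ZMod.val_lt a
      have h3 : 0 < a.val := Nat.pos_of_ne_zero (fun h => ha0 ((ZMod.val_eq_zero a).mp h))
      obtain ⟨c, hc⟩ := h1
      have h4 : c = 1 := by
        rcases Nat.lt_trichotomy c 1 with h | h | h
        · exfalso
          have : c = 0 := by omega
          rw [this, mul_zero] at hc; omega
        · exact h
        · exfalso
          have : m * 2 ≤ m * c := Nat.mul_le_mul_left m h
          omega
      rw [h4, mul_one] at hc
      have h5 : m = 2 * n := by
        rcases L.two with h | h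
        · exfalso
          have := L.odd
          rw [← h] at this
          rw [Nat.odd_iff] at this; omega
        · exact h
      have h6 : a.val = n := by omega
      unfold gcl
      rw [if_neg ha0, h6, hhalf h5, cl_one]
  refine ⟨hneg, hhalf', ?_⟩
  intro l d hl hld a
  by_cases hl2 : l = 2
  · subst hl2
    have h5 : m = 2 * n := by
      rcases L.two with h | h
      · exfalso
        have := L.odd
        rw [← h, ← hld] at this
        rw [Nat.odd_iff] at this; omega
      · exact h
    have hdn : d = n := by omega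
    subst hdn
    have h2d := mul_d_zero hld
    rw [sum_range_succ, sum_range_one, Nat.cast_zero, zero_mul, add_zero, Nat.cast_one, one_mul]
    push_cast at h2d ⊢
    by_cases h2a : (2 : ZMod m) * a = 0
    · rw [h2a, hz, hhalf' a (by rw [← two_mul]; exact h2a), hhalf' (a + d) (by
        linear_combination h2a + h2d), add_zero]
    · have ha : a ≠ 0 := by rintro rfl; exact h2a (mul_zero _)
      have had : a + d ≠ 0 := by
        intro h
        apply h2a
        have : (2 : ZMod m) * (a + d) = 0 := by rw [h, mul_zero]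
        linear_combination this - h2d
      have hdv : ((d : ℕ) : ZMod m).val = d := by
        rw [ZMod.val_natCast, Nat.mod_eq_of_lt]
        have := L.n_pos; omega
      have heta : χ ^ d = eta ℓ (𝓞 (CF (d * ℓ))) := by
        apply eq_eta L.ne_two
        · rw [← pow_mul, show d * 2 = m by omega, h0]
        · intro h
          have h6 := orderOf_dvd_of_pow_eq_one h
          rw [hχ, h5] at h6
          have := Nat.le_of_dvd L.n_pos h6
          have := L.n_pos; omega
      have hsq : (χ ^ a.val) ^ 2 ≠ 1 := by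
        rw [← pow_val_mul h0 2 a]
        apply pow_val_ne hχ
        push_cast; exact h2a
      have h6 := gauss_dup L.ne_two hsq hprim
      rw [← heta, ← pow_val_mul h0 2 a] at h6
      have h7 : χ ^ a.val * χ ^ d = χ ^ (a + (d : ZMod m)).val := by
        rw [pow_val_add h0, hdv]
      rw [h7] at h6
      have h8 := congrArg f h6
      rw [map_mul, map_mul, map_mul, hhalf h5, mul_one] at h8
      have h9 : (f ((χ ^ a.val) 4)) ^ d = 1 := by
        have h4 : (4 : ZMod ℓ) ≠ 0 := by
          have h2 : (2 : ZMod ℓ) ≠ 0 := by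
            intro h
            have h1 : ((2 : ℕ) : ZMod ℓ) = 0 := by exact_mod_cast h
            rw [ZMod.natCast_eq_zero_iff] at h1
            exact L.ne_two ((Nat.prime_dvd_prime_iff_eq hℓ.out Nat.prime_two).mp h1)
          have : (4 : ZMod ℓ) = 2 * 2 := by norm_num
          rw [this]; exact mul_ne_zero h2 h2
        rw [← map_pow, L.sq_root _ h4 ⟨2, by norm_num⟩, map_one]
        rw [pow_right_comm, h0, one_pow]
      have h10 := congrArg cl h8
      rw [cl_mul (ne_zero_of_root L.odd h9) (mul_ne_zero (hne ha) (hne had)),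
        cl_root L.odd h9, zero_add, cl_mul (hne ha) (hne had)] at h10
      unfold gcl
      rw [if_neg ha, if_neg had, if_neg h2a]
      push_cast at h10
      exact h10
  · by_cases hla : (l : ZMod m) * a = 0
    · rw [hla, hz]
      exact sum_pair_zero hneg hz hl hl2 hld hla
    · obtain ⟨x, hx, hprod⟩ := hd_odd L hχ hζ hl hl2 hld hla
      have h1 := congrArg f hprod
      rw [map_mul, map_prod, map_mul, map_pow, map_natCast, L.cast_one hqm, one_pow, one_mul] at h1
      have h2 : (f x) ^ (n * ℓ) = 1 := by rw [← map_pow f x, hx, map_one]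
      have hld0 := mul_d_zero hld
      have hi : ∀ i : ℕ, a + (i : ZMod m) * (d : ZMod m) ≠ 0 := by
        intro i h
        apply hla
        have : (l : ZMod m) * (a + (i : ZMod m) * (d : ZMod m)) = 0 := by rw [h, mul_zero]
        linear_combination this - (i : ZMod m) * hld0
      have h3 := congrArg cl h1
      rw [cl_root L.odd_nl h2, cl_mul (hne (neg_ne_zero.mpr hla))
        (prod_ne_zero_iff.mpr fun i _ => hne (hi i)), cl_prod _ _ (fun i _ => hne (hi i))] at h3
      have h4 : gcl f χ ψ (-((l : ZMod m) * a)) + ∑ i ∈ range l,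
          gcl f χ ψ (a + (i : ZMod m) * (d : ZMod m)) = 0 := by
        rw [← h3]
        congr 1
        · unfold gcl; rw [if_neg (neg_ne_zero.mpr hla)]
        · refine sum_congr rfl fun i _ => ?_
          unfold gcl; rw [if_neg (hi i)]
      rw [hneg] at h4
      rw [← sub_eq_zero, ← h4]
      abel

end

end Pool.Agent.W519
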