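import Pool.Agent.W519.Sgn

/-!
# The duplication formula for Gauss sums
-/

set_option autoImplicit false
set_option linter.unusedSectionVars false

namespace Pool.Agent.W519

open Finset Pool.Agent.H916K

section

variable {ℓ : ℕ} [hℓ : Fact ℓ.Prime] {R : Type} [CommRing R] [IsDomain R] [CharZero R]

/-- the quadratic character with values in `R` -/
noncomputable def eta (ℓ : ℕ) [Fact ℓ.Prime] (R : Type) [CommRing R] : MulChar (ZMod ℓ) R :=
  (quadraticChar (ZMod ℓ)).ringHomComp (Int.castRingHom R)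

lemma eta_apply (x : ZMod ℓ) : eta ℓ R x = ((quadraticChar (ZMod ℓ) x : ℤ) : R) := rfl

/-- the character of order two -/
lemma eq_eta (hℓ2 : ℓ ≠ 2) {χ : MulChar (ZMod ℓ) R} (hχ : χ ^ 2 = 1) (hne : χ ≠ 1) :
    χ = eta ℓ R := by
  classical
  have hchar : ringChar (ZMod ℓ) ≠ 2 := by rw [ZMod.ringChar_zmod_n]; exact hℓ2
  have hsq : ∀ x : ZMod ℓ, x ≠ 0 → IsSquare x → χ x = 1 := by
    rintro x hx ⟨r, rfl⟩
    have hr : r ≠ 0 := fun h => hx (by rw [h, mul_zero])
    rw [map_mul, ← sq, ← mulChar_pow_apply χ 2 hr, hχ]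
    exact MulChar.one_apply (isUnit_iff_ne_zero.mpr hr)
  have hpm : ∀ x : ZMod ℓ, x ≠ 0 → χ x = 1 ∨ χ x = -1 := by
    intro x hx
    have h1 : χ x ^ 2 = 1 := by
      rw [← mulChar_pow_apply χ 2 hx, hχ]
      exact MulChar.one_apply (isUnit_iff_ne_zero.mpr hx)
    have h2 : (χ x - 1) * (χ x + 1) = 0 := by linear_combination h1
    rcases mul_eq_zero.mp h2 with h | h
    · exact Or.inl (sub_eq_zero.mp h)
    · exact Or.inr (eq_neg_of_add_eq_zero_left h)
  have hnsq : ∀ x : ZMod ℓ, ¬ IsSquare x → χ x = -1 := by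
    intro x hx
    have hx0 : x ≠ 0 := fun h => hx (by rw [h]; exact ⟨0, by simp⟩)
    rcases hpm x hx0 with h | h
    · exfalso
      apply hne
      apply MulChar.ext'
      intro y
      by_cases hy : y = 0
      · rw [hy, MulChar.map_zero, MulChar.map_zero]
      rw [MulChar.one_apply (isUnit_iff_ne_zero.mpr hy)]
      by_cases hys : IsSquare y
      · exact hsq y hy hys
      · have h1 : IsSquare (x * y) := by
          have h2 := quadraticChar_neg_one_iff_not_isSquare.mpr hx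
          have h3 := quadraticChar_neg_one_iff_not_isSquare.mpr hys
          rw [← quadraticChar_one_iff_isSquare (mul_ne_zero hx0 hy), map_mul, h2, h3]
          norm_num
        have h4 := hsq _ (mul_ne_zero hx0 hy) h1
        rw [map_mul, h, one_mul] at h4
        exact h4
    · exact h
  apply MulChar.ext'
  intro x
  rw [eta_apply]
  by_cases hx : x = 0
  · rw [hx, MulChar.map_zero, MulChar.map_zero]; simp
  by_cases hxs : IsSquare x
  · rw [hsq x hx hxs, (quadraticChar_one_iff_isSquare hx).mpr hxs]; simp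
  · rw [hnsq x hxs, quadraticChar_neg_one_iff_not_isSquare.mpr hxs]; simp

lemma jacobi_dup (hℓ2 : ℓ ≠ 2) {χ : MulChar (ZMod ℓ) R} (hχ : χ ≠ 1) :
    χ 4 * jacobiSum χ χ = jacobiSum χ (eta ℓ R) := by
  classical
  have hchar : ringChar (ZMod ℓ) ≠ 2 := by rw [ZMod.ringChar_zmod_n]; exact hℓ2
  have h2 : (2 : ZMod ℓ) ≠ 0 := by
    intro h
    have h1 : ((2 : ℕ) : ZMod ℓ) = 0 := by exact_mod_cast h
    rw [ZMod.natCast_eq_zero_iff] at h1
    exact hℓ2 ((Nat.prime_dvd_prime_iff_eq hℓ.out Nat.prime_two).mp h1)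
  have h3 : χ 4 * jacobiSum χ χ = ∑ y : ZMod ℓ, χ (1 - y ^ 2) := by
    unfold jacobiSum
    rw [mul_sum]
    refine Fintype.sum_bijective (fun x : ZMod ℓ => 1 + (-2) * x) ?_ _ _ ?_
    · exact (AddGroup.addLeft_bijective 1).comp (mulLeft_bijective₀ (-2) (neg_ne_zero.mpr h2))
    · intro x
      rw [← map_mul, ← map_mul]
      congr 1
      ring
  have h4 : ∑ y : ZMod ℓ, χ (1 - y ^ 2) = ∑ t : ZMod ℓ, χ (1 - t) * (1 + eta ℓ R t) := by
    rw [← sum_fiberwise_of_maps_to (s := univ) (t := univ) (g := fun y : ZMod ℓ => y ^ 2)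
      (fun _ _ => mem_univ _)]
    refine sum_congr rfl fun t _ => ?_
    have h5 : ∀ y ∈ univ.filter (fun y : ZMod ℓ => y ^ 2 = t), χ (1 - y ^ 2) = χ (1 - t) := by
      intro y hy
      rw [(mem_filter.mp hy).2]
    rw [sum_congr rfl h5, sum_const, nsmul_eq_mul, mul_comm]
    congr 1
    have h6 := quadraticChar_card_sqrts hchar t
    have h7 : {x : ZMod ℓ | x ^ 2 = t}.toFinset = univ.filter (fun y : ZMod ℓ => y ^ 2 = t) := by
      ext x; simp
    rw [h7] at h6
    rw [eta_apply]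
    have h8 := congrArg (fun z : ℤ => (z : R)) h6
    push_cast at h8
    rw [h8, add_comm]
  have h5 : ∑ t : ZMod ℓ, χ (1 - t) = 0 := by
    have h6 : ∑ t : ZMod ℓ, χ (1 - t) = ∑ t, χ t := by
      refine Fintype.sum_bijective (fun t : ZMod ℓ => 1 - t) ?_ _ _ fun t => rfl
      exact (Equiv.subLeft (1 : ZMod ℓ)).bijective
    rw [h6]
    exact MulChar.sum_eq_zero_of_ne_one hχ
  rw [h3, h4]
  simp only [mul_add, mul_one, sum_add_distrib]
  rw [h5, zero_add, jacobiSum_comm]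
  unfold jacobiSum
  refine sum_congr rfl fun t _ => mul_comm _ _

/-- **The duplication formula.** -/
theorem gauss_dup (hℓ2 : ℓ ≠ 2) {χ : MulChar (ZMod ℓ) R} (hχ : χ ^ 2 ≠ 1)
    {ψ : AddChar (ZMod ℓ) R} (hψ : ψ.IsPrimitive) :
    χ 4 * (gaussSum χ ψ * gaussSum (χ * eta ℓ R) ψ) = gaussSum (χ ^ 2) ψ * gaussSum (eta ℓ R) ψ := by
  have hχ1 : χ ≠ 1 := by rintro rfl; exact hχ (one_pow 2)
  have heta2 : (eta ℓ R) ^ 2 = 1 := by
    apply MulChar.ext'
    intro x
    by_cases hx : x = 0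
    · rw [hx, MulChar.map_zero, MulChar.map_zero]
    rw [mulChar_pow_apply _ _ hx, eta_apply, MulChar.one_apply (isUnit_iff_ne_zero.mpr hx)]
    have := quadraticChar_sq_one hx
    have h8 := congrArg (fun z : ℤ => (z : R)) this
    push_cast at h8
    exact h8
  have h1 : χ * eta ℓ R ≠ 1 := by
    intro h
    apply hχ
    have h2 : (χ * eta ℓ R) ^ 2 = 1 := by rw [h, one_pow]
    rwa [mul_pow, heta2, mul_one] at h2
  have h2 : χ * χ ≠ 1 := by rwa [← sq]
  have e1 := jacobiSum_mul_nontrivial h2 ψ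
  have e2 := jacobiSum_mul_nontrivial h1 ψ
  have e3 := jacobi_dup hℓ2 hχ1
  have hg : gaussSum χ ψ ≠ 0 := by
    apply gaussSum_ne_zero_of_nontrivial _ hχ1 hψ
    rw [ZMod.card]
    exact_mod_cast hℓ.out.ne_zero
  apply mul_left_cancel₀ hg
  rw [sq]
  linear_combination (-χ 4 * gaussSum (χ * eta ℓ R) ψ) * e1 +
    gaussSum (χ * χ) ψ * e2 + gaussSum (χ * χ) ψ * gaussSum (χ * eta ℓ R) ψ * e3

end

end Pool.Agent.W519
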