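import Pool.Agent.W519.HalfProd
import Pool.Agent.H916K.Two

/-!
# The value of an exotic relation
-/

set_option autoImplicit false
set_option linter.unusedSectionVars false

namespace Pool.Agent.W519

open Finset Pool.Agent.H916K

section

variable {p q : ℕ} [hp : Fact p.Prime] [hq : Fact q.Prime]

lemma row_sum (hpq : p ≠ q) {x : ZMod p → ZMod q → ℤ} (hx : Rel2 x) {u : ZMod p}
    (hu : u ≠ 0) : 2 * ∑ v, yy x u v = q * AA x u - AA x ((q : ZMod p)⁻¹ * u) := by
  have hB : ∑ v ∈ univ.erase (0 : ZMod q), BB x v = 0 := by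
    have h8 : ∑ v ∈ univ.erase (0 : ZMod q), BB x v = ∑ v ∈ univ.erase (0 : ZMod q), BB x (-v) := by
      refine sum_bij' (fun v _ => -v) (fun v _ => -v) ?_ ?_ ?_ ?_ ?_
      · intro v hv; exact mem_erase.mpr ⟨neg_ne_zero.mpr (ne_of_mem_erase hv), mem_univ _⟩
      · intro v hv; exact mem_erase.mpr ⟨neg_ne_zero.mpr (ne_of_mem_erase hv), mem_univ _⟩
      · intro v _; exact neg_neg v
      · intro v _; exact neg_neg v
      · intro v _; rw [neg_neg]
    have h9 : ∑ v ∈ univ.erase (0 : ZMod q), BB x (-v) = - ∑ v ∈ univ.erase (0 : ZMod q), BB x v := by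
      rw [← sum_neg_distrib]
      exact sum_congr rfl fun v _ => BB_neg x v
    linarith
  have hcardq : ((univ.erase (0 : ZMod q)).card : ℤ) = (q : ℤ) - 1 := by
    rw [card_erase_of_mem (mem_univ _), card_univ, ZMod.card,
      Nat.cast_sub (Fact.out : q.Prime).one_lt.le]
    simp
  have hYA : 2 * ∑ v ∈ univ.erase (0 : ZMod q), yy x u v = ((q : ℤ) - 1) * AA x u := by
    rw [mul_sum, sum_congr rfl fun v hv => two_yy hx hu (ne_of_mem_erase hv), sum_add_distrib, hB,
      sum_const, nsmul_eq_mul, hcardq]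
    ring
  rw [← add_sum_erase _ _ (mem_univ (0 : ZMod q)), mul_add, hYA, edge hpq hx hu]
  ring

/-- **The value of an exotic relation.** -/
theorem eval_odd (hp2 : p ≠ 2) (hq2 : q ≠ 2) (hpq : p ≠ q) {x : ZMod p → ZMod q → ℤ}
    (hx : Rel2 x) (hA : ¬ 2 ∣ AA x 1) {H : Finset (ZMod p)} (hH : Half H) {Q : Type}
    [AddCommGroup Q] {a : ZMod p → Q} (ha : ∀ u, a (-u) = - a u)
    (hqa : ∀ u, q • a u = a ((q : ZMod p) * u)) {c : ZMod p → ZMod q → Q} {ν : Q}
    (hc1 : ∀ u v, u ≠ 0 → c u v = a u) (hc2 : ∀ v, v ≠ 0 → c 0 v = ν) (hc0 : c 0 0 = 0)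
    {t : (ZMod p)ˣ} (ht : (t : ZMod p) = q) :
    ∑ u, ∑ v, x u v • c u v = (∑ v ∈ univ.erase (0 : ZMod q), x 0 v) • ν +
      (((q - 1) / 2) • ∑ u ∈ H, a u + ∑ u ∈ H \ sm t H, a u) := by
  classical
  have hqp := pq_ne (p := p) (q := q) hpq
  have h11 : ∀ u v, u ≠ 0 → v ≠ 0 → (2 ∣ AA x u ↔ 2 ∣ BB x v) := by
    intro u v hu hv
    have := two_yy hx hu hv
    omega
  have hodd : ∀ u, u ≠ 0 → ¬ 2 ∣ AA x u := by
    intro u hu h1
    exact hA ((h11 1 1 one_ne_zero one_ne_zero).mpr ((h11 u 1 hu one_ne_zero).mp h1))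
  set e : ZMod p → ℤ := fun u => if u ∈ H then 1 else if u = 0 then 0 else -1 with he
  have he1 : ∀ u ∈ H, e u = 1 := fun u hu => by simp only [he]; rw [if_pos hu]
  have he2 : ∀ u, u ≠ 0 → u ∉ H → e u = -1 := fun u hu h => by
    simp only [he]; rw [if_neg h, if_neg hu]
  have h0H : (0 : ZMod p) ∉ H := fun h => hH.ne 0 h rfl
  have he0 : e 0 = 0 := by simp only [he]; rw [if_neg h0H]; simp
  have hen : ∀ u, e (-u) = - e u := by
    intro u
    by_cases hu : u = 0
    · rw [hu, neg_zero, he0]; rfl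
    · by_cases h : u ∈ H
      · rw [he1 u h, he2 _ (neg_ne_zero.mpr hu) ((hH.one u hu).mp h)]
      · have h2 : -u ∈ H := by
          by_contra h3
          exact h ((hH.one u hu).mpr h3)
        rw [he1 _ h2, he2 u hu h]; rfl
  have hA0 : AA x 0 = 0 := by have := AA_neg x 0; rw [neg_zero] at this; linarith
  obtain ⟨α, hα⟩ : ∃ α : ZMod p → ℤ, ∀ u, AA x u = 2 * α u + e u := by
    refine ⟨fun u => (AA x u - e u) / 2, fun u => ?_⟩
    by_cases hu : u = 0
    · simp only [hu, hA0, he0]; rfl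
    · have h1 := hodd u hu
      have h2 : e u = 1 ∨ e u = -1 := by
        by_cases h : u ∈ H
        · exact Or.inl (he1 u h)
        · exact Or.inr (he2 u hu h)
      change AA x u = 2 * ((AA x u - e u) / 2) + e u
      omega
  have hαn : ∀ u, α (-u) = - α u := by
    intro u
    have h1 := AA_neg x u
    rw [hα, hα, hen] at h1
    linarith
  -- the row sums
  have hS : ∀ u ∈ H, ∑ v, yy x u v = q * α u - α ((q : ZMod p)⁻¹ * u) + (((q - 1) / 2 : ℕ) : ℤ) +
      (if u ∈ sm t H then 0 else 1) := by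
    intro u hu
    have hu0 := hH.ne u hu
    have h1 := row_sum hpq hx hu0
    rw [hα, hα, he1 u hu] at h1
    have hinv : ((t⁻¹ : (ZMod p)ˣ) : ZMod p) = (q : ZMod p)⁻¹ := by
      rw [Units.val_inv_eq_inv_val, ht]
    have h2 : u ∈ sm t H ↔ (q : ZMod p)⁻¹ * u ∈ H := by rw [mem_sm, hinv]
    have hqodd : (((q - 1) / 2 : ℕ) : ℤ) * 2 = q - 1 := by
      have h3 := hq.out.eq_two_or_odd.resolve_left hq2
      omega
    have hne : (q : ZMod p)⁻¹ * u ≠ 0 := mul_ne_zero (inv_ne_zero hqp) hu0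
    by_cases h : u ∈ sm t H
    · rw [if_pos h]
      rw [he1 _ (h2.mp h)] at h1
      linarith
    · rw [if_neg h]
      rw [he2 _ hne (fun h3 => h (h2.mpr h3))] at h1
      linarith
  -- the total
  have hR : ∀ u, u ≠ 0 → ∑ v, x u v • c u v = (∑ v, x u v) • a u := by
    intro u hu
    rw [sum_smul]
    exact sum_congr rfl fun v _ => by rw [hc1 u v hu]
  rw [← add_sum_erase _ _ (mem_univ (0 : ZMod p))]
  congr 1
  · rw [← add_sum_erase _ _ (mem_univ (0 : ZMod q)), hc0, smul_zero, zero_add, sum_smul]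
    exact sum_congr rfl fun v hv => by rw [hc2 v (ne_of_mem_erase hv)]
  · rw [sum_congr rfl fun u hu => hR u (ne_of_mem_erase hu),
      hH.sum_all (fun u => (∑ v, x u v) • a u)]
    have h1 : ∀ u ∈ H, (∑ v, x u v) • a u + (∑ v, x (-u) v) • a (-u) =
        α u • a ((q : ZMod p) * u) - α ((q : ZMod p)⁻¹ * u) • a u + ((q - 1) / 2) • a u +
          (if u ∈ sm t H then 0 else a u) := by
      intro u hu
      have h2 : (∑ v, x u v) • a u + (∑ v, x (-u) v) • a (-u) = (∑ v, yy x u v) • a u := by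
        have h3 : ∑ v, yy x u v = ∑ v, x u v - ∑ v, x (-u) v := by
          simp only [yy, sum_sub_distrib]
          rw [sum_neg (fun v => x (-u) v)]
        rw [h3, ha, smul_neg, sub_smul, sub_eq_add_neg]
      rw [h2, hS u hu, add_smul, add_smul, sub_smul, natCast_zsmul, mul_comm, mul_smul,
        natCast_zsmul, hqa]
      congr 1
      split_ifs
      · rw [zero_smul]
      · rw [one_smul]
    rw [sum_congr rfl h1, sum_add_distrib, sum_add_distrib, sum_sub_distrib]
    have h4 : ∑ u ∈ H, α u • a ((q : ZMod p) * u) = ∑ u ∈ H, α ((q : ZMod p)⁻¹ * u) • a u := by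
      have h5 := hH.sum_mul hqp (fun u => α ((q : ZMod p)⁻¹ * u) • a u) (by
        intro u
        rw [mul_neg, hαn, ha, neg_smul, smul_neg, neg_neg])
      rw [← h5]
      refine sum_congr rfl fun u _ => ?_
      rw [inv_mul_cancel_left₀ hqp]
    rw [h4, sub_self, zero_add, ← smul_sum]
    congr 1
    rw [sdiff_eq_filter, sum_filter]
    refine sum_congr rfl fun u _ => ?_
    by_cases h : u ∈ sm t H
    · simp [h]
    · simp [h]

end

end Pool.Agent.W519
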