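import Pool.Agent.W519.Recip

/-!
# The reciprocity law
-/

set_option autoImplicit false

namespace Pool.Agent.W519

open NumberTheorySymbols

lemma J_congr {q : ℕ} {a b : ℤ} (h : (q : ℤ) ∣ a - b) : J(a | q) = J(b | q) := by
  apply jacobiSym.mod_left'
  exact Int.emod_eq_emod_iff_emod_sub_eq_zero.mpr (Int.emod_eq_zero_of_dvd h)

lemma gcd_of_not_dvd {q : ℕ} (hq : q.Prime) {a : ℤ} (h : ¬ (q : ℤ) ∣ a) : a.gcd q = 1 := by
  rw [Int.gcd_comm, Int.gcd_eq_natAbs, Int.natAbs_natCast]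
  apply (Nat.Prime.coprime_iff_not_dvd hq).mpr
  rwa [← Int.natCast_dvd]

lemma J_sq {q : ℕ} (hq : q.Prime) {a : ℤ} (h : ¬ (q : ℤ) ∣ a) : J(a | q) * J(a | q) = 1 := by
  have := jacobiSym.sq_one (gcd_of_not_dvd hq h)
  rw [← this]; ring

lemma J_swap {q r : ℕ} (hr : Odd r) (hq : q % 4 = 1) : J((r : ℤ) | q) = J((q : ℤ) | r) :=
  jacobiSym.quadratic_reciprocity_one_mod_four' hr hq

/-- the quotient solution of the norm equation -/
lemma quot_norm {ℓ : ℕ} (hℓ : ℓ.Prime) {h z n : ℤ} (hh : h ≠ 0) (e : h ^ 2 * n = ℓ * z ^ 2) :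
    ∃ z1 : ℤ, n = ℓ * z1 ^ 2 := by
  have hℓ0 : (ℓ : ℤ) ≠ 0 := by exact_mod_cast hℓ.ne_zero
  have h1 : h ^ 2 ∣ ((ℓ : ℤ) * z) ^ 2 := ⟨ℓ * n, by
    calc ((ℓ : ℤ) * z) ^ 2 = ℓ * (ℓ * z ^ 2) := by ring
      _ = ℓ * (h ^ 2 * n) := by rw [e]
      _ = h ^ 2 * (ℓ * n) := by ring⟩
  obtain ⟨w, hw⟩ := (Int.pow_dvd_pow_iff two_ne_zero).mp h1
  have h2 : w ^ 2 = ℓ * n := by
    have h3 : h ^ 2 * w ^ 2 = h ^ 2 * (ℓ * n) := by
      calc h ^ 2 * w ^ 2 = (h * w) ^ 2 := by ring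
        _ = (ℓ * z) ^ 2 := by rw [hw]
        _ = ℓ * (ℓ * z ^ 2) := by ring
        _ = ℓ * (h ^ 2 * n) := by rw [e]
        _ = h ^ 2 * (ℓ * n) := by ring
    exact mul_left_cancel₀ (pow_ne_zero 2 hh) h3
  have hp : Prime (ℓ : ℤ) := Nat.prime_iff_prime_int.mp hℓ
  obtain ⟨z1, hz1⟩ := hp.dvd_of_dvd_pow (n := 2) (a := w) ⟨n, h2⟩
  refine ⟨z1, ?_⟩
  have h3 : (ℓ : ℤ) * n = ℓ * (ℓ * z1 ^ 2) := by rw [← h2, hz1]; ring
  exact mul_left_cancel₀ hℓ0 h3

section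

variable {p q ℓ : ℕ} [hp : Fact p.Prime] [hq : Fact q.Prime] [hℓ : Fact ℓ.Prime]
  (hp2 : p ≠ 2) (hq4 : q % 4 = 1) (hℓ8 : ℓ % 8 = 1) (hpℓ : p ≠ ℓ) (hqℓ : q ≠ ℓ)
  {D : ℤ} (hDp : D.natAbs = p)
  {x y z X Y Z : ℤ} (h1 : x ^ 2 - D * y ^ 2 = ℓ * z ^ 2) (h2 : X ^ 2 - D * Y ^ 2 = q * Z ^ 2)
  (hxy : IsCoprime x y) (hXY : IsCoprime X Y)

include hp hℓ hpℓ hDp h1 hxy in
lemma p_not_dvd : ¬ (p : ℤ) ∣ x := by
  intro h
  have hpp : Prime (p : ℤ) := Nat.prime_iff_prime_int.mp hp.out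
  have hpD : (p : ℤ) ∣ D := by rw [← hDp]; exact Int.natAbs_dvd.mpr dvd_rfl
  have h3 : (p : ℤ) ∣ ℓ * z ^ 2 := by
    rw [← h1]; exact dvd_sub (dvd_pow h two_ne_zero) (Dvd.dvd.mul_right hpD _)
  have h4 : ¬ (p : ℤ) ∣ ℓ := by
    rw [Int.natCast_dvd_natCast]
    intro h5
    exact hpℓ ((Nat.prime_dvd_prime_iff_eq hp.out hℓ.out).mp h5)
  have h5 : (p : ℤ) ∣ z := hpp.dvd_of_dvd_pow ((hpp.dvd_or_dvd h3).resolve_left h4)
  obtain ⟨x', rfl⟩ := h
  obtain ⟨z', rfl⟩ := h5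
  obtain ⟨D', hD'⟩ := hpD
  have hp0 : (p : ℤ) ≠ 0 := by exact_mod_cast hp.out.ne_zero
  have hD'u : D'.natAbs = 1 := by
    have := congrArg Int.natAbs hD'
    rw [hDp, Int.natAbs_mul, Int.natAbs_natCast] at this
    have h6 : p * 1 = p * D'.natAbs := by omega
    exact (Nat.eq_of_mul_eq_mul_left hp.out.pos h6).symm
  have h6 : D' * y ^ 2 = p * (x' ^ 2 - ℓ * z' ^ 2) := by
    apply mul_left_cancel₀ hp0
    rw [hD'] at h1
    linear_combination -h1
  have h7 : (p : ℤ) ∣ y := by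
    have h8 : (p : ℤ) ∣ D' * y ^ 2 := ⟨_, h6⟩
    rcases hpp.dvd_or_dvd h8 with h9 | h9
    · exfalso
      have := Int.natAbs_dvd_natAbs.mpr h9
      rw [hD'u, Int.natAbs_natCast] at this
      exact hp.out.one_lt.ne' (Nat.dvd_one.mp this)
    · exact hpp.dvd_of_dvd_pow h9
  exact not_dvd_both hxy hp.out (dvd_mul_right _ _) h7

include hp hℓ hpℓ hDp h1 h2 hxy hXY in
/-- at the odd primes modulo which `ℓ * q` is not a square the valuation of `x * Y - y * X` is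
even -/
lemma even_val_R {r : ℕ} (hr : r.Prime) (hr2 : r ≠ 2) (hJ : J(((q * ℓ : ℕ) : ℤ) | r) = -1)
    (hR : x * Y - y * X ≠ 0) (hR' : x * Y + y * X ≠ 0) :
    Even (padicValInt r (x * Y - y * X)) := by
  have : Fact r.Prime := ⟨hr⟩
  have hrp : Prime (r : ℤ) := Nat.prime_iff_prime_int.mp hr
  have hℓ0 : (ℓ : ℤ) ≠ 0 := by exact_mod_cast hℓ.out.ne_zero
  have hrql : ¬ r ∣ q * ℓ := by
    intro h
    have h3 : J(((q * ℓ : ℕ) : ℤ) | r) = 0 := by
      rw [jacobiSym.eq_zero_iff]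
      refine ⟨hr.ne_zero, ?_⟩
      rw [Int.gcd_natCast_natCast]
      intro h4
      have := Nat.Coprime.eq_one_of_dvd (Nat.Coprime.symm h4) h
      exact hr.ne_one this
    rw [h3] at hJ; norm_num at hJ
  have key : ((ℓ : ℤ) * Y * z) ^ 2 - ((q * ℓ : ℕ) : ℤ) * (y * Z) ^ 2 =
      ℓ * ((x * Y - y * X) * (x * Y + y * X)) := by
    push_cast
    linear_combination -(ℓ : ℤ) * Y ^ 2 * h1 + (ℓ : ℤ) * y ^ 2 * h2
  have hev := even_val_of_norm hJ _ _ _ _ rfl key (mul_ne_zero hℓ0 (mul_ne_zero hR hR'))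
  have hvl : padicValInt r (ℓ : ℤ) = 0 := by
    apply padicValInt.eq_zero_of_not_dvd
    rw [Int.natCast_dvd_natCast]
    exact fun h => hrql (Dvd.dvd.mul_left h q)
  rw [padicValInt.mul hℓ0 (mul_ne_zero hR hR'), padicValInt.mul hR hR', hvl, zero_add] at hev
  by_contra hodd
  rw [Nat.not_even_iff_odd] at hodd
  have hodd' : Odd (padicValInt r (x * Y + y * X)) := by
    rw [← Nat.not_even_iff_odd]
    intro h3
    exact (Nat.not_even_iff_odd.mpr hodd) ((Nat.even_add.mp hev).mpr h3)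
  have hd1 : (r : ℤ) ∣ x * Y - y * X := by
    by_contra h3
    rw [padicValInt.eq_zero_of_not_dvd h3] at hodd
    exact absurd hodd (by decide)
  have hd2 : (r : ℤ) ∣ x * Y + y * X := by
    by_contra h3
    rw [padicValInt.eq_zero_of_not_dvd h3] at hodd'
    exact absurd hodd' (by decide)
  have hr2' : ¬ (r : ℤ) ∣ 2 := by
    intro h3
    have : r ∣ 2 := by exact_mod_cast h3
    exact hr2 ((Nat.prime_dvd_prime_iff_eq hr Nat.prime_two).mp this)
  have hxY : (r : ℤ) ∣ x * Y := by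
    have h3 : (r : ℤ) ∣ 2 * (x * Y) := by
      have := dvd_add hd1 hd2
      ring_nf at this ⊢
      exact this
    exact (hrp.dvd_or_dvd h3).resolve_left hr2'
  have hyX : (r : ℤ) ∣ y * X := by
    have h3 : (r : ℤ) ∣ 2 * (y * X) := by
      have := dvd_sub hd2 hd1
      ring_nf at this ⊢
      exact this
    exact (hrp.dvd_or_dvd h3).resolve_left hr2'
  rcases hrp.dvd_or_dvd hxY with hx | hY
  · have hy : ¬ (r : ℤ) ∣ y := fun h => not_dvd_both hxy hr hx h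
    have hX : (r : ℤ) ∣ X := (hrp.dvd_or_dvd hyX).resolve_left hy
    have hY : ¬ (r : ℤ) ∣ Y := fun h => not_dvd_both hXY hr hX h
    by_cases hrpe : r = p
    · subst hrpe
      exact p_not_dvd (hℓ := hℓ) hpℓ hDp h1 hxy hx
    · have hD : ¬ (r : ℤ) ∣ D := by
        intro h
        have := Int.natAbs_dvd_natAbs.mpr h
        rw [hDp, Int.natAbs_natCast] at this
        exact hrpe ((Nat.prime_dvd_prime_iff_eq hr hp.out).mp this)
      obtain ⟨x', hx'⟩ := hx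
      obtain ⟨X', hX'⟩ := hX
      have h3 : (r : ℤ) ∣ (D * y * Y) ^ 2 - ((q * ℓ : ℕ) : ℤ) * (z * Z) ^ 2 := by
        have e1 : (ℓ : ℤ) * z ^ 2 = r * (r * x' ^ 2) - D * y ^ 2 := by rw [← h1, hx']; ring
        have e2 : (q : ℤ) * Z ^ 2 = r * (r * X' ^ 2) - D * Y ^ 2 := by rw [← h2, hX']; ring
        have e3 : (D * y * Y) ^ 2 - ((q * ℓ : ℕ) : ℤ) * (z * Z) ^ 2 =
            D * y ^ 2 * (D * Y ^ 2) - (ℓ * z ^ 2) * (q * Z ^ 2) := by push_cast; ring
        rw [e3, e1, e2]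
        exact ⟨D * Y ^ 2 * (r * x' ^ 2) + D * y ^ 2 * (r * X' ^ 2) -
          r * (r * x' ^ 2) * (r * X' ^ 2), by ring⟩
      have h4 := (jacobiSym.prime_dvd_of_eq_neg_one hJ h3).1
      rcases hrp.dvd_or_dvd h4 with h5 | h5
      · rcases hrp.dvd_or_dvd h5 with h6 | h6
        · exact hD h6
        · exact hy h6
      · exact hY h5
  · have hX : ¬ (r : ℤ) ∣ X := fun h => not_dvd_both hXY hr h hY
    have hy : (r : ℤ) ∣ y := (hrp.dvd_or_dvd hyX).resolve_right hX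
    have hx : ¬ (r : ℤ) ∣ x := fun h => not_dvd_both hxy hr h hy
    obtain ⟨y', hy'⟩ := hy
    obtain ⟨Y', hY'⟩ := hY
    have h3 : (r : ℤ) ∣ (x * X) ^ 2 - ((q * ℓ : ℕ) : ℤ) * (z * Z) ^ 2 := by
      have e1 : (ℓ : ℤ) * z ^ 2 = x ^ 2 - r * (D * r * y' ^ 2) := by rw [← h1, hy']; ring
      have e2 : (q : ℤ) * Z ^ 2 = X ^ 2 - r * (D * r * Y' ^ 2) := by rw [← h2, hY']; ring
      have e3 : (x * X) ^ 2 - ((q * ℓ : ℕ) : ℤ) * (z * Z) ^ 2 =
          x ^ 2 * X ^ 2 - (ℓ * z ^ 2) * (q * Z ^ 2) := by push_cast; ring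
      rw [e3, e1, e2]
      exact ⟨X ^ 2 * (D * r * y' ^ 2) + x ^ 2 * (D * r * Y' ^ 2) -
        (D * r * y' ^ 2) * r * (D * r * Y' ^ 2), by ring⟩
    have h4 := (jacobiSym.prime_dvd_of_eq_neg_one hJ h3).1
    rcases hrp.dvd_or_dvd h4 with h5 | h5
    · exact hx h5
    · exact hX h5

end

/-- **Reciprocity.** -/
theorem recip {p q ℓ : ℕ} [hp : Fact p.Prime] [hq : Fact q.Prime] [hℓ : Fact ℓ.Prime]
    (hp2 : p ≠ 2) (hq4 : q % 4 = 1) (hℓ8 : ℓ % 8 = 1) (hpℓ : p ≠ ℓ) (hqℓ : q ≠ ℓ)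
    {D : ℤ} (hDp : D.natAbs = p) (hD4 : D % 4 = 1)
    (hpq : J((p : ℤ) | q) = 1) (hℓq : J((ℓ : ℤ) | q) = 1)
    {x y z X Y Z : ℤ} (h1 : x ^ 2 - D * y ^ 2 = ℓ * z ^ 2) (h2 : X ^ 2 - D * Y ^ 2 = q * Z ^ 2)
    (hXY : IsCoprime X Y) (hZ : Z % 2 = 1)
    (hodd : ∀ r : ℕ, r.Prime → r ≠ 2 → r ≠ p → r ≠ ℓ → ∀ (j : ℕ) (x' y' : ℤ),
      x = (r : ℤ) ^ j * x' → y = (r : ℤ) ^ j * y' → ¬ ((r : ℤ) ∣ x' ∧ (r : ℤ) ∣ y') → Even j)
    (htwo : ∀ (j : ℕ) (x' y' : ℤ), x = 2 ^ j * x' → y = 2 ^ j * y' →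
      ¬ ((2 : ℤ) ∣ x' ∧ (2 : ℤ) ∣ y') → (Even j ↔ ¬ (x' % 2 = 1 ∧ y' % 2 = 1)))
    {d e : ℤ} (hd : (q : ℤ) ∣ X + Y * d) (hxd : ¬ (q : ℤ) ∣ x + y * d)
    (he : (ℓ : ℤ) ∣ e ^ 2 - D) (hℓZ : ¬ (ℓ : ℤ) ∣ Z) :
    J(x + y * d | q) = J(X + Y * e | ℓ) := by
  have hqp : Prime (q : ℤ) := Nat.prime_iff_prime_int.mp hq.out
  have hℓp : Prime (ℓ : ℤ) := Nat.prime_iff_prime_int.mp hℓ.out
  have hq2 : q ≠ 2 := by rintro rfl; norm_num at hq4
  have hℓ2 : ℓ ≠ 2 := by rintro rfl; norm_num at hℓ8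
  have hpodd : Odd p := hp.out.odd_of_ne_two hp2
  have hqodd : Odd q := hq.out.odd_of_ne_two hq2
  have hℓodd : Odd ℓ := hℓ.out.odd_of_ne_two hℓ2
  have hℓ4 : ℓ % 4 = 1 := by omega
  -- nonzero
  have hxy0 : 0 < Int.gcd x y := by
    rw [Int.gcd_pos_iff]
    by_contra h
    push Not at h
    apply hxd
    rw [h.1, h.2]; simp
  obtain ⟨x1, y1, hg, hx, hy⟩ := Int.exists_gcd_one hxy0
  set h : ℤ := (Int.gcd x y : ℤ) with hh
  have hh0 : h ≠ 0 := by rw [hh]; exact_mod_cast hxy0.ne'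
  have hco : IsCoprime x1 y1 := Int.isCoprime_iff_gcd_eq_one.mpr hg
  have hxe : x = h * x1 := by rw [mul_comm]; exact hx
  have hye : y = h * y1 := by rw [mul_comm]; exact hy
  obtain ⟨z1, h1'⟩ := quot_norm hℓ.out (z := z) hh0 (n := x1 ^ 2 - D * y1 ^ 2) (by
    rw [← h1, hxe, hye]; ring)
  set R := x1 * Y - y1 * X with hR
  -- units modulo q
  have hqh : ¬ (q : ℤ) ∣ h := by
    intro h3
    apply hxd
    rw [hxe, hye]
    obtain ⟨k, hk⟩ := h3
    exact ⟨k * (x1 + y1 * d), by rw [hk]; ring⟩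
  have hqY : ¬ (q : ℤ) ∣ Y := by
    intro h3
    have h4 : (q : ℤ) ∣ X := by
      have := dvd_sub hd (Dvd.dvd.mul_right h3 d)
      simpa using this
    exact not_dvd_both hXY hq.out h4 h3
  have hRq : ¬ (q : ℤ) ∣ R := by
    intro h3
    have h4 : (q : ℤ) ∣ (x1 + y1 * d) * Y := by
      have e1 : (x1 + y1 * d) * Y = R + y1 * (X + Y * d) := by rw [hR]; ring
      rw [e1]
      exact dvd_add h3 (Dvd.dvd.mul_left hd _)
    rcases hqp.dvd_or_dvd h4 with h5 | h5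
    · apply hxd
      rw [hxe, hye]
      obtain ⟨k, hk⟩ := h5
      exact ⟨h * k, by linear_combination h * hk⟩
    · exact hqY h5
  -- step 1
  have s1 : J(x + y * d | q) * J(Y | q) = J(h | q) * J(R | q) := by
    rw [← jacobiSym.mul_left, ← jacobiSym.mul_left]
    apply J_congr
    have e1 : (x + y * d) * Y - h * R = h * y1 * (X + Y * d) := by rw [hxe, hye, hR]; ring
    rw [e1]
    exact Dvd.dvd.mul_left hd _
  -- units modulo ℓ
  have hℓy : ¬ (ℓ : ℤ) ∣ y1 := by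
    intro h3
    have h4 : (ℓ : ℤ) ∣ x1 ^ 2 := by
      have e1 : x1 ^ 2 = ℓ * z1 ^ 2 + D * y1 ^ 2 := by linear_combination h1'
      rw [e1]
      exact dvd_add (dvd_mul_right _ _) (Dvd.dvd.mul_left (dvd_pow h3 two_ne_zero) _)
    exact not_dvd_both hco hℓ.out (hℓp.dvd_of_dvd_pow h4) h3
  have hJℓq : J((q : ℤ) | ℓ) = 1 := by rw [J_swap hqodd hℓ4]; exact hℓq
  have hqZ : ¬ (ℓ : ℤ) ∣ q * Z ^ 2 := by
    intro h3
    rcases hℓp.dvd_or_dvd h3 with h4 | h4
    · rw [Int.natCast_dvd_natCast] at h4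
      exact hqℓ ((Nat.prime_dvd_prime_iff_eq hℓ.out hq.out).mp h4).symm
    · exact hℓZ (hℓp.dvd_of_dvd_pow h4)
  have hprod : (ℓ : ℤ) ∣ (X + Y * e) * (X - Y * e) - q * Z ^ 2 := by
    have e1 : (X + Y * e) * (X - Y * e) - q * Z ^ 2 = -(Y ^ 2) * (e ^ 2 - D) := by
      rw [← h2]; ring
    rw [e1]; exact Dvd.dvd.mul_left he _
  have hsym : J(X + Y * e | ℓ) = J(X - Y * e | ℓ) := by
    have e1 : J(X + Y * e | ℓ) * J(X - Y * e | ℓ) = 1 := by
      rw [← jacobiSym.mul_left, J_congr hprod, jacobiSym.mul_left, hJℓq, one_mul,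
        jacobiSym.sq_one' (gcd_of_not_dvd hℓ.out hℓZ)]
    have h3 : ¬ (ℓ : ℤ) ∣ X - Y * e := by
      intro h4
      apply hqZ
      have := dvd_sub (Dvd.dvd.mul_left h4 (X + Y * e)) hprod
      simpa using this
    have e2 := J_sq hℓ.out h3
    calc J(X + Y * e | ℓ) = J(X + Y * e | ℓ) * (J(X - Y * e | ℓ) * J(X - Y * e | ℓ)) := by
          rw [e2, mul_one]
      _ = (J(X + Y * e | ℓ) * J(X - Y * e | ℓ)) * J(X - Y * e | ℓ) := by ring
      _ = _ := by rw [e1, one_mul]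
  obtain ⟨e', he'1, he'2, he'3⟩ : ∃ e' : ℤ, (ℓ : ℤ) ∣ x1 + y1 * e' ∧
      J(X + Y * e | ℓ) = J(X + Y * e' | ℓ) ∧
      (ℓ : ℤ) ∣ (X + Y * e') * (X - Y * e') - q * Z ^ 2 := by
    have h3 : (ℓ : ℤ) ∣ (x1 + y1 * e) * (x1 - y1 * e) := by
      have e1 : (x1 + y1 * e) * (x1 - y1 * e) = ℓ * z1 ^ 2 - y1 ^ 2 * (e ^ 2 - D) := by
        rw [← h1']; ring
      rw [e1]
      exact dvd_sub (dvd_mul_right _ _) (Dvd.dvd.mul_left he _)
    rcases hℓp.dvd_or_dvd h3 with h4 | h4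
    · exact ⟨e, h4, rfl, hprod⟩
    · refine ⟨-e, ?_, ?_, ?_⟩
      · have : x1 + y1 * -e = x1 - y1 * e := by ring
        rw [this]; exact h4
      · rw [hsym]; congr 1; ring
      · have : (X + Y * -e) * (X - Y * -e) = (X + Y * e) * (X - Y * e) := by ring
        rw [this]; exact hprod
  have hJm1 : J(-1 | ℓ) = 1 := by
    rw [jacobiSym.at_neg_one hℓodd, ZMod.χ₄_nat_one_mod_four hℓ4]
  have s2 : J(X + Y * e | ℓ) * J(y1 | ℓ) = J(R | ℓ) := by
    rw [he'2, ← jacobiSym.mul_left]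
    have e1 : J(R | ℓ) = J(-R | ℓ) := by
      rw [jacobiSym.neg _ hℓodd, ZMod.χ₄_nat_one_mod_four hℓ4, one_mul]
    rw [e1]
    apply J_congr
    have e2 : (X + Y * e') * y1 - -R = Y * (x1 + y1 * e') := by rw [hR]; ring
    rw [e2]; exact Dvd.dvd.mul_left he'1 _
  have hR0 : R ≠ 0 := by
    intro h3; rw [h3] at hRq; exact hRq (dvd_zero _)
  have hR'ℓ : ¬ (ℓ : ℤ) ∣ x1 * Y + y1 * X := by
    intro h3
    have h4 : (ℓ : ℤ) ∣ y1 * (X - Y * e') := by
      have e1 : y1 * (X - Y * e') = (x1 * Y + y1 * X) - Y * (x1 + y1 * e') := by ring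
      rw [e1]
      exact dvd_sub h3 (Dvd.dvd.mul_left he'1 _)
    have h5 := (hℓp.dvd_or_dvd h4).resolve_left hℓy
    apply hqZ
    have := dvd_sub (Dvd.dvd.mul_left h5 (X + Y * e')) he'3
    simpa using this
  have hRℓ : ¬ (ℓ : ℤ) ∣ R := by
    intro h3
    have h4 : (ℓ : ℤ) ∣ y1 * (X + Y * e') := by
      have e1 : y1 * (X + Y * e') = -R + Y * (x1 + y1 * e') := by rw [hR]; ring
      rw [e1]
      exact dvd_add ((dvd_neg).mpr h3) (Dvd.dvd.mul_left he'1 _)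
    have h5 := (hℓp.dvd_or_dvd h4).resolve_left hℓy
    apply hqZ
    have := dvd_sub (Dvd.dvd.mul_right h5 (X - Y * e')) he'3
    simpa using this
  have hR'0 : x1 * Y + y1 * X ≠ 0 := by
    intro h3; rw [h3] at hR'ℓ; exact hR'ℓ (dvd_zero _)
  -- step 3
  have hb4 : (q * ℓ) % 4 = 1 := by rw [Nat.mul_mod, hq4, hℓ4]
  have hRb : R.gcd ((q * ℓ : ℕ) : ℤ) = 1 := by
    have := Int.isCoprime_iff_gcd_eq_one.mp (IsCoprime.mul_right
      (Int.isCoprime_iff_gcd_eq_one.mpr (gcd_of_not_dvd hq.out hRq))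
      (Int.isCoprime_iff_gcd_eq_one.mpr (gcd_of_not_dvd hℓ.out hRℓ)))
    push_cast
    exact this
  have hJ2ℓ : J(2 | ℓ) = 1 := by
    rw [jacobiSym.at_two hℓodd, ZMod.χ₈_nat_eq_if_mod_eight]
    simp [hℓ8, show ℓ % 2 = 1 by omega]
  have : NeZero q := ⟨hq.out.ne_zero⟩
  have : NeZero ℓ := ⟨hℓ.out.ne_zero⟩
  have s3 : J(R | q) * J(R | ℓ) = J(2 | q) ^ padicValInt 2 R := by
    have h3 := J_of_even hb4 hR0 hRb (fun r hr hr2 _ hJ =>
      even_val_R (hp := hp) (hℓ := hℓ) hpℓ hDp h1' h2 hco hXY hr hr2 hJ hR0 hR'0)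
    rw [jacobiSym.mul_right, jacobiSym.mul_right, hJ2ℓ, mul_one] at h3
    exact h3
  -- step 4
  have hY0 : Y ≠ 0 := by intro h3; rw [h3] at hqY; exact hqY (dvd_zero _)
  have hy0 : y1 ≠ 0 := by intro h3; rw [h3] at hℓy; exact hℓy (dvd_zero _)
  have s4 : J(Y | q) = J(2 | q) ^ padicValInt 2 Y := by
    refine J_of_even hq4 hY0 (gcd_of_not_dvd hq.out hqY) (fun r hr hr2 hrY hJ => ?_)
    exfalso
    have : Fact r.Prime := ⟨hr⟩
    have h3 : (r : ℤ) ∣ X ^ 2 - q * Z ^ 2 := by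
      have e1 : X ^ 2 - q * Z ^ 2 = D * Y ^ 2 := by rw [← h2]; ring
      rw [e1]; exact Dvd.dvd.mul_left (dvd_pow hrY two_ne_zero) _
    exact not_dvd_both hXY hr (jacobiSym.prime_dvd_of_eq_neg_one hJ h3).1 hrY
  have s5 : J(y1 | ℓ) = 1 := by
    rw [J_of_even hℓ4 hy0 (gcd_of_not_dvd hℓ.out hℓy) (fun r hr hr2 hrY hJ => ?_), hJ2ℓ, one_pow]
    exfalso
    have : Fact r.Prime := ⟨hr⟩
    have h3 : (r : ℤ) ∣ x1 ^ 2 - ℓ * z1 ^ 2 := by
      have e1 : x1 ^ 2 - ℓ * z1 ^ 2 = D * y1 ^ 2 := by rw [← h1']; ring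
      rw [e1]; exact Dvd.dvd.mul_left (dvd_pow hrY two_ne_zero) _
    exact not_dvd_both hco hr (jacobiSym.prime_dvd_of_eq_neg_one hJ h3).1 hrY
  have hJqp : J((q : ℤ) | p) = 1 := by rw [← J_swap hpodd hq4]; exact hpq
  have s6 : J(h | q) = J(2 | q) ^ padicValInt 2 h := by
    refine J_of_even hq4 hh0 (gcd_of_not_dvd hq.out hqh) (fun r hr hr2 _ hJ => ?_)
    have : Fact r.Prime := ⟨hr⟩
    have hrp : r ≠ p := by rintro rfl; rw [hJqp] at hJ; norm_num at hJ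
    have hrℓ : r ≠ ℓ := by rintro rfl; rw [hJℓq] at hJ; norm_num at hJ
    obtain ⟨j, h', hh', hnd⟩ := exists_split hr hh0
    rw [hh', val_pow_mul hnd]
    refine hodd r hr hr2 hrp hrℓ j (h' * x1) (h' * y1) ?_ ?_ ?_
    · rw [hxe, hh']; ring
    · rw [hye, hh']; ring
    · rintro ⟨h3, h4⟩
      have hrr : Prime (r : ℤ) := Nat.prime_iff_prime_int.mp hr
      exact not_dvd_both hco hr ((hrr.dvd_or_dvd h3).resolve_left hnd)
        ((hrr.dvd_or_dvd h4).resolve_left hnd)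
  -- step 7: the prime two
  have s7 : J(2 | q) ^ (padicValInt 2 h + padicValInt 2 R + padicValInt 2 Y) = 1 := by
    have hq8 : q % 8 = 1 ∨ q % 8 = 5 := by omega
    rcases hq8 with hq8 | hq8
    · have : J(2 | q) = 1 := by
        rw [jacobiSym.at_two hqodd, ZMod.χ₈_nat_eq_if_mod_eight]
        simp [hq8, show q % 2 = 1 by omega]
      rw [this, one_pow]
    · have hJ2 : J(2 | q) = -1 := by
        rw [jacobiSym.at_two hqodd, ZMod.χ₈_nat_eq_if_mod_eight]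
        simp [hq8, show q % 2 = 1 by omega]
      rw [hJ2]
      apply Even.neg_one_pow
      obtain ⟨j, h', hh', hnd⟩ := exists_split Nat.prime_two hh0
      have hj : padicValInt 2 h = j := by rw [hh']; exact val_pow_mul hnd
      rw [hj]
      have hnd' : h' % 2 = 1 := by
        have : ¬ (2 : ℤ) ∣ h' := hnd
        omega
      have hev := htwo j (h' * x1) (h' * y1) (by rw [hxe, hh']; push_cast; ring)
        (by rw [hye, hh']; push_cast; ring) (by
          rintro ⟨h3, h4⟩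
          have hrr : Prime (2 : ℤ) := Int.prime_two
          exact not_dvd_both hco Nat.prime_two ((hrr.dvd_or_dvd h3).resolve_left hnd)
            ((hrr.dvd_or_dvd h4).resolve_left hnd))
      have ex : (h' * x1) % 2 = x1 % 2 := by
        rw [Int.mul_emod, hnd', one_mul, Int.emod_emod_of_dvd _ dvd_rfl]
      have ey : (h' * y1) % 2 = y1 % 2 := by
        rw [Int.mul_emod, hnd', one_mul, Int.emod_emod_of_dvd _ dvd_rfl]
      rw [ex, ey] at hev
      -- the parities of X and Y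
      have key : ∀ a : ℤ, a % 2 = 1 → (a ^ 2) % 8 = 1 := by
        intro a ha
        have h8 : a % 8 = 1 ∨ a % 8 = 3 ∨ a % 8 = 5 ∨ a % 8 = 7 := by omega
        rcases h8 with h | h | h | h <;> simp [pow_two, Int.mul_emod, h]
      have key2 : ∀ a : ℤ, a % 2 = 0 → (a ^ 2) % 8 = if a % 4 = 0 then 0 else 4 := by
        intro a ha
        have h8 : a % 8 = 0 ∨ a % 8 = 2 ∨ a % 8 = 4 ∨ a % 8 = 6 := by omega
        have h4 : a % 4 = 0 ∨ a % 4 = 2 := by omega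
        rcases h8 with h | h | h | h <;> rcases h4 with h' | h' <;>
          first | omega | (simp [pow_two, Int.mul_emod, h, h'])
      have hDmod : D % 8 = 1 ∨ D % 8 = 5 := by omega
      have hZ8 := key Z hZ
      have hqZ8 : (q * Z ^ 2 : ℤ) % 8 = 5 := by
        rw [Int.mul_emod, hZ8]; omega
      have hXodd : X % 2 = 1 ∧ Y % 4 = 2 := by
        rcases Int.emod_two_eq_zero_or_one X with hX2 | hX2 <;>
        rcases Int.emod_two_eq_zero_or_one Y with hY2 | hY2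
        · exfalso
          have e1 := key2 X hX2
          have e2 := key2 Y hY2
          have e3 : (D * Y ^ 2) % 2 = 0 := by
            rw [Int.mul_emod]; have : (Y ^ 2) % 2 = 0 := by split_ifs at e2 <;> omega
            rw [this]; simp
          have e4 : (X ^ 2) % 2 = 0 := by split_ifs at e1 <;> omega
          omega
        · exfalso
          have e1 := key2 X hX2
          have e2 := key Y hY2
          have e3 : (D * Y ^ 2) % 8 = D % 8 := by
            rw [Int.mul_emod, e2, mul_one, Int.emod_emod_of_dvd _ dvd_rfl]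
          split_ifs at e1 <;> omega
        · refine ⟨hX2, ?_⟩
          have e1 := key X hX2
          have e2 := key2 Y hY2
          split_ifs at e2 with h4
          · exfalso
            have e3 : (D * Y ^ 2) % 8 = 0 := by rw [Int.mul_emod, e2]; simp
            omega
          · omega
        · exfalso
          have e1 := key X hX2
          have e2 := key Y hY2
          have e3 : (D * Y ^ 2) % 8 = D % 8 := by
            rw [Int.mul_emod, e2, mul_one, Int.emod_emod_of_dvd _ dvd_rfl]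
          omega
      obtain ⟨hX2, hY4⟩ := hXodd
      have hvY : padicValInt 2 Y = 1 := val_two_mod hY4
      rw [hvY]
      by_cases hb : x1 % 2 = 1 ∧ y1 % 2 = 1
      · -- both odd
        have hjodd : ¬ Even j := fun h3 => (hev.mp h3) hb
        have hRodd : R % 2 = 1 := by
          have e1 : (x1 * Y) % 2 = 0 := by rw [Int.mul_emod]; simp [show Y % 2 = 0 by omega]
          have e2 : (y1 * X) % 2 = 1 := by rw [Int.mul_emod, hb.2, hX2]; rfl
          rw [hR]; omega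
        rw [val_two_odd hRodd, add_zero]
        exact (Nat.not_even_iff_odd.mp hjodd).add_odd odd_one
      · have hjev : Even j := hev.mpr hb
        have hℓz8 : ∀ a : ℤ, (ℓ * a : ℤ) % 8 = a % 8 := by
          intro a
          have : (ℓ : ℤ) % 8 = 1 := by omega
          rw [Int.mul_emod, this, one_mul, Int.emod_emod_of_dvd _ dvd_rfl]
        have hz8 := hℓz8 (z1 ^ 2)
        rw [← h1'] at hz8
        have hx2y4 : x1 % 2 = 1 ∧ y1 % 4 = 0 := by
          rcases Int.emod_two_eq_zero_or_one x1 with hX2 | hX2 <;>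
          rcases Int.emod_two_eq_zero_or_one y1 with hY2 | hY2
          · exfalso
            exact not_dvd_both hco Nat.prime_two (Int.dvd_of_emod_eq_zero hX2)
              (Int.dvd_of_emod_eq_zero hY2)
          · exfalso
            have e1 := key2 x1 hX2
            have e2 := key y1 hY2
            have e3 : (D * y1 ^ 2) % 8 = D % 8 := by
              rw [Int.mul_emod, e2, mul_one, Int.emod_emod_of_dvd _ dvd_rfl]
            rcases Int.emod_two_eq_zero_or_one z1 with hz2 | hz2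
            · have e4 := key2 z1 hz2
              split_ifs at e1 e4 <;> omega
            · have e4 := key z1 hz2
              split_ifs at e1 <;> omega
          · refine ⟨hX2, ?_⟩
            have e1 := key x1 hX2
            have e2 := key2 y1 hY2
            split_ifs at e2 with h4
            · exact h4
            · exfalso
              have e3 : (D * y1 ^ 2) % 8 = 4 := by
                rw [Int.mul_emod, e2]
                rcases hDmod with h5 | h5 <;> rw [h5] <;> rfl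
              rcases Int.emod_two_eq_zero_or_one z1 with hz2 | hz2
              · have e4 := key2 z1 hz2
                split_ifs at e4 <;> omega
              · have e4 := key z1 hz2
                omega
          · exact absurd ⟨hX2, hY2⟩ hb
        have hR4 : R % 4 = 2 := by
          have e1 : (x1 * Y) % 4 = 2 := by
            have h5 : x1 % 4 = 1 ∨ x1 % 4 = 3 := by omega
            rw [Int.mul_emod, hY4]
            rcases h5 with h5 | h5 <;> rw [h5] <;> rfl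
          have e2 : (y1 * X) % 4 = 0 := by rw [Int.mul_emod, hx2y4.2]; simp
          rw [hR]; omega
        rw [val_two_mod hR4]
        obtain ⟨i, hi⟩ := hjev
        exact ⟨i + 1, by omega⟩
  -- conclusion
  rw [s5, mul_one] at s2
  have e1 : J(x + y * d | q) = J(h | q) * J(R | q) * J(Y | q) := by
    rw [← s1, mul_assoc, J_sq hq.out hqY, mul_one]
  have e2 : J(R | q) = J(2 | q) ^ padicValInt 2 R * J(R | ℓ) := by
    rw [← s3, mul_assoc, J_sq hℓ.out hRℓ, mul_one]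
  rw [e1, e2, s2, s4, s6]
  calc J(2 | q) ^ padicValInt 2 h * (J(2 | q) ^ padicValInt 2 R * J(R | ℓ)) *
        J(2 | q) ^ padicValInt 2 Y
      = J(2 | q) ^ (padicValInt 2 h + padicValInt 2 R + padicValInt 2 Y) * J(R | ℓ) := by
        rw [pow_add, pow_add]; ring
    _ = J(R | ℓ) := by rw [s7, one_mul]

end Pool.Agent.W519
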