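import Pool.Agent.W519.Red
import Pool.Agent.W519.Eval
import Pool.Agent.W519.Descent
import Pool.Agent.W519.Recip2

/-!
# The value of an exotic relation as a quadratic symbol
-/

set_option autoImplicit false
set_option linter.unusedSectionVars false

namespace Pool.Agent.W519

open Finset NumberField Pool.Agent.H916K Pool.Agent.H916R2
open scoped NumberTheorySymbols

section

variable {p q : ℕ} [hp : Fact p.Prime] [hq : Fact q.Prime]

lemma char_int {k : Type} [Field k] [CharP k q] {a b : ℤ} (h : (q : ℤ) ∣ a - b) :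
    (a : k) = (b : k) := by
  have h1 := (CharP.intCast_eq_zero_iff k q (a - b)).mpr h
  push_cast at h1
  exact sub_eq_zero.mp h1

/-- Euler's criterion in a field of characteristic `q` -/
lemma euler_k {k : Type} [Field k] [CharP k q] (hq2 : q ≠ 2) (a : ℤ) :
    (a : k) ^ ((q - 1) / 2) = ((J(a | q) : ℤ) : k) := by
  have h1 := legendreSym.eq_pow q a
  have h2 : q / 2 = (q - 1) / 2 := by
    have := hq.out.eq_two_or_odd.resolve_left hq2
    omega
  rw [jacobiSym.legendreSym.to_jacobiSym, h2] at h1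
  have h3 : (((J(a | q) - a ^ ((q - 1) / 2) : ℤ)) : ZMod q) = 0 := by
    push_cast; rw [h1]; ring
  rw [ZMod.intCast_zmod_eq_zero_iff_dvd] at h3
  have h4 := char_int (k := k) h3
  push_cast at h4
  exact h4.symm

/-- a square root of `± p` in characteristic `q` is an integer -/
lemma exists_root_k {k : Type} [Field k] [CharP k q] (hq4 : q % 4 = 1) (hJ : J((p : ℤ) | q) = 1)
    {δ : k} (hδ : δ ^ 2 = ((pstar p : ℤ) : k)) : ∃ d : ℤ, (d : k) = δ := by
  have hq2 : q ≠ 2 := by rintro rfl; norm_num at hq4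
  have h1 : J(pstar p | q) = 1 := by
    unfold pstar
    split_ifs
    · exact hJ
    · have h2 : (-(p : ℤ)) = (-1) * p := by ring
      rw [h2, jacobiSym.mul_left, hJ, mul_one, jacobiSym.at_neg_one (hq.out.odd_of_ne_two hq2)]
      exact ZMod.χ₄_nat_one_mod_four hq4
  obtain ⟨r, hr⟩ := ZMod.isSquare_of_jacobiSym_eq_one h1
  have h3 : (q : ℤ) ∣ (r.val : ℤ) ^ 2 - pstar p := by
    rw [← ZMod.intCast_zmod_eq_zero_iff_dvd]
    push_cast
    rw [ZMod.natCast_zmod_val, hr]; ring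
  have h4 := char_int (k := k) h3
  push_cast at h4
  have h5 : (δ - (r.val : k)) * (δ + (r.val : k)) = 0 := by
    linear_combination hδ - h4
  rcases mul_eq_zero.mp h5 with h | h
  · exact ⟨r.val, by push_cast; exact (sub_eq_zero.mp h).symm⟩
  · exact ⟨-(r.val : ℤ), by push_cast; exact (eq_neg_of_add_eq_zero_left h).symm⟩

end

section

variable {p q n m ℓ kk : ℕ} [hp : Fact p.Prime] [hq : Fact q.Prime] [hℓ : Fact ℓ.Prime]

/-- coordinates of the residues -/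
noncomputable def ww (m : ℕ) (hpq : p ≠ q) (kk : ℕ) (u : ZMod p) (v : ZMod q) : ZMod m :=
  iota kk ((ee hpq).symm (u, v))

lemma ww_add (hpq : p ≠ q) (hkk : kk * (p * q) = m) (u u' : ZMod p) (v v' : ZMod q) :
    ww m hpq kk (u + u') (v + v') = ww m hpq kk u v + ww m hpq kk u' v' := by
  unfold ww
  rw [← iota_add hkk, ← map_add, Prod.mk_add_mk]

lemma ww_mul (hpq : p ≠ q) (hkk : kk * (p * q) = m) (j : ℕ) (u : ZMod p) (v : ZMod q) :
    ww m hpq kk (j * u) (j * v) = (j : ZMod m) * ww m hpq kk u v := by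
  unfold ww
  rw [← iota_natMul hkk]
  congr 1
  apply (ee hpq).injective
  rw [map_mul, RingEquiv.apply_symm_apply, RingEquiv.apply_symm_apply, ee_natCast]
  rfl

lemma ww_zero (hpq : p ≠ q) : ww m hpq kk (0 : ZMod p) (0 : ZMod q) = 0 := by
  unfold ww
  have : ((0 : ZMod p), (0 : ZMod q)) = 0 := rfl
  rw [this, map_zero, iota_zero]

lemma ww_ne [NeZero m] (hpq : p ≠ q) (hkk : kk * (p * q) = m) {u : ZMod p} {v : ZMod q}
    (h : ¬ (u = 0 ∧ v = 0)) : ww m hpq kk u v ≠ 0 := by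
  intro h1
  apply h
  have h2 := iota_eq_zero hkk h1
  have h3 := congrArg (ee hpq) h2
  rw [RingEquiv.apply_symm_apply, map_zero] at h3
  exact ⟨congrArg Prod.fst h3, congrArg Prod.snd h3⟩

variable {k : Type} [Field k] [CharP k q]

lemma red_right [NeZero m] (hpq : p ≠ q) (hkk : kk * (p * q) = m) {χ' : MulChar (ZMod ℓ) k}
    (h0 : χ' ^ m = 1) (v : ZMod q) : χ' ^ (ww m hpq kk (0 : ZMod p) v).val = 1 := by
  have h1 : (q : ZMod m) * ww m hpq kk (0 : ZMod p) v = 0 := by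
    rw [← ww_mul hpq hkk]
    simp only [mul_zero, CharP.cast_eq_zero, zero_mul]
    exact ww_zero hpq
  have h2 : (χ' ^ (ww m hpq kk (0 : ZMod p) v).val) ^ q = 1 := by
    rw [← pow_val_mul h0, h1, ZMod.val_zero, pow_zero]
  apply MulChar.ext'
  intro x
  by_cases hx : x = 0
  · rw [hx, MulChar.map_zero, MulChar.map_zero]
  rw [MulChar.one_apply (isUnit_iff_ne_zero.mpr hx)]
  apply pow_one_of_char (q := q) (b := 1)
  rw [pow_one, ← mulChar_pow_apply _ _ hx, h2, MulChar.one_apply (isUnit_iff_ne_zero.mpr hx)]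

lemma red_left [NeZero m] (hpq : p ≠ q) (hkk : kk * (p * q) = m) {χ' : MulChar (ZMod ℓ) k}
    (h0 : χ' ^ m = 1) (u : ZMod p) (v : ZMod q) :
    χ' ^ (ww m hpq kk u v).val = χ' ^ (ww m hpq kk u (0 : ZMod q)).val := by
  have h1 : ww m hpq kk u v = ww m hpq kk u 0 + ww m hpq kk 0 v := by
    rw [← ww_add hpq hkk, add_zero, zero_add]
  rw [h1, pow_val_add h0, red_right hpq hkk h0, mul_one]

lemma red_unit [NeZero m] (hpq : p ≠ q) (hkk : kk * (p * q) = m) {χ' : MulChar (ZMod ℓ) k}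
    (h0 : χ' ^ m = 1) (u : ZMod p) :
    (χ' ^ (ww m hpq kk (1 : ZMod p) (0 : ZMod q)).val) ^ u.val =
      χ' ^ (ww m hpq kk u (0 : ZMod q)).val := by
  rw [← pow_val_mul h0, ← ww_mul hpq hkk, mul_one, mul_zero, ZMod.natCast_zmod_val]

/-- **The value of an exotic relation as a quadratic symbol.** -/
theorem eval_sym (hp2 : p ≠ 2) (hq4 : q % 4 = 1) (hpq : p ≠ q) (hJ : J((p : ℤ) | q) = 1)
    (L : Lev n m ℓ) [NeZero (n * ℓ)] [NeZero m] (hkk : kk * (p * q) = m)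
    (f : 𝓞 (CF (n * ℓ)) →+* k) (fp : 𝓞 (CF p) →+* k) {χ : MulChar (ZMod ℓ) (𝓞 (CF (n * ℓ)))}
    (hχ : orderOf χ = m) {ζ : 𝓞 (CF (n * ℓ))} (hζ : IsPrimitiveRoot ζ ℓ)
    (hhalf : m = 2 * n → f (gaussSum (χ ^ n) (AddChar.zmodChar ℓ hζ.pow_eq_one)) = 1)
    {x : ZMod (p * q) → ℤ} (hx : Rel x) (hA : ¬ 2 ∣ AA (two hpq x) 1)
    {X Y Z e : ℤ} (hcon : X ^ 2 - pstar p * Y ^ 2 = q * Z ^ 2) (hXY : IsCoprime X Y)
    (hZ : Z % 2 = 1) (he : (ℓ : ℤ) ∣ e ^ 2 - pstar p) (hℓZ : ¬ (ℓ : ℤ) ∣ Z) :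
    p • ∑ b, x b • gcl f χ (AddChar.zmodChar ℓ hζ.pow_eq_one) (iota kk b : ZMod m) =
      p • ((∑ v ∈ univ.erase (0 : ZMod q), two hpq x 0 v) • cl (-1 : k)) +
        cl (((J(X + Y * e | ℓ) : ℤ)) : k) := by
  classical
  have hq2 : q ≠ 2 := by rintro rfl; norm_num at hq4
  have hqm : q ∣ m := by rw [← hkk]; exact Dvd.intro_left (kk * p) (by ring)
  have hpm : p ∣ m := by rw [← hkk]; exact Dvd.intro_left (kk * q) (by ring)
  set ψ := AddChar.zmodChar ℓ hζ.pow_eq_one with hψ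
  have hd := gcl_dist L hqm f hχ hζ hhalf
  have hd' := hd.comp_iota hkk
  have hD2 := two_d2 hpq hd'
  set c : ZMod p → ZMod q → QT k := two hpq (fun b => gcl f χ ψ (iota kk b : ZMod m)) with hc
  have hcw : ∀ u v, c u v = gcl f χ ψ (ww m hpq kk u v) := fun u v => rfl
  have hζ' : (f ζ) ^ ℓ = 1 := by rw [← map_pow, hζ.pow_eq_one, map_one]
  set ψ' := AddChar.zmodChar ℓ hζ' with hψ'
  set χ' := χ.ringHomComp f with hχ'
  have h0 : χ ^ m = 1 := by
    have := pow_orderOf_eq_one χ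
    rwa [hχ] at this
  have h0' : χ' ^ m = 1 := by
    rw [hχ', MulChar.ringHomComp_pow, h0]; exact MulChar.ringHomComp_one f
  have hmap : ∀ j : ℕ, f (gaussSum (χ ^ j) ψ) = gaussSum (χ' ^ j) ψ' :=
    fun j => map_gaussSum f hζ.pow_eq_one hζ' χ j
  have hℓk : (ℓ : k) = 1 := L.cast_one hqm
  -- the additive character is nontrivial
  have hw10 : ww m hpq kk (1 : ZMod p) (0 : ZMod q) ≠ 0 := ww_ne hpq hkk (fun h => one_ne_zero h.1)
  have hψ1 : ψ' ≠ 1 := by
    intro h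
    have h1 := L.ne_zero hqm f hχ hζ hw10
    rw [← hψ, hmap, h] at h1
    apply h1
    by_cases h2 : χ' ^ (ww m hpq kk (1 : ZMod p) (0 : ZMod q)).val = 1
    · rw [h2, gaussSum_one_one, Nat.card_eq_fintype_card, ZMod.card_units ℓ,
        Nat.cast_sub (by have := L.ell_ge; omega), hℓk, Nat.cast_one, sub_self]
    · exact gaussSum_one_right h2
  have hψp : ψ'.IsPrimitive := AddChar.IsPrimitive.of_ne_one hψ1
  -- the values
  have hval : ∀ u v, ¬ (u = 0 ∧ v = 0) → c u v =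
      cl (gaussSum (χ' ^ (ww m hpq kk u (0 : ZMod q)).val) ψ') := by
    intro u v huv
    rw [hcw]
    unfold gcl
    rw [if_neg (ww_ne hpq hkk huv), hmap, red_left hpq hkk h0']
  have hc1 : ∀ u v, u ≠ 0 → c u v = c u 0 := by
    intro u v hu
    rw [hval u v (fun h => hu h.1), hval u 0 (fun h => hu h.1)]
  have hc2 : ∀ v, v ≠ 0 → c 0 v = cl (-1 : k) := by
    intro v hv
    rw [hval 0 v (fun h => hv h.2), red_right hpq hkk h0', gaussSum_one_left hψ1]
  -- the square root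
  set t : (ZMod p)ˣ := Units.mk0 (q : ZMod p) (pq_ne hpq) with ht
  have htq : (t : ZMod p) = q := Units.val_mk0 _
  have hpq4 : J((q : ℤ) | p) = 1 := by
    have := jacobiSym.quadratic_reciprocity_one_mod_four hq4 (hp.out.odd_of_ne_two hp2)
    rw [this]; exact hJ
  have hsq : IsSquare t := by
    obtain ⟨r, hr⟩ := ZMod.isSquare_of_jacobiSym_eq_one hpq4
    have hr0 : r ≠ 0 := by
      rintro rfl
      apply t.ne_zero
      rw [htq]
      push_cast at hr
      rw [hr, mul_zero]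
    exact ⟨Units.mk0 r hr0, Units.ext (by rw [htq, Units.val_mul, Units.val_mk0]; exact_mod_cast hr)⟩
  have ha : ∀ u, c (-u) 0 = - c u 0 := by
    intro u
    have := hD2.neg u 0
    rwa [neg_zero] at this
  have hqa : ∀ u, q • c u 0 = c ((q : ZMod p) * u) 0 := by
    intro u
    by_cases hu : u = 0
    · rw [hu, mul_zero, hD2.zero, smul_zero]
    · rw [← hD2.dq u, sum_congr rfl fun v _ => hc1 u v hu, sum_const, card_univ, ZMod.card]
  have hev := eval_odd hp2 hq2 hpq (rel_two hpq hx) hA (half_HS hp2) ha hqa hc1 hc2 hD2.zero htq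
  -- the characters of order `p`
  set w1 := (ww m hpq kk (1 : ZMod p) (0 : ZMod q)).val with hw1
  have hord : orderOf (χ ^ w1) = p := by
    apply orderOf_eq_prime
    · rw [← pow_val_mul h0, ← ww_mul hpq hkk]
      simp only [mul_one, mul_zero, CharP.cast_eq_zero]
      rw [ww_zero, ZMod.val_zero, pow_zero]
    · exact pow_val_ne hχ hw10
  have hθ : orderOf (χ' ^ w1) = p := by
    have := order_red (fun h => hpq h.symm : q ≠ p) f hord
    rwa [← MulChar.ringHomComp_pow] at this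
  obtain ⟨χp, hχp, hχpθ⟩ := exists_lift (fun h => hpq h.symm : q ≠ p) (hpm.trans L.m_dvd) fp hθ
  have hgam : ∀ u : ZMod p, u ≠ 0 → fp (gam χp u) = gaussSum (χ' ^ (ww m hpq kk u (0 : ZMod q)).val) ψ' ^ p := by
    intro u hu
    rw [map_gam hp2 fp (by rw [hχpθ]; exact hθ) hψp hu, hχpθ, red_unit hpq hkk h0']
  have hgne : ∀ u : ZMod p, u ≠ 0 → gaussSum (χ' ^ (ww m hpq kk u (0 : ZMod q)).val) ψ' ≠ 0 := by
    intro u hu
    have h1 := L.ne_zero hqm f hχ hζ (ww_ne (m := m) (kk := kk) (v := (0 : ZMod q)) hpq hkk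
      (fun h => hu h.1 : ¬ (u = 0 ∧ (0 : ZMod q) = 0)))
    rwa [← hψ, hmap] at h1
  have hgcl : ∀ u : ZMod p, u ≠ 0 → cl (fp (gam χp u)) = p • c u 0 := by
    intro u hu
    rw [hgam u hu, cl_pow (hgne u hu), hval u 0 (fun h => hu h.1)]
  have hgne' : ∀ u : ZMod p, u ≠ 0 → fp (gam χp u) ≠ 0 := by
    intro u hu
    rw [hgam u hu]
    exact pow_ne_zero _ (hgne u hu)
  -- descent
  obtain ⟨σ, -, -, -⟩ := exists_emb (CF p)
  have hinj : Function.Injective (σ.comp (algebraMap (𝓞 (CF p)) (CF p))) :=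
    σ.injective.comp (FaithfulSMul.algebraMap_injective (𝓞 (CF p)) (CF p))
  have hH := half_HS (p := p) hp2
  obtain ⟨x1, y1, z1, hn1, hn2, hn3, hn4, hn5⟩ := descent_main (cycO p) (gam χp) ℓ hℓ.out
    (fun u hu => gam_pair hp2 hinj hχp hu) (fun s u => s_gam (cycO p) hχp s u) hH hp2 L.ne_two
    hq2 (fun h => hpq h.symm : q ≠ p) fp hℓk htq hsq
  have hδ : (fp (cycO p).delta) ^ 2 = ((pstar p : ℤ) : k) := by
    rw [← map_pow, (cycO p).delta_sq hp2, map_intCast]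
  obtain ⟨d, hdk⟩ := exists_root_k hq4 hJ hδ
  rw [← hdk] at hn4 hn5
  have hxy : ((x1 : k) + (y1 : k) * (d : k)) = ((x1 + y1 * d : ℤ) : k) := by push_cast; rfl
  rw [hxy] at hn4 hn5
  rw [euler_k hq2] at hn5
  have hqD : (q : ℤ) ∣ d ^ 2 - pstar p := by
    rw [← CharP.intCast_eq_zero_iff k q]
    push_cast
    rw [hdk, hδ, sub_self]
  have hqp' : Prime (q : ℤ) := Nat.prime_iff_prime_int.mp hq.out
  have hℓq : J((ℓ : ℤ) | q) = 1 := by
    have h1 : ((ℓ : ℤ)) % q = 1 % q := by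
      have h3 : q ∣ ℓ - 1 := hqm.trans L.m_dvd
      have h4 : ((ℓ - 1 : ℕ) : ℤ) = (ℓ : ℤ) - 1 := by
        rw [Nat.cast_sub (by have := L.ell_ge; omega)]; simp
      have h5 : (q : ℤ) ∣ (ℓ : ℤ) - 1 := by rw [← h4]; exact_mod_cast h3
      exact (Int.modEq_iff_dvd.mpr h5).symm
    rw [jacobiSym.mod_left, h1, ← jacobiSym.mod_left, jacobiSym.one_left]
  have hpℓ : p ≠ ℓ := L.prime_ne hpm
  have hqℓ : q ≠ ℓ := L.prime_ne hqm
  have hqxy : ¬ (q : ℤ) ∣ x1 + y1 * d := by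
    intro h
    exact hn4 ((CharP.intCast_eq_zero_iff k q _).mpr h)
  have hrec : J(x1 + y1 * d | q) = J(X + Y * e | ℓ) := by
    have h1 : (q : ℤ) ∣ (X + Y * d) * (X - Y * d) := by
      have h2 : (X + Y * d) * (X - Y * d) = q * Z ^ 2 - Y ^ 2 * (d ^ 2 - pstar p) := by
        rw [← hcon]; ring
      rw [h2]
      exact dvd_sub (Dvd.intro _ rfl) (hqD.mul_left _)
    rcases hqp'.dvd_or_dvd h1 with h | h
    · exact recip hp2 hq4 L.ell8 hpℓ hqℓ (pstar_natAbs p) (pstar_mod hp2) hJ hℓq hn1 hcon hXY hZ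
        hn2 hn3 h hqxy he hℓZ
    · have h3 := recip hp2 hq4 L.ell8 hpℓ hqℓ (pstar_natAbs p) (pstar_mod hp2) hJ hℓq hn1
        (X := X) (Y := -Y) (Z := Z) (by rw [← hcon]; ring) hXY.neg_right hZ
        hn2 hn3 (d := d) (e := -e) (by rw [show X + -Y * d = X - Y * d by ring]; exact h) hqxy
        (by rw [neg_sq]; exact he) hℓZ
      rw [h3, neg_mul_neg]
  rw [hrec] at hn5
  -- conclusion
  have hcl := congrArg cl hn5
  have hH0 : ∀ u ∈ HS p, fp (gam χp u) ≠ 0 := fun u hu => hgne' u (hH.ne u hu)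
  have hH1 : ∀ u ∈ HS p \ sm t (HS p), fp (gam χp u) ≠ 0 := fun u hu =>
    hgne' u (hH.ne u (mem_sdiff.mp hu).1)
  rw [cl_mul (pow_ne_zero _ (prod_ne_zero_iff.mpr hH0)) (prod_ne_zero_iff.mpr hH1),
    cl_pow (prod_ne_zero_iff.mpr hH0), cl_prod _ _ hH0, cl_prod _ _ hH1,
    sum_congr rfl fun u hu => hgcl u (hH.ne u hu),
    sum_congr rfl fun u hu => hgcl u (hH.ne u (mem_sdiff.mp hu).1), ← smul_sum, ← smul_sum,
    smul_comm, ← smul_add] at hcl
  rw [hcl, sum_two hpq]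
  have hsum : ∑ u, ∑ v, two hpq (fun b => x b • gcl f χ ψ (iota kk b : ZMod m)) u v =
      ∑ u, ∑ v, two hpq x u v • c u v := rfl
  rw [hsum, hev, smul_add]

end

end Pool.Agent.W519
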