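import Pool.Agent.W519.CycInst
import Pool.Agent.H916K.Sign

/-!
# The powers of Gauss sums in the cyclotomic ring
-/

set_option autoImplicit false

namespace Pool.Agent.W519

open Finset Pool.Agent.H916K

section

variable {p ℓ : ℕ} [hp : Fact p.Prime] [hℓ : Fact ℓ.Prime] {O : Type} [CommRing O]

/-- the `p`-th power of the Gauss sum, in terms of Jacobi sums -/
noncomputable def gam (χ : MulChar (ZMod ℓ) O) (u : ZMod p) : O :=
  (ℓ : O) * ∏ i ∈ Ico 1 (p - 1), jacobiSum (χ ^ u.val) ((χ ^ u.val) ^ i)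

lemma minus_one {R : Type} [CommRing R] [IsDomain R] {χ : MulChar (ZMod ℓ) R} (hp2 : p ≠ 2)
    (hχ : χ ^ p = 1) : χ (-1) = 1 := by
  have h1 : χ (-1) ^ 2 = 1 := by rw [← map_pow]; simp
  have hne : (-1 : ZMod ℓ) ≠ 0 := by simp
  have h2 : χ (-1) ^ p = 1 := by
    rw [← mulChar_pow_apply χ p hne, hχ]
    exact MulChar.one_apply (isUnit_iff_ne_zero.mpr hne)
  obtain ⟨k, hk⟩ := hp.out.odd_of_ne_two hp2
  rw [hk, pow_succ, pow_mul, h1, one_pow, one_mul] at h2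
  exact h2

lemma order_pow {R : Type} [CommRing R] {χ : MulChar (ZMod ℓ) R} (hχ : orderOf χ = p)
    {u : ZMod p} (hu : u ≠ 0) : orderOf (χ ^ u.val) = p := by
  have h1 : (orderOf χ).Coprime u.val := by
    rw [hχ]
    apply (Nat.Prime.coprime_iff_not_dvd hp.out).mpr
    intro h
    have h2 := ZMod.val_lt u
    have h3 : u.val ≠ 0 := fun h => hu ((ZMod.val_eq_zero u).mp h)
    exact absurd (Nat.le_of_dvd (Nat.pos_of_ne_zero h3) h) (by omega)
  rw [h1.orderOf_pow, hχ]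

lemma pow_neg {R : Type} [CommRing R] {χ : MulChar (ZMod ℓ) R} (hχ : χ ^ p = 1) (u : ZMod p) :
    χ ^ (-u).val = (χ ^ u.val)⁻¹ := by
  apply eq_inv_of_mul_eq_one_left
  rw [← pow_add]
  have h1 : p ∣ (-u).val + u.val := by
    rw [← ZMod.natCast_eq_zero_iff]; push_cast; simp
  obtain ⟨k, hk⟩ := h1
  rw [hk, pow_mul, hχ, one_pow]

/-- the product formula -/
lemma gauss_pair {R : Type} [CommRing R] [IsDomain R] {χ : MulChar (ZMod ℓ) R}
    {ψ : AddChar (ZMod ℓ) R} (hψ : ψ.IsPrimitive) (hχ : χ ≠ 1) (hm : χ (-1) = 1) :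
    gaussSum χ ψ * gaussSum χ⁻¹ ψ = (ℓ : R) := by
  have h1 := gaussSum_mul_gaussSum_eq_card hχ hψ
  have h2 := mul_gaussSum_inv_eq_gaussSum χ⁻¹ ψ
  have h3 : χ⁻¹ (-1) = 1 := by
    rw [MulChar.inv_apply']; simp [inv_neg, hm]
  rw [h3, one_mul] at h2
  rw [← h2, h1, ZMod.card]

/-- transport to a ring with an additive character -/
lemma map_gam {R : Type} [CommRing R] [IsDomain R] (hp2 : p ≠ 2) (f : O →+* R)
    {χ : MulChar (ZMod ℓ) O} (hχ : orderOf (χ.ringHomComp f) = p) {ψ : AddChar (ZMod ℓ) R}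
    (hψ : ψ.IsPrimitive) {u : ZMod p} (hu : u ≠ 0) :
    f (gam χ u) = gaussSum ((χ.ringHomComp f) ^ u.val) ψ ^ p := by
  have h1 := order_pow hχ hu
  have h2 : 2 ≤ orderOf ((χ.ringHomComp f) ^ u.val) := by rw [h1]; exact hp.out.two_le
  have h3 := gaussSum_pow_eq_prod_jacobiSum h2 hψ
  rw [h1] at h3
  have h4 : ((χ.ringHomComp f) ^ u.val) (-1) = 1 :=
    minus_one (p := p) hp2 (by
      have h5 := pow_orderOf_eq_one ((χ.ringHomComp f) ^ u.val)
      rwa [h1] at h5)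
  rw [h3, h4, one_mul, ZMod.card]
  unfold gam
  rw [map_mul, map_natCast, map_prod]
  congr 1
  refine prod_congr rfl fun i _ => ?_
  rw [← jacobiSum_ringHomComp, MulChar.ringHomComp_pow, MulChar.ringHomComp_pow]

lemma map_gam_pair {R : Type} [CommRing R] [IsDomain R] (hp2 : p ≠ 2) (f : O →+* R)
    {χ : MulChar (ZMod ℓ) O} (hχ : orderOf (χ.ringHomComp f) = p) {ψ : AddChar (ZMod ℓ) R}
    (hψ : ψ.IsPrimitive) {u : ZMod p} (hu : u ≠ 0) :
    f (gam χ u) * f (gam χ (-u)) = (ℓ : R) ^ p := by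
  rw [map_gam hp2 f hχ hψ hu, map_gam hp2 f hχ hψ (neg_ne_zero.mpr hu), ← mul_pow]
  congr 1
  have h0 : (χ.ringHomComp f) ^ p = 1 := by rw [← hχ]; exact pow_orderOf_eq_one _
  rw [pow_neg h0]
  have h1 := order_pow hχ hu
  apply gauss_pair hψ
  · intro h
    rw [h, orderOf_one] at h1
    exact hp.out.one_lt.ne h1
  · exact minus_one (p := p) hp2 (by rw [← pow_mul, mul_comm, pow_mul, h0, one_pow])

lemma gam_pair (hp2 : p ≠ 2) {f : O →+* ℂ} (hf : Function.Injective f)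
    {χ : MulChar (ZMod ℓ) O} (hχ : orderOf χ = p) {u : ZMod p} (hu : u ≠ 0) :
    gam χ u * gam χ (-u) = (ℓ : O) ^ p := by
  apply hf
  have hℓ0 : ℓ ≠ 0 := hℓ.out.ne_zero
  have h1 := Complex.isPrimitiveRoot_exp ℓ hℓ0
  rw [map_mul, map_pow, map_natCast]
  refine map_gam_pair hp2 f ?_ (AddChar.zmodChar_primitive_of_primitive_root ℓ h1) hu
  rw [← hχ]
  exact orderOf_injective (MulChar.ringHomCompHom f) (MulChar.injective_ringHomComp hf) χ

lemma char_val (C : Cyc p O) [IsDomain O] {χ : MulChar (ZMod ℓ) O} (hχ : orderOf χ = p)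
    (t : (ZMod p)ˣ) (x : ZMod ℓ) : C.s t (χ x) = (χ ^ (t : ZMod p).val) x := by
  by_cases hx : x = 0
  · rw [hx, MulChar.map_zero, MulChar.map_zero, map_zero]
  · have h1 : χ x ^ p = 1 := mulChar_pow_one hχ hx
    have : NeZero p := ⟨hp.out.ne_zero⟩
    obtain ⟨i, _, hi⟩ := C.prim.eq_pow_of_pow_eq_one h1
    rw [mulChar_pow_apply χ _ hx, ← hi, map_pow, C.hs, ← pow_mul, ← pow_mul, mul_comm]

lemma s_gam (C : Cyc p O) [IsDomain O] {χ : MulChar (ZMod ℓ) O} (hχ : orderOf χ = p)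
    (t : (ZMod p)ˣ) (u : ZMod p) : C.s t (gam χ u) = gam χ ((t : ZMod p) * u) := by
  have h0 : χ ^ p = 1 := by rw [← hχ]; exact pow_orderOf_eq_one _
  have h1 : χ.ringHomComp (C.s t : O →+* O) = χ ^ (t : ZMod p).val := by
    apply MulChar.ext'
    intro x
    rw [MulChar.ringHomComp_apply]
    exact char_val C hχ t x
  have h2 : (χ ^ u.val).ringHomComp (C.s t : O →+* O) = χ ^ ((t : ZMod p) * u).val := by
    rw [← MulChar.ringHomComp_pow, h1, ← pow_mul]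
    rw [pow_eq_pow_iff_modEq, hχ, ZMod.val_mul]
    exact (Nat.mod_modEq _ _).symm
  unfold gam
  rw [map_mul, map_natCast, map_prod]
  congr 1
  refine prod_congr rfl fun i _ => ?_
  have h3 := jacobiSum_ringHomComp (χ ^ u.val) ((χ ^ u.val) ^ i) (C.s t : O →+* O)
  rw [← MulChar.ringHomComp_pow ((χ ^ u.val)), h2] at h3
  exact h3.symm

end

end Pool.Agent.W519
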