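import Pool.Agent.W519.Lev

/-!
# The multiplication formula for odd primes, up to roots of unity of odd order
-/

set_option autoImplicit false
set_option linter.unusedSectionVars false

namespace Pool.Agent.W519

open Finset NumberField Pool.Agent.H916K Pool.Agent.H916R2

section

variable {n m ℓ : ℕ} [hℓ : Fact ℓ.Prime]

lemma mul_d_zero {l d : ℕ} (hld : l * d = m) : ((l : ℕ) : ZMod m) * (d : ZMod m) = 0 := by
  have : ((l * d : ℕ) : ZMod m) = 0 := by rw [hld]; simp
  push_cast at this; exact this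

lemma std_hodge [NeZero m] {l d : ℕ} (hl : l.Prime) (hl2 : l ≠ 2) (hld : l * d = m) {a : ZMod m}
    (ha : (l : ZMod m) * a ≠ 0) :
    IsHodge m (-((l : ZMod m) * a) ::ₘ
      (Multiset.range l).map fun i : ℕ => a + (i : ZMod m) * (d : ZMod m)) := by
  have hld0 := mul_d_zero hld
  apply isHodge_of_saw
  · rw [Multiset.mem_cons, not_or]
    refine ⟨fun h => ha (neg_eq_zero.mp h.symm), ?_⟩
    intro h
    obtain ⟨i, _, hi⟩ := Multiset.mem_map.mp h
    apply ha
    have : (l : ZMod m) * (a + (i : ZMod m) * (d : ZMod m)) = 0 := by rw [hi, mul_zero]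
    linear_combination this - (i : ZMod m) * hld0
  · rw [Multiset.card_cons, Multiset.card_map, Multiset.card_range]
    exact (hl.odd_of_ne_two hl2).add_one
  · intro t
    have h1 := saw_dist_unit hld t a
    rw [Multiset.map_cons, Multiset.sum_cons, Multiset.map_map, mul_neg, saw_neg]
    have h2 : ((Multiset.range l).map ((fun a => saw ((t : ZMod m) * a)) ∘
        fun i : ℕ => a + (i : ZMod m) * (d : ZMod m))).sum =
        ∑ i ∈ range l, saw ((t : ZMod m) * (a + (i : ZMod m) * (d : ZMod m))) := rfl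
    rw [h2, h1]
    ring

/-- the image of the Gauss sums in characteristic `l` -/
lemma red_same [NeZero m] {O k : Type} [CommRing O] [IsDomain O] [Field k] {l : ℕ}
    [hl : Fact l.Prime] [CharP k l] (f : O →+* k) {d : ℕ} (hld : l * d = m)
    {χ : MulChar (ZMod ℓ) O} (hχ : orderOf χ = m) (a : ZMod m) (i : ℕ) :
    (χ.ringHomComp f) ^ (a + (i : ZMod m) * (d : ZMod m)).val = (χ.ringHomComp f) ^ a.val := by
  have h0 : χ ^ m = 1 := by rw [← hχ]; exact pow_orderOf_eq_one _
  have h0' : (χ.ringHomComp f) ^ m = 1 := by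
    rw [MulChar.ringHomComp_pow, h0]; exact MulChar.ringHomComp_one f
  rw [pow_val_add h0']
  have h1 : (χ.ringHomComp f) ^ ((i : ZMod m) * (d : ZMod m)).val = 1 := by
    have h2 : (χ.ringHomComp f) ^ ((i : ZMod m) * (d : ZMod m)).val = (χ.ringHomComp f) ^ (i * d) := by
      apply pow_val h0'
      push_cast
      rw [ZMod.natCast_zmod_val]
    rw [h2]
    apply MulChar.ext'
    intro x
    by_cases hx : x = 0
    · rw [hx, MulChar.map_zero, MulChar.map_zero]
    rw [mulChar_pow_apply _ _ hx, MulChar.one_apply (isUnit_iff_ne_zero.mpr hx)]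
    apply pow_one_of_char (q := l) (b := 1)
    rw [pow_one, ← pow_mul, show i * d * l = m * i by rw [← hld]; ring, pow_mul,
      ← mulChar_pow_apply _ _ hx, h0', MulChar.one_apply (isUnit_iff_ne_zero.mpr hx), one_pow]
  rw [h1, mul_one]

/-- **The multiplication formula**, up to a root of unity of odd order. -/
theorem hd_odd (L : Lev n m ℓ) [NeZero (n * ℓ)] [NeZero m]
    {χ : MulChar (ZMod ℓ) (𝓞 (CF (n * ℓ)))} (hχ : orderOf χ = m) {ζ : 𝓞 (CF (n * ℓ))}
    (hζ : IsPrimitiveRoot ζ ℓ) {l d : ℕ} (hl : l.Prime) (hl2 : l ≠ 2) (hld : l * d = m)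
    {a : ZMod m} (ha : (l : ZMod m) * a ≠ 0) :
    ∃ x : 𝓞 (CF (n * ℓ)), x ^ (n * ℓ) = 1 ∧
      gaussSum (χ ^ (-((l : ZMod m) * a)).val) (AddChar.zmodChar ℓ hζ.pow_eq_one) *
      (∏ i ∈ range l, gaussSum (χ ^ (a + (i : ZMod m) * (d : ZMod m)).val)
        (AddChar.zmodChar ℓ hζ.pow_eq_one)) = (ℓ : 𝓞 (CF (n * ℓ))) ^ ((l + 1) / 2) * x := by
  have hlm : l ∣ m := Dvd.intro d hld
  have hS := std_hodge hl hl2 hld ha
  obtain ⟨x, ε, hε, hx, hprod⟩ := weil_root (n := n) L.odd_nl L.m_pos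
    (by have := L.ell_ge; omega) L.m_dvd hχ hζ hS
  rw [Multiset.map_cons, Multiset.prod_cons, Multiset.map_map, Multiset.card_cons,
    Multiset.card_map, Multiset.card_range] at hprod
  have hprod' : gaussSum (χ ^ (-((l : ZMod m) * a)).val) (AddChar.zmodChar ℓ hζ.pow_eq_one) *
      (∏ i ∈ range l, gaussSum (χ ^ (a + (i : ZMod m) * (d : ZMod m)).val)
        (AddChar.zmodChar ℓ hζ.pow_eq_one)) =
        ε * (ℓ : 𝓞 (CF (n * ℓ))) ^ ((l + 1) / 2) * x := hprod
  refine ⟨x, hx, ?_⟩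
  rw [hprod']
  suffices hε1 : ε = 1 by rw [hε1, one_mul]
  -- reduction modulo `l`
  have hlF : Fact l.Prime := ⟨hl⟩
  obtain ⟨k, _, _, ⟨φ⟩⟩ := exists_red hl
  obtain ⟨σ, ι, hι, -⟩ := exists_emb (CF (n * ℓ))
  set f : 𝓞 (CF (n * ℓ)) →+* k := φ.comp ι with hf
  have h0 : χ ^ m = 1 := by rw [← hχ]; exact pow_orderOf_eq_one _
  have h0' : (χ.ringHomComp f) ^ m = 1 := by
    rw [MulChar.ringHomComp_pow, h0]; exact MulChar.ringHomComp_one f
  have hζ' : (f ζ) ^ ℓ = 1 := by rw [← map_pow, hζ.pow_eq_one, map_one]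
  have hℓk : (ℓ : k) = 1 := L.cast_one hlm
  set ψ := AddChar.zmodChar ℓ hζ.pow_eq_one with hψ
  set ψ' := AddChar.zmodChar ℓ hζ' with hψ'
  have hmap : ∀ j : ℕ, f (gaussSum (χ ^ j) ψ) = gaussSum ((χ.ringHomComp f) ^ j) ψ' :=
    fun j => map_gaussSum f hζ.pow_eq_one hζ' χ j
  have hprim : ψ.IsPrimitive := AddChar.zmodChar_primitive_of_primitive_root ℓ hζ
  have h1 := congrArg f hprod'
  rw [map_mul, map_prod, map_mul, map_mul, map_pow, map_natCast, hℓk, one_pow, mul_one] at h1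
  have h2 : ∀ i ∈ range l, f (gaussSum (χ ^ (a + (i : ZMod m) * (d : ZMod m)).val) ψ) =
      gaussSum ((χ.ringHomComp f) ^ a.val) ψ' := by
    intro i _
    rw [hmap, red_same f hld hχ]
  rw [prod_congr rfl h2, prod_const, card_range, frob_gauss _ _ (L.cast_ne hl hlm),
    ← pow_val_mul h0' l a] at h1
  have h3 := L.pair hχ hprim ha
  have h4 := congrArg f h3
  rw [map_mul, map_natCast, hℓk, hmap, hmap] at h4
  rw [hmap] at h1
  set ρ := (((χ.ringHomComp f) ^ ((l : ZMod m) * a).val)⁻¹) (l : ZMod ℓ) with hρ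
  have h5 : f ε * f x = ρ := by
    rw [← h1]
    linear_combination ρ * h4
  -- `ρ` has odd order
  have h6 : ρ ^ n = 1 := by
    rw [hρ, ← pow_val_neg h0']
    apply L.sq_root _ (L.cast_ne hl hlm) (L.isSquare hl hl2 hlm)
    rw [pow_right_comm, h0', one_pow]
  have h7 := congrArg (fun z : k => z ^ (n * ℓ)) h5
  simp only [mul_pow] at h7
  rw [← map_pow f x, hx, map_one, mul_one, pow_mul ρ, h6, one_pow] at h7
  rcases hε with h | h
  · exact h
  · exfalso
    rw [h, map_neg, map_one, L.odd_nl.neg_one_pow] at h7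
    have h8 : ((2 : ℕ) : k) = 0 := by push_cast; linear_combination -h7
    rw [CharP.cast_eq_zero_iff k l] at h8
    exact hl2 ((Nat.prime_dvd_prime_iff_eq hl Nat.prime_two).mp h8)

end

end Pool.Agent.W519
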