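import Pool.Agent.H916K.Half

/-!
# Products over half systems
-/

set_option autoImplicit false

namespace Pool.Agent.W519

open Finset Pool.Agent.H916K

variable {p : ℕ} [hp : Fact p.Prime] {M : Type} [CommMonoid M]

lemma half_diff {A B : Finset (ZMod p)} (hA : Half A) (hB : Half B) (f : ZMod p → M) :
    ∏ u ∈ B \ A, f u = ∏ u ∈ A \ B, f (-u) := by
  refine prod_bij' (fun u _ => -u) (fun u _ => -u) ?_ ?_ ?_ ?_ ?_
  · intro u hu
    rw [mem_sdiff] at hu ⊢
    have h0 := hB.ne u hu.1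
    refine ⟨?_, (hB.one u h0).mp hu.1⟩
    by_contra h
    exact hu.2 ((hA.one u h0).mpr h)
  · intro u hu
    rw [mem_sdiff] at hu ⊢
    have h0 := hA.ne u hu.1
    refine ⟨?_, (hA.one u h0).mp hu.1⟩
    by_contra h
    exact hu.2 ((hB.one u h0).mpr h)
  · intro u _; exact neg_neg u
  · intro u _; exact neg_neg u
  · intro u _; rw [neg_neg]

/-- **Composition.** -/
theorem half_triple {A B C : Finset (ZMod p)} (hA : Half A) (hB : Half B) (hC : Half C)
    (f : ZMod p → M) {L : M} (hf : ∀ u, u ≠ 0 → f u * f (-u) = L) :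
    (∏ u ∈ B \ C, f u) * ∏ u ∈ A \ B, f u =
      (∏ u ∈ A \ C, f u) * L ^ ((A \ B) ∩ C).card := by
  have h1 : ∏ u ∈ A \ B, f u = (∏ u ∈ (A \ B) ∩ C, f u) * ∏ u ∈ (A \ B) \ C, f u :=
    (prod_inter_mul_prod_sdiff _ _ _).symm
  have h2 : ∏ u ∈ B \ C, f u = (∏ u ∈ (B \ C) ∩ A, f u) * ∏ u ∈ (B \ C) \ A, f u :=
    (prod_inter_mul_prod_sdiff _ _ _).symm
  have h3 : ∏ u ∈ A \ C, f u = (∏ u ∈ (A \ C) ∩ B, f u) * ∏ u ∈ (A \ C) \ B, f u :=
    (prod_inter_mul_prod_sdiff _ _ _).symm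
  have e1 : (B \ C) ∩ A = (A \ C) ∩ B := by ext u; simp only [mem_inter, mem_sdiff]; tauto
  have e2 : (A \ B) \ C = (A \ C) \ B := by ext u; simp only [mem_sdiff]; tauto
  have e3 : (∏ u ∈ (A \ B) ∩ C, f u) * ∏ u ∈ (B \ C) \ A, f u = L ^ ((A \ B) ∩ C).card := by
    have h4 : ∏ u ∈ (B \ C) \ A, f u = ∏ u ∈ (A \ B) ∩ C, f (-u) := by
      refine prod_bij' (fun u _ => -u) (fun u _ => -u) ?_ ?_ ?_ ?_ ?_
      · intro u hu
        simp only [mem_sdiff, mem_inter] at hu ⊢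
        have h0 := hB.ne u hu.1.1
        refine ⟨⟨?_, (hB.one u h0).mp hu.1.1⟩, ?_⟩
        · by_contra h; exact hu.2 ((hA.one u h0).mpr h)
        · by_contra h; exact hu.1.2 ((hC.one u h0).mpr h)
      · intro u hu
        simp only [mem_sdiff, mem_inter] at hu ⊢
        have h0 := hA.ne u hu.1.1
        refine ⟨⟨?_, (hC.one u h0).mp hu.2⟩, (hA.one u h0).mp hu.1.1⟩
        by_contra h; exact hu.1.2 ((hB.one u h0).mpr h)
      · intro u _; exact neg_neg u
      · intro u _; exact neg_neg u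
      · intro u _; rw [neg_neg]
    rw [h4, ← prod_mul_distrib, prod_congr rfl (fun u hu => hf u ?_), prod_const]
    simp only [mem_sdiff, mem_inter] at hu
    exact hA.ne u hu.1.1
  rw [h1, h2, h3, e1, e2, ← e3]
  simp only [mul_assoc, mul_comm, mul_left_comm]

lemma half_card {A B C : Finset (ZMod p)} (hA : Half A) (hB : Half B) (hC : Half C) :
    (B \ C).card + (A \ B).card = (A \ C).card + 2 * ((A \ B) ∩ C).card := by
  have h := half_triple (M := Multiplicative ℕ) hA hB hC (fun _ => Multiplicative.ofAdd 1)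
    (L := Multiplicative.ofAdd 2) (fun _ _ => rfl)
  simp only [prod_const] at h
  have h2 := congrArg Multiplicative.toAdd h
  simp only [toAdd_mul, toAdd_pow, toAdd_ofAdd, smul_eq_mul] at h2
  omega

/-- the product over a translated half system -/
lemma half_pair {A B : Finset (ZMod p)} (hA : Half A) (hB : Half B)
    (f : ZMod p → M) {L : M} (hf : ∀ u, u ≠ 0 → f u * f (-u) = L) :
    (∏ u ∈ A, f u) * L ^ (A \ B).card = (∏ u ∈ B, f u) * (∏ u ∈ A \ B, f u) ^ 2 := by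
  have h1 : ∏ u ∈ A, f u = (∏ u ∈ A ∩ B, f u) * ∏ u ∈ A \ B, f u :=
    (prod_inter_mul_prod_sdiff _ _ _).symm
  have h2 : ∏ u ∈ B, f u = (∏ u ∈ B ∩ A, f u) * ∏ u ∈ B \ A, f u :=
    (prod_inter_mul_prod_sdiff _ _ _).symm
  have h3 : (∏ u ∈ A \ B, f u) * ∏ u ∈ B \ A, f u = L ^ (A \ B).card := by
    rw [half_diff hA hB, ← prod_mul_distrib, prod_congr rfl (fun u hu => hf u ?_), prod_const]
    exact hA.ne u (mem_sdiff.mp hu).1
  rw [h1, h2, ← h3, inter_comm B A, pow_two]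
  simp only [mul_assoc, mul_comm, mul_left_comm]

/-- multiplication of a set by a unit -/
def sm (t : (ZMod p)ˣ) (H : Finset (ZMod p)) : Finset (ZMod p) := H.image (fun u => (t : ZMod p) * u)

lemma sm_half {H : Finset (ZMod p)} (hH : Half H) (t : (ZMod p)ˣ) : Half (sm t H) :=
  hH.mul t.ne_zero

lemma sm_one (H : Finset (ZMod p)) : sm 1 H = H := by
  unfold sm; simp

lemma sm_mul (s t : (ZMod p)ˣ) (H : Finset (ZMod p)) : sm (s * t) H = sm s (sm t H) := by
  unfold sm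
  rw [image_image]
  congr 1
  funext u
  simp [mul_assoc]

lemma mem_sm {t : (ZMod p)ˣ} {H : Finset (ZMod p)} {u : ZMod p} :
    u ∈ sm t H ↔ ((t⁻¹ : (ZMod p)ˣ) : ZMod p) * u ∈ H := by
  unfold sm
  rw [mem_image]
  constructor
  · rintro ⟨w, hw, rfl⟩
    rwa [Units.inv_mul_cancel_left]
  · intro h
    exact ⟨_, h, Units.mul_inv_cancel_left _ _⟩

lemma sm_sdiff (s : (ZMod p)ˣ) (A B : Finset (ZMod p)) : sm s (A \ B) = sm s A \ sm s B := by
  ext u
  simp only [mem_sm, mem_sdiff]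

lemma prod_sm (s : (ZMod p)ˣ) (A : Finset (ZMod p)) (f : ZMod p → M) :
    ∏ u ∈ sm s A, f u = ∏ u ∈ A, f ((s : ZMod p) * u) := by
  unfold sm
  rw [prod_image]
  intro a _ b _ h
  exact s.isUnit.mul_left_cancel h

lemma sum_sm {N : Type} [AddCommMonoid N] (s : (ZMod p)ˣ) (A : Finset (ZMod p)) (f : ZMod p → N) :
    ∑ u ∈ sm s A, f u = ∑ u ∈ A, f ((s : ZMod p) * u) := by
  unfold sm
  rw [sum_image]
  intro a _ b _ h
  exact s.isUnit.mul_left_cancel h

lemma half_card_eq (hp2 : p ≠ 2) {H : Finset (ZMod p)} (hH : Half H) : H.card = p / 2 := by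
  have h1 := Half.sum_all (Q := ℕ) hH (fun _ => 1)
  simp only [sum_const, smul_eq_mul, mul_one, card_erase_of_mem (mem_univ _), card_univ,
    ZMod.card] at h1
  have := hp.out.eq_two_or_odd.resolve_left hp2
  omega

/-- **Gauss's lemma.** -/
theorem gauss_half (hp2 : p ≠ 2) {H : Finset (ZMod p)} (hH : Half H) (t : (ZMod p)ˣ) :
    IsSquare t ↔ Even (sm t H \ H).card := by
  have hT := sm_half hH t
  set k := (sm t H \ H).card with hk
  -- product formula
  have h1 : ∏ u ∈ sm t H, u = (t : ZMod p) ^ (p / 2) * ∏ u ∈ H, u := by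
    rw [prod_sm, prod_mul_distrib, prod_const, half_card_eq hp2 hH]
  have h2 : (∏ u ∈ sm t H, u) * (-1) ^ k = ∏ u ∈ H, u := by
    have e1 : ∏ u ∈ sm t H, u = (∏ u ∈ sm t H ∩ H, u) * ∏ u ∈ sm t H \ H, u :=
      (prod_inter_mul_prod_sdiff _ _ _).symm
    have e2 : ∏ u ∈ H, u = (∏ u ∈ H ∩ sm t H, u) * ∏ u ∈ H \ sm t H, u :=
      (prod_inter_mul_prod_sdiff _ _ _).symm
    have e3 : ∏ u ∈ H \ sm t H, u = (-1) ^ k * ∏ u ∈ sm t H \ H, u := by
      rw [half_diff hT hH, hk, ← prod_const, ← prod_mul_distrib]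
      exact prod_congr rfl fun u _ => by ring
    rw [e1, e2, e3, inter_comm H]; ring
  have hne : ∏ u ∈ H, u ≠ 0 := prod_ne_zero_iff.mpr fun u hu => hH.ne u hu
  have h3 : (t : ZMod p) ^ (p / 2) * (-1) ^ k = 1 := by
    apply mul_right_cancel₀ hne
    rw [one_mul]
    calc (t : ZMod p) ^ (p / 2) * (-1) ^ k * ∏ u ∈ H, u
        = (t : ZMod p) ^ (p / 2) * (∏ u ∈ H, u) * (-1) ^ k := by ring
      _ = _ := by rw [← h1, h2]
  have hm1 : (-1 : ZMod p) ≠ 1 := by
    intro h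
    have h4 : (2 : ZMod p) = 0 := by linear_combination -h
    have h5 : ((2 : ℕ) : ZMod p) = 0 := by exact_mod_cast h4
    rw [ZMod.natCast_eq_zero_iff] at h5
    exact hp2 ((Nat.prime_dvd_prime_iff_eq hp.out Nat.prime_two).mp h5)
  have hsq : IsSquare t ↔ (t : ZMod p) ^ (p / 2) = 1 := by
    rw [← ZMod.euler_criterion p t.ne_zero]
    constructor
    · rintro ⟨u, rfl⟩; exact ⟨u, by rw [Units.val_mul]⟩
    · rintro ⟨u, hu⟩
      have hu0 : u ≠ 0 := by rintro rfl; exact t.ne_zero (by rw [hu, mul_zero])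
      exact ⟨Units.mk0 u hu0, Units.ext hu⟩
  rw [hsq]
  constructor
  · intro h
    rw [h, one_mul] at h3
    by_contra h4
    rw [Nat.not_even_iff_odd] at h4
    rw [h4.neg_one_pow] at h3
    exact hm1 h3
  · intro h
    rw [h.neg_one_pow, mul_one] at h3
    exact h3

end Pool.Agent.W519
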