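import Mathlib

open Set Filter Topology Manifold

namespace Pool.Agent.W519.J

variable {E : Type*} [NormedAddCommGroup E] [NormedSpace ℂ E]
variable {X : Type*} [TopologicalSpace X] [ChartedSpace E X]

/-- A homeomorphism of the complex manifold `X` is a holomorphic automorphism if it and its
inverse are holomorphic. -/
def IsAut (E : Type*) [NormedAddCommGroup E] [NormedSpace ℂ E]
    {X : Type*} [TopologicalSpace X] [ChartedSpace E X] (F : X ≃ₜ X) : Prop :=
  MDifferentiable (modelWithCornersSelf ℂ E) (modelWithCornersSelf ℂ E) F ∧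
    MDifferentiable (modelWithCornersSelf ℂ E) (modelWithCornersSelf ℂ E) F.symm

/-- Tame sets: infinite, closed, discrete, and every injective self-map extends to an
automorphism. -/
def Tame (E : Type*) [NormedAddCommGroup E] [NormedSpace ℂ E]
    {X : Type*} [TopologicalSpace X] [ChartedSpace E X] (A : Set X) : Prop :=
  A.Infinite ∧ IsClosed A ∧ DiscreteTopology A ∧
    ∀ f : A → A, Function.Injective f → ∃ F : X ≃ₜ X, IsAut E F ∧ ∀ z : A, F z = f z

lemma IsAut.comp {F G : X ≃ₜ X} (hF : IsAut E F) (hG : IsAut E G) : IsAut E (F.trans G) := by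
  refine ⟨?_, ?_⟩
  · exact hG.1.comp hF.1
  · exact hF.2.comp hG.2

lemma IsAut.symm {F : X ≃ₜ X} (hF : IsAut E F) : IsAut E F.symm := ⟨hF.2, hF.1⟩

/-! ### Set theory -/

lemma exists_perm {α : Type*} [Countable α] (S : Set α) (f : S → α)
    (hf : Function.Injective f) (hS : Sᶜ.Infinite) (hr : (range f)ᶜ.Infinite) :
    ∃ π : Equiv.Perm α, ∀ s : S, π s = f s := by
  classical
  have : Infinite (Sᶜ : Set α) := hS.to_subtype
  have : Infinite ((range f)ᶜ : Set α) := hr.to_subtype
  obtain ⟨e⟩ : Nonempty ((Sᶜ : Set α) ≃ ((range f)ᶜ : Set α)) := nonempty_equiv_of_countable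
  refine ⟨(Equiv.Set.sumCompl S).symm.trans
    (((Equiv.ofInjective f hf).sumCongr e).trans (Equiv.Set.sumCompl (range f))), ?_⟩
  intro s
  simp [Equiv.Set.sumCompl_symm_apply]

lemma exists_coinf_inj {α : Type*} [Countable α] [Infinite α] :
    ∃ f : α → α, Function.Injective f ∧ (range f)ᶜ.Infinite := by
  classical
  obtain ⟨e⟩ : Nonempty (α ≃ ℕ) := nonempty_equiv_of_countable
  refine ⟨fun a => e.symm (2 * e a), ?_, ?_⟩
  · intro a b h
    have := e.symm.injective h
    exact e.injective (by omega)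
  · have : (range fun n : ℕ => e.symm (2 * n + 1)) ⊆ (range fun a => e.symm (2 * e a))ᶜ := by
      rintro _ ⟨n, rfl⟩ ⟨a, ha⟩
      have := e.symm.injective ha
      omega
    refine Set.Infinite.mono this (Set.infinite_range_of_injective ?_)
    intro a b h
    have := e.symm.injective h
    omega

/-- parity swap -/
def sw : Equiv.Perm ℕ :=
  Function.Involutive.toPerm (fun n => if n % 2 = 0 then n + 1 else n - 1) (by
    intro n
    simp only
    split_ifs with h h1 h2 <;> omega)

lemma sw_odd (n : ℕ) : sw (2 * n + 1) = 2 * n := by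
  show (if (2 * n + 1) % 2 = 0 then _ else _) = _
  rw [if_neg (by omega)]; omega

/-! ### No accumulation points -/

lemma no_acc [T2Space X] {Z : Set X}
    (hZ : ∀ f : Equiv.Perm Z, ∃ F : X ≃ₜ X, IsAut E F ∧ ∀ z : Z, F z = f z) (a : X) :
    ¬ AccPt a (𝓟 Z) := by
  classical
  intro hacc
  set φ := extChartAt (modelWithCornersSelf ℂ E) a with hφ
  set r : X → ℝ := fun x => ‖φ x - φ a‖ with hr
  -- the set of good points
  have key : ∀ δ : ℝ, 0 < δ → ∃ x : X, x ∈ Z ∧ x ∈ φ.source ∧ x ≠ a ∧ r x < δ := by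
    intro δ hδ
    have h1 : ∀ᶠ x in 𝓝 a, x ∈ φ.source := extChartAt_source_mem_nhds (I := modelWithCornersSelf ℂ E) a
    have hc : ContinuousAt φ a := continuousAt_extChartAt a
    have h2 : ∀ᶠ x in 𝓝 a, r x < δ := by
      have : Tendsto r (𝓝 a) (𝓝 0) := by
        have h := (hc.sub_const (φ a)).norm
        simpa [hr, ContinuousAt] using h
      exact this.eventually (gt_mem_nhds hδ)
    rw [accPt_iff_frequently] at hacc
    obtain ⟨x, ⟨hx1, hx2⟩, hx3, hx4⟩ := (hacc.and_eventually (h1.and h2)).exists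
    exact ⟨x, hx2, hx3, hx1, hx4⟩
  have rpos : ∀ x, x ∈ φ.source → x ≠ a → 0 < r x := by
    intro x hx hxa
    rw [hr]
    simp only [norm_pos_iff, sub_ne_zero]
    intro h
    exact hxa (φ.injOn hx (mem_extChartAt_source a) h)
  let W := {x : X // x ∈ Z ∧ x ∈ φ.source ∧ x ≠ a}
  have step : ∀ (n : ℕ) (w : W), ∃ w' : W, r w'.1 < r w.1 / (n + 2) := by
    intro n w
    obtain ⟨x, h1, h2, h3, h4⟩ := key (r w.1 / (n + 2)) (div_pos (rpos _ w.2.2.1 w.2.2.2) (by positivity))
    exact ⟨⟨x, h1, h2, h3⟩, h4⟩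
  choose nxt hnxt using step
  obtain ⟨x0, h01, h02, h03, _⟩ := key 1 one_pos
  let s : ℕ → W := fun n => Nat.rec (⟨x0, h01, h02, h03⟩ : W) (fun n w => nxt n w) n
  have hs : ∀ n : ℕ, r (s (n + 1)).1 < r (s n).1 / (n + 2) := fun n => hnxt n (s n)
  have hpos : ∀ n, 0 < r (s n).1 := fun n => rpos _ (s n).2.2.1 (s n).2.2.2
  have hhalf : ∀ n, r (s (n + 1)).1 ≤ r (s n).1 / 2 := by
    intro n
    refine (hs n).le.trans ?_
    apply div_le_div_of_nonneg_left (hpos n).le (by norm_num)
    have : (0 : ℝ) ≤ n := Nat.cast_nonneg n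
    linarith
  have hanti : StrictAnti (fun n => r (s n).1) := by
    apply strictAnti_nat_of_succ_lt
    intro n
    have := hhalf n
    have := hpos n
    linarith
  have hgeo : ∀ n, r (s n).1 ≤ r (s 0).1 * (1 / 2) ^ n := by
    intro n
    induction n with
    | zero => simp
    | succ n ih =>
      have := hhalf n
      rw [pow_succ]
      linarith
  have hto0 : Tendsto (fun n => r (s n).1) atTop (𝓝 0) := by
    have h1 : Tendsto (fun n : ℕ => r (s 0).1 * (1 / 2 : ℝ) ^ n) atTop (𝓝 (r (s 0).1 * 0)) :=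
      (tendsto_pow_atTop_nhds_zero_of_lt_one (by norm_num) (by norm_num)).const_mul _
    rw [mul_zero] at h1
    exact squeeze_zero (fun n => (hpos n).le) hgeo h1
  have hφto : Tendsto (fun n => φ (s n).1) atTop (𝓝 (φ a)) := by
    rw [tendsto_iff_norm_sub_tendsto_zero]
    exact hto0
  have hsto : Tendsto (fun n => (s n).1) atTop (𝓝 a) := by
    have h1 : Tendsto φ.symm (𝓝 (φ a)) (𝓝 a) := by
      have := continuousAt_extChartAt_symm (I := modelWithCornersSelf ℂ E) a
      rw [ContinuousAt, extChartAt_to_inv] at this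
      exact this
    have h2 := h1.comp hφto
    refine h2.congr ?_
    intro n
    exact φ.left_inv (s n).2.2.1
  have hinj : Function.Injective (fun n => (⟨(s n).1, (s n).2.1⟩ : Z)) := by
    intro m n h
    apply hanti.injective
    have : (s m).1 = (s n).1 := congrArg (fun z : Z => (z : X)) h
    simp only [this]
  let e : ℕ ↪ Z := ⟨fun n => ⟨(s n).1, (s n).2.1⟩, hinj⟩
  obtain ⟨F, hF, hFz⟩ := hZ (sw.viaEmbedding e)
  have hFs : ∀ n, F (s n).1 = (s (sw n)).1 := by
    intro n
    have h := hFz (e n)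
    rw [Equiv.Perm.viaEmbedding_apply] at h
    exact h
  have hFa : F a = a := by
    have h1 : Tendsto (fun n => F (s n).1) atTop (𝓝 (F a)) := (F.continuous.tendsto a).comp hsto
    have h2 : Tendsto (fun n => (s (sw n)).1) atTop (𝓝 a) :=
      hsto.comp sw.injective.nat_tendsto_atTop
    have h3 : (fun n => F (s n).1) = (fun n => (s (sw n)).1) := funext hFs
    rw [h3] at h1
    exact tendsto_nhds_unique h1 h2
  have hd := (hF.1 a).2
  have hdiff : DifferentiableAt ℂ (φ ∘ F ∘ φ.symm) (φ a) := by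
    have h := hd
    simp only [writtenInExtChartAt, hFa, modelWithCornersSelf_coe, range_id] at h
    exact h.differentiableAt (by simp)
  obtain ⟨C, hC⟩ := hdiff.isBigO_sub.bound
  have hodd : Tendsto (fun n : ℕ => 2 * n + 1) atTop atTop :=
    tendsto_atTop_mono (fun n => by show n ≤ 2 * n + 1; omega) tendsto_id
  have hev := (hφto.comp hodd).eventually hC
  have hev2 : ∀ᶠ n : ℕ in atTop, C < n := by
    obtain ⟨N, hN⟩ := exists_nat_gt C
    filter_upwards [eventually_ge_atTop N] with n hn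
    exact lt_of_lt_of_le hN (by exact_mod_cast hn)
  obtain ⟨n, hn1, hn2⟩ := (hev.and hev2).exists
  simp only [Function.comp_apply] at hn1
  have e1 : φ.symm (φ (s (2 * n + 1)).1) = (s (2 * n + 1)).1 := φ.left_inv (s (2 * n + 1)).2.2.1
  have e2 : φ.symm (φ a) = a := extChartAt_to_inv a
  rw [e1, e2, hFa] at hn1
  have e3 : F (s (2 * n + 1)).1 = (s (2 * n)).1 := by
    have h := hFs (2 * n + 1)
    have h' : (s (sw (2 * n + 1))).1 = (s (2 * n)).1 := by
      have := sw_odd n
      exact congrArg (fun k => (s k).1) this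
    exact h.trans h'
  have h3 : r (s (2 * n)).1 ≤ C * r (s (2 * n + 1)).1 := by
    have h := hn1
    erw [e3] at h
    exact h
  have h4 := hs (2 * n)
  have h5 := hpos (2 * n)
  have h6 := hpos (2 * n + 1)
  rw [lt_div_iff₀ (by positivity)] at h4
  push_cast at h4
  have h7 : C * r (s (2 * n + 1)).1 < r (s (2 * n + 1)).1 * (2 * n + 2) := by
    rw [mul_comm]
    apply mul_lt_mul_of_pos_left _ h6
    have : (0 : ℝ) ≤ n := Nat.cast_nonneg n
    linarith
  linarith

lemma closed_discrete [T2Space X] {Z : Set X}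
    (hZ : ∀ f : Equiv.Perm Z, ∃ F : X ≃ₜ X, IsAut E F ∧ ∀ z : Z, F z = f z) :
    IsClosed Z ∧ DiscreteTopology Z := by
  have h := no_acc hZ
  constructor
  · rw [isClosed_iff_clusterPt]
    intro a ha
    by_contra hna
    apply h a
    rw [accPt_iff_frequently]
    rw [clusterPt_principal_iff_frequently] at ha
    refine ha.mono ?_
    intro y hy
    refine ⟨?_, hy⟩
    rintro rfl
    exact hna hy
  · rw [discreteTopology_subtype_iff]
    intro a _
    have := h a
    rw [AccPt, not_neBot] at this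
    exact this

lemma countable_of_closed_discrete [SecondCountableTopology X] {Z : Set X}
    (h : DiscreteTopology Z) : Countable Z := by
  have : LindelofSpace Z := inferInstance
  exact countable_of_Lindelof_of_discrete

lemma infinite_preimage {Z A : Set X} (hA : A ⊆ Z) (hc : (Z \ A).Infinite) :
    ({z : Z | (z : X) ∈ A}ᶜ : Set Z).Infinite := by
  have h : ((fun z : Z => (z : X)) '' ({z : Z | (z : X) ∈ A}ᶜ)).Infinite := by
    refine hc.mono ?_
    rintro x ⟨hx, hxA⟩
    exact ⟨⟨x, hx⟩, hxA, rfl⟩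
  exact Set.Infinite.of_image _ h

lemma tame_of_coinfinite [T2Space X] [SecondCountableTopology X] {Z : Set X}
    (hZ : ∀ f : Equiv.Perm Z, ∃ F : X ≃ₜ X, IsAut E F ∧ ∀ z : Z, F z = f z)
    {A : Set X} (hA : A ⊆ Z) (hAinf : A.Infinite) (hc : (Z \ A).Infinite) : Tame E A := by
  obtain ⟨hcl, hdisc⟩ := closed_discrete hZ
  have hcount : Countable Z := countable_of_closed_discrete hdisc
  refine ⟨hAinf, ?_, ?_, ?_⟩
  · -- closed
    rw [isClosed_iff_clusterPt]
    intro a ha
    by_contra hna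
    apply no_acc hZ a
    rw [accPt_iff_frequently]
    rw [clusterPt_principal_iff_frequently] at ha
    refine ha.mono ?_
    intro y hy
    refine ⟨?_, hA hy⟩
    rintro rfl
    exact hna hy
  · exact DiscreteTopology.of_subset hdisc hA
  · intro f hf
    classical
    set S : Set Z := {z : Z | (z : X) ∈ A} with hS
    let g : S → Z := fun z => ⟨(f ⟨z.1.1, z.2⟩ : A).1, hA (f ⟨z.1.1, z.2⟩ : A).2⟩
    have hg : Function.Injective g := by
      intro a b hab
      have h1 : ((f ⟨a.1.1, a.2⟩ : A) : X) = ((f ⟨b.1.1, b.2⟩ : A) : X) :=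
        congrArg (fun z : Z => (z : X)) hab
      have h2 := hf (Subtype.ext h1)
      have h3 : a.1.1 = b.1.1 := congrArg (fun z : A => (z : X)) h2
      exact Subtype.ext (Subtype.ext h3)
    have hSc : (Sᶜ : Set Z).Infinite := infinite_preimage hA hc
    have hr : (range g)ᶜ.Infinite := by
      refine hSc.mono ?_
      rintro z hz ⟨w, rfl⟩
      exact hz (f ⟨w.1.1, w.2⟩ : A).2
    obtain ⟨π, hπ⟩ := exists_perm S g hg hSc hr
    obtain ⟨F, hF, hFz⟩ := hZ π
    refine ⟨F, hF, ?_⟩
    intro z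
    have h1 := hFz ⟨z.1, hA z.2⟩
    have h2 : π ⟨z.1, hA z.2⟩ = g ⟨⟨z.1, hA z.2⟩, z.2⟩ := hπ ⟨⟨z.1, hA z.2⟩, z.2⟩
    rw [h2] at h1
    exact h1

lemma tame_invariant [T2Space X] {Z : Set X} (F : X ≃ₜ X) (hF : IsAut E F) (h : Tame E (F '' Z)) :
    Tame E Z := by
  obtain ⟨h1, h2, h3, h4⟩ := h
  refine ⟨h1.of_image _, ?_, ?_, ?_⟩
  · have := h2.preimage F.continuous
    rwa [preimage_image_eq _ F.injective] at this
  · have e : Z ≃ₜ (F '' Z) := F.image Z
    exact e.symm.discreteTopology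
  · intro f hf
    let f' : F '' Z → F '' Z := fun w => ⟨F (f ⟨F.symm w.1, by
      obtain ⟨z, hz, hzw⟩ := w.2
      rw [← hzw, F.symm_apply_apply]; exact hz⟩ : Z).1, mem_image_of_mem _ (Subtype.coe_prop _)⟩
    have hf' : Function.Injective f' := by
      intro a b hab
      have h5 := F.injective (congrArg (fun w : F '' Z => (w : X)) hab)
      have h6 := hf (Subtype.ext h5)
      have h7 := F.symm.injective (congrArg (fun w : Z => (w : X)) h6)
      exact Subtype.ext h7
    obtain ⟨P, hP, hPz⟩ := h4 f' hf'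
    refine ⟨(F.trans P).trans F.symm, (hF.comp hP).comp hF.symm, ?_⟩
    intro z
    have h5 := hPz ⟨F z.1, mem_image_of_mem _ z.2⟩
    have h6 : F.symm (P (F z.1)) = F.symm (F (f ⟨F.symm (F z.1), by
      rw [F.symm_apply_apply]; exact z.2⟩ : Z).1) := by
      rw [h5]
    rw [F.symm_apply_apply] at h6
    have h7 : (⟨F.symm (F z.1), by rw [F.symm_apply_apply]; exact z.2⟩ : Z) = z :=
      Subtype.ext (F.symm_apply_apply _)
    rw [h7] at h6
    exact h6

lemma tame_iff [T2Space X] [SecondCountableTopology X] {Z : Set X} (hinf : Z.Infinite)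
    (hZ : ∀ f : Equiv.Perm Z, ∃ F : X ≃ₜ X, IsAut E F ∧ ∀ z : Z, F z = f z) :
    Tame E Z ↔ ∃ F : X ≃ₜ X, IsAut E F ∧ F '' Z ⊆ Z ∧ (Z \ F '' Z).Infinite := by
  obtain ⟨hcl, hdisc⟩ := closed_discrete hZ
  have hcount : Countable Z := countable_of_closed_discrete hdisc
  have : Infinite Z := hinf.to_subtype
  constructor
  · rintro ⟨_, _, _, h4⟩
    obtain ⟨f, hf, hr⟩ := exists_coinf_inj (α := Z)
    obtain ⟨F, hF, hFz⟩ := h4 f hf
    refine ⟨F, hF, ?_, ?_⟩
    · rintro _ ⟨z, hz, rfl⟩
      rw [hFz ⟨z, hz⟩]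
      exact Subtype.coe_prop _
    · have h5 : ((fun z : Z => (z : X)) '' (range f)ᶜ).Infinite :=
        hr.image (Subtype.coe_injective.injOn)
      refine h5.mono ?_
      rintro _ ⟨z, hz, rfl⟩
      refine ⟨z.2, ?_⟩
      rintro ⟨w, hw, hwz⟩
      apply hz
      refine ⟨⟨w, hw⟩, ?_⟩
      have := hFz ⟨w, hw⟩
      exact Subtype.ext (by rw [← this]; exact hwz)
  · rintro ⟨F, hF, h1, h2⟩
    exact tame_invariant F hF
      (tame_of_coinfinite hZ h1 (hinf.image (F.injective.injOn)) h2)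

end Pool.Agent.W519.J
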