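import Pool.Agent.W519.Dup
import Pool.Agent.W519.Gam
import Pool.Agent.W519.Cls

/-!
# The distribution of classes of Gauss sums
-/

set_option autoImplicit false
set_option linter.unusedSectionVars false

namespace Pool.Agent.W519

open Finset NumberField Pool.Agent.H916K Pool.Agent.H916R2

/-- the levels and primes considered -/
structure Lev (n m ℓ : ℕ) : Prop where
  odd : Odd n
  two : m = n ∨ m = 2 * n
  dvd : 8 * m ∣ ℓ - 1

section

variable {n m ℓ : ℕ} [hℓ : Fact ℓ.Prime] (L : Lev n m ℓ)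

include L

lemma Lev.n_pos : 0 < n := L.odd.pos

lemma Lev.m_pos : 0 < m := by
  have := L.n_pos
  rcases L.two with h | h <;> omega

lemma Lev.ell_ge : 9 ≤ ℓ := by
  have h1 := hℓ.out.two_le
  have h2 := Nat.le_of_dvd (by omega) L.dvd
  have := L.m_pos
  omega

lemma Lev.ell8 : ℓ % 8 = 1 := by
  have h1 := L.ell_ge
  have h2 : 8 ∣ ℓ - 1 := (Dvd.intro m rfl).trans L.dvd
  omega

lemma Lev.m_dvd : m ∣ ℓ - 1 := (Dvd.intro_left 8 rfl).trans L.dvd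

lemma Lev.n_dvd : n ∣ m := by
  rcases L.two with h | h
  · rw [h]
  · rw [h]; exact Dvd.intro_left 2 rfl

lemma Lev.odd_nl : Odd (n * ℓ) := by
  apply L.odd.mul
  have := L.ell8
  rw [Nat.odd_iff]; omega

lemma Lev.ne_two : ℓ ≠ 2 := by have := L.ell_ge; omega

lemma Lev.m_two : m ∣ 2 * n := by
  rcases L.two with h | h
  · rw [h]; exact Dvd.intro_left 2 rfl
  · rw [h]

lemma Lev.minus_one {R : Type} [CommRing R] [IsDomain R] {χ : MulChar (ZMod ℓ) R}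
    (hχ : χ ^ m = 1) : χ (-1) = 1 := by
  have h4 : ℓ % 4 ≠ 3 := by have := L.ell8; omega
  obtain ⟨i, hi⟩ := ZMod.exists_sq_eq_neg_one_iff.mpr h4
  have hne : (-1 : ZMod ℓ) ≠ 0 := neg_ne_zero.mpr one_ne_zero
  have hi0 : i ≠ 0 := by rintro rfl; exact hne (by rw [hi, mul_zero])
  have h1 : χ (-1) ^ 2 = 1 := by rw [← map_pow]; simp
  have h2 : χ i ^ (2 * n) = 1 := by
    obtain ⟨c, hc⟩ := L.m_two
    rw [hc, pow_mul, ← mulChar_pow_apply χ m hi0, hχ,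
      MulChar.one_apply (isUnit_iff_ne_zero.mpr hi0), one_pow]
  have h3 : χ (-1) ^ n = 1 := by
    rw [hi, map_mul, ← sq, ← pow_mul]; exact h2
  obtain ⟨k, hk⟩ := L.odd
  rw [hk, pow_succ, pow_mul, h1, one_pow, one_mul] at h3
  exact h3

lemma Lev.sq_root {R : Type} [CommRing R] [IsDomain R] {χ : MulChar (ZMod ℓ) R}
    (hχ : χ ^ m = 1) {x : ZMod ℓ} (hx : x ≠ 0) (hsq : IsSquare x) : χ x ^ n = 1 := by
  obtain ⟨i, hi⟩ := hsq
  have hi0 : i ≠ 0 := by rintro rfl; exact hx (by rw [hi, mul_zero])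
  obtain ⟨c, hc⟩ := L.m_two
  rw [hi, map_mul, ← sq, ← pow_mul, hc, pow_mul, ← mulChar_pow_apply χ m hi0, hχ,
    MulChar.one_apply (isUnit_iff_ne_zero.mpr hi0), one_pow]

lemma Lev.prime_ne {l : ℕ} (hlm : l ∣ m) : l ≠ ℓ := by
  rintro rfl
  have h1 := Nat.le_of_dvd L.m_pos hlm
  have h2 := Nat.le_of_dvd (by have := L.ell_ge; omega) L.dvd
  have := L.m_pos
  omega

lemma Lev.cast_ne {l : ℕ} (hl : l.Prime) (hlm : l ∣ m) : (l : ZMod ℓ) ≠ 0 := by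
  rw [Ne, ZMod.natCast_eq_zero_iff]
  intro h
  exact L.prime_ne hlm ((Nat.prime_dvd_prime_iff_eq hℓ.out hl).mp h).symm

lemma Lev.isSquare {l : ℕ} (hl : l.Prime) (hl2 : l ≠ 2) (hlm : l ∣ m) : IsSquare (l : ZMod ℓ) := by
  have : Fact l.Prime := ⟨hl⟩
  have h4 : ℓ % 4 = 1 := by have := L.ell8; omega
  have h1 := (ZMod.exists_sq_eq_prime_iff_of_mod_four_eq_one (p := ℓ) (q := l) h4 hl2)
  rw [h1]
  have h2 : ((ℓ : ℕ) : ZMod l) = 1 := by
    have h3 : l ∣ ℓ - 1 := hlm.trans L.m_dvd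
    have h5 : ((ℓ - 1 : ℕ) : ZMod l) = 0 := (ZMod.natCast_eq_zero_iff _ _).mpr h3
    rw [Nat.cast_sub (by have := L.ell_ge; omega)] at h5
    simpa using sub_eq_zero.mp h5
  rw [h2]
  exact ⟨1, by simp⟩

lemma Lev.cast_one {l : ℕ} (hlm : l ∣ m) {k : Type} [Field k] [CharP k l] : (ℓ : k) = 1 := by
  have h3 : l ∣ ℓ - 1 := hlm.trans L.m_dvd
  have h5 : ((ℓ - 1 : ℕ) : k) = 0 := (CharP.cast_eq_zero_iff k l _).mpr h3
  rw [Nat.cast_sub (by have := L.ell_ge; omega)] at h5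
  simpa using sub_eq_zero.mp h5

omit L in
lemma pow_val {R : Type} [CommRing R] {χ : MulChar (ZMod ℓ) R} (hχ : χ ^ m = 1) {a b : ℕ}
    (h : (a : ZMod m) = (b : ZMod m)) : χ ^ a = χ ^ b := by
  rw [ZMod.natCast_eq_natCast_iff] at h
  exact pow_eq_pow_of_modEq h hχ

omit L in
lemma pow_val_add {R : Type} [CommRing R] [NeZero m] {χ : MulChar (ZMod ℓ) R} (hχ : χ ^ m = 1)
    (a b : ZMod m) : χ ^ (a + b).val = χ ^ a.val * χ ^ b.val := by
  rw [← pow_add]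
  apply pow_val hχ
  push_cast
  rw [ZMod.natCast_zmod_val, ZMod.natCast_zmod_val, ZMod.natCast_zmod_val]

omit L in
lemma pow_val_neg {R : Type} [CommRing R] [NeZero m] {χ : MulChar (ZMod ℓ) R} (hχ : χ ^ m = 1)
    (a : ZMod m) : χ ^ (-a).val = (χ ^ a.val)⁻¹ := by
  apply eq_inv_of_mul_eq_one_left
  rw [← pow_val_add hχ, neg_add_cancel, ZMod.val_zero, pow_zero]

omit L in
lemma pow_val_mul {R : Type} [CommRing R] [NeZero m] {χ : MulChar (ZMod ℓ) R} (hχ : χ ^ m = 1)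
    (l : ℕ) (a : ZMod m) : χ ^ ((l : ZMod m) * a).val = (χ ^ a.val) ^ l := by
  rw [← pow_mul]
  apply pow_val hχ
  push_cast
  rw [ZMod.natCast_zmod_val, ZMod.natCast_zmod_val]
  ring

omit L in
lemma pow_val_ne {R : Type} [CommRing R] [NeZero m] {χ : MulChar (ZMod ℓ) R} (hχ : orderOf χ = m)
    {a : ZMod m} (ha : a ≠ 0) : χ ^ a.val ≠ 1 := by
  intro h
  have h1 := orderOf_dvd_of_pow_eq_one h
  rw [hχ] at h1
  have h2 := ZMod.val_lt a
  have h3 : a.val ≠ 0 := fun h => ha ((ZMod.val_eq_zero a).mp h)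
  exact absurd (Nat.le_of_dvd (Nat.pos_of_ne_zero h3) h1) (by omega)

/-- opposite entries -/
lemma Lev.pair {R : Type} [CommRing R] [IsDomain R] [NeZero m] {χ : MulChar (ZMod ℓ) R}
    (hχ : orderOf χ = m) {ψ : AddChar (ZMod ℓ) R} (hψ : ψ.IsPrimitive) {a : ZMod m} (ha : a ≠ 0) :
    gaussSum (χ ^ a.val) ψ * gaussSum (χ ^ (-a).val) ψ = (ℓ : R) := by
  have h0 : χ ^ m = 1 := by rw [← hχ]; exact pow_orderOf_eq_one _
  rw [pow_val_neg h0]
  apply gauss_pair hψ (pow_val_ne hχ ha)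
  apply L.minus_one
  rw [← pow_mul, mul_comm, pow_mul, h0, one_pow]

end

section

variable {ℓ : ℕ} [hℓ : Fact ℓ.Prime]

/-- Frobenius -/
lemma frob_gauss {k : Type} [Field k] {l : ℕ} [hl : Fact l.Prime] [CharP k l]
    (χ : MulChar (ZMod ℓ) k) (ψ : AddChar (ZMod ℓ) k) (h : (l : ZMod ℓ) ≠ 0) :
    gaussSum χ ψ ^ l = (χ ^ l)⁻¹ (l : ZMod ℓ) * gaussSum (χ ^ l) ψ := by
  rw [gaussSum_frob (p := l), AddChar.pow_mulShift]
  have h1 := gaussSum_mulShift_eq (χ ^ l) ψ (Units.mk0 (l : ZMod ℓ) h)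
  rw [Units.val_mk0] at h1
  exact h1

end

end Pool.Agent.W519
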