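import Pool.Agent.W519.Prep

/-!
# Degrees with two odd prime factors, squares modulo each other
-/

set_option autoImplicit false
set_option linter.unusedSectionVars false

namespace Pool.Agent.W519

open Finset NumberField Pool.Agent.H916K Pool.Agent.H916R2
open scoped NumberTheorySymbols

section

/-- the parity of the entries of `q`-power order in coordinates -/
lemma par_coord {p q : ℕ} [hp : Fact p.Prime] [hq : Fact q.Prime] (hpq : p ≠ q) {b m kk : ℕ}
    [NeZero m] (hb : 0 < b) (hkk : kk * (p * q) = m) (x : ZMod (p * q) → ℤ) :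
    (∑ β, x β • par m (q ^ b) (iota kk β) : ZMod 2) =
      ((∑ v ∈ univ.erase (0 : ZMod q), two hpq x 0 v : ℤ) : ZMod 2) := by
  classical
  rw [sum_two hpq]
  have h1 : ∀ u v, two hpq (fun β => x β • par m (q ^ b) (iota kk β)) u v =
      if u = 0 then (if v = 0 then 0 else ((two hpq x u v : ℤ) : ZMod 2)) else 0 := by
    intro u v
    have h2 : two hpq (fun β => x β • par m (q ^ b) (iota kk β)) u v =
        two hpq x u v • par m (q ^ b) (ww m hpq kk u v) := rfl
    rw [h2]
    have h3 : ww m hpq kk u v = 0 ↔ (u = 0 ∧ v = 0) := by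
      constructor
      · intro h
        by_contra h4
        exact ww_ne hpq hkk h4 h
      · rintro ⟨rfl, rfl⟩
        exact ww_zero hpq
    have h4 : ((q ^ b : ℕ) : ZMod m) * ww m hpq kk u v = 0 ↔ u = 0 := by
      rw [← ww_mul hpq hkk]
      have h5 : ((q ^ b : ℕ) : ZMod q) * v = 0 := by
        push_cast
        rw [CharP.cast_eq_zero, zero_pow hb.ne', zero_mul]
      rw [h5]
      constructor
      · intro h
        by_contra hu
        refine ww_ne hpq hkk (u := ((q ^ b : ℕ) : ZMod p) * u) (v := (0 : ZMod q)) ?_ h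
        rintro ⟨h6, -⟩
        rcases mul_eq_zero.mp h6 with h7 | h7
        · push_cast at h7
          exact pq_ne hpq (pow_eq_zero_iff hb.ne' |>.mp h7)
        · exact hu h7
      · rintro rfl
        rw [mul_zero]
        exact ww_zero hpq
    unfold par
    simp only [h3, h4]
    by_cases hu : u = 0
    · by_cases hv : v = 0
      · simp only [hu, hv, and_self, if_true]
        have : (1 + 1 : ZMod 2) = 0 := by decide
        rw [this, smul_zero]
      · simp only [hu, hv, and_false, if_true, if_false, add_zero]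
        rw [zsmul_eq_mul, mul_one]
    · simp [hu]
  rw [sum_congr rfl fun u _ => sum_congr rfl fun v _ => h1 u v]
  rw [← add_sum_erase _ _ (mem_univ (0 : ZMod p))]
  simp only [if_true]
  rw [← add_sum_erase _ _ (mem_univ (0 : ZMod q)), if_pos rfl, zero_add]
  have h5 : ∑ u ∈ univ.erase (0 : ZMod p), ∑ v, (if u = 0 then (if v = 0 then 0 else
      ((two hpq x u v : ℤ) : ZMod 2)) else 0) = 0 := by
    apply sum_eq_zero
    intro u hu
    apply sum_eq_zero
    intro v _
    rw [if_neg (ne_of_mem_erase hu)]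
  rw [h5, add_zero]
  push_cast
  refine sum_congr rfl fun v hv => ?_
  rw [if_neg (ne_of_mem_erase hv)]

/-- **Rational classes in degrees with two odd prime factors which are squares modulo each
other.** -/
theorem main_rr {p q : ℕ} (hp : p.Prime) (hq : q.Prime) (hp2 : p ≠ 2) (hq4 : q % 4 = 1)
    (hpq : p ≠ q) (hJ : J((p : ℤ) | q) = 1) {a b c m : ℕ} (ha : 0 < a)
    (hb : 0 < b) (hc : c = 1 ∨ c = 2) (hm : c * (p ^ a * q ^ b) = m) {s : Multiset (ZMod m × ℤ)}
    (hs : IsHodge m (s.map Prod.fst)) (hne : s ≠ 0) (hc0 : ∀ z ∈ s, z.2 ≠ 0)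
    (hR : RationalClass m s) : Generated m (fun _ => False) (s.map Prod.fst) := by
  classical
  have : Fact p.Prime := ⟨hp⟩
  have : Fact q.Prime := ⟨hq⟩
  have hq2 : q ≠ 2 := by rintro rfl; norm_num at hq4
  have hcpos : 0 < c := by rcases hc with rfl | rfl <;> norm_num
  have hm0 : 0 < m := by
    rw [← hm]; have := hp.pos; have := hq.pos; positivity
  have hmz : NeZero m := ⟨hm0.ne'⟩
  have hp3 : 3 ≤ p := by have := hp.two_le; omega
  have hpm : p ∣ m := by
    rw [← hm]; exact Dvd.dvd.mul_left (Dvd.dvd.mul_right (dvd_pow_self p ha.ne') _) _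
  have hqm : q ∣ m := by
    rw [← hm]; exact Dvd.dvd.mul_left (Dvd.dvd.mul_left (dvd_pow_self q hb.ne') _) _
  obtain ⟨kk, hkk, hred⟩ := exists_red_pq hp hq hp2 hq2 ha hb hc hm
  -- parity
  have hcop : (c * p ^ a).Coprime q := by
    apply Nat.Coprime.mul_left
    · rcases hc with rfl | rfl
      · exact Nat.coprime_one_left q
      · exact (Nat.coprime_primes Nat.prime_two hq).mpr (fun h => hq2 h.symm)
    · exact Nat.Coprime.pow_left a ((Nat.coprime_primes hp hq).mpr hpq)
  have hM : 3 ≤ c * p ^ a := by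
    calc 3 ≤ p := hp3
      _ ≤ p ^ a := Nat.le_self_pow ha.ne' p
      _ ≤ c * p ^ a := Nat.le_mul_of_pos_left _ hcpos
  have hevn := even_of_rational (m := m) (M := c * p ^ a) (q := q) (b := b) (by rw [← hm]; ring) hM
    hq hq2 hcop hc0 hR
  rw [countP_conv (pow_pos hq.pos b) (by rw [← hm]; ring)] at hevn
  have hπ : OddDist (par m (q ^ b)) :=
    par_oddDist (M := c * p ^ a) hq hq2 hcop.symm (by rw [← hm]; ring)
  -- the conic and the prime
  obtain ⟨X, Y, Z, hcon, hXY, hZ⟩ := exists_conic hp2 hpq hq4 (pstar_natAbs p) (pstar_mod hp2) hJ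
  have hZ0 : Z ≠ 0 := by rintro rfl; norm_num at hZ
  set g : ZMod m × ℤ → ℤ := fun z => if 2 ∣ m ∧ ¬ 2 ∣ z.1.val then z.2 else 1 with hg
  have hg0 : ∀ z ∈ s, g z ≠ 0 := by
    intro z hz
    simp only [hg]
    split_ifs
    · exact hc0 z hz
    · exact one_ne_zero
  have hC0 : (s.map g).prod ≠ 0 := by
    apply Multiset.prod_ne_zero
    intro h
    obtain ⟨i, hi, h0⟩ := Multiset.mem_map.mp h
    exact hg0 i hi h0
  obtain ⟨N, hN⟩ := hR
  have h8m : NeZero (8 * m) := ⟨by omega⟩
  obtain ⟨ℓ, hℓN, hℓ, hℓm, e, he, hJe⟩ := exists_prime_symbol hp2 hq4 hpq (M := 8 * m)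
    (hpm.mul_left 8) (hqm.mul_left 8) hcon hZ0 hC0
    (N + (s.map fun z => z.2.natAbs).sum + Z.natAbs + m + 1)
  have hℓF : Fact ℓ.Prime := ⟨hℓ⟩
  set n := p ^ a * q ^ b with hn
  have hnodd : Odd n := by
    rw [hn]
    exact ((hp.odd_of_ne_two hp2).pow).mul ((hq.odd_of_ne_two hq2).pow)
  have L : Lev n m ℓ := ⟨hnodd, by rcases hc with rfl | rfl <;> omega, hℓm⟩
  have hnl : NeZero (n * ℓ) := ⟨Nat.mul_ne_zero L.n_pos.ne' hℓ.ne_zero⟩
  have hsmall : ∀ z ∈ s, ((z.2 : ℤ) : ZMod ℓ) ≠ 0 := by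
    intro z hz
    apply int_cast_ne_zero (hc0 z hz)
    have h1 : z.2.natAbs ≤ (s.map fun z => z.2.natAbs).sum :=
      Multiset.single_le_sum (fun _ _ => Nat.zero_le _) _ (Multiset.mem_map_of_mem _ hz)
    omega
  have hgsmall : ∀ z ∈ s, ((g z : ℤ) : ZMod ℓ) ≠ 0 := by
    intro z hz
    simp only [hg]
    split_ifs
    · exact hsmall z hz
    · simp
  have hℓZ : ¬ (ℓ : ℤ) ∣ Z := by
    intro h
    have h1 := Int.natAbs_dvd_natAbs.mpr h
    rw [Int.natAbs_natCast] at h1
    have h2 := Nat.le_of_dvd (Int.natAbs_pos.mpr hZ0) h1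
    omega
  -- reduction modulo a prime above `q`
  obtain ⟨k, _, _, ⟨φ⟩⟩ := exists_red hq
  obtain ⟨σ, ι, hι, -⟩ := exists_emb (CF (n * ℓ))
  obtain ⟨-, ιp, -, -⟩ := exists_emb (CF p)
  set f : 𝓞 (CF (n * ℓ)) →+* k := φ.comp ι with hf
  set fp : 𝓞 (CF p) →+* k := φ.comp ιp with hfp
  obtain ⟨χ, hχ⟩ := exists_chi L
  obtain ⟨ζ, hζ, hhalf⟩ := exists_zeta L hqm f hχ
  set ψ := AddChar.zmodChar ℓ hζ.pow_eq_one with hψ
  have hd := gcl_dist L hqm f hχ hζ hhalf
  -- the identity of Gauss sums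
  set gC : 𝓞 (CF (n * ℓ)) →+* ℂ := σ.comp (algebraMap (𝓞 (CF (n * ℓ))) (CF (n * ℓ))) with hgC
  have hgCinj : Function.Injective gC :=
    σ.injective.comp (FaithfulSMul.algebraMap_injective (𝓞 (CF (n * ℓ))) (CF (n * ℓ)))
  have hζ' : IsPrimitiveRoot (gC ζ) ℓ := hζ.map_of_injective hgCinj
  have hχC : orderOf (χ.ringHomComp gC) = m := by
    rw [← hχ]
    exact orderOf_injective (MulChar.ringHomCompHom gC) (MulChar.injective_ringHomComp hgCinj) χ
  have hψC : AddChar.zmodChar ℓ hζ'.pow_eq_one ≠ 1 := by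
    intro h
    have h1 : AddChar.zmodChar ℓ hζ'.pow_eq_one (1 : ZMod ℓ) = 1 := by rw [h]; rfl
    rw [AddChar.zmodChar_apply, ZMod.val_one, pow_one] at h1
    exact hζ'.ne_one hℓ.one_lt h1
  have hℓ1 : ((ℓ : ℕ) : ZMod m) = 1 := by
    have h3 : m ∣ ℓ - 1 := L.m_dvd
    have h5 : ((ℓ - 1 : ℕ) : ZMod m) = 0 := (ZMod.natCast_eq_zero_iff _ _).mpr h3
    rw [Nat.cast_sub (by have := L.ell_ge; omega)] at h5
    simpa using sub_eq_zero.mp h5
  have hrat := hN ℓ (by omega) hℓ (ZMod ℓ) (by rw [hℓ1, orderOf_one, pow_one, ZMod.card])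
    (χ.ringHomComp gC) (AddChar.zmodChar ℓ hζ'.pow_eq_one) hχC hψC
  have hratO : (s.map fun z => gaussSum (χ ^ z.1.val) ψ).prod =
      (ℓ : 𝓞 (CF (n * ℓ))) ^ (Multiset.card s / 2) *
        (s.map fun z => (χ ^ z.1.val) (z.2 : ZMod ℓ)).prod := by
    apply hgCinj
    rw [map_multiset_prod, Multiset.map_map, map_mul, map_multiset_prod, Multiset.map_map,
      map_pow, map_natCast]
    have h1 : (s.map (⇑gC ∘ fun z => gaussSum (χ ^ z.1.val) ψ)) =
        s.map fun z => gaussSum ((χ.ringHomComp gC) ^ z.1.val)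
          (AddChar.zmodChar ℓ hζ'.pow_eq_one) := by
      apply Multiset.map_congr rfl
      intro z _
      exact map_gaussSum gC hζ.pow_eq_one hζ'.pow_eq_one χ z.1.val
    have h2 : (s.map (⇑gC ∘ fun z => (χ ^ z.1.val) (z.2 : ZMod ℓ))) =
        s.map fun z => ((χ.ringHomComp gC) ^ z.1.val) (z.2 : ZMod ℓ) := by
      apply Multiset.map_congr rfl
      intro z _
      rw [MulChar.ringHomComp_pow]; rfl
    rw [h1, h2, hrat, ZMod.card]
  -- the classes
  have hz1 : ∀ z ∈ s, z.1 ≠ 0 := by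
    intro z hz h
    exact hs.1 (by rw [← h]; exact Multiset.mem_map_of_mem _ hz)
  have hcls : ((s.map Prod.fst).map (gcl f χ ψ)).sum = cl (((J((s.map g).prod | ℓ) : ℤ)) : k) := by
    have h1 := congrArg f hratO
    rw [map_multiset_prod, Multiset.map_map, map_mul, map_multiset_prod, Multiset.map_map,
      map_pow, map_natCast, L.cast_one hqm, one_pow, one_mul] at h1
    have hGne : ∀ z ∈ s, (⇑f ∘ fun z : ZMod m × ℤ => gaussSum (χ ^ z.1.val) ψ) z ≠ 0 :=
      fun z hz => L.ne_zero hqm f hχ hζ (hz1 z hz)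
    have h0 : χ ^ m = 1 := by
      have := pow_orderOf_eq_one χ
      rwa [hχ] at this
    have hcne : ∀ z ∈ s, (⇑f ∘ fun z : ZMod m × ℤ => (χ ^ z.1.val) (z.2 : ZMod ℓ)) z ≠ 0 := by
      intro z hz h
      have h2 : ((χ ^ z.1.val) (z.2 : ZMod ℓ)) ^ m = 1 := by
        rw [← mulChar_pow_apply _ _ (hsmall z hz), pow_right_comm, h0, one_pow,
          MulChar.one_apply (isUnit_iff_ne_zero.mpr (hsmall z hz))]
      have h3 := congrArg f h2
      rw [map_pow, map_one] at h3
      have h4 : f ((χ ^ z.1.val) (z.2 : ZMod ℓ)) = 0 := h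
      rw [h4, zero_pow hm0.ne'] at h3
      exact zero_ne_one h3
    have h2 := congrArg cl h1
    rw [cl_multiset _ _ hGne, cl_multiset _ _ hcne] at h2
    rw [Multiset.map_map, ← cl_symbol s g hgsmall]
    have e1 : (s.map (gcl f χ ψ ∘ Prod.fst)) =
        s.map fun z => cl ((⇑f ∘ fun z : ZMod m × ℤ => gaussSum (χ ^ z.1.val) ψ) z) := by
      apply Multiset.map_congr rfl
      intro z hz
      simp only [Function.comp_apply]
      unfold gcl
      rw [if_neg (hz1 z hz)]
    have e2 : (s.map fun z => cl (((J(g z | ℓ) : ℤ)) : k)) =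
        s.map fun z => cl ((⇑f ∘ fun z : ZMod m × ℤ => (χ ^ z.1.val) (z.2 : ZMod ℓ)) z) := by
      apply Multiset.map_congr rfl
      intro z hz
      simp only [Function.comp_apply]
      rw [cl_coef L f hχ (hsmall z hz)]
    rw [e1, e2]
    exact h2
  -- reduction to level `p * q`
  obtain ⟨x0, hx0, h1, h2⟩ := red_parity hred
    (oddDist_prod (cQ_oddDist (m := m) (base := fun _ => False)) hd) hπ hs
  have h1a := congrArg Prod.fst h1
  have h1b := congrArg Prod.snd h1
  have hprodfst : ∀ (S : Multiset (ZMod m)), ((S.map fun a =>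
      (cQ m (fun _ => False) a, gcl f χ ψ a)).sum).1 = (S.map (cQ m (fun _ => False))).sum := by
    intro S
    induction S using Multiset.induction_on with
    | empty => simp
    | cons a S ih => rw [Multiset.map_cons, Multiset.sum_cons, Prod.fst_add, ih, Multiset.map_cons,
        Multiset.sum_cons]
  have hprodsnd : ∀ (S : Multiset (ZMod m)), ((S.map fun a =>
      (cQ m (fun _ => False) a, gcl f χ ψ a)).sum).2 = (S.map (gcl f χ ψ)).sum := by
    intro S
    induction S using Multiset.induction_on with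
    | empty => simp
    | cons a S ih => rw [Multiset.map_cons, Multiset.sum_cons, Prod.snd_add, ih, Multiset.map_cons,
        Multiset.sum_cons]
  rw [hprodfst, Prod.fst_sum] at h1a
  rw [hprodsnd, Prod.snd_sum] at h1b
  simp only [Prod.smul_fst] at h1a
  simp only [Prod.smul_snd] at h1b
  have hx2 := rel_two hpq hx0
  by_cases hA : 2 ∣ AA (two hpq x0) 1
  · -- the relation is standard
    have h11 : ∀ u v, u ≠ 0 → v ≠ 0 → (2 ∣ AA (two hpq x0) u ↔ 2 ∣ H916K.BB (two hpq x0) v) := by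
      intro u v hu hv
      have := two_yy hx2 hu hv
      omega
    have hB : ∀ v, v ≠ 0 → 2 ∣ H916K.BB (two hpq x0) v := fun v hv => (h11 1 v one_ne_zero hv).mp hA
    have hA' : ∀ u, u ≠ 0 → 2 ∣ AA (two hpq x0) u := fun u hu =>
      (h11 u 1 hu one_ne_zero).mpr (hB 1 one_ne_zero)
    have hev := even_case hp2 hq2 hpq hx2 hA' hB
      (two_d2 hpq ((cQ_oddDist (m := m) (base := fun _ => False)).comp_iota hkk))
    have hev' : ∑ β, x0 β • cQ m (fun _ => False) (iota kk β) = 0 := by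
      rw [sum_two hpq]; exact hev
    rw [hev', cQ_sum, QuotientAddGroup.eq_zero_iff] at h1a
    exact generated_of_mem_LL (fun _ h => h.elim) (fun _ h => h.elim) hs.1 hs.2.1
      (fun h => hne (Multiset.map_eq_zero.mp h)) h1a
  · -- the relation is exotic
    exfalso
    have hval := eval_sym hp2 hq4 hpq hJ L hkk f fp hχ hζ hhalf hx0 hA hcon hXY hZ he hℓZ
    rw [← hψ, ← h1b, hcls] at hval
    -- the number of entries
    have hn0 : (2 : ℤ) ∣ ∑ v ∈ univ.erase (0 : ZMod q), two hpq x0 0 v := by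
      apply (ZMod.intCast_zmod_eq_zero_iff_dvd _ 2).mp
      rw [← par_coord hpq hb hkk, ← h2, sum_par hs.1]
      exact (ZMod.natCast_eq_zero_iff_even).mpr hevn
    obtain ⟨n0, hn0⟩ := hn0
    have h2cl : (2 : ℕ) • cl (-1 : k) = 0 := cl_two
    have h3 : (∑ v ∈ univ.erase (0 : ZMod q), two hpq x0 0 v) • cl (-1 : k) = 0 := by
      rw [hn0, mul_comm, mul_smul]
      have : (2 : ℤ) • cl (-1 : k) = 0 := by exact_mod_cast h2cl
      rw [this, smul_zero]
    rw [h3, smul_zero, zero_add] at hval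
    have hk2 : (2 : k) ≠ 0 := by
      intro h
      have h4 : ((2 : ℕ) : k) = 0 := by exact_mod_cast h
      rw [CharP.cast_eq_zero_iff k q] at h4
      exact hq2 ((Nat.prime_dvd_prime_iff_eq hq Nat.prime_two).mp h4)
    -- signs
    have hsgn : ∀ w : ℤ, (w : ZMod ℓ) ≠ 0 → (J(w | ℓ) = 1 ∨ J(w | ℓ) = -1) := by
      intro w hw
      rw [← jacobiSym.legendreSym.to_jacobiSym]
      exact legendreSym.eq_one_or_neg_one ℓ hw
    rw [jacobiSym.mul_left] at hJe
    have hcases : (J((s.map g).prod | ℓ) = 1 ∧ J(X + Y * e | ℓ) = -1) ∨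
        (J((s.map g).prod | ℓ) = -1 ∧ J(X + Y * e | ℓ) = 1) := by
      rcases Int.eq_one_or_neg_one_of_mul_eq_neg_one' hJe with h | h
      · exact Or.inl h
      · exact Or.inr h
    rcases hcases with ⟨h4, h5⟩ | ⟨h4, h5⟩
    · rw [h4, h5] at hval
      push_cast at hval
      rw [cl_one, smul_zero] at hval
      exact cl_neg_one hk2 hval.symm
    · rw [h4, h5] at hval
      push_cast at hval
      rw [cl_one] at hval
      exact cl_neg_one hk2 (no_odd (hp.odd_of_ne_two hp2) hval)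

end

end Pool.Agent.W519
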