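import Mathlib

/-!
Preorders on topological spaces: definitions for MP_bb0bf1_gt and the equivalence
`every closed preorder is weakly continuous → every closed preorder is normal`.
-/

open Set Topology Filter

namespace Pool.Agent.W519.N

/-- `R` is a preorder which is a closed subset of `X × X`. -/
structure ClosedPreorder {X : Type*} [TopologicalSpace X] (R : X → X → Prop) : Prop where
  refl : ∀ x, R x x
  trans : ∀ x y z, R x y → R y z → R x z
  closed : IsClosed {p : X × X | R p.1 p.2}

/-- decreasing sets -/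
def Dec {X : Type*} (R : X → X → Prop) (S : Set X) : Prop := ∀ z x, R z x → x ∈ S → z ∈ S

/-- increasing sets -/
def Inc {X : Type*} (R : X → X → Prop) (S : Set X) : Prop := ∀ x z, R x z → x ∈ S → z ∈ S

/-- increasing functions -/
def IncFun {X : Type*} (R : X → X → Prop) (f : X → ℝ) : Prop := ∀ x y, R x y → f x ≤ f y

/-- weakly continuous preorders -/
def WeaklyCont {X : Type*} [TopologicalSpace X] (R : X → X → Prop) : Prop :=
  ∀ x y, R x y → ¬ R y x → ∃ f : X → ℝ, Continuous f ∧ IncFun R f ∧ f x < f y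

/-- normal preorders -/
def NormalPre {X : Type*} [TopologicalSpace X] (R : X → X → Prop) : Prop :=
  ∀ A B : Set X, IsClosed A → Dec R A → IsClosed B → Inc R B → Disjoint A B →
    ∃ U V : Set X, IsOpen U ∧ Dec R U ∧ IsOpen V ∧ Inc R V ∧ A ⊆ U ∧ B ⊆ V ∧ Disjoint U V

/-- continuous multi-utility representations -/
def MultiUtility {X : Type*} [TopologicalSpace X] (R : X → X → Prop) : Prop :=
  ∃ F : Set (X → ℝ), (∀ f ∈ F, Continuous f) ∧ ∀ x y, R x y ↔ ∀ f ∈ F, f x ≤ f y

/-- every closed preorder on `X` is weakly continuous -/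
def AllWeaklyCont (X : Type*) [TopologicalSpace X] : Prop :=
  ∀ R : X → X → Prop, ClosedPreorder R → WeaklyCont R

/-- every closed preorder on `X` is normal -/
def AllNormal (X : Type*) [TopologicalSpace X] : Prop :=
  ∀ R : X → X → Prop, ClosedPreorder R → NormalPre R

/-- every closed preorder on `X` has a continuous multi-utility representation -/
def AllMultiUtility (X : Type*) [TopologicalSpace X] : Prop :=
  ∀ R : X → X → Prop, ClosedPreorder R → MultiUtility R

/-- the set of non-isolated points -/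
def NonIso (X : Type*) [TopologicalSpace X] : Set X := {x | ¬ IsOpen ({x} : Set X)}

theorem allNormal_of_allWeaklyCont {X : Type*} [TopologicalSpace X] (h : AllWeaklyCont X) :
    AllNormal X := by
  intro R hR A B hA hAd hB hBi hAB
  rcases A.eq_empty_or_nonempty with rfl | ⟨a, ha⟩
  · exact ⟨∅, univ, isOpen_empty, fun _ _ _ h => h.elim, isOpen_univ, fun _ _ _ _ => trivial,
      le_rfl, subset_univ _, by simp⟩
  rcases B.eq_empty_or_nonempty with rfl | ⟨b, hb⟩
  · exact ⟨univ, ∅, isOpen_univ, fun _ _ _ _ => trivial, isOpen_empty, fun _ _ _ h => h.elim,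
      subset_univ _, le_rfl, by simp⟩
  have hd : ∀ x, x ∈ A → x ∈ B → False := fun x h1 h2 => (Set.disjoint_left.1 hAB) h1 h2
  let S : X → X → Prop := fun x y => R x y ∨ x ∈ A ∨ y ∈ B
  have hS : ClosedPreorder S := by
    refine ⟨fun x => Or.inl (hR.refl x), ?_, ?_⟩
    · rintro x y z (h1 | h1 | h1) (h2 | h2 | h2)
      · exact Or.inl (hR.trans x y z h1 h2)
      · exact Or.inr (Or.inl (hAd x y h1 h2))
      · exact Or.inr (Or.inr h2)
      · exact Or.inr (Or.inl h1)
      · exact Or.inr (Or.inl h1)
      · exact Or.inr (Or.inl h1)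
      · exact Or.inr (Or.inr (hBi y z h2 h1))
      · exact (hd y h2 h1).elim
      · exact Or.inr (Or.inr h2)
    · have h1 : IsClosed {p : X × X | p.1 ∈ A} := hA.preimage continuous_fst
      have h2 : IsClosed {p : X × X | p.2 ∈ B} := hB.preimage continuous_snd
      exact hR.closed.union (h1.union h2)
  have hab : S a b := Or.inr (Or.inl ha)
  have hba : ¬ S b a := by
    rintro (h1 | h1 | h1)
    · exact hd b (hAd b a h1 ha) hb
    · exact hd b h1 hb
    · exact hd a ha h1
  obtain ⟨f, hf, hfi, hlt⟩ := h S hS a b hab hba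
  obtain ⟨c, hc1, hc2⟩ := exists_between hlt
  refine ⟨{x | f x < c}, {x | c < f x}, isOpen_lt hf continuous_const, ?_,
    isOpen_lt continuous_const hf, ?_, ?_, ?_, ?_⟩
  · intro z x hzx hx
    exact lt_of_le_of_lt (hfi z x (Or.inl hzx)) hx
  · intro x z hxz hx
    exact lt_of_lt_of_le hx (hfi x z (Or.inl hxz))
  · intro x hx
    exact lt_of_le_of_lt (hfi x a (Or.inr (Or.inl hx))) hc1
  · intro x hx
    exact lt_of_lt_of_le hc2 (hfi b x (Or.inr (Or.inr hx)))
  · rw [Set.disjoint_left]
    intro x h1 h2
    exact absurd (lt_trans (show f x < c from h1) (show c < f x from h2)) (lt_irrefl _)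

theorem allWeaklyCont_of_allMultiUtility {X : Type*} [TopologicalSpace X]
    (h : AllMultiUtility X) : AllWeaklyCont X := by
  intro R hR x y hxy hyx
  obtain ⟨F, hF, hF2⟩ := h R hR
  have h1 := (not_congr (hF2 y x)).1 hyx
  push Not at h1
  obtain ⟨f, hf, hlt⟩ := h1
  exact ⟨f, hF f hf, fun a b hab => (hF2 a b).1 hab f hf, hlt⟩

end Pool.Agent.W519.N
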