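import Pool.Agent.W519.N

/-!
For `MP_bb0bf1_gt`: a topological space whose set of non-isolated points is compact has only normal
closed preorders.  No separation axiom is used.
-/

open Set Topology Filter

namespace Pool.Agent.W519.N

variable {X : Type*} [TopologicalSpace X]

theorem ClosedPreorder.flip {R : X → X → Prop} (hR : ClosedPreorder R) :
    ClosedPreorder (fun x y => R y x) := by
  refine ⟨fun x => hR.refl x, fun x y z h1 h2 => hR.trans z y x h2 h1, ?_⟩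
  exact hR.closed.preimage (continuous_snd.prodMk continuous_fst)

theorem isClosed_nonIso : IsClosed (NonIso X) := by
  rw [← isOpen_compl_iff, isOpen_iff_forall_mem_open]
  intro x hx
  have hx' : IsOpen ({x} : Set X) := by
    by_contra h
    exact hx h
  refine ⟨{x}, ?_, hx', rfl⟩
  rintro y rfl
  exact hx

/-- the increasing hull of a compact set is closed -/
theorem isClosed_incHull {R : X → X → Prop} (hR : ClosedPreorder R) {C : Set X}
    (hC : IsCompact C) : IsClosed {x | ∃ c ∈ C, R c x} := by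
  rw [← isOpen_compl_iff, isOpen_iff_forall_mem_open]
  intro x hx
  have h1 : C ×ˢ ({x} : Set X) ⊆ {p : X × X | R p.1 p.2}ᶜ := by
    rintro ⟨c, y⟩ ⟨hc, hy⟩ hcy
    rw [mem_singleton_iff] at hy
    simp only at hy
    subst hy
    exact hx ⟨c, hc, hcy⟩
  obtain ⟨u, v, hu, hv, hCu, hxv, huv⟩ :=
    generalized_tube_lemma hC isCompact_singleton hR.closed.isOpen_compl h1
  refine ⟨v, ?_, hv, hxv rfl⟩
  rintro y hy ⟨c, hc, hcy⟩
  exact huv (mk_mem_prod (hCu hc) hy) hcy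

theorem half {R : X → X → Prop} (hR : ClosedPreorder R) (hK : IsCompact (NonIso X)) {O : Set X}
    (hO : IsOpen O) : ∃ U : Set X, IsOpen U ∧ Dec R U ∧ (∀ x ∈ U, ∃ u ∈ O, R x u) ∧
      (∀ x ∈ NonIso X, (∀ y ∈ NonIso X, R y x → y ∈ O) → x ∈ U) := by
  set G : Set X := {x | x ∈ NonIso X ∧ ∀ y ∈ NonIso X, R y x → y ∈ O} with hG
  have hGc : IsCompact (NonIso X \ G) := by
    have h1 : NonIso X \ G = NonIso X ∩ {x | ∃ c ∈ NonIso X ∩ Oᶜ, R c x} := by
      ext x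
      simp only [hG, mem_diff, mem_inter_iff, mem_setOf_eq, mem_compl_iff]
      constructor
      · rintro ⟨h1, h2⟩
        refine ⟨h1, ?_⟩
        by_contra h3
        apply h2
        refine ⟨h1, fun y hy hyx => ?_⟩
        by_contra h4
        exact h3 ⟨y, ⟨hy, h4⟩, hyx⟩
      · rintro ⟨h1, c, ⟨hc1, hc2⟩, hcx⟩
        exact ⟨h1, fun h2 => hc2 (h2.2 c hc1 hcx)⟩
    rw [h1]
    exact hK.inter_right (isClosed_incHull hR (hK.inter_right hO.isClosed_compl))
  have hex : ∀ g ∈ G, ∃ W : Set X, IsOpen W ∧ g ∈ W ∧ W ⊆ O ∧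
      ∀ u ∈ W, ∀ k ∈ NonIso X, R k u → k ∈ G := by
    intro g hg
    have h1 : (NonIso X \ G) ×ˢ ({g} : Set X) ⊆ {p : X × X | R p.1 p.2}ᶜ := by
      rintro ⟨k, y⟩ ⟨hk, hy⟩ hky
      rw [mem_singleton_iff] at hy
      simp only at hy hk
      subst hy
      apply hk.2
      exact ⟨hk.1, fun z hz hzk => hg.2 z hz (hR.trans z k y hzk hky)⟩
    obtain ⟨u, v, hu, hv, hku, hgv, huv⟩ :=
      generalized_tube_lemma hGc isCompact_singleton hR.closed.isOpen_compl h1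
    refine ⟨v ∩ O, hv.inter hO, ⟨hgv rfl, hg.2 g hg.1 (hR.refl g)⟩, inter_subset_right, ?_⟩
    intro w hw k hk hkw
    by_contra hkG
    exact huv (mk_mem_prod (hku ⟨hk, hkG⟩) hw.1) hkw
  refine ⟨{x | ∃ W : Set X, IsOpen W ∧ W ⊆ O ∧ (∀ u ∈ W, ∀ k ∈ NonIso X, R k u → k ∈ G) ∧
    ∃ u ∈ W, R x u}, ?_, ?_, ?_, ?_⟩
  · rw [isOpen_iff_forall_mem_open]
    rintro x ⟨W, hW, hWO, hWG, u, hu, hxu⟩
    by_cases hx : x ∈ NonIso X
    · obtain ⟨W', hW', hxW', hW'O, hW'G⟩ := hex x (hWG u hu x hx hxu)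
      exact ⟨W', fun y hy => ⟨W', hW', hW'O, hW'G, y, hy, hR.refl y⟩, hW', hxW'⟩
    · have hx' : IsOpen ({x} : Set X) := by
        by_contra h
        exact hx h
      refine ⟨{x}, ?_, hx', rfl⟩
      rintro y hy
      rw [mem_singleton_iff] at hy
      subst hy
      exact ⟨W, hW, hWO, hWG, u, hu, hxu⟩
  · rintro z x hzx ⟨W, hW, hWO, hWG, u, hu, hxu⟩
    exact ⟨W, hW, hWO, hWG, u, hu, hR.trans z x u hzx hxu⟩
  · rintro x ⟨W, hW, hWO, hWG, u, hu, hxu⟩
    exact ⟨u, hWO hu, hxu⟩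
  · intro x hx hxO
    obtain ⟨W', hW', hxW', hW'O, hW'G⟩ := hex x ⟨hx, hxO⟩
    exact ⟨W', hW', hW'O, hW'G, x, hxW', hR.refl x⟩

theorem allNormal_of_isCompact_nonIso (h : IsCompact (NonIso X)) : AllNormal X := by
  intro R hR A B hA hAd hB hBi hAB
  have hd : ∀ x, x ∈ A → x ∈ B → False := fun x h1 h2 => (Set.disjoint_left.1 hAB) h1 h2
  have h1 : (NonIso X ∩ B) ×ˢ (NonIso X ∩ A) ⊆ {p : X × X | R p.1 p.2}ᶜ := by
    rintro ⟨b, a⟩ ⟨hb, ha⟩ hba
    exact hd b (hAd b a hba ha.2) hb.2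
  obtain ⟨O', O, hO', hO, hBO', hAO, hOO⟩ :=
    generalized_tube_lemma (h.inter_right hB) (h.inter_right hA) hR.closed.isOpen_compl h1
  obtain ⟨U, hU, hUd, hUO, hUA⟩ := half hR h hO
  obtain ⟨V, hV, hVd, hVO, hVB⟩ := half hR.flip h hO'
  have hUV : ∀ x, x ∈ U → x ∈ V → False := by
    intro x hx1 hx2
    obtain ⟨u, hu, hxu⟩ := hUO x hx1
    obtain ⟨v, hv, hvx⟩ := hVO x hx2
    exact hOO (mk_mem_prod hv hu) (hR.trans v x u hvx hxu)
  have hiso : ∀ x, x ∉ NonIso X → IsOpen ({x} : Set X) := by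
    intro x hx
    by_contra h
    exact hx h
  refine ⟨(U \ B) ∪ A, (V \ A) ∪ B, ?_, ?_, ?_, ?_, subset_union_right, subset_union_right, ?_⟩
  · rw [isOpen_iff_forall_mem_open]
    intro x hx
    by_cases hxK : x ∈ NonIso X
    · refine ⟨U \ B, subset_union_left, hU.sdiff hB, ?_⟩
      rcases hx with hx | hx
      · exact hx
      · exact ⟨hUA x hxK (fun y hy hyx => hAO ⟨hy, hAd y x hyx hx⟩), fun hxB => hd x hx hxB⟩
    · refine ⟨{x}, ?_, hiso x hxK, rfl⟩
      rintro y hy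
      rw [mem_singleton_iff] at hy
      subst hy
      exact hx
  · rintro z x hzx (hx | hx)
    · exact Or.inl ⟨hUd z x hzx hx.1, fun hzB => hx.2 (hBi z x hzx hzB)⟩
    · exact Or.inr (hAd z x hzx hx)
  · rw [isOpen_iff_forall_mem_open]
    intro x hx
    by_cases hxK : x ∈ NonIso X
    · refine ⟨V \ A, subset_union_left, hV.sdiff hA, ?_⟩
      rcases hx with hx | hx
      · exact hx
      · exact ⟨hVB x hxK (fun y hy hyx => hBO' ⟨hy, hBi x y hyx hx⟩), fun hxA => hd x hxA hx⟩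
    · refine ⟨{x}, ?_, hiso x hxK, rfl⟩
      rintro y hy
      rw [mem_singleton_iff] at hy
      subst hy
      exact hx
  · rintro x z hxz (hx | hx)
    · exact Or.inl ⟨hVd z x hxz hx.1, fun hzA => hx.2 (hAd x z hxz hzA)⟩
    · exact Or.inr (hBi x z hxz hx)
  · rw [Set.disjoint_left]
    rintro x (⟨h1, h2⟩ | h1) (⟨h3, h4⟩ | h3)
    · exact hUV x h1 h3
    · exact h2 h3
    · exact h4 h1
    · exact hd x h1 h3

end Pool.Agent.W519.N
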