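import Pool.Agent.W519.MainRR
import Pool.Agent.H916K.Stick

/-!
# Degrees with at most one odd prime factor
-/

set_option autoImplicit false
set_option linter.unusedSectionVars false

namespace Pool.Agent.W519

open Finset Pool.Agent.H916K Pool.Agent.H916R2
open scoped NumberTheorySymbols

/-- every relation of level `m` among odd distributions is standard -/
def FullO (m : ℕ) [NeZero m] : Prop :=
  ∀ (Q : Type) [AddCommGroup Q] (c : ZMod m → Q), OddDist c → ∀ x : ZMod m → ℤ, Rel x →
    ∑ a, x a • c a = 0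

lemma generated_of_fullO {m m0 k : ℕ} [NeZero m] [NeZero m0] (hk : k * m0 = m)
    (hred : Red m m0 k) (hfull : FullO m0) {s : Multiset (ZMod m)} (hs : IsHodge m s)
    (hne : s ≠ 0) : Generated m (fun _ => False) s := by
  obtain ⟨x0, hx0, he⟩ := hred _ (cQ m (fun _ => False)) cQ_oddDist _ hs.rel
  rw [hfull _ _ (cQ_oddDist.comp_iota hk) x0 hx0, sum_count] at he
  rw [cQ_sum, QuotientAddGroup.eq_zero_iff] at he
  exact generated_of_mem_LL (fun _ h => h.elim) (fun _ h => h.elim) hs.1 hs.2.1 hne he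

lemma fullO_one : FullO 1 := by
  intro Q _ c hc x _
  apply sum_eq_zero
  intro a _
  have : c a = 0 := hc.half a (Subsingleton.elim _ _)
  rw [this, smul_zero]

lemma fullO_prime {p : ℕ} [hp : Fact p.Prime] (hp2 : p ≠ 2) : FullO p := by
  classical
  intro Q _ c hc x hx
  have hH := half_HS (p := p) hp2
  have key : ∀ u, x u = x (-u) := by
    intro u
    have hg : OddDist (fun w : ZMod p => dl u w - dl (-u) w) := by
      have hneg : ∀ w : ZMod p, dl u (-w) - dl (-u) (-w) = -(dl u w - dl (-u) w) := by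
        intro w; rw [dl_neg, dl_neg, neg_neg]; ring
      refine ⟨hneg, ?_, ?_⟩
      · intro w hw
        have h1 : w = -w := eq_neg_of_add_eq_zero_left hw
        have h2 := hneg w
        rw [← h1] at h2
        omega
      · intro l d hl hld w
        have hl' : l = p := by
          have h1 : l ∣ p := by rw [← hld]; exact dvd_mul_right l d
          exact (Nat.prime_dvd_prime_iff_eq hl hp.out).mp h1
        subst hl'
        have hd1 : d = 1 := by
          have h1 : l * d = l * 1 := by rw [hld, mul_one]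
          exact Nat.eq_of_mul_eq_mul_left hl.pos h1
        subst hd1
        have h1 := sum_range_shift (n := l) (fun w : ZMod l => dl u w - dl (-u) w) w
          (one_ne_zero)
        simp only [Nat.cast_one]
        rw [h1, sum_sub_distrib, sum_dl, sum_dl]
        have h2 : ((l : ℕ) : ZMod l) * w = 0 := by simp
        rw [h2]
        have h3 := hneg 0
        rw [neg_zero] at h3
        omega
    have h1 := rel_int hx hg
    rw [sum_lam (f := x) u] at h1
    linarith
  rw [← add_sum_erase _ _ (mem_univ (0 : ZMod p)), hc.half 0 (by simp), smul_zero, zero_add,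
    hH.sum_all (fun u => x u • c u)]
  apply sum_eq_zero
  intro u _
  rw [hc.neg, ← key u, smul_neg, add_neg_cancel]

lemma exists_red_p {p a c m : ℕ} (hp : p.Prime) (hp2 : p ≠ 2)
    (ha : 0 < a) (hc : c = 1 ∨ c = 2) (hm : c * p ^ a = m)
    [NeZero m] [NeZero p] : ∃ k, k * p = m ∧ Red m p k := by
  have hk1 : (p ^ (a - 1)) * p = p ^ a := by
    obtain ⟨a', rfl⟩ : ∃ a', a = a' + 1 := ⟨a - 1, by omega⟩
    simp only [Nat.add_sub_cancel]; ring
  have hodd : Odd (p ^ a) := (hp.odd_of_ne_two hp2).pow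
  have hn : NeZero (p ^ a) := ⟨by have := hp.pos; positivity⟩
  have hred : Red (p ^ a) p (p ^ (a - 1)) := by
    refine red_exists _ _ _ _ rfl hk1 ?_ ?_
    · intro l hl hdvd
      exact hl.dvd_of_dvd_pow hdvd
    · intro h4
      exfalso
      have : Even (p ^ a) := even_iff_two_dvd.mpr ((by norm_num : 2 ∣ 4).trans h4)
      exact (Nat.not_even_iff_odd.mpr hodd) this
  rcases hc with rfl | rfl
  · rw [one_mul] at hm
    subst hm
    exact ⟨_, hk1, hred⟩
  · refine ⟨2 * p ^ (a - 1), ?_, ?_⟩
    · rw [mul_assoc, hk1, hm]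
    · exact (red_double hm hodd).trans hm hred

/-- one odd prime factor -/
theorem main_one {p : ℕ} (hp : p.Prime) (hp2 : p ≠ 2) {a c m : ℕ} (ha : 0 < a)
    (hc : c = 1 ∨ c = 2) (hm : c * p ^ a = m) {s : Multiset (ZMod m)} (hs : IsHodge m s)
    (hne : s ≠ 0) : Generated m (fun _ => False) s := by
  have : Fact p.Prime := ⟨hp⟩
  have : NeZero p := ⟨hp.ne_zero⟩
  have : NeZero m := ⟨by
    rw [← hm]
    have := hp.pos
    rcases hc with rfl | rfl <;> positivity⟩
  obtain ⟨k, hk, hred⟩ := exists_red_p hp hp2 ha hc hm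
  exact generated_of_fullO hk hred (fullO_prime hp2) hs hne

/-- no odd prime factor -/
theorem main_zero {m : ℕ} (hm : m = 1 ∨ m = 2) {s : Multiset (ZMod m)} (hs : IsHodge m s)
    (hne : s ≠ 0) : Generated m (fun _ => False) s := by
  rcases hm with rfl | rfl
  · exact generated_of_fullO (k := 1) (m0 := 1) rfl (Red.refl 1) fullO_one hs hne
  · exact generated_of_fullO (k := 2) (m0 := 1) rfl (red_double (n := 1) rfl odd_one)
      fullO_one hs hne

/-- **At most two odd prime factors.** -/
theorem main_le_two {p q : ℕ} (hp : p.Prime) (hq : q.Prime) (hp2 : p ≠ 2) (hq2 : q ≠ 2)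
    (hpq : p ≠ q) {a b c m : ℕ} (ha : 0 < a)
    (hb : 0 < b) (hc : c = 1 ∨ c = 2) (hm : c * (p ^ a * q ^ b) = m) {s : Multiset (ZMod m × ℤ)}
    (hs : IsHodge m (s.map Prod.fst)) (hne : s ≠ 0) (hc0 : ∀ z ∈ s, z.2 ≠ 0)
    (hR : RationalClass m s) : Generated m (fun _ => False) (s.map Prod.fst) := by
  have : Fact p.Prime := ⟨hp⟩
  have : Fact q.Prime := ⟨hq⟩
  have hm' : c * (q ^ b * p ^ a) = m := by rw [← hm, mul_comm (q ^ b)]
  by_cases h1 : IsSquare ((q : ℕ) : ZMod p)
  swap
  · exact main_two hp hq hp2 hq2 hpq h1 ha hb hc hm hs hne hc0 hR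
  by_cases h2 : IsSquare ((p : ℕ) : ZMod q)
  swap
  · exact main_two hq hp hq2 hp2 hpq.symm h2 hb ha hc hm' hs hne hc0 hR
  have hJ1 : J((q : ℤ) | p) = 1 := by
    rw [← jacobiSym.legendreSym.to_jacobiSym]
    have h0 : ((q : ℤ) : ZMod p) ≠ 0 := by push_cast; exact pq_ne hpq
    exact (legendreSym.eq_one_iff p h0).mpr (by push_cast; exact h1)
  have hJ2 : J((p : ℤ) | q) = 1 := by
    rw [← jacobiSym.legendreSym.to_jacobiSym]
    have h0 : ((p : ℤ) : ZMod q) ≠ 0 := by push_cast; exact pq_ne hpq.symm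
    exact (legendreSym.eq_one_iff q h0).mpr (by push_cast; exact h2)
  by_cases hq4 : q % 4 = 1
  · exact main_rr hp hq hp2 hq4 hpq hJ2 ha hb hc hm hs hne hc0 hR
  by_cases hp4 : p % 4 = 1
  · exact main_rr hq hp hq2 hp4 hpq.symm hJ1 hb ha hc hm' hs hne hc0 hR
  exfalso
  have hp3 : p % 4 = 3 := by
    have := hp.eq_two_or_odd.resolve_left hp2
    omega
  have hq3 : q % 4 = 3 := by
    have := hq.eq_two_or_odd.resolve_left hq2
    omega
  have h3 := jacobiSym.quadratic_reciprocity_three_mod_four hp3 hq3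
  rw [hJ1, hJ2] at h3
  norm_num at h3

end Pool.Agent.W519
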