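import Pool.Agent.W519.NM
import Pool.Agent.W537.NP_I
import Pool.Agent.W649.NP_H

/-!
For `MP_bb0bf1_gt`: the characterization for paracompact Hausdorff spaces that are locally compact
or first countable.
-/

open Set Topology Filter

namespace Pool.Agent.W519.N

theorem not_allNormal_of_family {X : Type*} [TopologicalSpace X] [T2Space X] {ι : Type*}
    {M : Set ι} (hM : ¬ M.Countable) (W : ι → Set X) (hW : LocallyFinite W)
    (hWd : M.PairwiseDisjoint W)
    (h : ∀ i ∈ M, ∃ (d : X) (s : ℕ → X), d ∈ W i ∧ (∀ n, s n ∈ W i) ∧ (∀ n, s n ≠ d) ∧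
      d ∈ closure (range s)) : ¬ AllNormal X := by
  have hMn : M.Nonempty := by
    rw [nonempty_iff_ne_empty]
    rintro rfl
    exact hM countable_empty
  have hXn : Nonempty X := by
    obtain ⟨i, hi⟩ := hMn
    obtain ⟨d, -⟩ := h i hi
    exact ⟨d⟩
  choose! d s hd hs hne hcl using h
  obtain ⟨I, _, q, p, hI, hseg, hqM, hpM, hq, hp, hqp⟩ := index_F hM
  have hinj : ∀ b : I, ∃ e : I → ℕ, InjOn e (Iio b) := fun b =>
    (Set.countable_iff_exists_injOn).1 (hseg b)
  choose e he using hinj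
  have hsep : ∀ i ∈ M, ∀ j ∈ M, ∀ x, x ∈ W i → x ∈ W j → i = j := by
    intro i hi j hj x hxi hxj
    by_contra hij
    exact Set.disjoint_left.1 (hWd hi hj hij) hxi hxj
  have hWq : LocallyFinite (fun a => W (q a)) := hW.comp_injective hq
  have hWp : LocallyFinite (fun b => W (p b)) := hW.comp_injective hp
  set L : I × I → Set (X × X) := fun ab => {z | ab.1 < ab.2 ∧ ∃ m n, m ≤ e ab.2 ab.1 ∧
    n ≤ e ab.2 ab.1 ∧ z = (s (q ab.1) m, s (p ab.2) n)} with hL
  have hLc : ∀ ab, IsClosed (L ab) := by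
    rintro ⟨a, b⟩
    apply Set.Finite.isClosed
    refine Set.Finite.subset (((finite_Iic (e b a)).prod (finite_Iic (e b a))).image
      (fun mn : ℕ × ℕ => (s (q a) mn.1, s (p b) mn.2))) ?_
    rintro z ⟨-, m, n, hm, hn, rfl⟩
    exact ⟨(m, n), ⟨hm, hn⟩, rfl⟩
  have hLf : LocallyFinite L := by
    rintro ⟨x, y⟩
    obtain ⟨S, hS, hSf⟩ := hWq x
    obtain ⟨T, hT, hTf⟩ := hWp y
    refine ⟨S ×ˢ T, prod_mem_nhds hS hT, (hSf.prod hTf).subset ?_⟩
    rintro ⟨a, b⟩ ⟨z, ⟨-, m, n, -, -, rfl⟩, hz⟩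
    exact ⟨⟨_, hs _ (hqM a) m, hz.1⟩, ⟨_, hs _ (hpM b) n, hz.2⟩⟩
  set R : X → X → Prop := fun u v => u = v ∨ ∃ ab : I × I, (u, v) ∈ L ab with hR
  have hRc : ClosedPreorder R := by
    refine ⟨fun x => Or.inl rfl, ?_, ?_⟩
    · intro x y z hxy hyz
      rcases hxy with rfl | ⟨ab, hab⟩
      · exact hyz
      rcases hyz with rfl | ⟨ab', -, m', n', -, -, h2⟩
      · exact Or.inr ⟨ab, hab⟩
      exfalso
      obtain ⟨-, m, n, -, -, h1⟩ := hab
      rw [Prod.mk.injEq] at h1 h2
      refine hqp ab'.1 ab.2 (hsep _ (hqM _) _ (hpM _) y ?_ ?_)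
      · rw [h2.1]; exact hs _ (hqM _) _
      · rw [h1.2]; exact hs _ (hpM _) _
    · have h2 : {x : X × X | R x.1 x.2} = {x : X × X | x.1 = x.2} ∪ ⋃ ab, L ab := by
        ext x
        constructor
        · rintro (h | ⟨ab, hab⟩)
          · exact Or.inl h
          · exact Or.inr (mem_iUnion.2 ⟨ab, hab⟩)
        · rintro (h | h)
          · exact Or.inl h
          · obtain ⟨ab, hab⟩ := mem_iUnion.1 h
            exact Or.inr ⟨ab, hab⟩
      rw [h2]
      exact (isClosed_eq continuous_fst continuous_snd).union (hLf.isClosed_iUnion hLc)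
  have hclq : IsClosed (⋃ i : I, ({d (q i)} : Set X)) :=
    (hWq.subset fun i => by
      rw [singleton_subset_iff]
      exact hd _ (hqM i)).isClosed_iUnion fun i => isClosed_singleton
  have hclp : IsClosed (⋃ i : I, ({d (p i)} : Set X)) :=
    (hWp.subset fun i => by
      rw [singleton_subset_iff]
      exact hd _ (hpM i)).isClosed_iUnion fun i => isClosed_singleton
  intro hall
  obtain ⟨U, V, hU, hUd, hV, hVi, hAU, hBV, hUV⟩ := hall R hRc _ _ hclp (by
      rintro z x (rfl | ⟨ab, -, m, n, -, -, h1⟩) hxA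
      · exact hxA
      exfalso
      obtain ⟨c, hc⟩ := mem_iUnion.1 hxA
      rw [mem_singleton_iff] at hc
      rw [Prod.mk.injEq] at h1
      have h2 : p ab.2 = p c := hsep _ (hpM _) _ (hpM _) x
        (by rw [h1.2]; exact hs _ (hpM _) _) (by rw [hc]; exact hd _ (hpM _))
      rw [← h2] at hc
      exact hne _ (hpM ab.2) n (h1.2.symm.trans hc)) hclq (by
      rintro x z (rfl | ⟨ab, -, m, n, -, -, h1⟩) hxB
      · exact hxB
      exfalso
      obtain ⟨c, hc⟩ := mem_iUnion.1 hxB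
      rw [mem_singleton_iff] at hc
      rw [Prod.mk.injEq] at h1
      have h2 : q ab.1 = q c := hsep _ (hqM _) _ (hqM _) x
        (by rw [h1.1]; exact hs _ (hqM _) _) (by rw [hc]; exact hd _ (hqM _))
      rw [← h2] at hc
      exact hne _ (hqM ab.1) m (h1.1.symm.trans hc)) (by
      rw [Set.disjoint_left]
      intro x hx1 hx2
      obtain ⟨i, hi⟩ := mem_iUnion.1 hx1
      obtain ⟨j, hj⟩ := mem_iUnion.1 hx2
      rw [mem_singleton_iff] at hi hj
      refine hqp j i (hsep _ (hqM _) _ (hpM _) x ?_ ?_)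
      · rw [hj]; exact hd _ (hqM _)
      · rw [hi]; exact hd _ (hpM _))
  have hf : ∀ a : I, ∃ n : ℕ, s (q a) n ∈ V := fun a => by
    obtain ⟨z, hz1, n, rfl⟩ := mem_closure_iff.1 (hcl _ (hqM a)) V hV
      (hBV (mem_iUnion.2 ⟨a, rfl⟩))
    exact ⟨n, hz1⟩
  have hg : ∀ b : I, ∃ n : ℕ, s (p b) n ∈ U := fun b => by
    obtain ⟨z, hz1, n, rfl⟩ := mem_closure_iff.1 (hcl _ (hpM b)) U hU
      (hAU (mem_iUnion.2 ⟨b, rfl⟩))
    exact ⟨n, hz1⟩
  choose f hf using hf
  choose g hg using hg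
  obtain ⟨m, n, b, hfb, hgb, hinf⟩ := pigeon_F hI f g
  have hinf2 : (e b '' {a | a < b ∧ f a = m ∧ g a = n}).Infinite :=
    hinf.image ((he b).mono fun a ha => ha.1)
  obtain ⟨k, ⟨a, ⟨hab, hfa, hga⟩, rfl⟩, hk⟩ := hinf2.exists_gt (max m n)
  have h4 : R (s (q a) (f a)) (s (p b) (g b)) := by
    refine Or.inr ⟨(a, b), hab, f a, g b, ?_, ?_, rfl⟩
    · rw [hfa]; exact (le_max_left m n).trans hk.le
    · rw [hgb]; exact (le_max_right m n).trans hk.le
  exact (Set.disjoint_left.1 hUV) (hUd _ _ h4 (hg b)) (hf a)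

theorem exists_accumulation {X : Type*} [TopologicalSpace X] [T2Space X] [LocallyCompactSpace X]
    {k : X} (hk : k ∈ NonIso X) {O : Set X} (hO : IsOpen O) (hkO : k ∈ O) :
    ∃ (d : X) (s : ℕ → X), d ∈ O ∧ (∀ n, s n ∈ O) ∧ (∀ n, s n ≠ d) ∧ d ∈ closure (range s) := by
  obtain ⟨C, hC, hkC, hCO⟩ := exists_compact_subset hO hkO
  have hne : NeBot (𝓝[≠] k) := by
    constructor
    intro h
    exact hk (isOpen_singleton_iff_punctured_nhds k |>.2 h)
  have hCi : C.Infinite := infinite_of_mem_nhds k (mem_interior_iff_mem_nhds.1 hkC)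
  set z := hCi.natEmbedding
  have hSi : (range (fun n => (z n : X))).Infinite :=
    infinite_range_of_injective fun a b hab => z.injective (Subtype.ext hab)
  have hSC : range (fun n => (z n : X)) ⊆ C := by
    rintro _ ⟨n, rfl⟩
    exact (z n).2
  obtain ⟨d, hdC, hd⟩ := hSi.exists_accPt_of_subset_isCompact hC hSC
  rw [accPt_iff_nhds] at hd
  have hcount : (range (fun n => (z n : X)) \ {d}).Countable :=
    (countable_range _).mono diff_subset
  have hnon : (range (fun n => (z n : X)) \ {d}).Nonempty := by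
    obtain ⟨y, hy, hyd⟩ := hd univ univ_mem
    exact ⟨y, hy.2, hyd⟩
  obtain ⟨s, hs⟩ := hcount.exists_eq_range hnon
  have hs' : ∀ n, s n ∈ range (fun n => (z n : X)) \ {d} := fun n => by
    rw [hs]
    exact ⟨n, rfl⟩
  refine ⟨d, s, hCO hdC, fun n => hCO (hSC (hs' n).1), fun n => (hs' n).2, ?_⟩
  rw [← hs, mem_closure_iff_nhds]
  intro t ht
  obtain ⟨y, hy, hyd⟩ := hd t ht
  exact ⟨y, hy.1, hy.2, hyd⟩

theorem not_allNormal_of_not_sigmaCompact {X : Type*} [TopologicalSpace X] [T2Space X]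
    [ParacompactSpace X] [LocallyCompactSpace X] (h : ¬ IsSigmaCompact (NonIso X)) :
    ¬ AllNormal X := by
  choose K hK hKn using fun x : X => exists_compact_mem_nhds x
  obtain ⟨v, hv, hvU, hvf, hvK⟩ := precise_refinement (fun x => interior (K x))
    (fun x => isOpen_interior)
    (eq_univ_of_forall fun x => mem_iUnion.2 ⟨x, mem_interior_iff_mem_nhds.2 (hKn x)⟩)
  have hvK' : ∀ x, v x ⊆ K x := fun x => (hvK x).trans interior_subset
  set J : Set X := {i | (v i ∩ NonIso X).Nonempty} with hJ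
  have hJc : ¬ J.Countable := by
    intro hc
    apply h
    refine IsSigmaCompact.of_isClosed_subset
      (isSigmaCompact_biUnion hc (S := K) fun i _ => (hK i).isSigmaCompact) isClosed_nonIso ?_
    intro x hx
    obtain ⟨i, hi⟩ := mem_iUnion.1 (hvU ▸ mem_univ x : x ∈ ⋃ i, v i)
    exact mem_biUnion (show i ∈ J from ⟨x, hi, hx⟩) (hvK' i hi)
  obtain ⟨M, hM⟩ := zorn_subset {M : Set X | M ⊆ J ∧ M.PairwiseDisjoint v} (by
    intro c hc hch
    refine ⟨⋃₀ c, ⟨sUnion_subset fun s hs => (hc hs).1, ?_⟩, fun s hs => subset_sUnion_of_mem hs⟩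
    rintro x ⟨s, hs, hxs⟩ y ⟨s', hs', hys'⟩ hxy
    rcases hch.total hs hs' with hss | hss
    · exact (hc hs').2 (hss hxs) hys' hxy
    · exact (hc hs).2 hxs (hss hys') hxy)
  have hMJ : M ⊆ J := hM.prop.1
  have hMd : M.PairwiseDisjoint v := hM.prop.2
  have hMc : ¬ M.Countable := by
    intro hc
    apply hJc
    refine (hc.biUnion (t := fun i _ => {j | (v j ∩ K i).Nonempty}) fun i _ =>
      (hvf.finite_nonempty_inter_compact (hK i)).countable).mono ?_
    intro j hj
    by_cases hjM : j ∈ M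
    · obtain ⟨x, hx, -⟩ := hj
      exact mem_biUnion hjM ⟨x, hx, hvK' j hx⟩
    · by_contra hcon
      apply hjM
      have hins : insert j M ∈ {M : Set X | M ⊆ J ∧ M.PairwiseDisjoint v} := by
        refine ⟨insert_subset hj hMJ, ?_⟩
        rw [pairwiseDisjoint_insert]
        refine ⟨hMd, fun i hi _ => ?_⟩
        rw [Set.disjoint_left]
        intro x hxj hxi
        exact hcon (mem_biUnion hi ⟨x, hxj, hvK' i hxi⟩)
      exact hM.le_of_ge hins (subset_insert j M) (mem_insert j M)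
  refine not_allNormal_of_family hMc v hvf hMd fun i hi => ?_
  obtain ⟨k, hk1, hk2⟩ := hMJ hi
  exact exists_accumulation hk2 (hv i) hk1

theorem exists_exhaustion_of_sigmaCompact {X : Type*} [TopologicalSpace X]
    [LocallyCompactSpace X] (h : IsSigmaCompact (NonIso X)) :
    ∃ C : ℕ → Set X, (∀ n, IsCompact (C n)) ∧ (∀ n, C n ⊆ interior (C (n + 1))) ∧
      NonIso X ⊆ ⋃ n, C n := by
  classical
  obtain ⟨K, hK, hKs⟩ := h
  choose! g hgc hgs using fun (K : Set X) (hK : IsCompact K) => exists_compact_superset hK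
  let C : ℕ → Set X := fun n => Nat.rec ∅ (fun n c => g (c ∪ K n)) n
  have hCc : ∀ n, IsCompact (C n) := by
    intro n
    induction n with
    | zero => exact isCompact_empty
    | succ n ih => exact hgc _ (ih.union (hK n))
  have hstep : ∀ n, C n ∪ K n ⊆ interior (C (n + 1)) := fun n =>
    hgs _ ((hCc n).union (hK n))
  refine ⟨C, hCc, fun n => subset_union_left.trans (hstep n), ?_⟩
  intro x hx
  rw [← hKs] at hx
  obtain ⟨n, hn⟩ := mem_iUnion.1 hx
  exact mem_iUnion.2 ⟨n + 1, interior_subset (hstep n (Or.inr hn))⟩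

theorem allWeaklyCont_iff_paracompact {X : Type*} [TopologicalSpace X] [T2Space X]
    [ParacompactSpace X] (h : LocallyCompactSpace X ∨ FirstCountableTopology X) :
    AllWeaklyCont X ↔ (IsCompact (NonIso X) ∨
        (LocallyCompactSpace X ∧ IsSigmaCompact (NonIso X))) := by
  rw [allWeaklyCont_iff_allNormal]
  constructor
  · intro hall
    by_cases h1 : IsCompact (NonIso X)
    · exact Or.inl h1
    · have h2 : LocallyCompactSpace X := by
        rcases h with h | h
        · exact h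
        · by_contra h2
          exact not_allNormal_of_not_locallyCompact_paracompact_I not_allNormal_of_grid h1 h2 hall
      refine Or.inr ⟨h2, ?_⟩
      by_contra h3
      exact not_allNormal_of_not_sigmaCompact h3 hall
  · rintro (h1 | ⟨h1, h2⟩)
    · exact allNormal_of_isCompact_nonIso h1
    · obtain ⟨C, hC, hCi, hCX⟩ := exists_exhaustion_of_sigmaCompact h2
      exact allNormal_of_exhaustion C hC (fun n => (hC n).isClosed) hCi hCX

end Pool.Agent.W519.N
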