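import Pool.Agent.W519.NG

/-!
For `MP_bb0bf1_gt`: locally compact Hausdorff groups.
-/

open Set Topology Filter Pointwise

namespace Pool.Agent.W519.N

/-- a locally compact group has an open σ-compact subgroup -/
theorem exists_open_sigmaCompact_subgroup (G : Type*) [Group G] [TopologicalSpace G]
    [IsTopologicalGroup G] [LocallyCompactSpace G] :
    ∃ H : Subgroup G, IsOpen (H : Set G) ∧ IsSigmaCompact (H : Set G) := by
  obtain ⟨L, hL, hL1⟩ := exists_compact_mem_nhds (1 : G)
  let T : ℕ → Set G := fun n => Nat.rec (L ∪ L⁻¹) (fun _ t => t * t) n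
  have hT0 : T 0 = L ∪ L⁻¹ := rfl
  have hTs : ∀ n, T (n + 1) = T n * T n := fun n => rfl
  have hTc : ∀ n, IsCompact (T n) := by
    intro n
    induction n with
    | zero => exact hL.union hL.inv
    | succ n ih => exact ih.mul ih
  have hT1 : ∀ n, (1 : G) ∈ T n := by
    intro n
    induction n with
    | zero => exact Or.inl (mem_of_mem_nhds hL1)
    | succ n ih => exact ⟨1, ih, 1, ih, one_mul 1⟩
  have hTi : ∀ n x, x ∈ T n → x⁻¹ ∈ T n := by
    intro n
    induction n with
    | zero =>
      rintro x (hx | hx)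
      · exact Or.inr (by simpa using hx)
      · exact Or.inl hx
    | succ n ih =>
      rintro x ⟨a, ha, b, hb, rfl⟩
      exact ⟨b⁻¹, ih b hb, a⁻¹, ih a ha, (mul_inv_rev a b).symm⟩
  have hmono : Monotone T := by
    apply monotone_nat_of_le_succ
    intro n x hx
    exact ⟨x, hx, 1, hT1 n, mul_one x⟩
  let H : Subgroup G :=
    { carrier := ⋃ n, T n
      mul_mem' := by
        intro a b ha hb
        obtain ⟨m, hm⟩ := mem_iUnion.1 ha
        obtain ⟨n, hn⟩ := mem_iUnion.1 hb
        exact mem_iUnion.2 ⟨max m n + 1, a, hmono (le_max_left m n) hm, b,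
          hmono (le_max_right m n) hn, rfl⟩
      one_mem' := mem_iUnion.2 ⟨0, hT1 0⟩
      inv_mem' := by
        intro a ha
        obtain ⟨m, hm⟩ := mem_iUnion.1 ha
        exact mem_iUnion.2 ⟨m, hTi m a hm⟩ }
  refine ⟨H, ?_, ⟨T, hTc, rfl⟩⟩
  refine H.isOpen_of_mem_nhds (g := 1) (mem_of_superset hL1 ?_)
  intro x hx
  exact mem_iUnion.2 ⟨0, Or.inl hx⟩

theorem allWeaklyCont_iff_group (G : Type*) [Group G] [TopologicalSpace G]
    [IsTopologicalGroup G] [T2Space G] [LocallyCompactSpace G] :
    AllWeaklyCont G ↔ (DiscreteTopology G ∨ SigmaCompactSpace G) := by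
  rw [allWeaklyCont_iff_allNormal]
  constructor
  · intro hall
    by_contra hcon
    push Not at hcon
    obtain ⟨hd, hs⟩ := hcon
    have hiso : ∀ x : G, x ∈ NonIso G := by
      intro x hx
      apply hd
      apply discreteTopology_of_isOpen_singleton_one
      have h1 : ({1} : Set G) = (fun g => x * g) ⁻¹' {x} := by
        ext g
        simp
      rw [h1]
      exact hx.preimage (continuous_const_mul x)
    obtain ⟨H, hHo, hHs⟩ := exists_open_sigmaCompact_subgroup G
    have hWo : ∀ c : G ⧸ H, IsOpen {g : G | (g : G ⧸ H) = c} := by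
      intro c
      obtain ⟨x, rfl⟩ := QuotientGroup.mk_surjective c
      have h1 : {g : G | (g : G ⧸ H) = (x : G ⧸ H)} = (fun g => x⁻¹ * g) ⁻¹' (H : Set G) := by
        ext g
        rw [mem_preimage]
        exact ⟨fun h => QuotientGroup.eq.1 h.symm, fun h => (QuotientGroup.eq.2 h).symm⟩
      rw [h1]
      exact hHo.preimage (continuous_const_mul x⁻¹)
    refine not_allNormal_of_family (M := (univ : Set (G ⧸ H))) ?_
      (fun c : G ⧸ H => {g : G | (g : G ⧸ H) = c}) ?_ ?_ ?_ hall
    · intro hc
      apply hs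
      rw [← isSigmaCompact_univ_iff]
      have h1 : (univ : Set G) = ⋃ c ∈ (univ : Set (G ⧸ H)), (fun g => c.out * g) '' (H : Set G) := by
        symm
        apply eq_univ_of_forall
        intro g
        refine mem_biUnion (mem_univ (g : G ⧸ H)) ?_
        refine ⟨((g : G ⧸ H).out)⁻¹ * g, ?_, by simp⟩
        exact QuotientGroup.eq.1 (QuotientGroup.out_eq' (g : G ⧸ H))
      rw [h1]
      exact isSigmaCompact_biUnion hc fun c _ => hHs.image (continuous_const_mul _)
    · intro x
      refine ⟨{g : G | (g : G ⧸ H) = (x : G ⧸ H)}, (hWo _).mem_nhds rfl, ?_⟩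
      refine (finite_singleton (x : G ⧸ H)).subset ?_
      rintro c ⟨g, hg1, hg2⟩
      rw [mem_singleton_iff]
      exact hg1.symm.trans hg2
    · intro c _ c' _ hcc
      rw [Function.onFun, Set.disjoint_left]
      intro g hg1 hg2
      exact hcc (hg1.symm.trans hg2)
    · intro c _
      obtain ⟨x, rfl⟩ := QuotientGroup.mk_surjective c
      exact exists_accumulation (hiso x) (hWo _) rfl
  · rintro (h | h)
    · apply allNormal_of_isCompact_nonIso
      have h1 : NonIso G = ∅ := by
        ext x
        simp [NonIso]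
      rw [h1]
      exact isCompact_empty
    · obtain ⟨C, hC, hCi, hCX⟩ := exists_exhaustion_of_sigmaCompact
        ((isSigmaCompact_univ (X := G)).of_isClosed_subset isClosed_nonIso (subset_univ _))
      exact allNormal_of_exhaustion C hC (fun n => (hC n).isClosed) hCi hCX

end Pool.Agent.W519.N
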