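import Pool.Agent.W519.NGr
import Pool.Agent.Results.MP_bb0bf1_gt.Char

/-!
For `MP_bb0bf1_gt`: in a paracompact Hausdorff space with the property, whose non-isolated points are
limits of countable sets, the set of non-isolated points is Lindelöf.
-/

open Set Topology Filter

namespace Pool.Agent.W519.N

universe u

theorem isLindelof_of_allNormal {X : Type u} [TopologicalSpace X] [T2Space X] [ParacompactSpace X]
    (hc : ∀ k ∈ NonIso X, ∃ C : Set X, C.Countable ∧ k ∉ C ∧ k ∈ closure C) (h : AllNormal X) :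
    IsLindelof (NonIso X) := by
  by_contra hL
  obtain ⟨D, hDC, hLF, hunc⟩ :=
    Pool.Agent.Results.MP_bb0bf1_gt.Char.exists_uncountable_LF isClosed_nonIso hL
  obtain ⟨O, hOo, hOm, hOd, hOf⟩ := Pool.Agent.Results.MP_bb0bf1_gt.Char.exists_expansion hLF
  refine not_allNormal_of_family (M := (univ : Set D)) ?_ (fun i : D => O i) ?_ ?_ ?_ h
  · intro hcu
    exact hunc (countable_coe_iff.1 (countable_univ_iff.1 hcu))
  · intro x
    obtain ⟨N, hN, hfin⟩ := hOf x
    refine ⟨N, hN, (hfin.preimage (Subtype.val_injective (p := (· ∈ D))).injOn).subset ?_⟩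
    intro i hi
    exact ⟨i.2, hi⟩
  · intro i _ j _ hij
    exact hOd i i.2 j j.2 (fun hh => hij (Subtype.ext hh))
  · intro i _
    obtain ⟨C, hCc, hiC, hiCl⟩ := hc i (hDC i.2)
    have h1 : (i : X) ∈ closure (C ∩ O i) := by
      rw [mem_closure_iff]
      intro o ho hio
      obtain ⟨y, ⟨hy1, hy2⟩, hy3⟩ :=
        mem_closure_iff.1 hiCl (o ∩ O i) (ho.inter (hOo i i.2)) ⟨hio, hOm i i.2⟩
      exact ⟨y, hy1, hy3, hy2⟩
    have h2 : (C ∩ O i).Nonempty := closure_nonempty_iff.1 ⟨_, h1⟩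
    obtain ⟨s, hs⟩ := (hCc.mono inter_subset_left).exists_eq_range h2
    have hs' : ∀ n, s n ∈ C ∩ O i := fun n => by
      rw [hs]
      exact ⟨n, rfl⟩
    refine ⟨i, s, hOm i i.2, fun n => (hs' n).2, fun n hn => hiC (hn ▸ (hs' n).1), ?_⟩
    rw [← hs]
    exact h1

end Pool.Agent.W519.N
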