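import Pool.Agent.W519.N

/-!
For `MP_bb0bf1_gt`: normal spaces with closed projection `X × X → X` have only normal closed
preorders; Hausdorff spaces with that property are normal.
-/

open Set Topology Filter

namespace Pool.Agent.W519.N

variable {X : Type*} [TopologicalSpace X]

theorem allNormal_of_isClosedMap_fst [NormalSpace X]
    (h : IsClosedMap (Prod.fst : X × X → X)) : AllNormal X := by
  intro R hR A B hA hAd hB hBi hAB
  obtain ⟨O, O', hO, hO', hAO, hBO', hOO⟩ := NormalSpace.normal A B hA hB hAB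
  refine ⟨{x | ∀ y, R y x → y ∈ O}, {x | ∀ y, R x y → y ∈ O'}, ?_, ?_, ?_, ?_, ?_, ?_, ?_⟩
  · have h1 : {x | ∀ y, R y x → y ∈ O} = (Prod.fst '' {p : X × X | R p.2 p.1 ∧ p.2 ∈ Oᶜ})ᶜ := by
      ext x
      constructor
      · rintro hx ⟨p, ⟨h1, h2⟩, rfl⟩
        exact h2 (hx _ h1)
      · intro hx y hyx
        by_contra hy
        exact hx ⟨(x, y), ⟨hyx, hy⟩, rfl⟩
    rw [h1, isOpen_compl_iff]
    apply h
    have h2 : IsClosed {p : X × X | R p.2 p.1} :=
      hR.closed.preimage (continuous_snd.prodMk continuous_fst)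
    have h3 : IsClosed {p : X × X | p.2 ∈ Oᶜ} := hO.isClosed_compl.preimage continuous_snd
    exact h2.inter h3
  · intro z x hzx hx y hyz
    exact hx y (hR.trans y z x hyz hzx)
  · have h1 : {x | ∀ y, R x y → y ∈ O'} = (Prod.fst '' {p : X × X | R p.1 p.2 ∧ p.2 ∈ O'ᶜ})ᶜ := by
      ext x
      constructor
      · rintro hx ⟨p, ⟨h1, h2⟩, rfl⟩
        exact h2 (hx _ h1)
      · intro hx y hyx
        by_contra hy
        exact hx ⟨(x, y), ⟨hyx, hy⟩, rfl⟩
    rw [h1, isOpen_compl_iff]
    apply h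
    have h3 : IsClosed {p : X × X | p.2 ∈ O'ᶜ} := hO'.isClosed_compl.preimage continuous_snd
    exact hR.closed.inter h3
  · intro x z hxz hx y hzy
    exact hx y (hR.trans x z y hxz hzy)
  · intro a ha y hya
    exact hAO (hAd y a hya ha)
  · intro b hb y hby
    exact hBO' (hBi b y hby hb)
  · rw [Set.disjoint_left]
    intro x h1 h2
    exact Set.disjoint_left.1 hOO (h1 x (hR.refl x)) (h2 x (hR.refl x))

theorem isClosedMap_fst_of_seqCompact [SequentialSpace X] [SeqCompactSpace X] :
    IsClosedMap (Prod.fst : X × X → X) := by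
  intro C hC
  apply IsSeqClosed.isClosed
  intro u x hu hux
  choose c hc hcu using hu
  obtain ⟨y, -, φ, hφ, hy⟩ := isSeqCompact_univ (X := X) (fun n => mem_univ (c n).2)
  refine ⟨(x, y), ?_, rfl⟩
  refine hC.mem_of_tendsto (f := fun n => c (φ n)) (b := atTop) ?_ (Eventually.of_forall fun n => hc _)
  rw [nhds_prod_eq]
  have h1 : Tendsto (fun n => (c (φ n)).1) atTop (𝓝 x) := by
    have : (fun n => (c (φ n)).1) = u ∘ φ := by
      funext n
      exact hcu _
    rw [this]
    exact hux.comp hφ.tendsto_atTop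
  exact h1.prodMk hy

theorem normalSpace_of_allNormal [T2Space X] (h : AllNormal X) : NormalSpace X := by
  refine ⟨fun A B hA hB hAB => ?_⟩
  have hR : ClosedPreorder (fun x y : X => x = y) := by
    refine ⟨fun _ => rfl, fun _ _ _ h1 h2 => h1.trans h2, ?_⟩
    exact isClosed_eq continuous_fst continuous_snd
  obtain ⟨U, V, hU, -, hV, -, hAU, hBV, hUV⟩ := h _ hR A B hA
    (by rintro z x rfl hx; exact hx) hB (by rintro z x rfl hx; exact hx) hAB
  exact ⟨U, V, hU, hV, hAU, hBV, hUV⟩

end Pool.Agent.W519.N
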