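import Pool.Agent.W519.NB
import Pool.Agent.W519.NS
import Pool.Agent.W271.NP_C
import Pool.Agent.W557.NP_F
import Pool.Agent.W717.NP_E
import Pool.Agent.W962.NP_A
import Pool.Agent.W999.NP_D

/-!
For `MP_bb0bf1_gt`: the three properties (weakly continuous, normal, multi-utility) agree for every
topological space, and the characterization for metrizable spaces.
-/

open Set Topology Filter

namespace Pool.Agent.W519.N

theorem allMultiUtility_of_allNormal {X : Type*} [TopologicalSpace X] (h : AllNormal X) :
    AllMultiUtility X := by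
  intro R hR
  refine ⟨{f | Continuous f ∧ IncFun R f}, fun f hf => hf.1, fun x y => ⟨fun hxy f hf =>
    hf.2 x y hxy, fun hall => ?_⟩⟩
  by_contra hxy
  have hA : IsClosed {z | R z y} :=
    hR.closed.preimage (f := fun z => (z, y)) (continuous_id.prodMk continuous_const)
  have hB : IsClosed {z | R x z} :=
    hR.closed.preimage (f := fun z => (x, z)) (continuous_const.prodMk continuous_id)
  obtain ⟨f, hf, hfi, hf0, hf1⟩ := exists_incFun (h R hR) hA
    (fun z w hzw hw => hR.trans z w y hzw hw) hB (fun w z hwz hw => hR.trans x w z hw hwz)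
    (Set.disjoint_left.2 fun z h1 h2 => hxy (hR.trans x z y h2 h1))
  have h1 := hall f ⟨hf, hfi⟩
  rw [hf0 y (hR.refl y), hf1 x (hR.refl x)] at h1
  linarith

theorem allWeaklyCont_iff_allNormal {X : Type*} [TopologicalSpace X] :
    AllWeaklyCont X ↔ AllNormal X :=
  ⟨allNormal_of_allWeaklyCont,
    fun h => allWeaklyCont_of_allMultiUtility (allMultiUtility_of_allNormal h)⟩

theorem allWeaklyCont_iff_allMultiUtility {X : Type*} [TopologicalSpace X] :
    AllWeaklyCont X ↔ AllMultiUtility X :=
  ⟨fun h => allMultiUtility_of_allNormal (allNormal_of_allWeaklyCont h),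
    allWeaklyCont_of_allMultiUtility⟩

theorem allWeaklyCont_iff_metrizable {X : Type*} [TopologicalSpace X]
    [TopologicalSpace.MetrizableSpace X] :
    AllWeaklyCont X ↔ (IsCompact (NonIso X) ∨
        (LocallyCompactSpace X ∧ TopologicalSpace.IsSeparable (NonIso X))) := by
  let _ : MetricSpace X := TopologicalSpace.metrizableSpaceMetric X
  rw [allWeaklyCont_iff_allNormal]
  constructor
  · intro h
    by_cases h1 : IsCompact (NonIso X)
    · exact Or.inl h1
    · refine Or.inr ⟨?_, ?_⟩
      · by_contra h2
        exact not_allNormal_of_not_locallyCompact h1 h2 h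
      · by_contra h2
        exact not_allNormal_of_not_separable h2 h
  · rintro (h1 | ⟨h1, h2⟩)
    · exact allNormal_of_isCompact_nonIso h1
    · obtain ⟨C, hC, hCi, hCX⟩ := exists_exhaustion h2
      exact allNormal_of_exhaustion C hC (fun n => (hC n).isClosed) hCi hCX

end Pool.Agent.W519.N
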