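import Pool.Agent.W519.Split
import Pool.Agent.W519.CycInst

/-!
# Primes with a prescribed symbol
-/

set_option autoImplicit false

namespace Pool.Agent.W519

open NumberField Finset NumberTheorySymbols

section

variable {p : ℕ} [hp : Fact p.Prime] {O : Type} [CommRing O] [IsDomain O] [CharZero O]

lemma gs_sq {ζ : O} (hζ : IsPrimitiveRoot ζ p) (hp2 : p ≠ 2) :
    gaussSum (qc p O) (AddChar.zmodChar p hζ.pow_eq_one) ^ 2 = (pstar p : O) := by
  have h1 : qc p O ≠ 1 := by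
    obtain ⟨a, ha⟩ := quadraticChar_exists_neg_one' (ringChar_ne hp2)
    intro h
    have h2 := qc_apply (O := O) (a : ZMod p)
    rw [h, ha, MulChar.one_apply_coe] at h2
    have h3 : (2 : O) = 0 := by
      push_cast at h2
      linear_combination h2
    exact two_ne_zero h3
  have h2 : (qc p O).IsQuadratic := (quadraticChar_isQuadratic (ZMod p)).comp _
  have h3 : (AddChar.zmodChar p hζ.pow_eq_one).IsPrimitive :=
    AddChar.zmodChar_primitive_of_primitive_root p hζ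
  rw [gaussSum_sq h1 h2 h3, qc_apply, ZMod.card]
  have h4 : quadraticChar (ZMod p) (-1) = if p % 4 = 1 then 1 else -1 := by
    have h5 : quadraticChar (ZMod p) (-1) = legendreSym p (-1) := by
      unfold legendreSym; push_cast; rfl
    rw [h5, legendreSym.at_neg_one hp2]
    have h6 := hp.out.eq_two_or_odd.resolve_left hp2
    split_ifs with h7
    · exact ZMod.χ₄_nat_one_mod_four h7
    · exact ZMod.χ₄_nat_three_mod_four (by omega)
  rw [h4]
  unfold pstar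
  split_ifs <;> push_cast <;> ring

/-- the square root of `± p` in a larger cyclotomic ring -/
lemma exists_sqrt {M : ℕ} [NeZero M] (C : Cyc M O) (hp2 : p ≠ 2) (h : p ∣ M) :
    ∃ δ : O, δ ^ 2 = (pstar p : O) ∧ ∀ t : (ZMod M)ˣ,
      C.s t δ = ((quadraticChar (ZMod p) (ZMod.castHom h (ZMod p) t) : ℤ) : O) * δ := by
  obtain ⟨d, hd⟩ := h
  have hM0 : 0 < M := NeZero.pos M
  have hζ : IsPrimitiveRoot (C.z ^ d) p := C.prim.pow hM0 (by rw [hd, mul_comm])
  refine ⟨_, gs_sq hζ hp2, fun t => ?_⟩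
  set t' : ZMod p := ZMod.castHom ⟨d, hd⟩ (ZMod p) t with ht'
  have ht'0 : IsUnit t' := t.isUnit.map _
  obtain ⟨t'', ht''⟩ := ht'0
  set ψ := AddChar.zmodChar p hζ.pow_eq_one with hψ
  have h1 : C.s t (gaussSum (qc p O) ψ) = gaussSum (qc p O) (ψ.mulShift t') := by
    unfold gaussSum
    rw [map_sum]
    refine sum_congr rfl fun x _ => ?_
    rw [map_mul, qc_apply, map_intCast]
    congr 1
    rw [AddChar.mulShift_apply, hψ, AddChar.zmodChar_apply, AddChar.zmodChar_apply, map_pow,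
      map_pow, C.hs, ← pow_mul, ← pow_mul]
    have h2 : C.z ^ ((t : ZMod M).val * (d * x.val)) = (C.z ^ d) ^ ((t : ZMod M).val * x.val) := by
      rw [← pow_mul]; congr 1; ring
    rw [h2]
    apply pow_eq_pow_of_modEq _ hζ.pow_eq_one
    rw [← ZMod.natCast_eq_natCast_iff]
    push_cast
    rw [ZMod.natCast_zmod_val, ZMod.natCast_zmod_val, ht']
    congr 1
    simp
  have h2 := gaussSum_mulShift (qc p O) ψ t''
  rw [ht''] at h2
  rw [h1, ← h2, ← mul_assoc, qc_apply, ← Int.cast_mul]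
  have h3 : quadraticChar (ZMod p) t' * quadraticChar (ZMod p) t' = 1 := by
    rw [← sq]
    exact quadraticChar_sq_one (by rw [← ht'']; exact t''.ne_zero)
  rw [h3, Int.cast_one, one_mul]

end

/-- units with prescribed residues -/
lemma exists_unit {p q M : ℕ} [hp : Fact p.Prime] [hq : Fact q.Prime] (hpq : p ≠ q)
    (hp' : p ∣ M) (hq' : q ∣ M) [NeZero M] (a : (ZMod p)ˣ) (b : (ZMod q)ˣ) :
    ∃ t : (ZMod M)ˣ, ZMod.castHom hp' (ZMod p) t = a ∧ ZMod.castHom hq' (ZMod q) t = b := by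
  have hcop : p.Coprime q := (Nat.coprime_primes hp.out hq.out).mpr hpq
  have hdvd : p * q ∣ M := hcop.mul_dvd_of_dvd_of_dvd hp' hq'
  have : NeZero (p * q) := ⟨Nat.mul_ne_zero hp.out.ne_zero hq.out.ne_zero⟩
  let e := ZMod.chineseRemainder hcop
  obtain ⟨w, hw⟩ : ∃ w : (ZMod (p * q))ˣ, e w = ((a : ZMod p), (b : ZMod q)) := by
    have h1 : IsUnit (((a : ZMod p), (b : ZMod q)) : ZMod p × ZMod q) := by
      rw [Prod.isUnit_iff]; exact ⟨a.isUnit, b.isUnit⟩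
    have h2 : IsUnit (e.symm ((a : ZMod p), (b : ZMod q))) := h1.map e.symm
    obtain ⟨w, hw⟩ := h2
    exact ⟨w, by rw [hw]; exact e.apply_symm_apply _⟩
  obtain ⟨t, ht⟩ := ZMod.unitsMap_surjective hdvd w
  have h3 : ZMod.castHom hdvd (ZMod (p * q)) t = w := by rw [← ht]; rfl
  refine ⟨t, ?_, ?_⟩
  · have h4 : ZMod.castHom hp' (ZMod p) (t : ZMod M) =
        (e (ZMod.castHom hdvd (ZMod (p * q)) t)).1 := by
      have : (ZMod.castHom hp' (ZMod p)) = ((RingHom.fst (ZMod p) (ZMod q)).comp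
        (e : ZMod (p * q) →+* ZMod p × ZMod q)).comp (ZMod.castHom hdvd (ZMod (p * q))) :=
        RingHom.ext_zmod _ _
      rw [this]; rfl
    rw [h4, h3, hw]
  · have h4 : ZMod.castHom hq' (ZMod q) (t : ZMod M) =
        (e (ZMod.castHom hdvd (ZMod (p * q)) t)).2 := by
      have : (ZMod.castHom hq' (ZMod q)) = ((RingHom.snd (ZMod p) (ZMod q)).comp
        (e : ZMod (p * q) →+* ZMod p × ZMod q)).comp (ZMod.castHom hdvd (ZMod (p * q))) :=
        RingHom.ext_zmod _ _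
      rw [this]; rfl
    rw [h4, h3, hw]

section

variable {p q : ℕ} [hp : Fact p.Prime] [hq : Fact q.Prime]

/-- the element is not a square -/
theorem not_sq {O : Type} [CommRing O] [IsDomain O] [CharZero O] {M : ℕ} [NeZero M]
    (C : Cyc M O) (hp2 : p ≠ 2) (hq4 : q % 4 = 1) (hpq : p ≠ q) (hpM : p ∣ M) (hqM : q ∣ M)
    {δ : O} (hδ : δ ^ 2 = (pstar p : O)) (hδs : ∀ t : (ZMod M)ˣ,
      C.s t δ = ((quadraticChar (ZMod p) (ZMod.castHom hpM (ZMod p) t) : ℤ) : O) * δ)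
    {X Y Z c : ℤ} (h : X ^ 2 - pstar p * Y ^ 2 = q * Z ^ 2) (hZ : Z ≠ 0) (hc : c ≠ 0) (κ : O) :
    κ ^ 2 ≠ (c : O) * ((X : O) + (Y : O) * δ) := by
  intro hκ
  have hq2 : q ≠ 2 := by rintro rfl; norm_num at hq4
  obtain ⟨ε, hε, hεs⟩ := exists_sqrt (p := q) C hq2 hqM
  have hps : pstar q = q := by unfold pstar; rw [if_pos hq4]
  rw [hps] at hε
  obtain ⟨a, ha⟩ := quadraticChar_exists_neg_one' (ringChar_ne hp2)
  obtain ⟨b, hb⟩ := quadraticChar_exists_neg_one' (ringChar_ne hq2)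
  obtain ⟨t1, h11, h12⟩ := exists_unit hpq hpM hqM a 1
  obtain ⟨t2, h21, h22⟩ := exists_unit hpq hpM hqM 1 b
  have e1 : C.s t1 δ = -δ := by rw [hδs, h11, ha]; push_cast; ring
  have e2 : C.s t2 δ = δ := by rw [hδs, h21]; simp
  have e3 : C.s t2 ε = -ε := by rw [hεs, h22, hb]; push_cast; ring
  have hq0 : (q : O) ≠ 0 := by exact_mod_cast hq.out.ne_zero
  have hε0 : ε ≠ 0 := by rintro rfl; apply hq0; exact_mod_cast (by rw [← hε]; ring : ((q : ℤ) : O) = 0)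
  have hc0 : (c : O) ≠ 0 := by exact_mod_cast hc
  have hZ0 : (Z : O) ≠ 0 := by exact_mod_cast hZ
  set σ := C.s t1 κ with hσ
  have h1 : σ ^ 2 = (c : O) * ((X : O) - (Y : O) * δ) := by
    rw [hσ, ← map_pow, hκ, map_mul, map_add, map_mul, map_intCast, map_intCast, map_intCast, e1]
    ring
  have h2 : (κ * σ) ^ 2 = ((c : O) * Z * ε) ^ 2 := by
    have h3 : ((X ^ 2 - pstar p * Y ^ 2 : ℤ) : O) = ((q * Z ^ 2 : ℤ) : O) := by rw [h]
    push_cast at h3
    have hε' : ε ^ 2 = (q : O) := by rw [hε]; push_cast; rfl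
    rw [mul_pow, hκ, h1]
    linear_combination (c : O) ^ 2 * h3 - (c : O) ^ 2 * (Y : O) ^ 2 * hδ - (c : O) ^ 2 * (Z : O) ^ 2 * hε'
  have h3 : κ * σ = (c : O) * Z * ε ∨ κ * σ = -((c : O) * Z * ε) := sq_eq_sq_iff_eq_or_eq_neg.mp h2
  have h4 : C.s t2 κ ^ 2 = κ ^ 2 := by
    rw [← map_pow, hκ, map_mul, map_add, map_mul, map_intCast, map_intCast, map_intCast, e2]
  have h5 : C.s t2 κ = κ ∨ C.s t2 κ = -κ := sq_eq_sq_iff_eq_or_eq_neg.mp h4
  have h6 : C.s t2 (κ * σ) = κ * σ := by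
    rw [map_mul, hσ, ← C.mul_apply, mul_comm t2 t1, C.mul_apply]
    rcases h5 with h5 | h5
    · rw [h5]
    · rw [h5, map_neg]; ring
  have h7 : C.s t2 ((c : O) * Z * ε) = -((c : O) * Z * ε) := by
    rw [map_mul, map_mul, map_intCast, map_intCast, e3]; ring
  have h8 : (c : O) * Z * ε ≠ 0 := mul_ne_zero (mul_ne_zero hc0 hZ0) hε0
  have h9 : (2 : O) * ((c : O) * Z * ε) ≠ 0 := mul_ne_zero two_ne_zero h8
  rcases h3 with h3 | h3
  · rw [h3, h7] at h6
    apply h9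
    linear_combination -h6
  · rw [h3, map_neg, h7] at h6
    apply h9
    linear_combination h6

/-- **Existence of primes.** -/
theorem exists_prime_symbol (hp2 : p ≠ 2) (hq4 : q % 4 = 1) (hpq : p ≠ q) {M : ℕ} [NeZero M]
    (hpM : p ∣ M) (hqM : q ∣ M) {X Y Z c : ℤ} (h : X ^ 2 - pstar p * Y ^ 2 = q * Z ^ 2)
    (hZ : Z ≠ 0) (hc : c ≠ 0) (N : ℕ) :
    ∃ ℓ : ℕ, N < ℓ ∧ ℓ.Prime ∧ M ∣ ℓ - 1 ∧ ∃ e : ℤ, (ℓ : ℤ) ∣ e ^ 2 - pstar p ∧
      J(c * (X + Y * e) | ℓ) = -1 := by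
  classical
  obtain ⟨δ, hδ, hδs⟩ := exists_sqrt (p := p) (cycO M) hp2 hpM
  set d : 𝓞 (CF M) := (c : 𝓞 (CF M)) * ((X : 𝓞 (CF M)) + (Y : 𝓞 (CF M)) * δ) with hd
  have hns := not_sq (q := q) (cycO M) hp2 hq4 hpq hpM hqM hδ hδs h hZ hc
  have hd0 : d ≠ 0 := by
    intro h0
    apply hns 0
    rw [← hd, h0]; ring
  have hsq : ¬ IsSquare (d : CF M) := by
    rintro ⟨κ, hκ⟩
    have hki : IsIntegral ℤ κ := by
      apply IsIntegral.of_pow (by norm_num : 0 < 2)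
      rw [sq, ← hκ]
      exact RingOfIntegers.isIntegral_coe d
    obtain ⟨κ', hκ'⟩ : ∃ κ' : 𝓞 (CF M), (κ' : CF M) = κ := ⟨⟨κ, hki⟩, rfl⟩
    apply hns κ'
    rw [← hd]
    apply RingOfIntegers.ext
    rw [hκ, ← hκ', sq]
    rfl
  obtain ⟨ℓ, hℓN, hℓ, φ, hφ⟩ := exists_nonresidue hd0 hsq (N + M)
  have hMℓ : M ∣ ℓ - 1 := by
    have hM0 : ((M : ℕ) : ZMod ℓ) ≠ 0 := by
      rw [Ne, ZMod.natCast_eq_zero_iff]
      intro h1
      have := Nat.le_of_dvd (NeZero.pos M) h1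
      omega
    have : NeZero ((M : ℕ) : ZMod ℓ) := ⟨hM0⟩
    have h1 : (Polynomial.cyclotomic M (𝓞 (CF M))).IsRoot (cycO M).z := by
      have : NeZero ((M : ℕ) : 𝓞 (CF M)) := ⟨by exact_mod_cast NeZero.ne M⟩
      exact Polynomial.isRoot_cyclotomic_iff.mpr (cycO M).prim
    have h2 := h1.map (f := φ)
    rw [Polynomial.map_cyclotomic] at h2
    have h3 := Polynomial.isRoot_cyclotomic_iff.mp h2
    have h4 : φ (cycO M).z ≠ 0 := h3.ne_zero (NeZero.ne M)
    have h5 := ZMod.pow_card_sub_one_eq_one h4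
    exact h3.dvd_of_pow_eq_one _ h5
  refine ⟨ℓ, by omega, hℓ.out, hMℓ, ((φ δ).val : ℤ), ?_, ?_⟩
  · rw [← ZMod.intCast_zmod_eq_zero_iff_dvd]
    push_cast
    rw [ZMod.natCast_zmod_val, ← map_pow, hδ, map_intCast, sub_self]
  · rw [← jacobiSym.legendreSym.to_jacobiSym, ← hφ]
    unfold legendreSym
    congr 1
    rw [hd]
    push_cast
    rw [ZMod.natCast_zmod_val]
    simp only [map_mul, map_add, map_intCast]

end

end Pool.Agent.W519
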