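import Pool.Agent.W519.EvalSym
import Pool.Agent.W519.Conic
import Pool.Agent.W519.Symb
import Pool.Agent.H916K.MainTwo

/-!
# Preparations for the main theorem
-/

set_option autoImplicit false
set_option linter.unusedSectionVars false

namespace Pool.Agent.W519

open Finset NumberField Pool.Agent.H916K Pool.Agent.H916R2
open scoped NumberTheorySymbols

section

variable {n m ℓ : ℕ} [hℓ : Fact ℓ.Prime] {k : Type} [Field k]

lemma eta_ne {R : Type} [CommRing R] [IsDomain R] [CharZero R] (hℓ2 : ℓ ≠ 2) : eta ℓ R ≠ 1 := by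
  obtain ⟨a, ha⟩ := quadraticChar_exists_neg_one' (F := ZMod ℓ)
    (by rw [ZMod.ringChar_zmod_n]; exact hℓ2)
  intro h
  have h2 := eta_apply (R := R) (a : ZMod ℓ)
  rw [h, ha, MulChar.one_apply_coe] at h2
  have h3 : (2 : R) = 0 := by
    push_cast at h2
    linear_combination h2
  exact two_ne_zero h3

lemma eta_sq {R : Type} [CommRing R] [IsDomain R] [CharZero R] : (eta ℓ R) ^ 2 = 1 := by
  apply MulChar.ext'
  intro x
  by_cases hx : x = 0
  · rw [hx, MulChar.map_zero, MulChar.map_zero]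
  rw [mulChar_pow_apply _ _ hx, eta_apply, MulChar.one_apply (isUnit_iff_ne_zero.mpr hx)]
  have h8 := congrArg (fun z : ℤ => (z : R)) (quadraticChar_sq_one hx)
  push_cast at h8
  exact h8

/-- a character of order `m` -/
lemma exists_chi (L : Lev n m ℓ) [NeZero (n * ℓ)] :
    ∃ χ : MulChar (ZMod ℓ) (𝓞 (CF (n * ℓ))), orderOf χ = m := by
  have hpos : 0 < n * ℓ := Nat.pos_of_ne_zero (NeZero.ne _)
  have h1 := (cycO (n * ℓ)).prim
  have h2 : IsPrimitiveRoot ((cycO (n * ℓ)).z ^ ℓ) n := h1.pow hpos (mul_comm n ℓ)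
  obtain ⟨χ, hχ⟩ := MulChar.exists_mulChar_orderOf (ZMod ℓ) (n := n) (by
    rw [ZMod.card]; exact L.n_dvd.trans L.m_dvd) h2
  rcases L.two with h | h
  · exact ⟨χ, by rw [hχ, h]⟩
  · refine ⟨χ * eta ℓ _, ?_⟩
    have h3 : orderOf (eta ℓ (𝓞 (CF (n * ℓ)))) = 2 := orderOf_eq_prime eta_sq (eta_ne L.ne_two)
    rw [(Commute.all χ (eta ℓ _)).orderOf_mul_eq_mul_orderOf_of_coprime, hχ, h3, h, mul_comm]
    rw [hχ, h3]
    exact Nat.coprime_two_right.mpr L.odd

/-- a root of unity of order `ℓ` with the right sign of the quadratic Gauss sum -/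
lemma exists_zeta (L : Lev n m ℓ) [NeZero (n * ℓ)] [NeZero m] {q : ℕ} (hqm : q ∣ m) [CharP k q]
    (f : 𝓞 (CF (n * ℓ)) →+* k) {χ : MulChar (ZMod ℓ) (𝓞 (CF (n * ℓ)))} (hχ : orderOf χ = m) :
    ∃ (ζ : 𝓞 (CF (n * ℓ))) (hζ : IsPrimitiveRoot ζ ℓ),
      m = 2 * n → f (gaussSum (χ ^ n) (AddChar.zmodChar ℓ hζ.pow_eq_one)) = 1 := by
  have hpos : 0 < n * ℓ := Nat.pos_of_ne_zero (NeZero.ne _)
  have h1 := (cycO (n * ℓ)).prim
  have h2 : IsPrimitiveRoot ((cycO (n * ℓ)).z ^ n) ℓ := h1.pow hpos rfl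
  set ζ := (cycO (n * ℓ)).z ^ n with hζ
  by_cases hm2 : m = 2 * n
  swap
  · exact ⟨ζ, h2, fun h => absurd h hm2⟩
  have hprim : (AddChar.zmodChar ℓ h2.pow_eq_one).IsPrimitive :=
    AddChar.zmodChar_primitive_of_primitive_root ℓ h2
  have h0 : χ ^ m = 1 := by
    have := pow_orderOf_eq_one χ
    rwa [hχ] at this
  have hne : χ ^ n ≠ 1 := by
    intro h
    have h6 := orderOf_dvd_of_pow_eq_one h
    rw [hχ, hm2] at h6
    have := Nat.le_of_dvd L.n_pos h6
    have := L.n_pos; omega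
  have hsq : (χ ^ n) ^ 2 = 1 := by
    rw [← pow_mul, show n * 2 = m by omega, h0]
  have heta : χ ^ n = eta ℓ (𝓞 (CF (n * ℓ))) := eq_eta L.ne_two hsq hne
  have hm1 : (χ ^ n) (-1) = 1 := L.minus_one (by rw [pow_right_comm, h0, one_pow])
  have hinv : (χ ^ n)⁻¹ = χ ^ n := by
    rw [inv_eq_iff_mul_eq_one, ← sq, hsq]
  have hg := gauss_pair hprim hne hm1
  rw [hinv] at hg
  have h3 := congrArg f hg
  rw [map_mul, map_natCast, L.cast_one hqm] at h3
  have h4 : (f (gaussSum (χ ^ n) (AddChar.zmodChar ℓ h2.pow_eq_one)) - 1) *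
      (f (gaussSum (χ ^ n) (AddChar.zmodChar ℓ h2.pow_eq_one)) + 1) = 0 := by
    linear_combination h3
  rcases mul_eq_zero.mp h4 with h | h
  · exact ⟨ζ, h2, fun _ => sub_eq_zero.mp h⟩
  · have h5 := eq_neg_of_add_eq_zero_left h
    obtain ⟨r, hr⟩ := quadraticChar_exists_neg_one' (F := ZMod ℓ)
      (by rw [ZMod.ringChar_zmod_n]; exact L.ne_two)
    have hcop : (r : ZMod ℓ).val.Coprime ℓ := ZMod.val_coe_unit_coprime r
    have h6 : IsPrimitiveRoot (ζ ^ (r : ZMod ℓ).val) ℓ := h2.pow_of_coprime _ hcop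
    refine ⟨ζ ^ (r : ZMod ℓ).val, h6, fun _ => ?_⟩
    have h7 : AddChar.zmodChar ℓ h6.pow_eq_one =
        (AddChar.zmodChar ℓ h2.pow_eq_one).mulShift r := by
      refine DFunLike.ext _ _ fun x => ?_
      rw [AddChar.mulShift_apply, AddChar.zmodChar_apply, AddChar.zmodChar_apply, ← pow_mul]
      refine pow_eq_pow_of_modEq ?_ h2.pow_eq_one
      rw [← ZMod.natCast_eq_natCast_iff]
      push_cast
      rw [ZMod.natCast_zmod_val, ZMod.natCast_zmod_val, ZMod.natCast_zmod_val]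
    have h8 := gaussSum_mulShift (χ ^ n) (AddChar.zmodChar ℓ h2.pow_eq_one) r
    rw [← h7] at h8
    have h9 : (χ ^ n) (r : ZMod ℓ) = -1 := by
      rw [heta, eta_apply, hr]; norm_num
    rw [h9] at h8
    have h10 := congrArg f h8
    rw [map_mul, map_neg, map_one, h5] at h10
    linear_combination -h10

/-- the classes of the coefficients -/
lemma cl_coef (L : Lev n m ℓ) [NeZero (n * ℓ)] [NeZero m] (f : 𝓞 (CF (n * ℓ)) →+* k)
    {χ : MulChar (ZMod ℓ) (𝓞 (CF (n * ℓ)))} (hχ : orderOf χ = m) {z : ℤ}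
    (hz : (z : ZMod ℓ) ≠ 0) (j : ℕ) :
    cl (f ((χ ^ j) (z : ZMod ℓ))) =
      cl (((J((if 2 ∣ m ∧ ¬ 2 ∣ j then z else 1) | ℓ) : ℤ)) : k) := by
  have h0 : χ ^ m = 1 := by
    have := pow_orderOf_eq_one χ
    rwa [hχ] at this
  have hroot : (χ (z : ZMod ℓ)) ^ m = 1 := by
    rw [← mulChar_pow_apply _ _ hz, h0, MulChar.one_apply (isUnit_iff_ne_zero.mpr hz)]
  by_cases hm2 : 2 ∣ m
  · have hm : m = 2 * n := by
      rcases L.two with h | h
      · exfalso
        have := L.odd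
        rw [← h] at this
        rw [Nat.odd_iff] at this; omega
      · exact h
    have hne : χ ^ n ≠ 1 := by
      intro h
      have h6 := orderOf_dvd_of_pow_eq_one h
      rw [hχ, hm] at h6
      have := Nat.le_of_dvd L.n_pos h6
      have := L.n_pos; omega
    have hsq : (χ ^ n) ^ 2 = 1 := by
      rw [← pow_mul, show n * 2 = m by omega, h0]
    have heta : χ ^ n = eta ℓ (𝓞 (CF (n * ℓ))) := eq_eta L.ne_two hsq hne
    have h1 : (f (χ (z : ZMod ℓ))) ^ n = ((J(z | ℓ) : ℤ) : k) := by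
      rw [← map_pow, ← mulChar_pow_apply _ _ hz, heta, eta_apply, map_intCast,
        ← jacobiSym.legendreSym.to_jacobiSym]
      rfl
    have hf0 : f (χ (z : ZMod ℓ)) ≠ 0 := by
      intro h
      have := congrArg f hroot
      rw [map_pow, h, map_one, zero_pow (NeZero.ne m)] at this
      exact zero_ne_one this
    have h2 : n • cl (f (χ (z : ZMod ℓ))) = cl ((J(z | ℓ) : ℤ) : k) := by
      rw [← cl_pow hf0, h1]
    have h3 : (2 : ℕ) • cl (f (χ (z : ZMod ℓ))) = 0 := by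
      apply no_odd L.odd
      rw [smul_smul, mul_comm, ← hm, ← cl_pow hf0, ← map_pow, hroot, map_one, cl_one]
    have h4 : ∀ i : ℕ, i • cl (f (χ (z : ZMod ℓ))) =
        if 2 ∣ i then 0 else cl (f (χ (z : ZMod ℓ))) := by
      intro i
      split_ifs with hi
      · obtain ⟨i', rfl⟩ := hi
        rw [mul_comm, mul_smul, h3, smul_zero]
      · obtain ⟨i', hi'⟩ : ∃ i', i = i' * 2 + 1 := ⟨i / 2, by omega⟩
        rw [hi', add_smul, one_smul, mul_smul, h3, smul_zero, zero_add]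
    have h5 : cl (f (χ (z : ZMod ℓ))) = cl ((J(z | ℓ) : ℤ) : k) := by
      rw [← h2, h4, if_neg]
      have := L.odd
      rw [Nat.odd_iff] at this; omega
    rw [mulChar_pow_apply _ _ hz, map_pow, cl_pow hf0, h4]
    by_cases hj : 2 ∣ j
    · rw [if_pos hj, if_neg (fun h => h.2 hj), jacobiSym.one_left, Int.cast_one, cl_one]
    · rw [if_neg hj, if_pos ⟨hm2, hj⟩, h5]
  · have hm : m = n := by
      rcases L.two with h | h
      · exact h
      · exact absurd ⟨n, h⟩ hm2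
    rw [if_neg (fun h => hm2 h.1), jacobiSym.one_left, Int.cast_one, cl_one]
    apply cl_root (j := m) (by rw [hm]; exact L.odd)
    rw [← map_pow, mulChar_pow_apply _ _ hz, pow_right_comm, hroot, one_pow, map_one]

/-- the classes of symbols of products -/
lemma cl_symbol {α : Type} (s : Multiset α) (g : α → ℤ)
    (hg : ∀ z ∈ s, ((g z : ℤ) : ZMod ℓ) ≠ 0) :
    (s.map fun z => cl (((J(g z | ℓ) : ℤ)) : k)).sum = cl (((J((s.map g).prod | ℓ) : ℤ)) : k) := by
  have hJ : ∀ a : ℤ, (a : ZMod ℓ) ≠ 0 → ((J(a | ℓ) : ℤ) : k) ≠ 0 := by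
    intro a ha
    rw [← jacobiSym.legendreSym.to_jacobiSym]
    rcases legendreSym.eq_one_or_neg_one ℓ ha with h | h
    · rw [h]; simp
    · rw [h]; simp
  induction s using Multiset.induction_on with
  | empty => simp [jacobiSym.one_left, cl_one]
  | cons a s ih =>
    have h1 : ∀ z ∈ s, ((g z : ℤ) : ZMod ℓ) ≠ 0 := fun z hz => hg z (Multiset.mem_cons_of_mem hz)
    have h2 : (((s.map g).prod : ℤ) : ZMod ℓ) ≠ 0 := by
      have h3 := map_multiset_prod (Int.castRingHom (ZMod ℓ)) (s.map g)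
      rw [Multiset.map_map] at h3
      have h4 : (((s.map g).prod : ℤ) : ZMod ℓ) =
        (s.map (⇑(Int.castRingHom (ZMod ℓ)) ∘ g)).prod := h3
      rw [h4]
      exact multiset_prod_ne s _ h1
    rw [Multiset.map_cons, Multiset.sum_cons, ih h1, Multiset.map_cons, Multiset.prod_cons,
      jacobiSym.mul_left, Int.cast_mul, cl_mul (hJ _ (hg a (Multiset.mem_cons_self a s))) (hJ _ h2)]

end

end Pool.Agent.W519
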