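import Mathlib

/-!
# An elementary reciprocity law for norm equations
-/

set_option autoImplicit false

namespace Pool.Agent.W519

open NumberTheorySymbols

/-- integers of the form `A ^ 2 - n * B ^ 2` have even valuation at the primes modulo which `n` is
not a square -/
lemma even_val_of_norm {r : ℕ} [Fact r.Prime] {n : ℤ} (hn : J(n | r) = -1) :
    ∀ (k : ℕ) (A B C : ℤ), C.natAbs = k → A ^ 2 - n * B ^ 2 = C → C ≠ 0 →
      Even (padicValInt r C) := by
  have hr : r.Prime := Fact.out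
  intro k
  induction k using Nat.strong_induction_on with
  | _ k ih =>
    intro A B C hk h hC
    by_cases hrC : (r : ℤ) ∣ C
    · obtain ⟨⟨A', hA'⟩, ⟨B', hB'⟩⟩ := jacobiSym.prime_dvd_of_eq_neg_one hn (x := A) (y := B)
        (by rw [h]; exact hrC)
      set C' : ℤ := A' ^ 2 - n * B' ^ 2 with hC'
      have hCC : C = (r : ℤ) ^ 2 * C' := by rw [← h, hA', hB', hC']; ring
      have hC'0 : C' ≠ 0 := by
        intro h0; apply hC; rw [hCC, h0, mul_zero]
      have hr0 : (r : ℤ) ≠ 0 := by exact_mod_cast hr.ne_zero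
      have hlt : C'.natAbs < k := by
        rw [← hk, hCC, Int.natAbs_mul, Int.natAbs_pow, Int.natAbs_natCast]
        have h1 : 0 < C'.natAbs := Int.natAbs_pos.mpr hC'0
        have h2 : 2 ^ 2 ≤ r ^ 2 := Nat.pow_le_pow_left hr.two_le 2
        calc C'.natAbs < 2 ^ 2 * C'.natAbs := by omega
          _ ≤ r ^ 2 * C'.natAbs := Nat.mul_le_mul_right _ h2
      have h3 := ih _ hlt A' B' C' rfl rfl hC'0
      have h4 : padicValInt r C = 2 + padicValInt r C' := by
        rw [hCC, padicValInt.mul (pow_ne_zero 2 hr0) hC'0]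
        congr 1
        have h5 : ((r : ℤ) ^ 2) = ((r ^ 2 : ℕ) : ℤ) := by push_cast; rfl
        rw [h5, padicValInt.of_nat, padicValNat.prime_pow]
      rw [h4]
      exact (even_two).add h3
    · rw [padicValInt.eq_zero_of_not_dvd hrC]; exact Even.zero

lemma J_nat_prod (b : ℕ) (s : Finset ℕ) (f : ℕ → ℕ) :
    J(((∏ r ∈ s, r ^ f r : ℕ) : ℤ) | b) = ∏ r ∈ s, J((r : ℤ) | b) ^ f r := by
  classical
  induction s using Finset.induction_on with
  | empty => simp [jacobiSym.one_left]
  | insert a s ha ih =>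
    rw [Finset.prod_insert ha, Finset.prod_insert ha]
    push_cast
    rw [jacobiSym.mul_left, jacobiSym.pow_left]
    rw [← ih]
    push_cast
    rfl

/-- the Jacobi symbol of an integer whose valuations at the odd primes with `(b / r) = -1` are
even -/
lemma J_of_even {b : ℕ} (hb : b % 4 = 1) {n : ℤ} (hn : n ≠ 0) (hco : n.gcd b = 1)
    (h : ∀ r : ℕ, r.Prime → r ≠ 2 → (r : ℤ) ∣ n → J((b : ℤ) | r) = -1 → Even (padicValInt r n)) :
    J(n | b) = J(2 | b) ^ padicValInt 2 n := by
  have hbodd : Odd b := Nat.odd_iff.mpr (by omega)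
  have hb0 : b ≠ 0 := by omega
  set N := n.natAbs with hN
  have hN0 : N ≠ 0 := Int.natAbs_ne_zero.mpr hn
  have hJN : J(n | b) = J((N : ℤ) | b) := by
    rcases Int.natAbs_eq n with h1 | h1
    · conv_lhs => rw [h1]
    · conv_lhs => rw [h1]
      rw [jacobiSym.neg _ hbodd, ZMod.χ₄_nat_one_mod_four hb, one_mul]
  have hval : ∀ r : ℕ, padicValInt r n = N.factorization r ∨ ¬ r.Prime := by
    intro r
    by_cases hr : r.Prime
    · left
      unfold padicValInt
      rw [Nat.factorization_def _ hr]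
    · right; exact hr
  have hcoN : N.Coprime b := by
    have := hco
    rw [Int.gcd_eq_natAbs, Int.natAbs_natCast] at this
    exact this
  rw [hJN]
  conv_lhs => rw [← Nat.prod_factorization_pow_eq_self hN0]
  rw [Finsupp.prod, J_nat_prod]
  have h2 : ∀ r ∈ N.factorization.support, J((r : ℤ) | b) ^ N.factorization r =
      if r = 2 then J(2 | b) ^ padicValInt 2 n else 1 := by
    intro r hr
    have hrp : r.Prime := Nat.prime_of_mem_primeFactors (by simpa using hr)
    have hrN : r ∣ N := Nat.dvd_of_mem_primeFactors (by simpa using hr)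
    have hv : padicValInt r n = N.factorization r := (hval r).resolve_right (not_not.mpr hrp)
    split_ifs with h2
    · subst h2; rw [← hv]; rfl
    · have hrodd : Odd r := hrp.odd_of_ne_two h2
      have hcop : r.Coprime b := Nat.Coprime.coprime_dvd_left hrN hcoN
      rw [jacobiSym.quadratic_reciprocity_one_mod_four' hrodd hb]
      have hg : (b : ℤ).gcd r = 1 := by
        rw [Int.gcd_natCast_natCast]; exact hcop.symm
      rcases jacobiSym.eq_one_or_neg_one hg with h3 | h3
      · rw [h3, one_pow]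
      · rw [h3]
        have h4 := h r hrp h2 (Int.natCast_dvd.mpr hrN) h3
        rw [hv] at h4
        exact h4.neg_one_pow
  rw [Finset.prod_congr rfl h2, Finset.prod_ite_eq']
  split_ifs with h3
  · rfl
  · have h4 : padicValInt 2 n = 0 := by
      rw [(hval 2).resolve_right (not_not.mpr Nat.prime_two)]
      exact Finsupp.notMem_support_iff.mp h3
    rw [h4, pow_zero]

lemma val_two_odd {n : ℤ} (h : n % 2 = 1) : padicValInt 2 n = 0 :=
  padicValInt.eq_zero_of_not_dvd (by push_cast; omega)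

lemma val_two_mod {n : ℤ} (h : n % 4 = 2) : padicValInt 2 n = 1 := by
  obtain ⟨k, hk⟩ : ∃ k, n = 2 * k := ⟨n / 2, by omega⟩
  have hk2 : k % 2 = 1 := by omega
  have hk0 : k ≠ 0 := by rintro rfl; omega
  rw [hk, padicValInt.mul (by norm_num) hk0, val_two_odd hk2]
  have : padicValInt 2 2 = 1 := by
    have h2 : (2 : ℤ) = ((2 : ℕ) : ℤ) := rfl
    rw [h2, padicValInt.of_nat, padicValNat_self]
  rw [this]

lemma val_pow_mul {r : ℕ} [Fact r.Prime] {j : ℕ} {n : ℤ} (hn : ¬ (r : ℤ) ∣ n) :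
    padicValInt r ((r : ℤ) ^ j * n) = j := by
  have hr : r.Prime := Fact.out
  have hn0 : n ≠ 0 := by rintro rfl; exact hn (dvd_zero _)
  have hr0 : (r : ℤ) ≠ 0 := by exact_mod_cast hr.ne_zero
  rw [padicValInt.mul (pow_ne_zero j hr0) hn0, padicValInt.eq_zero_of_not_dvd hn]
  have h5 : ((r : ℤ) ^ j) = ((r ^ j : ℕ) : ℤ) := by push_cast; rfl
  rw [h5, padicValInt.of_nat, padicValNat.prime_pow, add_zero]

lemma exists_split {r : ℕ} (hr : r.Prime) {h : ℤ} (h0 : h ≠ 0) :
    ∃ (j : ℕ) (h' : ℤ), h = (r : ℤ) ^ j * h' ∧ ¬ (r : ℤ) ∣ h' := by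
  obtain ⟨e, n', hn', he⟩ := Nat.exists_eq_pow_mul_and_not_dvd (n := h.natAbs)
    (Int.natAbs_ne_zero.mpr h0) r hr.ne_one
  rcases Int.natAbs_eq h with h1 | h1
  · refine ⟨e, n', ?_, ?_⟩
    · rw [h1, he]; push_cast; rfl
    · rwa [Int.natCast_dvd_natCast]
  · refine ⟨e, -n', ?_, ?_⟩
    · rw [h1, he]; push_cast; ring
    · rwa [dvd_neg, Int.natCast_dvd_natCast]

lemma not_dvd_both {x y : ℤ} (h : IsCoprime x y) {r : ℕ} (hr : r.Prime) (hx : (r : ℤ) ∣ x)
    (hy : (r : ℤ) ∣ y) : False := by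
  have h1 := h.isUnit_of_dvd' hx hy
  have h2 := Int.isUnit_iff_natAbs_eq.mp h1
  rw [Int.natAbs_natCast] at h2
  exact hr.one_lt.ne' h2

end Pool.Agent.W519
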