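import Pool.Agent.W519.Dist

/-!
# Reduction of characters
-/

set_option autoImplicit false
set_option linter.unusedSectionVars false

namespace Pool.Agent.W519

open Finset NumberField Pool.Agent.H916K Pool.Agent.H916R2

section

variable {ℓ : ℕ} [hℓ : Fact ℓ.Prime]

/-- the reduction of a character of prime order -/
lemma order_red {O k : Type} [CommRing O] [IsDomain O] [Field k] {p q : ℕ} [hp : Fact p.Prime]
    [hq : Fact q.Prime] [CharP k q] (hqp : q ≠ p) (f : O →+* k) {χ : MulChar (ZMod ℓ) O}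
    (hχ : orderOf χ = p) : orderOf (χ.ringHomComp f) = p := by
  have h0 : χ ^ p = 1 := by rw [← hχ]; exact pow_orderOf_eq_one _
  apply orderOf_eq_prime
  · rw [MulChar.ringHomComp_pow, h0]; exact MulChar.ringHomComp_one f
  · intro h
    have hne : χ ≠ 1 := by
      intro h1; rw [h1, orderOf_one] at hχ; exact hp.out.one_lt.ne hχ
    apply hne
    apply MulChar.ext'
    intro x
    by_cases hx : x = 0
    · rw [hx, MulChar.map_zero, MulChar.map_zero]
    rw [MulChar.one_apply (isUnit_iff_ne_zero.mpr hx)]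
    by_contra h1
    have h2 : (χ x) ^ p = 1 := by
      rw [← mulChar_pow_apply χ p hx, h0, MulChar.one_apply (isUnit_iff_ne_zero.mpr hx)]
    have h3 : (χ x - 1) * ∑ i ∈ range p, (χ x) ^ i = 0 := by
      rw [mul_geom_sum, h2, sub_self]
    have h4 := (mul_eq_zero.mp h3).resolve_left (sub_ne_zero.mpr h1)
    have h5 := congrArg f h4
    have h6 : f (χ x) = 1 := by
      have : (χ.ringHomComp f) x = 1 := by
        rw [h, MulChar.one_apply (isUnit_iff_ne_zero.mpr hx)]
      exact this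
    rw [map_sum, map_zero] at h5
    simp only [map_pow, h6, one_pow, sum_const, card_range, nsmul_eq_mul, mul_one] at h5
    rw [CharP.cast_eq_zero_iff k q] at h5
    exact hqp ((Nat.prime_dvd_prime_iff_eq hq.out hp.out).mp h5)

/-- every character of order dividing `N` is a power of a character of order `N` -/
lemma exists_pow_char' {A : Type} [CommRing A] [IsDomain A] {χ1 : MulChar (ZMod ℓ) A} {N : ℕ}
    (hN : 0 < N) (hχ1 : orderOf χ1 = N) (χ : MulChar (ZMod ℓ) A) (hχ : χ ^ N = 1) :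
    ∃ j : ℕ, χ = χ1 ^ j := by
  have : NeZero N := ⟨hN.ne'⟩
  obtain ⟨g, hg⟩ := IsCyclic.exists_generator (α := (ZMod ℓ)ˣ)
  have hgen : ∀ x : (ZMod ℓ)ˣ, ∃ n : ℕ, g ^ n = x := fun x =>
    (IsOfFinOrder.mem_powers_iff_mem_zpowers (isOfFinOrder_of_finite g)).mpr (hg x)
  have hpowχ : ∀ (χ : MulChar (ZMod ℓ) A) (n : ℕ), (∀ x : (ZMod ℓ)ˣ, χ x ^ n = 1) → χ ^ n = 1 := by
    intro χ n h
    ext x
    rw [MulChar.pow_apply_coe, h, MulChar.one_apply_coe]
  have hprim : IsPrimitiveRoot (χ1 (g : ZMod ℓ)) N := by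
    refine ⟨mulChar_pow_one hχ1 g.ne_zero, ?_⟩
    intro l hl
    rw [← hχ1]
    apply orderOf_dvd_of_pow_eq_one
    apply hpowχ
    intro x
    obtain ⟨n, rfl⟩ := hgen x
    rw [Units.val_pow_eq_pow_val, map_pow, ← pow_mul, mul_comm n l, pow_mul, hl, one_pow]
  have h1 : χ (g : ZMod ℓ) ^ N = 1 := by
    rw [← MulChar.pow_apply_coe, hχ, MulChar.one_apply_coe]
  obtain ⟨j, _, hj⟩ := hprim.eq_pow_of_pow_eq_one h1
  refine ⟨j, ?_⟩
  ext x
  obtain ⟨n, rfl⟩ := hgen x
  rw [MulChar.pow_apply_coe, Units.val_pow_eq_pow_val, map_pow, map_pow, ← hj]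
  ring

/-- lifting a character of order `p` -/
lemma exists_lift {k : Type} [Field k] {p q : ℕ} [hp : Fact p.Prime]
    [hq : Fact q.Prime] [CharP k q] (hqp : q ≠ p) (hpℓ : p ∣ ℓ - 1) (f : 𝓞 (CF p) →+* k)
    {θ : MulChar (ZMod ℓ) k} (hθ : orderOf θ = p) :
    ∃ χ : MulChar (ZMod ℓ) (𝓞 (CF p)), orderOf χ = p ∧ χ.ringHomComp f = θ := by
  obtain ⟨χ0, hχ0⟩ := MulChar.exists_mulChar_orderOf (ZMod ℓ) (n := p) (by
    rw [ZMod.card]; exact hpℓ) (cycO p).prim
  have h1 := order_red hqp f hχ0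
  obtain ⟨j, hj⟩ := exists_pow_char' hp.out.pos h1 θ (by rw [← hθ]; exact pow_orderOf_eq_one _)
  have h2 : χ0 ^ p = 1 := by
    have := pow_orderOf_eq_one χ0
    rwa [hχ0] at this
  refine ⟨χ0 ^ j, ?_, ?_⟩
  · apply orderOf_eq_prime
    · rw [pow_right_comm, h2, one_pow]
    · intro h
      rw [MulChar.ringHomComp_pow, h] at hj
      rw [hj, show (1 : MulChar (ZMod ℓ) (𝓞 (CF p))).ringHomComp f = 1 from
        MulChar.ringHomComp_one f, orderOf_one] at hθ
      exact hp.out.one_lt.ne hθ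
  · rw [hj, MulChar.ringHomComp_pow]

end

end Pool.Agent.W519
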