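import Pool.Agent.W519.Weil

/-!
# Products of Gauss sums of Hodge type: the root of unity
-/

set_option autoImplicit false

namespace Pool.Agent.W519

open Finset NumberField Pool.Agent.H916K Pool.Agent.H916R2

/-- an embedding of a ring of integers in the algebraic integers -/
lemma exists_emb (K : Type) [Field K] [NumberField K] :
    ∃ (σ : K →+* ℂ) (ι : 𝓞 K →+* AI), Function.Injective ι ∧ ∀ x : 𝓞 K, ((ι x : AI) : ℂ) = σ x := by
  have hne : Nonempty (K →+* ℂ) := inferInstance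
  obtain ⟨σ⟩ := hne
  have hint : ∀ x : 𝓞 K, IsIntegral ℤ (σ x) := fun x => map_isIntegral_int σ x.isIntegral_coe
  let ι : 𝓞 K →+* AI :=
    { toFun := fun x => ⟨σ x, hint x⟩
      map_one' := by apply Subtype.ext; simp
      map_mul' := fun x y => by apply Subtype.ext; simp
      map_zero' := by apply Subtype.ext; simp
      map_add' := fun x y => by apply Subtype.ext; simp }
  refine ⟨σ, ι, ?_, fun x => rfl⟩
  intro x y h
  have h1 : σ x = σ y := congrArg Subtype.val h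
  exact RingOfIntegers.ext (σ.injective h1)

section

variable {ℓ : ℕ} [hℓ : Fact ℓ.Prime]

lemma map_zmodChar {A B : Type} [CommRing A] [CommRing B] (f : A →+* B) {ζ : A} (h : ζ ^ ℓ = 1)
    (h' : (f ζ) ^ ℓ = 1) (x : ZMod ℓ) :
    f (AddChar.zmodChar ℓ h x) = AddChar.zmodChar ℓ h' x := by
  rw [AddChar.zmodChar_apply, AddChar.zmodChar_apply, map_pow]

lemma map_gaussSum {A B : Type} [CommRing A] [CommRing B] (f : A →+* B) {ζ : A} (h : ζ ^ ℓ = 1)
    (h' : (f ζ) ^ ℓ = 1) (χ : MulChar (ZMod ℓ) A) (n : ℕ) :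
    f (gaussSum (χ ^ n) (AddChar.zmodChar ℓ h)) =
      gaussSum ((χ.ringHomComp f) ^ n) (AddChar.zmodChar ℓ h') := by
  unfold gaussSum
  rw [map_sum]
  refine sum_congr rfl fun x _ => ?_
  rw [map_mul, map_zmodChar f h h', MulChar.ringHomComp_pow]
  rfl

lemma norm_gauss {χ : MulChar (ZMod ℓ) ℂ} (hχ : χ ≠ 1) {ψ : AddChar (ZMod ℓ) ℂ}
    (hψ : ψ.IsPrimitive) : ‖gaussSum χ ψ‖ ^ 2 = ℓ := by
  have h1 := gaussSum_mul_gaussSum_eq_card hχ hψ
  rw [← star_gaussSum_eq, ZMod.card] at h1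
  have h2 := congrArg (fun z : ℂ => ‖z‖) h1
  simp only [norm_mul, norm_star] at h2
  rw [sq, h2]
  simp

lemma norm_prod_gauss {m : ℕ} {χ : MulChar (ZMod ℓ) ℂ} (hχ : orderOf χ = m)
    {ψ : AddChar (ZMod ℓ) ℂ} (hψ : ψ.IsPrimitive) {s : Multiset (ZMod m)} (hs : (0 : ZMod m) ∉ s)
    (hm : 0 < m) :
    ‖(s.map fun a => gaussSum (χ ^ a.val) ψ).prod‖ ^ 2 = (ℓ : ℝ) ^ (Multiset.card s) := by
  have : NeZero m := ⟨hm.ne'⟩
  induction s using Multiset.induction_on with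
  | empty => simp
  | cons a s ih =>
    rw [Multiset.mem_cons, not_or] at hs
    rw [Multiset.map_cons, Multiset.prod_cons, norm_mul, mul_pow, ih hs.2, Multiset.card_cons,
      norm_gauss _ hψ, pow_succ']
    intro h
    have h1 := orderOf_dvd_of_pow_eq_one h
    rw [hχ] at h1
    have h2 := ZMod.val_lt a
    have h3 : a.val ≠ 0 := fun h => hs.1 ((ZMod.val_eq_zero a).mp h).symm
    exact absurd (Nat.le_of_dvd (Nat.pos_of_ne_zero h3) h1) (by omega)

/-- **Weil**: for a Hodge character the product of the Gauss sums is, up to sign and up to a power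
of `ℓ`, a root of unity of order dividing `n * ℓ`. -/
theorem weil_root {n m : ℕ} [NeZero (n * ℓ)] (hodd : Odd (n * ℓ)) (hm : 0 < m) (hℓ3 : 3 ≤ ℓ)
    (hmℓ : m ∣ ℓ - 1) {χ : MulChar (ZMod ℓ) (𝓞 (CF (n * ℓ)))} (hχ : orderOf χ = m)
    {ζ : 𝓞 (CF (n * ℓ))} (hζ : IsPrimitiveRoot ζ ℓ) {s : Multiset (ZMod m)} (hs : IsHodge m s) :
    ∃ x ε : 𝓞 (CF (n * ℓ)), (ε = 1 ∨ ε = -1) ∧ x ^ (n * ℓ) = 1 ∧
      (s.map fun a => gaussSum (χ ^ a.val) (AddChar.zmodChar ℓ hζ.pow_eq_one)).prod =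
        ε * (ℓ : 𝓞 (CF (n * ℓ))) ^ (Multiset.card s / 2) * x := by
  obtain ⟨σ, ι, hι, hισ⟩ := exists_emb (CF (n * ℓ))
  set G := (s.map fun a => gaussSum (χ ^ a.val) (AddChar.zmodChar ℓ hζ.pow_eq_one)).prod with hG
  set w := Multiset.card s / 2 with hw
  have hℓ0 : ((ℓ : ℕ) : CF (n * ℓ)) ≠ 0 := by exact_mod_cast hℓ.out.ne_zero
  set y : CF (n * ℓ) := (G : CF (n * ℓ)) / (ℓ : CF (n * ℓ)) ^ w with hy
  -- image of G under a homomorphism
  have hmapG : ∀ {B : Type} [CommRing B] (f : 𝓞 (CF (n * ℓ)) →+* B) (h' : (f ζ) ^ ℓ = 1),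
      f G = (s.map fun a => gaussSum ((χ.ringHomComp f) ^ a.val) (AddChar.zmodChar ℓ h')).prod := by
    intro B _ f h'
    rw [hG, map_multiset_prod, Multiset.map_map]
    congr 1
    apply Multiset.map_congr rfl
    intro a _
    exact map_gaussSum f hζ.pow_eq_one h' χ a.val
  -- integrality
  have hint : IsIntegral ℤ y := by
    have hζ' : IsPrimitiveRoot (ι ζ) ℓ := hζ.map_of_injective hι
    have hχ' : orderOf (χ.ringHomComp ι) = m := by
      rw [← hχ]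
      exact orderOf_injective (MulChar.ringHomCompHom ι) (MulChar.injective_ringHomComp hι) χ
    have h1 := weil_integral hm hℓ3 hmℓ hχ' hζ' hs
    rw [← hmapG ι hζ'.pow_eq_one, hισ] at h1
    have h2 : σ y = σ (G : CF (n * ℓ)) / (ℓ : ℂ) ^ w := by
      rw [hy, map_div₀, map_pow, map_natCast]
    rw [← h2] at h1
    exact (isIntegral_algHom_iff (σ.toIntAlgHom) σ.injective).mp h1
  -- norms
  have hnorm : ∀ τ : CF (n * ℓ) →+* ℂ, ‖τ y‖ = 1 := by
    intro τ
    set f : 𝓞 (CF (n * ℓ)) →+* ℂ := τ.comp (algebraMap (𝓞 (CF (n * ℓ))) (CF (n * ℓ))) with hf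
    have hfinj : Function.Injective f :=
      τ.injective.comp (FaithfulSMul.algebraMap_injective (𝓞 (CF (n * ℓ))) (CF (n * ℓ)))
    have hζ' : IsPrimitiveRoot (f ζ) ℓ := hζ.map_of_injective hfinj
    have hχ' : orderOf (χ.ringHomComp f) = m := by
      rw [← hχ]
      exact orderOf_injective (MulChar.ringHomCompHom f) (MulChar.injective_ringHomComp hfinj) χ
    have h1 := norm_prod_gauss hχ' (AddChar.zmodChar_primitive_of_primitive_root ℓ hζ') hs.1 hm
    rw [← hmapG f hζ'.pow_eq_one] at h1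
    have h2 : τ y = f G / (ℓ : ℂ) ^ w := by
      rw [hy, map_div₀, map_pow, map_natCast]; rfl
    obtain ⟨c, hc⟩ := hs.2.1
    have h3 : Multiset.card s = 2 * w := by omega
    have h4 : ‖f G‖ = (ℓ : ℝ) ^ w := by
      rw [h3, mul_comm 2 w, pow_mul] at h1
      exact (pow_left_inj₀ (norm_nonneg _) (by positivity) (by norm_num)).mp h1
    have hℓpos : (0 : ℝ) < (ℓ : ℝ) ^ w := by
      have := hℓ.out.pos
      positivity
    rw [h2, norm_div, h4, norm_pow, Complex.norm_natCast, div_self hℓpos.ne']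
  obtain ⟨k, hk, hyk⟩ := Embeddings.pow_eq_one_of_norm_eq_one (CF (n * ℓ)) ℂ hint hnorm
  have hfin : IsOfFinOrder y := isOfFinOrder_iff_pow_eq_one.mpr ⟨k, hk, hyk⟩
  have hZ := IsCyclotomicExtension.zeta_spec (n * ℓ) ℚ (CF (n * ℓ))
  obtain ⟨r, hr⟩ := hZ.exists_neg_pow_of_isOfFinOrder hodd hfin
  set z := hZ.toInteger with hz
  have hzv : (z : CF (n * ℓ)) = IsCyclotomicExtension.zeta (n * ℓ) ℚ (CF (n * ℓ)) := rfl
  have hz1 : z ^ (n * ℓ) = 1 := hZ.toInteger_isPrimitiveRoot.pow_eq_one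
  refine ⟨z ^ r, (-1) ^ r, neg_one_pow_eq_or _ r, ?_, ?_⟩
  · rw [pow_right_comm, hz1, one_pow]
  · apply RingOfIntegers.ext
    have h1 : (G : CF (n * ℓ)) = y * (ℓ : CF (n * ℓ)) ^ w := by
      rw [hy, div_mul_cancel₀ _ (pow_ne_zero _ hℓ0)]
    rw [h1, hr, neg_pow, ← hzv]
    push_cast
    ring

end

end Pool.Agent.W519
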