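import Pool.Agent.H341R2.NF.Quad

/-!
# Primes with a prescribed quadratic residue symbol
-/

set_option autoImplicit false

namespace Pool.Agent.W519

open NumberField Polynomial Filter Topology Finset Pool.Agent.H341R2
open Pool.Agent.H921R2.TatePole (hc)

/-- a nonsquare is a nonresidue modulo infinitely many primes of degree one -/
theorem exists_nonresidue {K : Type} [Field K] [NumberField K] {d : 𝓞 K} (hd : d ≠ 0)
    (hsq : ¬ IsSquare (d : K)) (N : ℕ) :
    ∃ ℓ : ℕ, N < ℓ ∧ ∃ _ : Fact ℓ.Prime, ∃ φ : 𝓞 K →+* ZMod ℓ, quadraticChar (ZMod ℓ) (φ d) = -1 := by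
  classical
  by_contra hno
  push Not at hno
  have : Fact (Irreducible (qpoly d)) := ⟨qpoly_irreducible hsq⟩
  set a : ℕ → ℝ := fun p => (Nat.card (𝓞 K →+* ZMod p) : ℝ) with ha
  set b : ℕ → ℝ := fun p => (Nat.card (𝓞 (QF d) →+* ZMod p) : ℝ) with hb
  -- for large primes the number of homomorphisms doubles
  set N1 : ℕ := N + (N0 d).natAbs with hN1
  have key : ∀ p : ℕ, p.Prime → N1 < p → b p = 2 * a p := by
    intro p hp hlt
    have : Fact p.Prime := ⟨hp⟩
    have hN0 : ¬ (p : ℤ) ∣ N0 d := by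
      intro h
      have h0 := N0_ne_zero hd
      have h1 := Int.natAbs_dvd_natAbs.mpr h
      rw [Int.natAbs_natCast] at h1
      have := Nat.le_of_dvd (Int.natAbs_pos.mpr h0) h1
      omega
    have hfin : Finite (𝓞 K →+* ZMod p) := Pool.Agent.H921R2.TatePole.hom_finite ⟨p, hp⟩
    let _ : Fintype (𝓞 K →+* ZMod p) := Fintype.ofFinite _
    have h1 := hc_quad (d := d) (p := p) hN0
    have h2 : ∀ φ : 𝓞 K →+* ZMod p, quadraticChar (ZMod p) (φ d) + 1 = 2 := by
      intro φ
      have h3 : φ d ≠ 0 := by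
        obtain ⟨c, hc⟩ := dvd_N0 d
        intro h0
        apply hN0
        have h8 := congrArg φ hc
        rw [map_mul, map_mul, h0, mul_zero, mul_zero, map_intCast,
          ZMod.intCast_zmod_eq_zero_iff_dvd] at h8
        exact h8
      have h4 := hno p (by omega) ⟨hp⟩ φ
      rcases quadraticChar_dichotomy h3 with h5 | h5
      · rw [h5]; norm_num
      · exact absurd h5 h4
    rw [Finset.sum_congr rfl fun φ _ => h2 φ, Finset.sum_const, nsmul_eq_mul, Finset.card_univ,
      ← Nat.card_eq_fintype_card] at h1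
    have h5 : (Nat.card (𝓞 (QF d) →+* ZMod p) : ℤ) = Nat.card (𝓞 K →+* ZMod p) * 2 := h1
    rw [hb, ha]
    have h6 : ((Nat.card (𝓞 (QF d) →+* ZMod p) : ℤ) : ℝ) = ((Nat.card (𝓞 K →+* ZMod p) * 2 : ℤ) : ℝ) := by
      rw [h5]
    push_cast at h6
    linarith
  have hA := Pool.Agent.H484R2.pit K
  have hB := Pool.Agent.H484R2.pit (QF d)
  -- the difference of `b` and `2 * a` is a bounded sum
  set C : ℝ := ∑ p ∈ (range (N1 + 1)).filter Nat.Prime, (b p - 2 * a p) with hC
  have hlim1 : Tendsto (fun n : ℕ => C / (Nat.primeCounting n : ℝ)) atTop (𝓝 0) := by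
    refine Tendsto.div_atTop tendsto_const_nhds ?_
    exact tendsto_natCast_atTop_atTop.comp Nat.tendsto_primeCounting
  have hlim2 : Tendsto (fun n : ℕ => C / (Nat.primeCounting n : ℝ)) atTop (𝓝 (1 - 2 * 1)) := by
    refine (hB.sub (hA.const_mul 2)).congr' ?_
    filter_upwards [eventually_ge_atTop N1] with n hn
    rw [hC]
    have h1 : ∑ p ∈ (range (N1 + 1)).filter Nat.Prime, (b p - 2 * a p) =
        ∑ p ∈ (range (n + 1)).filter Nat.Prime, (b p - 2 * a p) := by
      refine sum_subset ?_ ?_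
      · intro p hp
        rw [mem_filter, mem_range] at hp ⊢
        exact ⟨by omega, hp.2⟩
      · intro p hp hp'
        rw [mem_filter, mem_range] at hp hp'
        have h2 : N1 < p := by
          by_contra h3
          exact hp' ⟨by omega, hp.2⟩
        rw [key p hp.2 h2, sub_self]
    rw [h1, sum_sub_distrib, ← mul_sum, sub_div, mul_div_assoc]
  have h := tendsto_nhds_unique hlim1 hlim2
  norm_num at h

end Pool.Agent.W519
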