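import Pool.Agent.W519.Cyc
import Pool.Agent.W519.HalfProd
import Pool.Agent.W519.Recip2

/-!
# The descent of the product of Gauss sums to the quadratic field
-/

set_option autoImplicit false

namespace Pool.Agent.W519

open Finset Pool.Agent.H916K

section

variable {p : ℕ} [hp : Fact p.Prime] {O : Type} [CommRing O]
  (C : Cyc p O) {H : Finset (ZMod p)} (g : ZMod p → O) (ℓ : ℕ)

/-- the number of elements of `t * H` outside `H` -/
def kk (H : Finset (ZMod p)) (t : (ZMod p)ˣ) : ℕ := (sm t H \ H).card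

/-- the cocycle, without the power of `ℓ` -/
noncomputable def BB (g : ZMod p → O) (H : Finset (ZMod p)) (t : (ZMod p)ˣ) : O :=
  ∏ u ∈ sm t H \ H, g u

/-- the product over a half system -/
noncomputable def GG (g : ZMod p → O) (H : Finset (ZMod p)) : O := ∏ u ∈ H, g u

open Classical in
/-- the squares -/
noncomputable def SQ (p : ℕ) [Fact p.Prime] : Finset (ZMod p)ˣ := univ.filter IsSquare

lemma mem_SQ {t : (ZMod p)ˣ} : t ∈ SQ p ↔ IsSquare t := by
  unfold SQ; simp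

/-- the resolvent -/
noncomputable def TT (C : Cyc p O) (g : ZMod p → O) (ℓ : ℕ) (H : Finset (ZMod p)) (c : O) : O :=
  ∑ t ∈ SQ p, (ℓ : O) ^ (p * H.card - p * (kk H t / 2)) * BB g H t * C.s t c

lemma kk_le (H : Finset (ZMod p)) (t : (ZMod p)ˣ) : kk H t ≤ H.card := by
  unfold kk
  refine (card_le_card sdiff_subset).trans ?_
  unfold sm
  exact card_image_le

variable (hg : ∀ u, u ≠ 0 → g u * g (-u) = (ℓ : O) ^ p)
  (hs : ∀ (t : (ZMod p)ˣ) (u : ZMod p), C.s t (g u) = g (t * u)) (hH : Half H)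

include hs in
lemma s_BB (s t : (ZMod p)ˣ) : C.s s (BB g H t) = ∏ u ∈ sm (s * t) H \ sm s H, g u := by
  unfold BB
  rw [map_prod, prod_congr rfl fun u _ => hs s u, ← prod_sm s (sm t H \ H) g, sm_sdiff, sm_mul]

/-- the number of pairs -/
def nn (H : Finset (ZMod p)) (s t : (ZMod p)ˣ) : ℕ := ((sm (s * t) H \ sm s H) ∩ H).card

include hg hs hH in
lemma BB_comp (s t : (ZMod p)ˣ) :
    BB g H s * C.s s (BB g H t) = BB g H (s * t) * ((ℓ : O) ^ p) ^ nn H s t := by
  rw [s_BB C g hs]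
  unfold BB nn
  exact half_triple (sm_half hH (s * t)) (sm_half hH s) hH g hg

include hH in
lemma kk_comp (s t : (ZMod p)ˣ) : kk H s + kk H t = kk H (s * t) + 2 * nn H s t := by
  have h1 := half_card (sm_half hH (s * t)) (sm_half hH s) hH
  have h2 : (sm (s * t) H \ sm s H).card = kk H t := by
    rw [sm_mul, ← sm_sdiff]
    exact card_image_of_injective _ (fun a b h => s.isUnit.mul_left_cancel h)
  rw [h2] at h1
  exact h1

include hg hs hH in
lemma s_GG (t : (ZMod p)ˣ) :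
    C.s t (GG g H) * ((ℓ : O) ^ p) ^ kk H t = GG g H * BB g H t ^ 2 := by
  have h1 : C.s t (GG g H) = ∏ u ∈ sm t H, g u := by
    unfold GG
    rw [map_prod, prod_sm]
    exact prod_congr rfl fun u _ => hs t u
  rw [h1]
  exact half_pair (sm_half hH t) hH g hg

lemma two_half {n : ℕ} (h : Even n) : 2 * (n / 2) = n := Nat.two_mul_div_two_of_even h

include hg hs hH in
/-- the resolvent solves the cocycle equation -/
lemma s_TT (hp2 : p ≠ 2) (c : O) {s : (ZMod p)ˣ} (hsq : IsSquare s) :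
    BB g H s * C.s s (TT C g ℓ H c) = (ℓ : O) ^ (p * (kk H s / 2)) * TT C g ℓ H c := by
  unfold TT
  rw [map_sum, mul_sum, mul_sum]
  refine sum_bij' (fun t _ => s * t) (fun t _ => s⁻¹ * t) ?_ ?_ ?_ ?_ ?_
  · intro t ht
    rw [mem_SQ] at ht ⊢
    exact hsq.mul ht
  · intro t ht
    rw [mem_SQ] at ht ⊢
    exact hsq.inv.mul ht
  · intro t _; exact inv_mul_cancel_left s t
  · intro t _; exact mul_inv_cancel_left s t
  · intro t ht
    rw [mem_SQ] at ht
    rw [map_mul, map_mul, map_pow, map_natCast, ← C.mul_apply]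
    have h1 := BB_comp C g ℓ hg hs hH s t
    have h2 := kk_comp hH s t
    have e1 := two_half ((gauss_half hp2 hH s).mp hsq)
    have e2 := two_half ((gauss_half hp2 hH t).mp ht)
    have e3 := two_half ((gauss_half hp2 hH (s * t)).mp (hsq.mul ht))
    change 2 * (kk H s / 2) = kk H s at e1
    change 2 * (kk H t / 2) = kk H t at e2
    change 2 * (kk H (s * t) / 2) = kk H (s * t) at e3
    have l1 := kk_le H s
    have l2 := kk_le H t
    have l3 := kk_le H (s * t)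
    set a := kk H s / 2
    set b := kk H t / 2
    set d := kk H (s * t) / 2
    set n := nn H s t
    have e4 : a + b = d + n := by omega
    have e5 : p * H.card - p * b + p * n = p * a + (p * H.card - p * d) := by
      rw [← Nat.mul_sub, ← Nat.mul_sub, ← mul_add, ← mul_add]
      congr 1; omega
    calc BB g H s * ((ℓ : O) ^ (p * H.card - p * b) * C.s s (BB g H t) * C.s (s * t) c)
        = (ℓ : O) ^ (p * H.card - p * b) * (BB g H s * C.s s (BB g H t)) * C.s (s * t) c := by ring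
      _ = (ℓ : O) ^ (p * H.card - p * b + p * n) * BB g H (s * t) * C.s (s * t) c := by
          rw [h1, pow_add, pow_mul]; ring
      _ = _ := by rw [e5, pow_add]; ring

/-- nonvanishing of the resolvent modulo a prime, for a suitable element -/
lemma exists_TT [IsDomain O] {k : Type} [Field k] {q : ℕ} [hq : Fact q.Prime] [CharP k q]
    (hqp : q ≠ p) (hg : ∀ u, u ≠ 0 → g u * g (-u) = (ℓ : O) ^ p) (hH : Half H)
    (f : O →+* k) (hℓ : (ℓ : k) = 1) : ∃ c : O, f (TT C g ℓ H c) ≠ 0 := by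
  classical
  by_contra hall
  push Not at hall
  have hne : f C.z ≠ 1 := by
    intro h2
    have h3 := C.prim.geom_sum_eq_zero hp.out.one_lt
    have h4 := congrArg f h3
    rw [map_sum, map_zero, sum_congr rfl (fun i _ => by rw [map_pow, h2, one_pow]), sum_const,
      card_range, nsmul_eq_mul, mul_one, CharP.cast_eq_zero_iff k q] at h4
    exact hqp ((Nat.prime_dvd_prime_iff_eq hq.out hp.out).mp h4)
  have hpr : f C.z ^ p = 1 := by rw [← map_pow, C.prim.pow_eq_one, map_one]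
  have h1 : IsPrimitiveRoot (f C.z) p :=
    IsPrimitiveRoot.iff_orderOf.mpr (orderOf_eq_prime hpr hne)
  have hz : ∀ a b : (ZMod p)ˣ, f (C.s a C.z) = f (C.s b C.z) → a = b := by
    intro a b h
    rw [C.hs, C.hs, map_pow, map_pow] at h
    have h2 := h1.pow_inj (ZMod.val_lt _) (ZMod.val_lt _) h
    exact Units.ext (ZMod.val_injective p h2)
  have hinj : Function.Injective (fun t : (ZMod p)ˣ => ((f : O →* k).comp (C.s t : O →* O))) := by
    intro a b h
    exact hz a b (DFunLike.congr_fun h C.z)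
  have hli := (linearIndependent_monoidHom O k).comp _ hinj
  have hc := linearIndependent_iff'.mp hli (SQ p)
    (fun t => f ((ℓ : O) ^ (p * H.card - p * (kk H t / 2)) * BB g H t)) (by
      funext c
      have h2 := hall c
      unfold TT at h2
      rw [map_sum] at h2
      rw [Finset.sum_apply]
      refine Eq.trans ?_ h2
      refine sum_congr rfl fun t _ => ?_
      simp [map_mul])
  have h3 := hc 1 (mem_SQ.mpr ⟨1, by simp⟩)
  rw [map_mul, map_pow, map_natCast, hℓ, one_pow, one_mul] at h3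
  unfold BB at h3
  rw [map_prod, prod_eq_zero_iff] at h3
  obtain ⟨u, hu, h4⟩ := h3
  have h5 := hg u ((sm_half hH 1).ne u (mem_sdiff.mp hu).1)
  have h6 := congrArg f h5
  rw [map_mul, h4, zero_mul, map_pow, map_natCast, hℓ, one_pow] at h6
  exact zero_ne_one h6

end

section

variable {p : ℕ} [hp : Fact p.Prime] {O : Type} [CommRing O] [IsDomain O] [CharZero O]
  (C : Cyc p O) {H : Finset (ZMod p)} (g : ZMod p → O) (ℓ : ℕ)
  (hℓ : ℓ.Prime) (hg : ∀ u, u ≠ 0 → g u * g (-u) = (ℓ : O) ^ p)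
  (hs : ∀ (t : (ZMod p)ˣ) (u : ZMod p), C.s t (g u) = g (t * u)) (hH : Half H) (hp2 : p ≠ 2)
  (c : O)

/-- the element of the quadratic field -/
noncomputable def LL (C : Cyc p O) (g : ZMod p → O) (ℓ : ℕ) (H : Finset (ZMod p)) (c : O) : O :=
  GG g H * TT C g ℓ H c ^ 2

/-- the square root of the norm, up to a power of `ℓ` -/
noncomputable def ZZ (C : Cyc p O) (g : ZMod p → O) (ℓ : ℕ) (H : Finset (ZMod p)) (c : O)
    (r : (ZMod p)ˣ) : O :=
  GG g H * BB g H r * TT C g ℓ H c * C.s r (TT C g ℓ H c)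

omit [IsDomain O] [CharZero O] in
lemma ne_zero_of_pair {a b L : O} (h : a * b = L) (hL : L ≠ 0) : a ≠ 0 := by
  rintro rfl; rw [zero_mul] at h; exact hL h.symm

include hℓ hg hH in
lemma BB_ne (t : (ZMod p)ˣ) : BB g H t ≠ 0 := by
  unfold BB
  rw [prod_ne_zero_iff]
  intro u hu
  have hℓ0 : (ℓ : O) ≠ 0 := by exact_mod_cast hℓ.ne_zero
  exact ne_zero_of_pair (hg u ((sm_half hH t).ne u (mem_sdiff.mp hu).1)) (pow_ne_zero p hℓ0)

include hℓ hg hs hH hp2 in
lemma s_LL {s : (ZMod p)ˣ} (hsq : IsSquare s) : C.s s (LL C g ℓ H c) = LL C g ℓ H c := by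
  have hℓ0 : (ℓ : O) ≠ 0 := by exact_mod_cast hℓ.ne_zero
  have hL : ((ℓ : O) ^ p) ^ kk H s ≠ 0 := pow_ne_zero _ (pow_ne_zero _ hℓ0)
  apply mul_right_cancel₀ hL
  have h1 := s_GG C g ℓ hg hs hH s
  have h2 := s_TT C g ℓ hg hs hH hp2 c hsq
  have e1 := two_half ((gauss_half hp2 hH s).mp hsq)
  change 2 * (kk H s / 2) = kk H s at e1
  have e2 : ((ℓ : O) ^ (p * (kk H s / 2))) ^ 2 = ((ℓ : O) ^ p) ^ kk H s := by
    rw [← pow_mul, ← pow_mul]; congr 1
    rw [mul_assoc, mul_comm (kk H s / 2), e1]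
  unfold LL
  rw [map_mul, map_pow]
  calc C.s s (GG g H) * C.s s (TT C g ℓ H c) ^ 2 * ((ℓ : O) ^ p) ^ kk H s
      = (C.s s (GG g H) * ((ℓ : O) ^ p) ^ kk H s) * C.s s (TT C g ℓ H c) ^ 2 := by ring
    _ = GG g H * (BB g H s * C.s s (TT C g ℓ H c)) ^ 2 := by rw [h1]; ring
    _ = _ := by rw [h2, mul_pow, e2]; ring

include hℓ hg hs hH hp2 in
lemma s_ZZ_sq (r : (ZMod p)ˣ) {s : (ZMod p)ˣ} (hsq : IsSquare s) :
    C.s s (ZZ C g ℓ H c r) = ZZ C g ℓ H c r := by
  have hℓ0 : (ℓ : O) ≠ 0 := by exact_mod_cast hℓ.ne_zero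
  have hL : ((ℓ : O) ^ p) ^ kk H s ≠ 0 := pow_ne_zero _ (pow_ne_zero _ hℓ0)
  have hB : C.s r (BB g H s) ≠ 0 := by
    intro h
    rw [EmbeddingLike.map_eq_zero_iff] at h
    exact BB_ne g ℓ hℓ hg hH s h
  apply mul_right_cancel₀ (mul_ne_zero hL hB)
  have h1 := s_GG C g ℓ hg hs hH s
  have h2 := s_TT C g ℓ hg hs hH hp2 c hsq
  have h3 := congrArg (C.s r) h2
  rw [map_mul, map_mul, map_pow, map_natCast, ← C.mul_apply, mul_comm r s, C.mul_apply] at h3
  have e1 := two_half ((gauss_half hp2 hH s).mp hsq)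
  change 2 * (kk H s / 2) = kk H s at e1
  have e2 : ((ℓ : O) ^ (p * (kk H s / 2))) ^ 2 = ((ℓ : O) ^ p) ^ kk H s := by
    rw [← pow_mul, ← pow_mul]; congr 1
    rw [mul_assoc, mul_comm (kk H s / 2), e1]
  have h4 := BB_comp C g ℓ hg hs hH s r
  have h5 := BB_comp C g ℓ hg hs hH r s
  have h6 : nn H s r = nn H r s := by
    have a1 := kk_comp hH s r
    have a2 := kk_comp hH r s
    rw [mul_comm s r] at a1
    omega
  rw [mul_comm s r, h6] at h4
  have h7 : BB g H s * C.s s (BB g H r) = BB g H r * C.s r (BB g H s) := by rw [h4, h5]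
  unfold ZZ
  rw [map_mul, map_mul, map_mul]
  set L := ((ℓ : O) ^ p) ^ kk H s
  set G := GG g H
  set T := TT C g ℓ H c
  set M := (ℓ : O) ^ (p * (kk H s / 2))
  calc C.s s G * C.s s (BB g H r) * C.s s T * C.s s (C.s r T) * (L * C.s r (BB g H s))
      = (C.s s G * L) * C.s s (BB g H r) * C.s s T *
          (C.s r (BB g H s) * C.s s (C.s r T)) := by ring
    _ = G * (BB g H s * C.s s (BB g H r)) * (BB g H s * C.s s T) * (M * C.s r T) := by
        rw [h1, h3]; ring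
    _ = G * (BB g H r * C.s r (BB g H s)) * T * C.s r T * M ^ 2 := by rw [h7, h2]; ring
    _ = _ := by rw [e2]; ring

include hℓ hg hs hH hp2 in
lemma s_ZZ_self (r : (ZMod p)ˣ) : C.s r (ZZ C g ℓ H c r) = ZZ C g ℓ H c r := by
  have hℓ0 : (ℓ : O) ≠ 0 := by exact_mod_cast hℓ.ne_zero
  have hL : ((ℓ : O) ^ p) ^ kk H r ≠ 0 := pow_ne_zero _ (pow_ne_zero _ hℓ0)
  have hB : BB g H (r * r) ≠ 0 := BB_ne g ℓ hℓ hg hH (r * r)
  apply mul_right_cancel₀ (mul_ne_zero hL hB)
  have hsq : IsSquare (r * r) := ⟨r, rfl⟩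
  have h1 := s_GG C g ℓ hg hs hH r
  have h2 := s_TT C g ℓ hg hs hH hp2 c hsq
  rw [C.mul_apply] at h2
  have e1 := two_half ((gauss_half hp2 hH (r * r)).mp hsq)
  change 2 * (kk H (r * r) / 2) = kk H (r * r) at e1
  have h4 := BB_comp C g ℓ hg hs hH r r
  have h5 := kk_comp hH r r
  have e2 : (ℓ : O) ^ (p * (kk H (r * r) / 2)) * ((ℓ : O) ^ p) ^ nn H r r =
      ((ℓ : O) ^ p) ^ kk H r := by
    rw [← pow_mul, ← pow_mul, ← pow_add, ← mul_add]; congr 2; omega
  unfold ZZ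
  rw [map_mul, map_mul, map_mul]
  set L := ((ℓ : O) ^ p) ^ kk H r
  set G := GG g H
  set T := TT C g ℓ H c
  set M := (ℓ : O) ^ (p * (kk H (r * r) / 2))
  set N := ((ℓ : O) ^ p) ^ nn H r r
  calc C.s r G * C.s r (BB g H r) * C.s r T * C.s r (C.s r T) * (L * BB g H (r * r))
      = (C.s r G * L) * C.s r (BB g H r) * C.s r T * (BB g H (r * r) * C.s r (C.s r T)) := by ring
    _ = G * BB g H r * (BB g H r * C.s r (BB g H r)) * C.s r T * (M * T) := by
        rw [h1, h2]; ring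
    _ = G * BB g H r * BB g H (r * r) * C.s r T * T * (M * N) := by rw [h4]; ring
    _ = _ := by rw [e2]; ring

include hℓ hg hs hH hp2 in
lemma ZZ_int {r : (ZMod p)ˣ} (hr : ¬ IsSquare r) : ∃ n : ℤ, ZZ C g ℓ H c r = (n : O) := by
  apply C.fixed
  intro t
  by_cases ht : IsSquare t
  · exact s_ZZ_sq C g ℓ hℓ hg hs hH hp2 c r ht
  · have h1 : IsSquare (t * r⁻¹) := by
      rw [gauss_half hp2 hH] at hr ht ⊢
      have a1 := kk_comp hH (t * r⁻¹) r
      rw [inv_mul_cancel_right] at a1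
      change Even (kk H _)
      change ¬ Even (kk H _) at hr ht
      rw [Nat.not_even_iff_odd] at hr ht
      rcases Nat.even_or_odd (kk H (t * r⁻¹)) with h | h
      · exact h
      · exfalso
        obtain ⟨a, ha⟩ := hr
        obtain ⟨b, hb⟩ := ht
        obtain ⟨d, hd⟩ := h
        omega
    have h2 : t = r * (t * r⁻¹) := by rw [mul_comm t, mul_inv_cancel_left]
    rw [h2, C.mul_apply, s_ZZ_sq C g ℓ hℓ hg hs hH hp2 c r h1,
      s_ZZ_self C g ℓ hℓ hg hs hH hp2 c r]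

include hg hs hH in
lemma LL_norm (r : (ZMod p)ˣ) :
    LL C g ℓ H c * C.s r (LL C g ℓ H c) * ((ℓ : O) ^ p) ^ kk H r = ZZ C g ℓ H c r ^ 2 := by
  have h1 := s_GG C g ℓ hg hs hH r
  unfold LL ZZ
  rw [map_mul, map_pow]
  set L := ((ℓ : O) ^ p) ^ kk H r
  set G := GG g H
  set T := TT C g ℓ H c
  calc G * T ^ 2 * (C.s r G * C.s r T ^ 2) * L
      = G * T ^ 2 * (C.s r G * L) * C.s r T ^ 2 := by ring
    _ = _ := by rw [h1]; ring

lemma norm_of_sq {n w : ℤ} {i : ℕ} (hℓ : ℓ.Prime) (h : n * (ℓ : ℤ) ^ (2 * i + 1) = w ^ 2) :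
    ∃ z : ℤ, n = ℓ * z ^ 2 := by
  have hℓ0 : (ℓ : ℤ) ≠ 0 := by exact_mod_cast hℓ.ne_zero
  refine quot_norm hℓ (h := (ℓ : ℤ) ^ (i + 1)) (z := w) (pow_ne_zero _ hℓ0) ?_
  rw [← h]; ring

end

end Pool.Agent.W519
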