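import Pool.Agent.H916K.Stick
import Pool.Agent.H916R2.Full
import Pool.Agent.W519.CycInst

/-!
# Weil's theorem: products of Gauss sums of Hodge type are roots of unity
-/

set_option autoImplicit false

namespace Pool.Agent.W519

open Finset Pool.Agent.H916K Pool.Agent.H916R2

/-- a valuation subring containing the algebraic integers in which a prime is not a unit -/
lemma exists_above {ℓ : ℕ} (hℓ : ℓ.Prime) (V : ValuationSubring ℂ)
    (hV : ∀ x : AI, (x : ℂ) ∈ V) (hlt : V.valuation (ℓ : ℂ) < 1) :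
    ∃ (k : Type) (_ : Field k) (_ : CharP k ℓ) (φ : AI →+* k), Above φ V.valuation := by
  let ι : AI →+* V :=
    { toFun := fun x => ⟨x, hV x⟩
      map_one' := rfl
      map_mul' := fun _ _ => rfl
      map_zero' := rfl
      map_add' := fun _ _ => rfl }
  let φ : AI →+* IsLocalRing.ResidueField V := (IsLocalRing.residue V).comp ι
  have key : ∀ x : AI, φ x = 0 ↔ V.valuation (x : ℂ) < 1 := by
    intro x
    change IsLocalRing.residue V (ι x) = 0 ↔ _
    rw [IsLocalRing.residue_eq_zero_iff, ValuationSubring.valuation_lt_one_iff]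
    rfl
  have hchar : CharP (IsLocalRing.ResidueField V) ℓ := by
    have h0 : ((ℓ : ℕ) : IsLocalRing.ResidueField V) = 0 := by
      have h1 : φ (ℓ : AI) = 0 := (key _).mpr (by simpa using hlt)
      rwa [map_natCast] at h1
    exact (CharP.charP_iff_prime_eq_zero hℓ).mpr h0
  refine ⟨IsLocalRing.ResidueField V, inferInstance, hchar, φ, ?_, ?_, ?_⟩
  · intro x
    rw [ValuationSubring.valuation_le_one_iff]
    exact hV x
  · intro x hx
    exact (key x).mp hx
  · intro x hx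
    have h1 : ¬ V.valuation (x : ℂ) < 1 := fun h => hx ((key x).mpr h)
    have h2 : V.valuation (x : ℂ) ≤ 1 := by
      rw [ValuationSubring.valuation_le_one_iff]
      exact hV x
    exact le_antisymm h2 (not_lt.mp h1)

section

variable {ℓ : ℕ} [hℓ : Fact ℓ.Prime]

/-- every character is a power of a character of maximal order -/
lemma exists_pow_char {A : Type} [CommRing A] [IsDomain A] {χ1 : MulChar (ZMod ℓ) A}
    (hχ1 : orderOf χ1 = ℓ - 1) (χ : MulChar (ZMod ℓ) A) : ∃ j : ℕ, χ = χ1 ^ j := by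
  have hℓ2 := hℓ.out.two_le
  have : NeZero (ℓ - 1) := ⟨by omega⟩
  obtain ⟨g, hg⟩ := IsCyclic.exists_generator (α := (ZMod ℓ)ˣ)
  have hgen : ∀ x : (ZMod ℓ)ˣ, ∃ n : ℕ, g ^ n = x := fun x =>
    (IsOfFinOrder.mem_powers_iff_mem_zpowers (isOfFinOrder_of_finite g)).mpr (hg x)
  have hpowχ : ∀ (χ : MulChar (ZMod ℓ) A) (n : ℕ), (∀ x : (ZMod ℓ)ˣ, χ x ^ n = 1) → χ ^ n = 1 := by
    intro χ n h
    ext x
    rw [MulChar.pow_apply_coe, h, MulChar.one_apply_coe]
  have hprim : IsPrimitiveRoot (χ1 (g : ZMod ℓ)) (ℓ - 1) := by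
    refine ⟨mulChar_pow_one hχ1 g.ne_zero, ?_⟩
    intro l hl
    rw [← hχ1]
    apply orderOf_dvd_of_pow_eq_one
    apply hpowχ
    intro x
    obtain ⟨n, rfl⟩ := hgen x
    rw [Units.val_pow_eq_pow_val, map_pow, ← pow_mul, mul_comm n l, pow_mul, hl, one_pow]
  have h1 : χ (g : ZMod ℓ) ^ (ℓ - 1) = 1 := by
    rw [← map_pow, ZMod.pow_card_sub_one_eq_one g.ne_zero, map_one]
  obtain ⟨j, _, hj⟩ := hprim.eq_pow_of_pow_eq_one h1
  refine ⟨j, ?_⟩
  ext x
  obtain ⟨n, rfl⟩ := hgen x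
  rw [MulChar.pow_apply_coe, Units.val_pow_eq_pow_val, map_pow, map_pow, ← hj]
  ring

/-- **Integrality.** -/
theorem weil_integral {m : ℕ} (hm : 0 < m) (hℓ3 : 3 ≤ ℓ) (hmℓ : m ∣ ℓ - 1)
    {χ : MulChar (ZMod ℓ) AI} (hχ : orderOf χ = m) {ζ : AI} (hζ : IsPrimitiveRoot ζ ℓ)
    {s : Multiset (ZMod m)} (hs : IsHodge m s) :
    IsIntegral ℤ ((((s.map fun a => gaussSum (χ ^ a.val)
      (AddChar.zmodChar ℓ hζ.pow_eq_one)).prod : AI) : ℂ) / (ℓ : ℂ) ^ (Multiset.card s / 2)) := by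
  classical
  have hmz : NeZero m := ⟨hm.ne'⟩
  by_contra hint
  set G : AI := (s.map fun a => gaussSum (χ ^ a.val) (AddChar.zmodChar ℓ hζ.pow_eq_one)).prod with hG
  set w := Multiset.card s / 2 with hw
  -- the valuation ring
  set A : Subring ℂ := (integralClosure ℤ ℂ).toSubring with hA
  have hA' : IsIntegrallyClosedIn A ℂ := by
    rw [Subring.isIntegrallyClosedIn_iff]
    intro x hx
    have h1 : IsIntegral (integralClosure ℤ ℂ) x := hx
    exact isIntegral_trans (R := ℤ) (A := integralClosure ℤ ℂ) x h1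
  obtain ⟨V, hV1, hV2⟩ := Subring.exists_le_valuationSubring_of_isIntegrallyClosedIn (R := A)
    (x := (G : ℂ) / (ℓ : ℂ) ^ w) (by exact hint)
  have hV : ∀ x : AI, (x : ℂ) ∈ V := fun x => hV1 x.2
  have hℓV : V.valuation (ℓ : ℂ) ≤ 1 := by
    rw [ValuationSubring.valuation_le_one_iff]
    have h0 : ((ℓ : AI) : ℂ) = (ℓ : ℂ) := by push_cast; rfl
    rw [← h0]; exact hV (ℓ : AI)
  apply hV2
  rw [← ValuationSubring.valuation_le_one_iff, map_div₀, map_pow]
  rcases hℓV.lt_or_eq with hlt | heq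
  swap
  · rw [heq, one_pow, div_one, ValuationSubring.valuation_le_one_iff]
    exact hV G
  obtain ⟨k, _, _, φ, hv⟩ := exists_above hℓ.out V hV hlt
  obtain ⟨χ1, hχ1, hχφ⟩ := exists_teich (ℓ := ℓ) φ
  obtain ⟨e, he⟩ := hmℓ
  have he0 : 0 < e := Nat.pos_of_ne_zero (by rintro rfl; rw [mul_zero] at he; omega)
  obtain ⟨j, hj⟩ := exists_pow_char hχ1 χ
  have hj0 : j ≠ 0 ∨ m = 1 := by
    by_cases h : j = 0
    · right; rw [← hχ, hj, h, pow_zero, orderOf_one]
    · left; exact h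
  -- `j = e * τ`
  have hgcd : Nat.gcd (ℓ - 1) j = e := by
    have h1 : orderOf χ = (ℓ - 1) / Nat.gcd (ℓ - 1) j := by
      rw [hj, orderOf_pow, hχ1]
    rw [hχ] at h1
    have h2 := Nat.div_mul_cancel (Nat.gcd_dvd_left (ℓ - 1) j)
    rw [← h1] at h2
    exact Nat.eq_of_mul_eq_mul_left hm (by rw [h2, he])
  obtain ⟨τ, hτ⟩ : e ∣ j := by rw [← hgcd]; exact Nat.gcd_dvd_right _ _
  have hτcop : τ.Coprime m := by
    have h1 : Nat.gcd (e * m) (e * τ) = e * 1 := by
      rw [← hτ, mul_one, mul_comm e m, ← he]; exact hgcd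
    rw [Nat.gcd_mul_left] at h1
    exact Nat.Coprime.symm (Nat.eq_of_mul_eq_mul_left he0 h1)
  set t : (ZMod m)ˣ := ZMod.unitOfCoprime τ hτcop with ht
  have htv : ((t : ZMod m)) = (τ : ZMod m) := ZMod.coe_unitOfCoprime τ hτcop
  set π := V.valuation (((ζ - 1 : AI)) : ℂ) with hπ
  have hg : ∀ a ∈ s, V.valuation ((gaussSum (χ ^ a.val) (AddChar.zmodChar ℓ hζ.pow_eq_one) : AI) : ℂ) =
      π ^ (e * ((t : ZMod m) * a).val) := by
    intro a ha
    have ha0 : a ≠ 0 := fun h => hs.1 (h ▸ ha)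
    have e2 : χ ^ a.val = χ1 ^ (e * ((t : ZMod m) * a).val) := by
      rw [hj, hτ, ← pow_mul, pow_eq_pow_iff_modEq, hχ1, he, htv]
      have h3 : ((τ : ZMod m) * a).val = (τ * a.val) % m := by
        have : (τ : ZMod m) * a = ((τ * a.val : ℕ) : ZMod m) := by
          push_cast; rw [ZMod.natCast_zmod_val]
        rw [this, ZMod.val_natCast]
      rw [h3, mul_comm m e, mul_assoc]
      exact (Nat.ModEq.mul_left' e (Nat.mod_modEq _ _)).symm
    have e3 : (t : ZMod m) * a ≠ 0 := fun h => ha0 ((t.isUnit.mul_right_eq_zero).mp h)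
    have e4 : 0 < ((t : ZMod m) * a).val := Nat.pos_of_ne_zero
      (fun h => e3 ((ZMod.val_eq_zero _).mp h))
    have e5 := ZMod.val_lt ((t : ZMod m) * a)
    have e6 : e * ((t : ZMod m) * a).val ≤ e * (m - 1) := Nat.mul_le_mul_left e (by omega)
    have e7 : e * (m - 1) = ℓ - 1 - e := by
      rw [he, Nat.mul_sub, mul_one, mul_comm]
    rw [e2]
    exact v_gauss hv hζ hχ1 hχφ hℓ3 _ (Nat.mul_pos he0 e4) (by omega)
  have hπ0 : π ≠ 0 := by
    rw [hπ, Valuation.ne_zero_iff]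
    intro h0
    have h7 : (ζ : ℂ) = 1 := by
      have : ((ζ - 1 : AI) : ℂ) = (ζ : ℂ) - 1 := by push_cast; ring
      rw [this] at h0
      exact sub_eq_zero.mp h0
    exact hζ.ne_one hℓ.out.one_lt (Subtype.ext h7)
  have hvℓ : V.valuation ((ℓ : ℂ)) = π ^ (ℓ - 1) := by
    refine le_antisymm (v_ell hv hζ) ?_
    have hprim : (AddChar.zmodChar ℓ hζ.pow_eq_one).IsPrimitive :=
      AddChar.zmodChar_primitive_of_primitive_root ℓ hζ
    have hne : χ1 ≠ 1 := by
      intro h; rw [h, orderOf_one] at hχ1; omega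
    have h3 := gaussSum_mul_gaussSum_pow_orderOf_sub_one hne hprim
    rw [hχ1] at h3
    have h4 := congrArg (fun z : AI => V.valuation (z : ℂ)) h3
    push_cast at h4
    rw [map_mul, map_mul] at h4
    have hneg : V.valuation ((χ1 (-1) : AI) : ℂ) = 1 := by
      apply hv.root (n := 2) (by norm_num)
      rw [← map_pow]
      have : ((-1 : ZMod ℓ)) ^ 2 = 1 := by ring
      rw [this, MulChar.map_one]
    rw [hneg, one_mul, ZMod.card, v_gauss_one hv hζ hχ1 hχφ hℓ3, show ℓ - 1 - 1 = ℓ - 2 by omega,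
      v_gauss hv hζ hχ1 hχφ hℓ3 (ℓ - 2) (by omega) le_rfl, ← pow_succ',
      show ℓ - 2 + 1 = ℓ - 1 by omega] at h4
    exact h4.le
  have hprodpow : ∀ s' : Multiset (ZMod m), (∀ a ∈ s', a ∈ s) →
      V.valuation (((s'.map fun a => gaussSum (χ ^ a.val)
        (AddChar.zmodChar ℓ hζ.pow_eq_one)).prod : AI) : ℂ) =
        π ^ (e * (s'.map fun a => ((t : ZMod m) * a).val).sum) := by
    intro s'
    induction s' using Multiset.induction_on with
    | empty => intro _; simp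
    | cons a s' ih =>
      intro h
      rw [Multiset.map_cons, Multiset.prod_cons, Multiset.map_cons, Multiset.sum_cons, mul_add,
        pow_add, ← hg a (h a (Multiset.mem_cons_self _ _)),
        ← ih (fun b hb => h b (Multiset.mem_cons_of_mem hb))]
      push_cast
      rw [map_mul]
  rw [hG, hprodpow s (fun a h => h), hvℓ]
  obtain ⟨c, hc⟩ := hs.2.1
  have h1 := hs.2.2.2 t
  have h2 : (s.map fun a => ((t : ZMod m) * a).val).sum = m * c := by
    rw [hc] at h1
    have : 2 * (s.map fun a => ((t : ZMod m) * a).val).sum = 2 * (m * c) := by rw [h1]; ring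
    omega
  rw [h2, hw, hc, show (c + c) / 2 = c by omega, ← pow_mul, he,
    show e * (m * c) = m * e * c by ring]
  rw [div_self (pow_ne_zero _ hπ0)]

end

end Pool.Agent.W519
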